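import Pool.Agent.H36.LF.GqE
import Pool.Agent.H72.BE.DesS

/-!
# THEOREM L, version 2 (MP_187c26_nt), general `b`: the theorem in any field `Ω` of characteristic 0

Imports may be sorried (`thmL_rootsG`).
PROOFS. `idxZ_hom`: `idxZ x` is the index of `ℤ[x]` in the integers of `ℚ(x)` inside `Ω`; the injective ring homomorphism `φ` maps `ℤ[x]` onto `ℤ[φ x]` and the integral elements of `ℚ(x)` onto those of `ℚ(φ x)` (`AddSubgroup.relIndex_map_map_of_injective` for the additive group homomorphism `φ`; or `idxZ_eq` and the isomorphism `ℚ⟮x⟯ ≃ ℚ⟮φ x⟯`).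
`thmL_adjoin2`: let `n₁ := orderOf ξ`, `n₁ ∣ n`, `ξ` is a primitive `n₁`-th root of unity (`IsPrimitiveRoot.orderOf`), `n₁ ≥ 1`, `n₁` prime to `m b`. `E := IntermediateField.adjoin ℚ {ξ, x, α}`, finite over `ℚ` (`α` is integral over `ℚ`, `ξ`, `x` too), `φ : E →ₐ[ℚ] AlgebraicClosure ℚ` (`IsAlgClosed.lift`). `ξE, xE, αE ∈ E`. `DatG b m n₁ (φ ξE) (φ xE)`: the degree
`[ℚ(φ xE) : ℚ] = natDegree (minpoly ℚ x) = m`. `idxZ (φ xE) = idxZ xE = idxZ x` (`idxZ_hom` for `φ` and for the inclusion `E → Ω`). `degree_map` (`Pool/Agent/H72/BE/DesS.lean`, `r = 1`, `dgr`, `fld`) for `φ` and for the inclusion: `natDegree (minpoly (FF (φ ξE) ![φ xE]) (φ αE)) = natDegree (minpoly (FF ξ ![x]) α) ≤ d`;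
`FF ξ ![x] = adjoin ℚ ({ξ} ∪ range ![x]) = adjoin ℚ {ξ, x}` (equal sets). The heights agree (`Pool.Agent.H4.RR.absLogHeight_eq` for `E` with the inclusion and with `φ`). `φ αE ≠ 0`, and `(φ αE)^k = b^j` gives `α^k = b^j`. (Instances: `Algebra.IsAlgebraic ℚ (AlgebraicClosure ℚ)` for the algebra `DivisionRing.toRatAlgebra`: see `desc_stmt` in
`Pool/Agent/H72/BE/DesS.lean`, the whole proof there is a model.)
-/

set_option autoImplicit false

open NumberField IntermediateField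

namespace Pool.Agent.H36.LF

open Pool.Agent.H72.BE

theorem idxZ_hom {Ω Ω' : Type} [Field Ω] [CharZero Ω] [Field Ω'] [CharZero Ω'] (φ : Ω →+* Ω')
    (x : Ω) : Pool.Agent.H69.BD.idxZ (φ x) = Pool.Agent.H69.BD.idxZ x := by
  set f : Ω →+ Ω' := (φ : Ω →+ Ω') with hf
  have hinj : Function.Injective f := φ.injective
  have h1 : (Algebra.adjoin ℤ ({φ x} : Set Ω')).toSubring.toAddSubgroup =
      (Algebra.adjoin ℤ ({x} : Set Ω)).toSubring.toAddSubgroup.map f := by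
    have h2 : (Algebra.adjoin ℤ ({x} : Set Ω)).map φ.toIntAlgHom = Algebra.adjoin ℤ ({φ x} : Set Ω') := by
      rw [AlgHom.map_adjoin, Set.image_singleton]
      rfl
    ext y
    constructor
    · intro hy
      have hy' : y ∈ Algebra.adjoin ℤ ({φ x} : Set Ω') := hy
      rw [← h2] at hy'
      obtain ⟨z, hz, rfl⟩ := hy'
      exact ⟨z, hz, rfl⟩
    · rintro ⟨z, hz, rfl⟩
      have : φ.toIntAlgHom z ∈ (Algebra.adjoin ℤ ({x} : Set Ω)).map φ.toIntAlgHom := ⟨z, hz, rfl⟩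
      rw [h2] at this
      exact this
  have h3 : (ℚ⟮φ x⟯.toSubalgebra.toSubring ⊓ (integralClosure ℤ Ω').toSubring).toAddSubgroup =
      (ℚ⟮x⟯.toSubalgebra.toSubring ⊓ (integralClosure ℤ Ω).toSubring).toAddSubgroup.map f := by
    have h2 : ℚ⟮x⟯.map φ.toRatAlgHom = ℚ⟮φ x⟯ := by
      rw [IntermediateField.adjoin_map, Set.image_singleton]
      rfl
    ext y
    constructor
    · rintro ⟨hy1, hy2⟩
      have hy3 : y ∈ ℚ⟮φ x⟯ := hy1
      rw [← h2] at hy3
      obtain ⟨z, hz, hzy⟩ := hy3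
      have hzy' : φ z = y := hzy
      refine ⟨z, ⟨hz, ?_⟩, hzy'⟩
      have h4 : IsIntegral ℤ y := hy2
      rw [← hzy'] at h4
      exact (isIntegral_algHom_iff φ.toIntAlgHom φ.injective).1 h4
    · rintro ⟨z, ⟨hz1, hz2⟩, rfl⟩
      refine ⟨?_, ?_⟩
      · have h4 : φ z ∈ ℚ⟮φ x⟯ := by
          rw [← h2]
          exact ⟨z, hz1, rfl⟩
        exact h4
      · have h4 : IsIntegral ℤ z := hz2
        exact h4.map φ.toIntAlgHom
  unfold Pool.Agent.H69.BD.idxZ
  rw [h1, h3, AddSubgroup.relIndex_map_map_of_injective _ _ hinj]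

/-- a number field which contains the three elements, with an embedding in the algebraic closure of `ℚ` -/
private theorem ex_E {Ω : Type} [Field Ω] [CharZero Ω] (ξ x α : Ω) (hξ : IsIntegral ℚ ξ)
    (hx : IsIntegral ℚ x) (hα : IsIntegral ℚ α) :
    ∃ (E : Type) (_ : Field E) (_ : NumberField E) (ψ : E →+* Ω) (_ : E →+* AlgebraicClosure ℚ)
      (ξ' x' α' : E), ψ ξ' = ξ ∧ ψ x' = x ∧ ψ α' = α := by
  have hfin : Finite ({ξ, x, α} : Set Ω) := (Set.toFinite _).to_subtype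
  have hfd : FiniteDimensional ℚ (IntermediateField.adjoin ℚ ({ξ, x, α} : Set Ω)) := by
    refine IntermediateField.finiteDimensional_adjoin (S := ({ξ, x, α} : Set Ω)) ?_
    rintro y (rfl | rfl | rfl)
    · exact hξ
    · exact hx
    · exact hα
  have hnf : NumberField (IntermediateField.adjoin ℚ ({ξ, x, α} : Set Ω)) := {}
  let φ : IntermediateField.adjoin ℚ ({ξ, x, α} : Set Ω) →ₐ[ℚ] AlgebraicClosure ℚ := IsAlgClosed.lift
  refine ⟨IntermediateField.adjoin ℚ ({ξ, x, α} : Set Ω), inferInstance, hnf,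
    (IntermediateField.adjoin ℚ ({ξ, x, α} : Set Ω)).val.toRingHom, φ.toRingHom,
    ⟨ξ, IntermediateField.subset_adjoin ℚ _ (by simp)⟩, ⟨x, IntermediateField.subset_adjoin ℚ _ (by simp)⟩,
    ⟨α, IntermediateField.subset_adjoin ℚ _ (by simp)⟩, rfl, rfl, rfl⟩

private theorem deg_ring {Ω Ω' : Type} [Field Ω] [CharZero Ω] [Field Ω'] [CharZero Ω'] (σ : Ω →+* Ω')
    (ξ x α : Ω) : (minpoly (FF (σ ξ) ![σ x]) (σ α)).natDegree = (minpoly (FF ξ ![x]) α).natDegree := by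
  have h := degree_map σ.toRatAlgHom ξ ![x] α
  have h2 : (fun i => σ.toRatAlgHom ((![x] : Fin 1 → Ω) i)) = ![σ x] := by
    funext i
    rw [Subsingleton.elim i 0]
    rfl
  rw [h2] at h
  exact h

private theorem minpoly_ring {Ω Ω' : Type} [Field Ω] [CharZero Ω] [Field Ω'] [CharZero Ω'] (σ : Ω →+* Ω')
    (x : Ω) : minpoly ℚ (σ x) = minpoly ℚ x :=
  minpoly.algHom_eq σ.toRatAlgHom σ.injective x

private theorem FF_pair {Ω : Type} [Field Ω] [CharZero Ω] (ξ x : Ω) :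
    FF ξ ![x] = IntermediateField.adjoin ℚ ({ξ, x} : Set Ω) := by
  unfold FF
  congr 1
  rw [Set.insert_eq]
  congr 1
  ext y
  rw [Set.mem_range, Set.mem_singleton_iff]
  constructor
  · rintro ⟨i, rfl⟩
    rw [Subsingleton.elim i 0]
    rfl
  · rintro rfl
    exact ⟨0, rfl⟩

private theorem deg_congr {Ω : Type} [Field Ω] [CharZero Ω] (α : Ω) (K K' : IntermediateField ℚ Ω)
    (h : K = K') : (minpoly K α).natDegree = (minpoly K' α).natDegree := by
  subst h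
  rfl

theorem thmL_adjoin2 (b : ℕ) (hb : 2 ≤ b) (ι : ℝ) (hι : 0 ≤ ι) : ∃ c : ℝ, 0 < c ∧
    ∀ (Ω : Type) [Field Ω] [CharZero Ω] (m n d s : ℕ) (ξ x α : Ω), 1 ≤ m → 1 ≤ n →
      n.Coprime (m * b) → ξ ^ n = 1 → x ^ m = (b : Ω) → Module.finrank ℚ ℚ⟮x⟯ = m →
      Real.log (Pool.Agent.H69.BD.idxZ x) ≤ ι * m → m.primeFactors.card ≤ s →
      IsIntegral ℚ α →
      (minpoly (IntermediateField.adjoin ℚ ({ξ, x} : Set Ω)) α).natDegree ≤ d → α ≠ 0 →
      (∀ k : ℕ, 1 ≤ k → ∀ j : ℤ, α ^ k ≠ (b : Ω) ^ j) →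
      c ≤ ((d + s : ℕ) : ℝ) ^ 400 * absLogHeight₁ α := by
  obtain ⟨c, hc, H⟩ := thmL_rootsG b hb ι hι
  refine ⟨c, hc, ?_⟩
  intro Ω _ _ m n d s ξ x α hm hn hcop hξ hx hdeg hidx hpf hα hd hα0 hk
  have hξi : IsIntegral ℚ ξ := by
    refine IsIntegral.of_pow (Nat.pos_of_ne_zero (by omega) : 0 < n) ?_
    rw [hξ]
    exact isIntegral_one
  have hxi : IsIntegral ℚ x := by
    refine IsIntegral.of_pow (Nat.pos_of_ne_zero (by omega) : 0 < m) ?_
    rw [hx]
    have h1 : ((b : ℕ) : Ω) = algebraMap ℚ Ω (b : ℚ) := by simp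
    rw [h1]
    exact isIntegral_algebraMap
  obtain ⟨E, _, _, ψ, φ, ξ', x', α', hξ', hx', hα'⟩ := ex_E ξ x α hξi hxi hα
  have hAlg : @Algebra.IsAlgebraic ℚ (AlgebraicClosure ℚ) _ _ DivisionRing.toRatAlgebra := by
    have h1 := AlgebraicClosure.isAlgebraic ℚ
    rwa [Subsingleton.elim (DivisionRing.toRatAlgebra : Algebra ℚ (AlgebraicClosure ℚ))
      (AlgebraicClosure.instAlgebra ℚ)]
  have hord : orderOf ξ ∣ n := orderOf_dvd_of_pow_eq_one hξ
  have hord0 : 1 ≤ orderOf ξ := Nat.pos_of_dvd_of_pos hord hn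
  have hprim : IsPrimitiveRoot ξ' (orderOf ξ) := by
    have h1 : IsPrimitiveRoot ξ (orderOf ξ) := IsPrimitiveRoot.orderOf ξ
    rw [← hξ'] at h1 ⊢
    exact IsPrimitiveRoot.of_map_of_injective h1 ψ.injective
  have hxE : x' ^ m = (b : E) := by
    apply ψ.injective
    rw [map_pow, hx', hx, map_natCast]
  have hD : DatG b m (orderOf ξ) (φ ξ') (φ x') := by
    refine ⟨hb, hm, hord0, Nat.Coprime.coprime_dvd_left hord hcop,
      hprim.map_of_injective φ.injective, ?_, ?_⟩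
    · rw [← map_pow, hxE, map_natCast]
    · have h1 : IsIntegral ℚ (φ x') := by
        have h2 : IsIntegral ℚ x' := Algebra.IsIntegral.isIntegral x'
        exact h2.map φ.toRatAlgHom
      rw [adjoin.finrank h1, minpoly_ring φ x', ← minpoly_ring ψ x', hx', ← adjoin.finrank hxi]
      exact hdeg
  have hidx' : Real.log (Pool.Agent.H69.BD.idxZ (φ x')) ≤ ι * m := by
    rw [idxZ_hom φ x', ← idxZ_hom ψ x', hx']
    exact hidx
  have hd' : (minpoly (FF (φ ξ') ![φ x']) (φ α')).natDegree ≤ d := by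
    rw [deg_ring φ, ← deg_ring ψ, hξ', hx', hα', deg_congr α _ _ (FF_pair ξ x)]
    exact hd
  have hα'0 : α' ≠ 0 := by
    rintro rfl
    rw [map_zero] at hα'
    exact hα0 hα'.symm
  have hh : absLogHeight₁ (φ α') = absLogHeight₁ α := by
    have h1 := Pool.Agent.H4.RR.absLogHeight_eq E (AlgebraicClosure ℚ) φ α'
    have h2 := Pool.Agent.H4.RR.absLogHeight_eq E Ω ψ α'
    rw [hα'] at h2
    rw [h1, h2]
  have key := H (AlgebraicClosure ℚ) m (orderOf ξ) d s (φ ξ') (φ x') (φ α') hD hidx' hpf hd'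
    ((map_ne_zero φ).2 hα'0) (by
      intro k hk1 j h
      apply hk k hk1 j
      have h1 : α' ^ k = (b : E) ^ j := by
        apply φ.injective
        rw [map_pow, h, map_zpow₀, map_natCast]
      have h2 := congrArg ψ h1
      rw [map_pow, hα', map_zpow₀, map_natCast] at h2
      exact h2)
  rw [hh] at key
  exact key

end Pool.Agent.H36.LF
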