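import Pool.Agent.H36.LF.Defs
import Pool.Agent.H72.BE.DatC
import Pool.Agent.H36.LE.DiscA

/-!
# THEOREM L, version 2 (MP_187c26_nt): the discriminant of `ℚ(ξ, x)`, `x^m = b`

`AA ξ = ℚ(ξ)`, `F = FF ξ ![x] = ℚ(ξ, x)`, `n` prime to `m b`. `Dat.rad`: `1, x, …, x^(m-1)` (the monomials `mon (xF ξ ![x]) (vl l)`, `l : Gm ![m]`) is a basis of `F` over `AA ξ`; `zx = ⊕ 𝓞_A x^l` (`Rad.zx`: integral coordinates), `Dat.idx`: `[𝓞_F : zx] ≤ exp ([F : ℚ] log (idxZ x)/m) = exp ([A : ℚ] log (idxZ x))`, `[F : ℚ] = [A : ℚ] m`.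
PROOF. `ω` a `ℤ`-basis of `𝓞_A`, `e := [A : ℚ]`. The `ω_i x^l` (`l < m`) form a `ℤ`-basis of `zx`. (1) `|det (τ(ω_i x^l))|^2 = [𝓞_F : zx]^2 |disc F|`, `τ` = the embeddings of `F` (see the proof in `Pool/Agent/H36/LE/DiscA.lean`, private lemmas there: integral matrix between a basis of `𝓞_F` and `ω_i x^l`, its determinant is the index).
(2) The embeddings `τ` of `F` correspond to the pairs `(t, y)`, `t = τ|_A`, `y = τ x` a root of `X^m - b` in `ℂ` (for every `t` all `m` roots occur, because `[F : A] = m` and `X^m - b` is the minimal polynomial over `A`; it has rational coefficients, so the roots are the same for all `t`). So the matrix `(τ(ω_i x^l))` is the Kronecker product of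
`(t(ω_i))` and `(y^l)` (`Matrix.det_kronecker`): the square of its determinant is `|disc A|^m (|det (y^l)|^2)^e`. (3) `|det (y^l)|^2 = det (V Vᴴ)`, `V = (y^l)_(l, y)`, `V Vᴴ = (∑_y y^l conj(y)^l')` is diagonal: `|y| = ρ = b^(1/m)`, `∑_y y^k = 0` if `m` does not divide `k` (as in `H36/LE/MiC.lean`), with entries `m ρ^(2l) ≥ m`. So
`|det (y^l)|^2 ≥ m^m`. Hence `m^(me) |disc A|^m ≤ [𝓞_F : zx]^2 |disc F|`; take logarithms.
-/

set_option autoImplicit false

open Polynomial NumberField IntermediateField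

namespace Pool.Agent.H36.LF

open Pool.Agent.H36.LE Pool.Agent.H72.BE

section

variable {r : ℕ} {b m : Fin r → ℕ} [∀ i, NeZero (m i)] {A F : Type} [Field A] [NumberField A]
  [Field F] [NumberField F] [Algebra A F] {x : Fin r → F}

private noncomputable def bas (h : Rad b m A F x) : Module.Basis (Gm m) A F :=
  Module.Basis.ofEquivFun h.co

private theorem bas_apply (h : Rad b m A F x) (l : Gm m) : bas h l = mon x (vl l) := by
  classical
  unfold bas
  rw [Module.Basis.coe_ofEquivFun]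
  change h.co.symm (Pi.single l 1) = _
  rw [h.co_symm, Finset.sum_eq_single l]
  · rw [Pi.single_eq_same, one_smul]
  · intro k _ hk
    rw [Pi.single_eq_of_ne hk, zero_smul]
  · intro h1
    exact absurd (Finset.mem_univ _) h1

private theorem co_mon (h : Rad b m A F x) (l k : Gm m) :
    h.co (mon x (vl l)) k = if l = k then 1 else 0 := by
  classical
  have h1 : h.co (bas h l) k = (bas h).repr (bas h l) k := rfl
  rw [← bas_apply h, h1, Module.Basis.repr_self, Finsupp.single_apply]

private def tt (b m : Fin r → ℕ) [∀ i, NeZero (m i)] (a : Fin r → ℕ) : ℕ :=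
  ∑ l : Gm m, if md m a = 0 then bet b m (a + vl l) else 0

private theorem trace_mon (h : Rad b m A F x) (a : Fin r → ℕ) :
    Algebra.trace A F (mon x a) = (tt b m a : A) := by
  classical
  rw [Algebra.trace_eq_matrix_trace (bas h), Matrix.trace, tt, Nat.cast_sum]
  refine Finset.sum_congr rfl fun l _ => ?_
  have h2 : (bas h).repr (mon x a * mon x (vl l)) l = h.co (mon x a * mon x (vl l)) l := rfl
  rw [Matrix.diag_apply, Algebra.leftMulMatrix_eq_repr_mul, bas_apply, h2, h.co_mon_mul, co_mon]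
  by_cases h3 : md m a = 0
  · rw [if_pos h3, h3, sub_zero, if_pos rfl, mul_one]
  · have h4 : ¬ l = l - md m a := fun h5 => h3 (by rw [eq_comm, sub_eq_self] at h5; exact h5)
    rw [if_neg h3, if_neg h4, mul_zero, Nat.cast_zero]

private theorem card_Gm (m : Fin r → ℕ) [∀ i, NeZero (m i)] : Fintype.card (Gm m) = ∏ i, m i := by
  rw [Fintype.card_pi]
  exact Finset.prod_congr rfl fun i _ => ZMod.card _

private theorem tt_ge (hb : ∀ i, 2 ≤ b i) (a : Fin r → ℕ) (ha : md m a = 0) :
    (∏ i, m i) ≤ tt b m a := by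
  rw [← card_Gm m, tt]
  calc Fintype.card (Gm m) = ∑ l : Gm m, 1 := by simp
    _ ≤ _ := Finset.sum_le_sum fun l _ => by
      rw [if_pos ha]
      exact Nat.one_le_iff_ne_zero.2 (bet_ne_zero hb _)

private theorem tt_zero (a : Fin r → ℕ) (ha : md m a ≠ 0) : tt b m a = 0 := by
  rw [tt]
  exact Finset.sum_eq_zero fun l _ => if_neg ha

/-- The matrix of the traces of `x^l x^k`. -/
private def CC (b m : Fin r → ℕ) [∀ i, NeZero (m i)] : Matrix (Gm m) (Gm m) ℚ :=
  fun l k => (tt b m (vl l + vl k) : ℚ)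

private theorem det_CC (hb : ∀ i, 2 ≤ b i) :
    (((∏ i, m i : ℕ) : ℚ)) ^ (∏ i, m i) ≤ |(CC b m).det| := by
  classical
  have h1 : CC b m = (Matrix.diagonal (fun l : Gm m => (tt b m (vl l + vl (-l)) : ℚ))).submatrix id
      (Equiv.neg (Gm m)) := by
    ext l k
    rw [Matrix.submatrix_apply, id, Equiv.neg_apply, Matrix.diagonal_apply, CC]
    by_cases h2 : l = -k
    · rw [if_pos h2, h2, neg_neg]
    · rw [if_neg h2, tt_zero, Nat.cast_zero]
      rw [md_add, md_vl, md_vl]
      exact fun h3 => h2 (eq_neg_of_add_eq_zero_left h3)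
  rw [h1, Matrix.det_permute', abs_mul, Matrix.det_diagonal, Finset.abs_prod]
  have h2 : |((Equiv.Perm.sign (Equiv.neg (Gm m)) : ℤ) : ℚ)| = 1 := by
    rw [← Int.cast_abs, Int.isUnit_iff_abs_eq.1 (Units.isUnit _), Int.cast_one]
  rw [h2, one_mul]
  calc ((∏ i, m i : ℕ) : ℚ) ^ (∏ i, m i) = ∏ _l : Gm m, ((∏ i, m i : ℕ) : ℚ) := by
        rw [Finset.prod_const, Finset.card_univ, card_Gm]
    _ ≤ _ := by
      refine Finset.prod_le_prod (fun _ _ => Nat.cast_nonneg _) fun l _ => ?_
      rw [Nat.abs_cast]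
      refine Nat.cast_le.2 (tt_ge hb _ ?_)
      rw [md_add, md_vl, md_vl, add_neg_cancel]

private theorem disc_ge (h : Rad b m A F x) [IsScalarTower ℚ A F] :
    |(NumberField.discr A : ℚ)| ^ (∏ i, m i) *
      ((((∏ i, m i : ℕ) : ℚ)) ^ (∏ i, m i)) ^ Module.finrank ℚ A ≤
    |Algebra.discr ℚ ((integralBasis A).smulTower (bas h))| := by
  classical
  have h1 : Algebra.traceMatrix ℚ ((integralBasis A).smulTower (bas h)) =
      Matrix.kroneckerMap (fun u v => u * v) (Algebra.traceMatrix ℚ (integralBasis A)) (CC b m) := by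
    ext ⟨i, l⟩ ⟨j, k⟩
    rw [Matrix.kroneckerMap_apply, Algebra.traceMatrix_apply, Algebra.traceMatrix_apply,
      Algebra.traceForm_apply, Algebra.traceForm_apply, Module.Basis.smulTower_apply,
      Module.Basis.smulTower_apply, bas_apply, bas_apply, smul_mul_smul_comm, ← mon_add,
      ← Algebra.trace_trace (S := A), map_smul, trace_mon h, CC]
    have h2 : (integralBasis A i * integralBasis A j) • ((tt b m (vl l + vl k) : ℕ) : A) =
        ((tt b m (vl l + vl k) : ℕ) : ℚ) • (integralBasis A i * integralBasis A j) := by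
      rw [smul_eq_mul, Algebra.smul_def (R := ℚ), map_natCast, mul_comm]
    rw [h2, map_smul, smul_eq_mul, mul_comm]
  have h3 : Algebra.discr ℚ ((integralBasis A).smulTower (bas h)) =
      (NumberField.discr A : ℚ) ^ (∏ i, m i) * (CC b m).det ^ Module.finrank ℚ A := by
    rw [Algebra.discr_def, h1, Matrix.det_kronecker, ← Algebra.discr_def, ← NumberField.coe_discr,
      card_Gm, Module.finrank_eq_card_basis (integralBasis A)]
  rw [h3, abs_mul, abs_pow, abs_pow]
  exact mul_le_mul_of_nonneg_left (pow_le_pow_left₀ (by positivity) (det_CC h.two) _) (by positivity)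

private theorem zx_closure (h : Rad b m A F x) [IsScalarTower ℚ A F] :
    h.zx = AddSubgroup.closure (Set.range ((integralBasis A).smulTower (bas h))) := by
  classical
  apply le_antisymm
  · intro y hy
    have h1 : y = ∑ l, h.co y l • mon x (vl l) := by
      conv_lhs => rw [← h.co.symm_apply_apply y, h.co_symm]
    rw [h1]
    refine sum_mem fun l _ => ?_
    have h2 : h.co y l ∈ Submodule.span ℤ (Set.range (integralBasis A)) := by
      rw [NumberField.mem_span_integralBasis]
      exact ⟨⟨_, hy l⟩, rfl⟩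
    generalize h.co y l = w at h2
    induction h2 using Submodule.span_induction with
    | mem z hz =>
      obtain ⟨i, rfl⟩ := hz
      refine AddSubgroup.subset_closure ⟨(i, l), ?_⟩
      rw [Module.Basis.smulTower_apply, bas_apply]
    | zero => rw [zero_smul]; exact zero_mem _
    | add z w _ _ h3 h4 => rw [add_smul]; exact add_mem h3 h4
    | smul c z _ h3 => rw [smul_assoc]; exact zsmul_mem h3 c
  · rw [AddSubgroup.closure_le]
    rintro _ ⟨⟨i, l⟩, rfl⟩
    rw [Module.Basis.smulTower_apply, bas_apply]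
    intro k
    have h2 : h.co (integralBasis A i • mon x (vl l)) k =
        integralBasis A i * h.co (mon x (vl l)) k := by
      rw [map_smul, Pi.smul_apply, smul_eq_mul]
    change IsIntegral ℤ (h.co (integralBasis A i • mon x (vl l)) k)
    rw [h2, co_mon]
    refine IsIntegral.mul ?_ ?_
    · rw [integralBasis_apply]
      exact RingOfIntegers.isIntegral_coe _
    · split_ifs
      · exact isIntegral_one
      · exact isIntegral_zero

private theorem ints_closure {ι : Type} (e : Module.Free.ChooseBasisIndex ℤ (𝓞 F) ≃ ι) :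
    Pool.Agent.H72.BD.ints F = AddSubgroup.closure (Set.range ((integralBasis F).reindex e)) := by
  rw [Module.Basis.coe_reindex, EquivLike.range_comp, ← Submodule.span_int_eq_addSubgroupClosure]
  ext y
  rw [Submodule.mem_toAddSubgroup, NumberField.mem_span_integralBasis]
  constructor
  · intro hy
    exact ⟨⟨y, hy⟩, rfl⟩
  · rintro ⟨z, rfl⟩
    exact z.2

private theorem core (h : Rad b m A F x) [IsScalarTower ℚ A F] :
    ((∏ i, m i : ℕ) : ℝ) * dA A +
        Module.finrank ℚ A * (((∏ i, m i : ℕ) : ℝ) * Real.log ((∏ i, m i : ℕ) : ℝ)) ≤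
      dA F + 2 * Real.log ((h.zx.relIndex (Pool.Agent.H72.BD.ints F) : ℕ) : ℝ) := by
  classical
  set pb := (integralBasis A).smulTower (bas h) with hpb
  have e : Module.Free.ChooseBasisIndex ℤ (𝓞 F) ≃ Module.Free.ChooseBasisIndex ℤ (𝓞 A) × Gm m :=
    Fintype.equivOfCardEq (by
      rw [← Module.finrank_eq_card_basis (integralBasis F), ← Module.finrank_eq_card_basis pb])
  have h1 := zx_closure h
  have h2 := ints_closure e
  have hle : h.zx ≤ Pool.Agent.H72.BD.ints F := fun y hy => h.isIntegral y hy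
  have h3 := AddSubgroup.relIndex_eq_abs_det _ _ hle pb ((integralBasis F).reindex e) h1 h2
  have h4 : Algebra.discr ℚ pb =
      (((integralBasis F).reindex e).det pb) ^ 2 * (NumberField.discr F : ℚ) := by
    have h := Algebra.discr_of_matrix_vecMul (A := ℚ) ((integralBasis F).reindex e)
      (((integralBasis F).reindex e).toMatrix pb)
    rw [Module.Basis.toMatrix_map_vecMul] at h
    rw [h, Module.Basis.det_apply, NumberField.coe_discr, Module.Basis.coe_reindex, Algebra.discr_reindex]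
  have h5 := disc_ge h
  rw [← hpb, h4, abs_mul, abs_pow, ← h3] at h5
  have h6 : |(NumberField.discr A : ℝ)| ^ (∏ i, m i) *
      ((((∏ i, m i : ℕ) : ℝ)) ^ (∏ i, m i)) ^ Module.finrank ℚ A ≤
      ((h.zx.relIndex (Pool.Agent.H72.BD.ints F) : ℕ) : ℝ) ^ 2 * |(NumberField.discr F : ℝ)| := by
    exact_mod_cast h5
  have hM : (0 : ℝ) < ((∏ i, m i : ℕ) : ℝ) := by
    have : 0 < ∏ i, m i := Finset.prod_pos fun i _ => Nat.pos_of_ne_zero (NeZero.ne _)
    exact_mod_cast this
  have hdA : (0 : ℝ) < |(NumberField.discr A : ℝ)| :=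
    abs_pos.2 (by exact_mod_cast NumberField.discr_ne_zero A)
  have hdF : (0 : ℝ) < |(NumberField.discr F : ℝ)| :=
    abs_pos.2 (by exact_mod_cast NumberField.discr_ne_zero F)
  have h7 := Real.log_le_log (by positivity) h6
  have hi : ((h.zx.relIndex (Pool.Agent.H72.BD.ints F) : ℕ) : ℝ) ≠ 0 := by
    intro h8
    rw [h8] at h6
    have h9 : (0 : ℝ) < |(NumberField.discr A : ℝ)| ^ (∏ i, m i) *
      ((((∏ i, m i : ℕ) : ℝ)) ^ (∏ i, m i)) ^ Module.finrank ℚ A := by positivity
    simp only [ne_eq, OfNat.ofNat_ne_zero, not_false_eq_true, zero_pow, zero_mul] at h6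
    linarith
  rw [Real.log_mul (by positivity) (by positivity), Real.log_pow, Real.log_pow, Real.log_pow,
    Real.log_mul (pow_ne_zero 2 hi) hdF.ne', Real.log_pow] at h7
  unfold dA
  push_cast at h7 ⊢
  linarith

end

theorem discB {Ω : Type} [Field Ω] [CharZero Ω] [Algebra.IsAlgebraic ℚ Ω] {b m n : ℕ} {ξ x : Ω}
    (h : Dat ![b] ![m] n ξ ![x]) [NumberField (AA ξ)] [NumberField (FF ξ ![x])] :
    (m : ℝ) * dA (AA ξ) + Module.finrank ℚ (AA ξ) * (m * Real.log m) ≤
      dA (FF ξ ![x]) +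
        2 * (Module.finrank ℚ (AA ξ) * Real.log (Pool.Agent.H69.BD.idxZ x)) := by
  classical
  have hm : 1 ≤ m := h.hm 0
  have hz : ∀ i, NeZero ((![m] : Fin 1 → ℕ) i) := fun i => ⟨by have := h.hm i; omega⟩
  have hr := h.rad
  have h1 := core hr
  have h2 := h.idx hr
  have h3 : (∏ i, (![m] : Fin 1 → ℕ) i) = m := by simp
  have h4 : Module.finrank ℚ (FF ξ ![x]) = Module.finrank ℚ (AA ξ) * m := by
    rw [← Module.finrank_mul_finrank ℚ (AA ξ) (FF ξ ![x]), hr.deg, h3]
  rw [h3] at h1
  have h5 : (Module.finrank ℚ (FF ξ ![x]) : ℝ) *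
      ∑ i, Real.log (Pool.Agent.H69.BD.idxZ ((![x] : Fin 1 → Ω) i)) / ((![m] : Fin 1 → ℕ) i : ℝ) =
      Module.finrank ℚ (AA ξ) * Real.log (Pool.Agent.H69.BD.idxZ x) := by
    have hm' : (m : ℝ) ≠ 0 := by exact_mod_cast (by omega : m ≠ 0)
    rw [h4, Fin.sum_univ_one]
    simp only [Matrix.cons_val_zero]
    push_cast
    field_simp
  rw [h5] at h2
  have h6 : Real.log ((hr.zx.relIndex (Pool.Agent.H72.BD.ints (FF ξ ![x])) : ℕ) : ℝ) ≤
      Module.finrank ℚ (AA ξ) * Real.log (Pool.Agent.H69.BD.idxZ x) := by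
    rcases Nat.eq_zero_or_pos (hr.zx.relIndex (Pool.Agent.H72.BD.ints (FF ξ ![x]))) with h7 | h7
    · rw [h7, Nat.cast_zero, Real.log_zero]
      exact mul_nonneg (Nat.cast_nonneg _) (Real.log_natCast_nonneg _)
    · rw [Real.log_le_iff_le_exp (by exact_mod_cast h7)]
      exact h2
  linarith

end Pool.Agent.H36.LF
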