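import Pool.Agent.H36.LF.FcA
import Pool.Agent.H36.LF.DsA
import Pool.Agent.H36.LF.DiscB

/-!
# THEOREM L, version 2 (MP_187c26_nt), the theorem in `Ω` (algebraic closure of `ℚ`)

Imports may be sorried (`thmLA`, `desc_all`, `discB`).
PROOF. `rdA_of_dat`: `A := AA ξ = ℚ(ξ)`, `F := FF ξ ![x]`, `E := FF ξ ![x, α]` or `adjoin ℚ ({ξ, x, α})` as an `A`-algebra by inclusion, `d' := natDegree (minpoly F α) ≤ d`: `[E : F] = d'`, `[F : A] = m` (`Dat.rad`: `Module.finrank A F = ∏ m_i = m`), `A⟮x_E⟯` corresponds to `F` (an isomorphism of `A`-algebras, so equal degrees and discriminants), `discB` and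
`log idxZ x ≤ ι m` give `RdA.disc`.
`thmL_roots`: `K ≥ 300`, `c₀` of `thmLA`, `d ≥ 1` (the minimal polynomial has positive degree; all elements of `Ω` are algebraic), `N := K (d + s) ≥ 300`, `T := N^32`, `M := N^280`, `h := absLogHeight₁ α ≥ 0`. If `N^300 h > 1/100` then `h > N^(-300)/100`, done. Otherwise `4 M d h + 2 log (2 d) < log T = 32 log N`:
`4 M d h ≤ 4 N^281 N^(-300)/100 < 1`, `2 log (2 d) ≤ 2 log N`. `desc_all` (`T ≥ 3`, `d < T`) for `Dat ![b] ![m] n ξ ![x]`: `n'`, `ξ'`, `η`, no prime `q ∈ [T, M]` divides `n'`, `natDegree (minpoly (FF ξ' ![x]) (η α)) ≤ d`. `rdA_of_dat` for `ξ'`, `η α`; `thmLA` with `D := d`: `n'` is prime to `b` (`Dat.cn`), `(η α)^k = b^j` would give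
`α^(k k') = b^(j k')` with `η^(k') = 1`. `h(η α) = h(α)` (`height_root`), the height of `a ∈ E` is that of its image in `Ω` (`absLogHeight_eq` for `f` and for the identity). Finally `(d + s)^370 ≤ (d + s)^400`.
-/

set_option autoImplicit false

open Polynomial NumberField IntermediateField
open scoped Polynomial.Bivariate

namespace Pool.Agent.H36.LF

open Pool.Agent.H36.LE Pool.Agent.H72.BE

private theorem fda_nn {Ω : Type} [Field Ω] [CharZero Ω] (x : Ω) : 0 ≤ absLogHeight₁ x := by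
  unfold absLogHeight₁
  refine Real.log_nonneg ?_
  unfold absMulHeight₁
  split_ifs with hx
  · have : FiniteDimensional ℚ ℚ⟮x⟯ := adjoin.finiteDimensional hx
    have : NumberField ℚ⟮x⟯ := {}
    exact Real.one_le_rpow (Height.one_le_mulHeight₁ _) (by positivity)
  · exact le_rfl

private theorem fda_height (E Ω : Type) [Field E] [NumberField E] [Field Ω] [CharZero Ω] (f : E →+* Ω) (a : E) :
    absLogHeight₁ (f a) = absLogHeight₁ a := by
  have h1 := Pool.Agent.H4.RR.absLogHeight_eq E Ω f a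
  have h2 := Pool.Agent.H4.RR.absLogHeight_eq E E (RingHom.id E) a
  rw [RingHom.id_apply] at h2
  rw [h1, h2]

private theorem fda_adj {Ω : Type} [Field Ω] [CharZero Ω] (ξ : Ω) :
    IntermediateField.adjoin ℚ {ξA ξ} = ⊤ := by
  rw [eq_top_iff]
  intro z _
  obtain ⟨g, hg⟩ : ∃ g : AA ξ →ₐ[ℚ] Ω, ∀ z, g z = (z : Ω) :=
    ⟨((AA ξ).val : AA ξ →+* Ω).toRatAlgHom, fun z => rfl⟩
  have h1 : IntermediateField.adjoin ℚ {ξ} ≤ (IntermediateField.adjoin ℚ {ξA ξ}).map g := by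
    rw [IntermediateField.adjoin_le_iff]
    rintro y rfl
    exact ⟨ξA y, IntermediateField.mem_adjoin_simple_self _ _, hg _⟩
  obtain ⟨w, hw, hwz⟩ := h1 z.2
  have h2 : w = z := Subtype.ext ((hg w).symm.trans hwz)
  exact h2 ▸ hw

private theorem fda_top {Ω : Type} [Field Ω] [CharZero Ω] (ξ x : Ω) :
    IntermediateField.adjoin (AA ξ) {xF ξ ![x] 0} = (⊤ : IntermediateField (AA ξ) (FF ξ ![x])) := by
  rw [eq_top_iff]
  intro z _
  obtain ⟨g, hg⟩ : ∃ g : FF ξ ![x] →ₐ[AA ξ] Ω, ∀ z, g z = (z : Ω) :=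
    ⟨IsScalarTower.toAlgHom (AA ξ) (FF ξ ![x]) Ω, fun z => rfl⟩
  obtain ⟨B, hB⟩ : ∃ B : IntermediateField ℚ Ω, ∀ w : Ω, w ∈ B ↔
      w ∈ (IntermediateField.adjoin (AA ξ) {xF ξ ![x] 0}).map g :=
    ⟨IntermediateField.restrictScalars ℚ ((IntermediateField.adjoin (AA ξ) {xF ξ ![x] 0}).map g),
      fun w => Iff.rfl⟩
  have h1 : IntermediateField.adjoin ℚ ({ξ} ∪ Set.range ![x]) ≤ B := by
    rw [IntermediateField.adjoin_le_iff]
    rintro y (rfl | ⟨i, rfl⟩)
    · rw [SetLike.mem_coe, hB]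
      exact ⟨algebraMap (AA y) (FF y ![x]) (ξA y), IntermediateField.algebraMap_mem _ _, hg _⟩
    · rw [SetLike.mem_coe, hB]
      obtain rfl : i = 0 := Subsingleton.elim _ _
      exact ⟨xF ξ ![x] 0, IntermediateField.mem_adjoin_simple_self _ _, hg _⟩
  obtain ⟨w, hw, hwz⟩ := (hB _).1 (h1 z.2)
  have h2 : w = z := Subtype.ext ((hg w).symm.trans hwz)
  exact h2 ▸ hw

private theorem fda_rd {A F Ω : Type} [Field A] [NumberField A] [Field F] [NumberField F] [Field Ω]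
    [CharZero Ω] [Algebra A F] [Algebra F Ω] [Algebra A Ω] [IsScalarTower A F Ω] (b m : ℕ) (hb : 1 ≤ b)
    (hm : 1 ≤ m) (ι : ℝ) (y : F) (hy : y ^ m = b) (htop : IntermediateField.adjoin A {y} = ⊤)
    (hdeg : Module.finrank A F = m)
    (hdisc : (m : ℝ) * dA A + Module.finrank ℚ A * (m * Real.log m - 2 * ι * m) ≤ dA F)
    (α : Ω) (hα : IsIntegral F α) [NumberField F⟮α⟯] :
    RdA A b m (minpoly F α).natDegree ι (algebraMap F F⟮α⟯ y) := by
  obtain ⟨f, hf⟩ : ∃ f : F →ₐ[A] F⟮α⟯, ∀ z, f z = algebraMap F F⟮α⟯ z :=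
    ⟨IsScalarTower.toAlgHom A F F⟮α⟯, fun z => rfl⟩
  have hmap : (IntermediateField.adjoin A {y}).map f =
      IntermediateField.adjoin A {algebraMap F F⟮α⟯ y} := by
    rw [adjoin_map, Set.image_singleton, hf]
  let e : F ≃ₐ[A] IntermediateField.adjoin A {algebraMap F F⟮α⟯ y} :=
    (IntermediateField.topEquiv.symm.trans (IntermediateField.equivOfEq htop.symm)).trans
      ((IntermediateField.equivMap _ f).trans (IntermediateField.equivOfEq hmap))
  refine ⟨hb, hm, ?_, ?_, ?_, ?_⟩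
  · rw [← map_pow, hy, map_natCast]
  · rw [← e.toLinearEquiv.finrank_eq, hdeg]
  · have : FiniteDimensional F F⟮α⟯ := adjoin.finiteDimensional hα
    rw [← adjoin.finrank hα, ← hdeg, Module.finrank_mul_finrank]
  · have h1 : NumberField.discr F =
        NumberField.discr (IntermediateField.adjoin A {algebraMap F F⟮α⟯ y}) :=
      NumberField.discr_eq_discr_of_algEquiv _ (e.restrictScalars ℚ)
    have h2 : dA (IntermediateField.adjoin A {algebraMap F F⟮α⟯ y}) = dA F := by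
      unfold dA
      rw [h1]
    rw [h2]
    exact hdisc

theorem rdA_of_dat {Ω : Type} [Field Ω] [CharZero Ω] [Algebra.IsAlgebraic ℚ Ω] {b m n : ℕ}
    {ξ x : Ω} (h : Dat ![b] ![m] n ξ ![x]) (ι : ℝ)
    (hι : Real.log (Pool.Agent.H69.BD.idxZ x) ≤ ι * m) (α : Ω) :
    ∃ (A E : Type) (_ : Field A) (_ : NumberField A) (_ : Field E) (_ : NumberField E)
      (_ : Algebra A E) (ξ' : A) (x' a : E) (f : E →+* Ω), IsPrimitiveRoot ξ' n ∧
      IntermediateField.adjoin ℚ {ξ'} = ⊤ ∧ f x' = x ∧ f a = α ∧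
      RdA A b m (minpoly (FF ξ ![x]) α).natDegree ι x' := by
  have i1 : NumberField (AA ξ) := h.nf_A
  have i2 : NumberField (FF ξ ![x]) := h.nf_F
  have hrad := h.rad
  have hαF : IsIntegral (FF ξ ![x]) α :=
    (Algebra.IsAlgebraic.isAlgebraic (R := ℚ) α).isIntegral.tower_top
  have i3 : FiniteDimensional (FF ξ ![x]) (FF ξ ![x])⟮α⟯ := adjoin.finiteDimensional hαF
  have i4 : FiniteDimensional ℚ (FF ξ ![x])⟮α⟯ :=
    FiniteDimensional.trans ℚ (FF ξ ![x]) (FF ξ ![x])⟮α⟯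
  have i5 : NumberField (FF ξ ![x])⟮α⟯ := {}
  have hdeg : Module.finrank (AA ξ) (FF ξ ![x]) = m := by
    rw [hrad.deg]
    simp
  have hdisc := discB h
  refine ⟨AA ξ, (FF ξ ![x])⟮α⟯, inferInstance, i1, inferInstance, i5, inferInstance, ξA ξ,
    algebraMap (FF ξ ![x]) (FF ξ ![x])⟮α⟯ (xF ξ ![x] 0), AdjoinSimple.gen (FF ξ ![x]) α,
    (((FF ξ ![x])⟮α⟯).val : (FF ξ ![x])⟮α⟯ →+* Ω), ?_, fda_adj ξ, rfl, rfl, ?_⟩
  · exact IsPrimitiveRoot.of_map_of_injective (f := (AA ξ).val) h.prim (AA ξ).val.injective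
  · refine fda_rd b m ?_ ?_ ι (xF ξ ![x] 0) ?_ (fda_top ξ x) hdeg ?_ α hαF
    · have h1 : 2 ≤ b := h.two 0
      omega
    · exact h.hm 0
    · exact hrad.pow 0
    · have h1 : (0 : ℝ) ≤ Module.finrank ℚ (AA ξ) := Nat.cast_nonneg _
      nlinarith [mul_le_mul_of_nonneg_left hι h1]

theorem thmL_roots (b : ℕ) (hb : 2 ≤ b) (ι : ℝ) (hι : 0 ≤ ι) : ∃ c : ℝ, 0 < c ∧
    ∀ (Ω : Type) [Field Ω] [CharZero Ω] [Algebra.IsAlgebraic ℚ Ω] [IsAlgClosed Ω]
      (m n d s : ℕ) (ξ x α : Ω), Dat ![b] ![m] n ξ ![x] →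
      Real.log (Pool.Agent.H69.BD.idxZ x) ≤ ι * m → m.primeFactors.card ≤ s →
      (minpoly (FF ξ ![x]) α).natDegree ≤ d → α ≠ 0 →
      (∀ k : ℕ, 1 ≤ k → ∀ j : ℤ, α ^ k ≠ (b : Ω) ^ j) →
      c ≤ ((d + s : ℕ) : ℝ) ^ 400 * absLogHeight₁ α := by
  obtain ⟨c₀, hc₀, K, hK, h⟩ := thmLA b hb ι hι
  have hK1 : (300 : ℝ) ≤ K := by exact_mod_cast hK
  have hK0 : (0 : ℝ) < K := by linarith
  refine ⟨min c₀ (1 / (100 * (K : ℝ) ^ 300)), lt_min hc₀ (by positivity), ?_⟩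
  intro Ω _ _ _ _ m n d s ξ x α hD hidx hs hmd hα0 hk
  have hαF : IsIntegral (FF ξ ![x]) α :=
    (Algebra.IsAlgebraic.isAlgebraic (R := ℚ) α).isIntegral.tower_top
  have hd1 : 1 ≤ d := (minpoly.natDegree_pos hαF).trans_le hmd
  have hh0 : 0 ≤ absLogHeight₁ α := fda_nn α
  have hd1' : (1 : ℝ) ≤ d := by exact_mod_cast hd1
  have hds1 : (1 : ℝ) ≤ ((d + s : ℕ) : ℝ) := by exact_mod_cast (by omega : 1 ≤ d + s)
  have hdsd : (d : ℝ) ≤ ((d + s : ℕ) : ℝ) := by exact_mod_cast (by omega : d ≤ d + s)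
  obtain ⟨N, hN⟩ : ∃ N : ℕ, N = K * (d + s) := ⟨_, rfl⟩
  have hNr : (N : ℝ) = K * ((d + s : ℕ) : ℝ) := by rw [hN]; push_cast; ring
  have hN300 : (300 : ℝ) * d ≤ N := by
    rw [hNr]
    exact mul_le_mul hK1 hdsd (by linarith) hK0.le
  have hNn : 300 * d ≤ N := by exact_mod_cast hN300
  have hN1 : (300 : ℝ) ≤ N := by nlinarith
  have hN0 : (0 : ℝ) < N := by linarith
  by_cases hcase : 1 / 100 < (N : ℝ) ^ 300 * absLogHeight₁ α
  · refine (min_le_right _ _).trans ?_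
    have h1 : (N : ℝ) ^ 300 = (K : ℝ) ^ 300 * ((d + s : ℕ) : ℝ) ^ 300 := by rw [hNr, mul_pow]
    have h2 : ((d + s : ℕ) : ℝ) ^ 300 ≤ ((d + s : ℕ) : ℝ) ^ 400 := pow_le_pow_right₀ hds1 (by norm_num)
    have h3 : 1 / (100 * (K : ℝ) ^ 300) ≤ ((d + s : ℕ) : ℝ) ^ 300 * absLogHeight₁ α := by
      have h4 : (0 : ℝ) < (K : ℝ) ^ 300 := by positivity
      have h5 : 1 / (100 * (K : ℝ) ^ 300) = (1 / 100) / (K : ℝ) ^ 300 := by
        rw [div_div]
      rw [h5, div_le_iff₀ h4]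
      rw [h1] at hcase
      linarith
    exact h3.trans (mul_le_mul_of_nonneg_right h2 hh0)
  · push Not at hcase
    refine (min_le_left _ _).trans ?_
    have hlog : 1 ≤ Real.log N := by
      rw [Real.le_log_iff_exp_le hN0]
      have := Real.exp_one_lt_three
      linarith
    have hT3 : 3 ≤ N ^ 32 := by
      have h1 : 300 ≤ N := by omega
      calc 3 ≤ N := by omega
        _ ≤ N ^ 32 := Nat.le_self_pow (by norm_num) N
    have hdT : d < N ^ 32 := by
      calc d < N := by omega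
        _ ≤ N ^ 32 := Nat.le_self_pow (by norm_num) N
    have hhyp : 4 * ((N ^ 280 : ℕ) : ℝ) * (d : ℝ) * absLogHeight₁ α + 2 * Real.log (2 * (d : ℝ)) <
        Real.log ((N ^ 32 : ℕ) : ℝ) := by
      have h1 : 4 * ((N ^ 280 : ℕ) : ℝ) * (d : ℝ) * absLogHeight₁ α ≤ 4 * ((N : ℝ) ^ 300 * absLogHeight₁ α) := by
        have h2 : ((N ^ 280 : ℕ) : ℝ) * (d : ℝ) ≤ (N : ℝ) ^ 300 := by
          push_cast
          calc (N : ℝ) ^ 280 * d ≤ (N : ℝ) ^ 280 * N := by
                refine mul_le_mul_of_nonneg_left ?_ (by positivity)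
                linarith
            _ = (N : ℝ) ^ 281 := by ring
            _ ≤ (N : ℝ) ^ 300 := pow_le_pow_right₀ (by linarith) (by norm_num)
        have h3 := mul_le_mul_of_nonneg_right h2 hh0
        nlinarith
      have h4 : Real.log (2 * (d : ℝ)) ≤ Real.log N := Real.log_le_log (by linarith) (by linarith)
      have h5 : Real.log ((N ^ 32 : ℕ) : ℝ) = 32 * Real.log N := by
        push_cast
        rw [Real.log_pow]
        norm_num
      rw [h5]
      linarith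
    obtain ⟨n', ξ', η, hD', ⟨k', hk', hη⟩, hpr, hmd'⟩ := desc_all hD (N ^ 32) (N ^ 280) d hT3 hdT α hmd hhyp
    obtain ⟨A, E, _, _, _, _, _, ξ'', x', a, f, hprim, hadj, hfx, hfa, hrd⟩ := rdA_of_dat hD' ι hidx (η * α)
    have hη0 : η ≠ 0 := by
      rintro rfl
      rw [zero_pow (by omega)] at hη
      exact zero_ne_one hη
    have ha0 : a ≠ 0 := by
      rintro rfl
      rw [map_zero] at hfa
      exact (mul_ne_zero hη0 hα0) hfa.symm
    have hcop : n'.Coprime b := by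
      have h1 : Nat.Coprime n' (m * b) := hD'.cn 0
      exact Nat.Coprime.coprime_mul_left_right h1
    have h1 := h A E n' ξ'' hD'.hn hprim hadj hcop m _ s x' a hrd hs d hmd' (by
      rw [← hN]
      exact hpr) ha0 (by
      intro k hk1 j h2
      have h3 := congrArg f h2
      rw [map_pow, map_zpow₀, map_natCast, hfa] at h3
      refine hk (k * k') (Nat.mul_pos hk1 hk') (j * k') ?_
      have h4 : (η * α) ^ (k * k') = α ^ (k * k') := by
        rw [mul_pow, mul_comm k k', pow_mul η, hη, one_pow, one_mul]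
      rw [← h4, pow_mul, h3, zpow_mul, zpow_natCast])
    have h2 : absLogHeight₁ a = absLogHeight₁ α := by
      rw [← fda_height E Ω f a, hfa, height_root η α k' hk' hη]
    rw [h2] at h1
    refine h1.trans (mul_le_mul_of_nonneg_right ?_ hh0)
    exact pow_le_pow_right₀ hds1 (by norm_num)

end Pool.Agent.H36.LF
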