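import Pool.Agent.H36.LF.GqC
import Pool.Agent.H36.LF.DsA

/-!
# THEOREM L, version 2 (MP_187c26_nt), general `b`: descent

PROOFS. Imports may be sorried. `desc2G`: MODEL `desc2` in `Pool/Agent/H36/LF/DsA.lean` or `Dat.desc` in `Pool/Agent/H72/BE/DesC.lean` (copy for `x := ![x]`; `frob_congG`, `exists_sG`, `desc_height2`). `desc_allG`: copy of `desc_all` (`DatG.pow_q`, `height_root`), strong induction on `n`.
-/

set_option autoImplicit false

open NumberField IntermediateField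

namespace Pool.Agent.H36.LF

open Pool.Agent.H72.BE

private theorem gqd_hom {F Ω M : Type} [Field F] [Field Ω] [Field M] [Algebra F Ω]
    [Algebra.IsAlgebraic F Ω] [IsAlgClosed M] (f : F →+* M) :
    ∃ σ : Ω →+* M, ∀ y, σ (algebraMap F Ω y) = f y := by
  let _ : Algebra F M := f.toAlgebra
  exact ⟨(IsAlgClosed.lift : Ω →ₐ[F] M), fun y => (IsAlgClosed.lift : Ω →ₐ[F] M).commutes y⟩

private theorem gqd_aeval {F Ω : Type} [Field F] [Field Ω] [Algebra F Ω] (s : F ≃+* F)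
    (σ : Ω →+* Ω) (hσ : ∀ y, σ (algebraMap F Ω y) = algebraMap F Ω (s y))
    (f : Polynomial F) (α : Ω) (hf : Polynomial.aeval α f = 0) :
    Polynomial.aeval (σ α) (f.map (s : F →+* F)) = 0 := by
  rw [Polynomial.aeval_def, Polynomial.eval₂_map]
  have h1 : (algebraMap F Ω).comp (s : F →+* F) = σ.comp (algebraMap F Ω) := by
    ext y
    exact (hσ y).symm
  rw [h1, ← Polynomial.hom_eval₂, ← Polynomial.aeval_def, hf, map_zero]

private theorem gqd_nonneg {E : Type} [Field E] [CharZero E] (a : E) : 0 ≤ absLogHeight₁ a := by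
  unfold absLogHeight₁ absMulHeight₁
  refine Real.log_nonneg ?_
  split_ifs with h
  · have h1 : FiniteDimensional ℚ ℚ⟮a⟯ := adjoin.finiteDimensional h
    have h2 : NumberField ℚ⟮a⟯ := {}
    exact Real.one_le_rpow (Height.one_le_mulHeight₁ (AdjoinSimple.gen ℚ a)) (by positivity)
  · exact le_rfl

variable {Ω : Type} [Field Ω] [CharZero Ω] [Algebra.IsAlgebraic ℚ Ω] [IsAlgClosed Ω]
  {b m n : ℕ} {ξ x : Ω}

theorem desc2G (h : DatG b m n ξ x) (q : ℕ) (hq : q.Prime) (hq2 : 3 ≤ q) (hqn : q ∣ n)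
    (α : Ω) (d : ℕ) (hd : (minpoly (FF ξ ![x]) α).natDegree = d) (hdq : d < q)
    (hh : 4 * q * d * absLogHeight₁ α + 2 * Real.log (2 * d) < Real.log q) :
    ∃ η : Ω, η ^ n = 1 ∧ (minpoly (FF (ξ ^ q) ![x]) (η * α)).natDegree ≤ d := by
  by_cases hξ : ξ ∈ FF (ξ ^ q) ![x]
  · have h1 : FF (ξ ^ q) ![x] = FF ξ ![x] := le_antisymm
      (FF_mono ξ (ξ ^ q) ![x] (pow_mem (mem_FF_ξ ξ ![x]) q)) (FF_mono (ξ ^ q) ξ ![x] hξ)
    refine ⟨1, one_pow _, ?_⟩
    rw [h1, one_mul]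
    exact hd.le
  have := h.nf_F
  obtain ⟨s, hs1, hs2⟩ := exists_sG h q hq hqn hξ
  have hprim : IsPrimitiveRoot (ξF ξ ![x]) n :=
    IsPrimitiveRoot.of_map_of_injective (f := algebraMap (FF ξ ![x]) Ω) h.prim
      (algebraMap (FF ξ ![x]) Ω).injective
  have hζ : IsPrimitiveRoot (ξF ξ ![x] ^ (n / q)) q := by
    refine hprim.pow h.hn ?_
    rw [Nat.div_mul_cancel hqn]
  have hsx : ∀ i, s (xF ξ ![x] i) = xF ξ ![x] i := fun i => (hs1 _).2 (mem_FF (ξ ^ q) ![x] i)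
  have hsξ : s (ξF ξ ![x] ^ q) = ξF ξ ![x] ^ q := (hs1 _).2 (mem_FF_ξ (ξ ^ q) ![x])
  have hfr := frob_congG h q hq hqn s hsx hsξ
  have hαQ : IsIntegral ℚ α := Algebra.IsIntegral.isIntegral α
  have hαF : IsIntegral (FF ξ ![x]) α := hαQ.tower_top
  have halg : Algebra.IsAlgebraic (FF ξ ![x]) Ω :=
    Algebra.IsAlgebraic.tower_top (K := ℚ) (FF ξ ![x])
  obtain ⟨σ, hσ⟩ := gqd_hom (F := FF ξ ![x]) (Ω := Ω) (M := Ω)
    ((algebraMap (FF ξ ![x]) Ω).comp (s : FF ξ ![x] →+* FF ξ ![x]))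
  have hσ' : ∀ y, σ (algebraMap (FF ξ ![x]) Ω y) = algebraMap (FF ξ ![x]) Ω (s y) := hσ
  have hβ := gqd_aeval s σ hσ' (minpoly (FF ξ ![x]) α) α (minpoly.aeval _ _)
  obtain ⟨k, hk⟩ := desc_height2 q hq hq2 _ hζ s hfr α (σ α) hαQ d hd hdq hβ hh
  obtain ⟨η, hηn, hη⟩ := hs2 k
  have hmin : minpoly (FF ξ ![x]) (algebraMap (FF ξ ![x]) Ω ((ξF ξ ![x] ^ (n / q)) ^ k) * σ α) =
      minpoly (FF ξ ![x]) α :=
    (minpoly.eq_of_irreducible_of_monic (minpoly.irreducible hαF) hk (minpoly.monic hαF)).symm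
  have hnorm : Normal (FF ξ ![x]) Ω := by
    have : IsAlgClosure (FF ξ ![x]) Ω := ⟨inferInstance, inferInstance⟩
    exact IsAlgClosure.normal (FF ξ ![x]) Ω
  obtain ⟨τ, hτ⟩ := isConjRoot_iff_exists_algEquiv.1 hmin
  obtain ⟨ρ, hρ⟩ : ∃ ρ : Ω ≃ₐ[FF ξ ![x]] Ω,
      ρ (algebraMap (FF ξ ![x]) Ω ((ξF ξ ![x] ^ (n / q)) ^ k) * σ α) = α :=
    ⟨τ.symm, by rw [← hτ, AlgEquiv.symm_apply_apply]⟩
  have hn0 : n ≠ 0 := by have := h.hn; omega
  have hη0 : η ≠ 0 := by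
    rintro rfl
    rw [zero_pow hn0] at hηn
    exact zero_ne_one hηn
  set ηΩ : Ω := algebraMap (FF ξ ![x]) Ω η with hηΩ
  have hη0' : ηΩ ≠ 0 := (map_ne_zero _).2 hη0
  -- the homomorphism `ρ ∘ σ`
  set ω : Ω →+* Ω := (ρ : Ω →+* Ω).comp σ with hω
  have hωF : ∀ y, ω (algebraMap (FF ξ ![x]) Ω y) = algebraMap (FF ξ ![x]) Ω (s y) := by
    intro y
    show ρ (σ (algebraMap (FF ξ ![x]) Ω y)) = _
    rw [hσ', AlgEquiv.commutes]
  have hωα : ω (ηΩ * α) = ηΩ * α := by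
    show ρ (σ (ηΩ * α)) = _
    rw [map_mul, hηΩ, hσ', hη]
    have h1 : ρ (algebraMap (FF ξ ![x]) Ω ((ξF ξ ![x] ^ (n / q)) ^ k * η) * σ α) =
        ρ (algebraMap (FF ξ ![x]) Ω ((ξF ξ ![x] ^ (n / q)) ^ k) * σ α) * algebraMap (FF ξ ![x]) Ω η := by
      rw [← AlgEquiv.commutes ρ η, ← map_mul, map_mul (algebraMap (FF ξ ![x]) Ω)]
      congr 1
      ring
    rw [h1, hρ, mul_comm]
  have hα'F : IsIntegral (FF ξ ![x]) (ηΩ * α) :=
    (Algebra.IsIntegral.isIntegral (R := FF ξ ![x]) (ηΩ * α))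
  set f := minpoly (FF ξ ![x]) (ηΩ * α) with hf
  have hfmon : f.Monic := minpoly.monic hα'F
  have hfd : f.natDegree ≤ d := by
    have h1 : Polynomial.aeval (ηΩ * α) ((minpoly (FF ξ ![x]) α).scaleRoots η) = 0 :=
      Polynomial.scaleRoots_aeval_eq_zero (minpoly.aeval _ _)
    have h2 := minpoly.dvd _ _ h1
    have h3 : (minpoly (FF ξ ![x]) α).scaleRoots η ≠ 0 :=
      ((Polynomial.monic_scaleRoots_iff η).2 (minpoly.monic hαF)).ne_zero
    have h4 := Polynomial.natDegree_le_of_dvd h2 h3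
    rw [Polynomial.natDegree_scaleRoots, hd] at h4
    exact h4
  have hfs : f.map (s : FF ξ ![x] →+* FF ξ ![x]) = f := by
    have h1 := gqd_aeval s ω hωF f (ηΩ * α) (minpoly.aeval _ _)
    rw [hωα] at h1
    have h2 := minpoly.dvd _ _ h1
    have h3 : (f.map (s : FF ξ ![x] →+* FF ξ ![x])).natDegree = f.natDegree :=
      hfmon.natDegree_map _
    exact Polynomial.eq_of_monic_of_dvd_of_natDegree_le hfmon (hfmon.map _) h2 h3.le
  have hcoef : ∀ i, ((f.coeff i : FF ξ ![x]) : Ω) ∈ FF (ξ ^ q) ![x] := by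
    intro i
    rw [← hs1]
    have h1 := congrArg (fun p => Polynomial.coeff p i) hfs
    rw [Polynomial.coeff_map] at h1
    exact h1
  have hlift : f.map (algebraMap (FF ξ ![x]) Ω) ∈
      Polynomial.lifts (algebraMap (FF (ξ ^ q) ![x]) Ω) := by
    rw [Polynomial.lifts_iff_coeff_lifts]
    intro i
    rw [Polynomial.coeff_map]
    exact ⟨⟨_, hcoef i⟩, rfl⟩
  obtain ⟨g, hg1, hg2, hg3⟩ := Polynomial.lifts_and_natDegree_eq_and_monic hlift (hfmon.map _)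
  refine ⟨ηΩ, ?_, ?_⟩
  · rw [hηΩ, ← map_pow, hηn, map_one]
  · have h1 : Polynomial.aeval (ηΩ * α) g = 0 := by
      rw [Polynomial.aeval_def, ← Polynomial.eval_map, hg1, Polynomial.eval_map,
        ← Polynomial.aeval_def]
      exact minpoly.aeval _ _
    have h2 := Polynomial.natDegree_le_of_dvd (minpoly.dvd _ _ h1) hg3.ne_zero
    rw [hg2, hfmon.natDegree_map] at h2
    exact h2.trans hfd

theorem desc_allG (h : DatG b m n ξ x) (T M D : ℕ) (hT : 3 ≤ T) (hDT : D < T) (α : Ω)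
    (hD : (minpoly (FF ξ ![x]) α).natDegree ≤ D)
    (hh : 4 * M * D * absLogHeight₁ α + 2 * Real.log (2 * D) < Real.log T) :
    ∃ (n' : ℕ) (ξ' η : Ω), DatG b m n' ξ' x ∧ (∃ k : ℕ, 1 ≤ k ∧ η ^ k = 1) ∧
      (∀ q : ℕ, q.Prime → T ≤ q → q ≤ M → ¬ q ∣ n') ∧
      (minpoly (FF ξ' ![x]) (η * α)).natDegree ≤ D := by
  have key : ∀ (n : ℕ) (ξ α : Ω), DatG b m n ξ x → (minpoly (FF ξ ![x]) α).natDegree ≤ D →
      4 * M * D * absLogHeight₁ α + 2 * Real.log (2 * D) < Real.log T →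
      ∃ (n' : ℕ) (ξ' η : Ω), DatG b m n' ξ' x ∧ (∃ k : ℕ, 1 ≤ k ∧ η ^ k = 1) ∧
        (∀ q : ℕ, q.Prime → T ≤ q → q ≤ M → ¬ q ∣ n') ∧
        (minpoly (FF ξ' ![x]) (η * α)).natDegree ≤ D := by
    intro n
    induction n using Nat.strong_induction_on with
    | _ n ih =>
      intro ξ α h hD hh
      by_cases hex : ∃ q : ℕ, q.Prime ∧ T ≤ q ∧ q ≤ M ∧ q ∣ n
      · obtain ⟨q, hq, hTq, hqM, hqn⟩ := hex
        have hαF : IsIntegral (FF ξ ![x]) α := (Algebra.IsIntegral.isIntegral (R := ℚ) α).tower_top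
        obtain ⟨d, hd⟩ : ∃ d, (minpoly (FF ξ ![x]) α).natDegree = d := ⟨_, rfl⟩
        have hd1 : 1 ≤ d := by
          rw [← hd]
          exact minpoly.natDegree_pos hαF
        have hdD : d ≤ D := hd ▸ hD
        have hnn := gqd_nonneg α
        have hT0 : (0 : ℝ) < T := by
          have : 0 < T := by omega
          exact_mod_cast this
        have e1 : 4 * (q : ℝ) * d * absLogHeight₁ α ≤ 4 * M * D * absLogHeight₁ α := by
          refine mul_le_mul_of_nonneg_right ?_ hnn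
          have a1 : (q : ℝ) ≤ M := by exact_mod_cast hqM
          have a2 : (d : ℝ) ≤ D := by exact_mod_cast hdD
          exact mul_le_mul (by linarith) a2 (Nat.cast_nonneg _) (by positivity)
        have e2 : Real.log (2 * d) ≤ Real.log (2 * D) := by
          have a1 : (1 : ℝ) ≤ d := by exact_mod_cast hd1
          have a2 : (d : ℝ) ≤ D := by exact_mod_cast hdD
          exact Real.log_le_log (by linarith) (by linarith)
        have e3 : Real.log T ≤ Real.log q := Real.log_le_log hT0 (by exact_mod_cast hTq)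
        obtain ⟨η₁, hη₁, hdeg⟩ := desc2G h q hq (hT.trans hTq) hqn α d hd (by omega) (by linarith)
        have hn1 : 1 ≤ n := h.hn
        have hht : absLogHeight₁ (η₁ * α) = absLogHeight₁ α := height_root η₁ α n hn1 hη₁
        obtain ⟨n', ξ', η₂, a1, ⟨k, hk, hk'⟩, a3, a4⟩ := ih (n / q) (Nat.div_lt_self hn1 hq.one_lt)
          (ξ ^ q) (η₁ * α) (h.pow_q q hqn hq.one_lt.le) (hdeg.trans hdD) (by rw [hht]; exact hh)
        refine ⟨n', ξ', η₂ * η₁, a1, ⟨k * n, Nat.mul_pos hk hn1, ?_⟩, a3, ?_⟩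
        · rw [mul_pow, pow_mul, hk', one_pow, one_mul, mul_comm k n, pow_mul, hη₁, one_pow]
        · rw [mul_assoc]
          exact a4
      · refine ⟨n, ξ, 1, h, ⟨1, le_rfl, one_pow _⟩, fun q hq hTq hqM hqn => hex ⟨q, hq, hTq, hqM, hqn⟩, ?_⟩
        rw [one_mul]
        exact hD
  exact key n ξ α h hD hh

end Pool.Agent.H36.LF
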