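import Pool.Agent.H36.LF.Defs

/-!
# THEOREM L, version 2 (MP_187c26_nt): integrality of the semilinear values

MODEL: `ev_int0`, `ev_int` in `Pool/Agent/H36/LE/MiA.lean`.
PROOF. `c ∈ ZA`: coefficients `c_(j,l) ∈ 𝓞 A` of `P ∈ 𝓞 A[X][Y]`, `deg_Y P ≤ L - 1`. `ev_int0A`: `LK a K` is closed under multiplication by integral elements (`v (t w) ≤ 1`) and contains `x^(γ j) a^(γ l)`, `γ l ≤ γ (L - 1)`.
`ev_intA`: `q` prime, `σ c = c^q + q c'` for integral `c`. In `𝓞 A[X][Y]`: `P^σ(X^q, Y^q) = ∑ σ(c_(jl)) X^(qj) Y^(ql) ≡ ∑ c_(jl)^q X^(qj) Y^(ql) ≡ P^q` modulo `q` (the second congruence: `(u + v)^q ≡ u^q + v^q` modulo `q` in a commutative ring, `exists_add_pow_prime_eq`; or Frobenius of the ring `(𝓞 A ⧸ q)[X][Y]` of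
characteristic `q`, `frobenius`/`sum_pow_char`). So `P^σ(X^q, Y^q) = P^q + q R`, `deg_Y R ≤ q (L - 1)` (compare coefficients: `𝓞 A[X][Y]` is torsion free). Evaluate at `(x^g, a^g)`: `P(x^g, a^g) = bzA id .. g c = 0`, so `bzA σ .. (g q) c = q R(x^g, a^g)`, and `y := R(x^g, a^g) ∈ LK a (g q (L - 1))`.
ALTERNATIVE without polynomials: work with the values: for every `t : E → M` and `v` it is enough that `y := bzA σ .. (g q) c / q` satisfies `v (t y) ≤ max(1, v(t a))^K`: `(∑ u_p)^q - ∑ u_p^q = q (sum of products of q factors)` with `u_p = c_p x^(g p₁) a^(g p₂)`.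
-/

set_option autoImplicit false

open Polynomial NumberField IntermediateField

namespace Pool.Agent.H36.LF

open Pool.Agent.H36.LE

section LKs

variable {E : Type} [Field E] [NumberField E]

private theorem lk_mul {a u v : E} {K K' : ℕ} (hu : u ∈ LK a K) (hv : v ∈ LK a K') :
    u * v ∈ LK a (K + K') := by
  intro M _ _ t w
  rw [map_mul, map_mul, pow_add]
  exact mul_le_mul (hu M t w) (hv M t w) (apply_nonneg w _) (by positivity)

private theorem lk_pow {a u : E} {K : ℕ} (hu : u ∈ LK a K) (k : ℕ) : u ^ k ∈ LK a (k * K) := by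
  intro M _ _ t w
  rw [map_pow, map_pow, mul_comm k K, pow_mul]
  exact pow_le_pow_left₀ (apply_nonneg w _) (hu M t w) k

private theorem lk_mono {a u : E} {K K' : ℕ} (h : K ≤ K') (hu : u ∈ LK a K) : u ∈ LK a K' := by
  intro M _ _ t w
  exact (hu M t w).trans (pow_le_pow_right₀ (le_max_left _ _) h)

private theorem lk_self (a : E) : a ∈ LK a 1 := by
  intro M _ _ t w
  rw [pow_one]
  exact le_max_right _ _

private theorem lk_int {a x : E} (hx : IsIntegral ℤ x) : x ∈ LK a 0 := by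
  intro M _ _ t w
  rw [pow_zero]
  have h1 : IsIntegral ℤ (t x) := map_isIntegral_int t hx
  have h2 := FinitePlace.norm_le_one M w.maximalIdeal (⟨t x, h1⟩ : 𝓞 M)
  rw [FinitePlace.norm_embedding_eq] at h2
  exact h2

private theorem lk_imul {a u z : E} {K : ℕ} (hz : IsIntegral ℤ z) (hu : u ∈ LK a K) : z * u ∈ LK a K := by
  have h := lk_mul (lk_int (a := a) hz) hu
  rwa [Nat.zero_add] at h

private theorem lk_zmul {a u : E} {K : ℕ} (hu : u ∈ LK a K) (z : ℤ) : (z : E) * u ∈ LK a K := by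
  rw [← zsmul_eq_mul]
  exact (LK a K).smul_mem z hu

private theorem lk_term (x a : E) (hx : IsIntegral ℤ x) (L γ j l : ℕ) (hl : l < L) :
    x ^ (γ * j) * a ^ (γ * l) ∈ LK a (γ * (L - 1)) := by
  have h1 : x ^ (γ * j) ∈ LK a (γ * j * 0) := lk_pow (lk_int hx) _
  have h2 : a ^ (γ * l) ∈ LK a (γ * l * 1) := lk_pow (lk_self a) _
  refine lk_mono ?_ (lk_mul h1 h2)
  rw [Nat.mul_zero, Nat.zero_add, Nat.mul_one]
  exact Nat.mul_le_mul_left _ (by omega)

private theorem lk_frob {a : E} {K l : ℕ} (hl : l.Prime) {ι : Type} (s : Finset ι) (u : ι → E)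
    (hu : ∀ i ∈ s, u i ∈ LK a K) :
    ∃ y ∈ LK a (l * K), (∑ i ∈ s, u i) ^ l = ∑ i ∈ s, u i ^ l + (l : E) * y := by
  classical
  induction s using Finset.induction_on with
  | empty =>
    refine ⟨0, Submodule.zero_mem _, ?_⟩
    rw [Finset.sum_empty, Finset.sum_empty, zero_pow hl.ne_zero, mul_zero, add_zero]
  | insert i s hi ih =>
    obtain ⟨y, hy, he⟩ := ih fun j hj => hu j (Finset.mem_insert_of_mem hj)
    have h1 : u i ∈ LK a K := hu i (Finset.mem_insert_self i s)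
    have h2 : ∑ j ∈ s, u j ∈ LK a K :=
      Submodule.sum_mem _ fun j hj => hu j (Finset.mem_insert_of_mem hj)
    refine ⟨y + ∑ k ∈ Finset.Ioo 0 l, u i ^ k * (∑ j ∈ s, u j) ^ (l - k) * ((l.choose k / l : ℕ) : E),
      Submodule.add_mem _ hy (Submodule.sum_mem _ fun k hk => ?_), ?_⟩
    · have hk := Finset.mem_Ioo.1 hk
      have h3 := lk_mul (lk_pow h1 k) (lk_pow h2 (l - k))
      have h4 : k * K + (l - k) * K = l * K := by
        rw [← Nat.add_mul]
        congr 1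
        omega
      rw [h4] at h3
      rw [mul_comm (u i ^ k * (∑ j ∈ s, u j) ^ (l - k))]
      exact_mod_cast lk_zmul h3 ((l.choose k / l : ℕ) : ℤ)
    · rw [Finset.sum_insert hi, Finset.sum_insert hi, add_pow_prime_eq' hl, he]
      ring

end LKs

variable {A E : Type} [Field A] [NumberField A] [Field E] [NumberField E] [Algebra A E]

theorem ev_int0A (σ : A →+* A) (x a : E) (hx : IsIntegral ℤ x) (n L γ : ℕ)
    (c : Fin n × Fin L → A) (hc : c ∈ ZA A n L) : bzA σ x a n L γ c ∈ LK a (γ * (L - 1)) := by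
  rw [bzA_apply]
  refine Submodule.sum_mem _ fun p _ => lk_imul ?_ (lk_term x a hx L γ p.1 p.2 p.2.2)
  exact map_isIntegral_int (algebraMap A E) (map_isIntegral_int σ (hc p))

theorem ev_intA (σ : A →+* A) (x a : E) (hx : IsIntegral ℤ x) (n L g q : ℕ) (hq : q.Prime)
    (hσ : Pool.Agent.H72.BE.Frob A q σ) (c : Fin n × Fin L → A) (hc : c ∈ ZA A n L)
    (h0 : bzA (RingHom.id A) x a n L g c = 0) :
    ∃ y ∈ LK a (g * q * (L - 1)), bzA σ x a n L (g * q) c = q • y := by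
  have hu : ∀ p : Fin n × Fin L, x ^ (g * (p.1 : ℕ)) * a ^ (g * (p.2 : ℕ)) ∈ LK a (g * (L - 1)) :=
    fun p => lk_term x a hx L g p.1 p.2 p.2.2
  have hK : q * (g * (L - 1)) = g * q * (L - 1) := by ring
  have hci : ∀ p, IsIntegral ℤ (algebraMap A E (c p)) := fun p => map_isIntegral_int (algebraMap A E) (hc p)
  obtain ⟨y, hy, he⟩ := lk_frob hq Finset.univ
    (fun p : Fin n × Fin L => algebraMap A E (c p) * (x ^ (g * (p.1 : ℕ)) * a ^ (g * (p.2 : ℕ))))
    fun p _ => lk_imul (hci p) (hu p)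
  have h1 : ∑ p : Fin n × Fin L, algebraMap A E (c p) * (x ^ (g * (p.1 : ℕ)) * a ^ (g * (p.2 : ℕ))) = 0 := by
    rw [bzA_apply] at h0
    exact h0
  rw [h1, zero_pow hq.ne_zero] at he
  have hf : ∀ p : Fin n × Fin L, ∃ w : 𝓞 A, σ (c p) = c p ^ q + q * (w : A) := by
    intro p
    obtain ⟨w, hw⟩ := hσ ⟨c p, hc p⟩
    exact ⟨w, hw⟩
  choose w hw using hf
  have hwi : ∀ p, IsIntegral ℤ (algebraMap A E (w p : A)) := fun p =>
    map_isIntegral_int (algebraMap A E) (w p).2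
  refine ⟨-y + ∑ p : Fin n × Fin L, algebraMap A E (w p : A) * (x ^ (g * (p.1 : ℕ)) * a ^ (g * (p.2 : ℕ))) ^ q,
    Submodule.add_mem _ (Submodule.neg_mem _ (hK ▸ hy)) (Submodule.sum_mem _ fun p _ => ?_), ?_⟩
  · refine lk_imul (hwi p) ?_
    rw [← hK]
    exact lk_pow (hu p) q
  · rw [bzA_apply, nsmul_eq_mul]
    have e1 : ∀ p : Fin n × Fin L, algebraMap A E (σ (c p)) * (x ^ (g * q * (p.1 : ℕ)) * a ^ (g * q * (p.2 : ℕ))) =
        (algebraMap A E (c p) * (x ^ (g * (p.1 : ℕ)) * a ^ (g * (p.2 : ℕ)))) ^ q +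
          (q : E) * (algebraMap A E (w p : A) * (x ^ (g * (p.1 : ℕ)) * a ^ (g * (p.2 : ℕ))) ^ q) := by
      intro p
      have e2 : (x ^ (g * (p.1 : ℕ)) * a ^ (g * (p.2 : ℕ))) ^ q =
          x ^ (g * q * (p.1 : ℕ)) * a ^ (g * q * (p.2 : ℕ)) := by
        rw [mul_pow, ← pow_mul, ← pow_mul]
        congr 2 <;> ring
      rw [hw p, map_add, map_mul, map_pow, map_natCast, mul_pow, e2]
      ring
    rw [Finset.sum_congr rfl fun p _ => e1 p, Finset.sum_add_distrib, ← Finset.mul_sum]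
    linear_combination -he

end Pool.Agent.H36.LF
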