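import Pool.Agent.H36.LF.NfA
import Pool.Agent.H36.LF.HnK
import Pool.Agent.H36.LE.NmD

/-!
# THEOREM L, version 2 (MP_187c26_nt): the inequality (N1) for all `A`-subspaces

MODEL: `n1` in `Pool/Agent/H36/LE/NmH.lean` and `mulx` in `NmC.lean` (copy and change; `mulx` is stated there for `Rd`, only `x^m = b` is used: `‖τ x‖ = rho b m`). Imports may be sorried.
PROOF. `hnK A` with `f U := nv A (ph m a K) (LK a K) U`, `θ` := multiplication by `x`, `e := [A : ℚ]`, `β := e log b`, `c := e (K h + ι)`. `hsub`: `vl_sub` for the restrictions to `ℚ` (`(U ⊔ U').restrictScalars ℚ = U.restrictScalars ℚ ⊔ U'.restrictScalars ℚ`, the same for `⊓`: `Submodule.restrictScalars` lemmas or `ext`),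
the dimension term is modular (`Submodule.finrank_sup_add_finrank_inf_eq` over `A`). `hmap`: `vl_map` (over `ℚ`, with the restriction of `θ`): `nv (θ U) ≤ nv U + (dim_ℚ U) log b / m`, `dim_ℚ U = e dim_A U`. `hc`: `fboundA`. `hM`: `crude`: `nv U ≥ - (dim_ℚ U)(log m / 2 + K h) - (dim_A U) dA A / 2`, bounded below because
the dimensions are bounded.
-/

set_option autoImplicit false

open Polynomial NumberField IntermediateField

namespace Pool.Agent.H36.LF

open Pool.Agent.H36.LE

private theorem ht_nn {E : Type} [Field E] [NumberField E] (a : E) : 0 ≤ absLogHeight₁ a := by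
  have h1 := Pool.Agent.H4.RR.absLogHeight_eq E E (RingHom.id E) a
  rw [RingHom.id_apply] at h1
  rw [h1]
  exact div_nonneg (Height.zero_le_logHeight₁ a) (Nat.cast_nonneg _)

private theorem map_iterA {A E : Type} [Field A] [Field E] [Algebra A E] (θ : E ≃ₗ[A] E) (x : E)
    (hθ : ∀ y, θ y = x * y) (U : Submodule A E) (j : ℕ) (z : E) :
    z ∈ (fun V : Submodule A E => V.map (θ : E →ₗ[A] E))^[j] U ↔ ∃ y ∈ U, z = x ^ j * y := by
  induction j generalizing z with
  | zero =>
    rw [Function.iterate_zero, id_eq]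
    constructor
    · intro h
      exact ⟨z, h, by rw [pow_zero, one_mul]⟩
    · rintro ⟨y, hy, h⟩
      rw [pow_zero, one_mul] at h
      rw [h]
      exact hy
  | succ j ih =>
    rw [Function.iterate_succ_apply']
    constructor
    · intro h
      obtain ⟨w, hw, rfl⟩ := Submodule.mem_map.1 h
      obtain ⟨y, hy, rfl⟩ := (ih w).1 hw
      refine ⟨y, hy, ?_⟩
      have h2 : (θ : E →ₗ[A] E) (x ^ j * y) = x * (x ^ j * y) := hθ _
      rw [h2, pow_succ']
      ring
    · rintro ⟨y, hy, rfl⟩
      refine Submodule.mem_map.2 ⟨x ^ j * y, (ih _).2 ⟨y, hy, rfl⟩, ?_⟩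
      have h2 : (θ : E →ₗ[A] E) (x ^ j * y) = x * (x ^ j * y) := hθ _
      rw [h2, pow_succ']
      ring

private theorem rho_powA {A E : Type} [Field A] [NumberField A] [Field E] [NumberField E] [Algebra A E]
    {b m d : ℕ} {ι : ℝ} {x : E} (hx : RdA A b m d ι x) : rho b m ^ m = b := by
  unfold rho
  exact Real.rpow_inv_natCast_pow (Nat.cast_nonneg _) (by have := hx.m1; omega)

private theorem rho_posA {A E : Type} [Field A] [NumberField A] [Field E] [NumberField E] [Algebra A E]
    {b m d : ℕ} {ι : ℝ} {x : E} (hx : RdA A b m d ι x) : 0 < rho b m := by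
  unfold rho
  exact Real.rpow_pos_of_pos (by exact_mod_cast hx.b1) _

theorem norm_embA {A E : Type} [Field A] [NumberField A] [Field E] [NumberField E] [Algebra A E]
    {b m d : ℕ} {ι : ℝ} {x : E} (hx : RdA A b m d ι x) (τ : E →+* ℂ) : ‖τ x‖ = rho b m := by
  have h1 : ‖τ x‖ ^ m = rho b m ^ m := by
    rw [rho_powA hx, ← norm_pow, ← map_pow, hx.pow, map_natCast]
    simp
  exact (pow_left_inj₀ (norm_nonneg _) (rho_posA hx).le (by have := hx.m1; omega)).1 h1

private theorem ph_ap {E : Type} [Field E] [NumberField E] (m K : ℕ) (a y : E) (τ : E →+* ℂ) :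
    ph m a K y τ = τ y * ((wt a K τ / Real.sqrt m : ℝ) : ℂ) := rfl

private theorem mulxA {A E : Type} [Field A] [NumberField A] [Field E] [NumberField E] [Algebra A E]
    {b m d : ℕ} {ι : ℝ} {x : E} (hx : RdA A b m d ι x) (a : E) (K : ℕ) :
    ∃ T : EuclideanSpace ℂ (E →+* ℂ) →ₗ[ℂ] EuclideanSpace ℂ (E →+* ℂ),
      (∀ h, ‖T h‖ ≤ rho b m * ‖h‖) ∧ ∀ y, T (ph m a K y) = ph m a K (x * y) := by
  refine ⟨{ toFun := fun h => WithLp.toLp 2 fun τ => τ x * h τ
            map_add' := fun h h' => by
              ext τ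
              simp [mul_add]
            map_smul' := fun c h => by
              ext τ
              simp [mul_left_comm] }, fun h => ?_, fun y => ?_⟩
  · have hρ : 0 ≤ rho b m := (rho_posA hx).le
    refine le_of_sq_le_sq ?_ (mul_nonneg hρ (norm_nonneg _))
    rw [mul_pow, EuclideanSpace.norm_sq_eq, EuclideanSpace.norm_sq_eq, Finset.mul_sum]
    refine Finset.sum_le_sum fun τ _ => ?_
    show ‖τ x * h τ‖ ^ 2 ≤ _
    rw [norm_mul, norm_embA hx, mul_pow]
  · ext τ
    show τ x * ph m a K y τ = ph m a K (x * y) τ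
    rw [ph_ap, ph_ap, map_mul, mul_assoc]

private theorem rs_rank {A E : Type} [Field A] [NumberField A] [Field E] [NumberField E] [Algebra A E]
    (U : Submodule A E) :
    Module.finrank ℚ (U.restrictScalars ℚ) = Module.finrank ℚ A * Module.finrank A U := by
  have h1 := Module.finrank_mul_finrank ℚ A U
  rw [h1]
  rfl

theorem n1A {A E : Type} [Field A] [NumberField A] [Field E] [NumberField E] [Algebra A E]
    {b m d : ℕ} {ι : ℝ} {x : E} (hx : RdA A b m d ι x) (a : E) (K : ℕ) (U : Submodule A E) :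
    -((K * absLogHeight₁ a + ι + Real.log b) * (Module.finrank ℚ A * Module.finrank A U)) ≤
      nv A (ph m a K) (LK a K) U := by
  have hL : Lat (ph m a K) (LK a K) := lat_ph m K hx.m1 a
  have hm1 := hx.m1
  have hm0 : (0 : ℝ) < m := by exact_mod_cast hx.m1
  have hb0 : (b : E) ≠ 0 := Nat.cast_ne_zero.2 (by have := hx.b1; omega)
  have hbA : (b : A) ≠ 0 := Nat.cast_ne_zero.2 (by have := hx.b1; omega)
  have hx0 : x ≠ 0 := by
    rintro rfl
    have h1 := hx.pow
    rw [zero_pow (by omega)] at h1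
    exact hb0 h1.symm
  have hh := ht_nn a
  have hfin : Module.Finite A E := Module.Finite.of_restrictScalars_finite ℚ A E
  obtain ⟨T, hT1, hT2⟩ := mulxA hx a K
  have hint : IsIntegral ℤ x := by
    refine IsIntegral.of_pow (n := m) (by omega) ?_
    rw [hx.pow]
    have h := isIntegral_algebraMap (R := ℤ) (A := E) (x := (b : ℤ))
    simpa using h
  have hrho0 : 0 < rho b m := rho_posA hx
  have hlogr : Real.log (rho b m) = Real.log b / m := by
    unfold rho
    rw [Real.log_rpow (by exact_mod_cast hx.b1)]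
    ring
  let θ : E ≃ₗ[A] E := LinearEquiv.ofBijective (LinearMap.mulLeft A x)
    ⟨fun y z h => mul_left_cancel₀ hx0 h, fun y => ⟨x⁻¹ * y, mul_inv_cancel_left₀ hx0 y⟩⟩
  have hθy : ∀ y, θ y = x * y := fun y => rfl
  have hrm : ∀ U : Submodule A E, (U.map (θ : E →ₗ[A] E)).restrictScalars ℚ =
      (U.restrictScalars ℚ).map (θ.restrictScalars ℚ : E →ₗ[ℚ] E) := fun U => rfl
  have key := hnK A θ m hx.m1 ?_ (fun U => nv A (ph m a K) (LK a K) U) (Module.finrank ℚ A * Real.log b)
    (Module.finrank ℚ A * (K * absLogHeight₁ a + ι))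
    (-(Module.finrank ℚ E * (Real.log m / 2 + K * absLogHeight₁ a)) - Module.finrank A E * |dA A| / 2)
    (mul_nonneg (Nat.cast_nonneg _) (Real.log_natCast_nonneg b)) ?_ ?_ ?_ ?_ U
  · have h1 : -((Module.finrank ℚ A * (K * absLogHeight₁ a + ι) + Module.finrank ℚ A * Real.log b) *
      (Module.finrank A U : ℝ)) ≤ nv A (ph m a K) (LK a K) U := key
    refine le_trans (le_of_eq ?_) h1
    ring
  · intro U
    ext z
    rw [map_iterA θ x hθy U m z, hx.pow]
    constructor
    · rintro ⟨y, hy, rfl⟩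
      have h1 : (b : E) * y = (b : A) • y := by
        rw [Algebra.smul_def, map_natCast]
      rw [h1]
      exact U.smul_mem _ hy
    · intro hz
      refine ⟨(b : A)⁻¹ • z, U.smul_mem _ hz, ?_⟩
      rw [Algebra.smul_def, map_inv₀, map_natCast, mul_inv_cancel_left₀ hb0]
  · intro U U'
    have h1 := hL.vl_sub (U.restrictScalars ℚ) (U'.restrictScalars ℚ)
    rw [← Submodule.restrictScalars_sup, ← Submodule.restrictScalars_inf] at h1
    have h2 := hL.vl_pos ((U ⊔ U').restrictScalars ℚ)
    have h3 := hL.vl_pos ((U ⊓ U').restrictScalars ℚ)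
    have h4 := Real.log_le_log (mul_pos h2 h3) h1
    rw [Real.log_mul h2.ne' h3.ne', Real.log_mul (hL.vl_pos _).ne' (hL.vl_pos _).ne'] at h4
    have h5 : (Module.finrank A (U ⊔ U' : Submodule A E) : ℝ) + Module.finrank A (U ⊓ U' : Submodule A E) =
        Module.finrank A U + Module.finrank A U' := by
      exact_mod_cast Submodule.finrank_sup_add_finrank_inf_eq U U'
    have h6 : (Module.finrank A (U ⊔ U' : Submodule A E) : ℝ) * dA A / 2 +
        Module.finrank A (U ⊓ U' : Submodule A E) * dA A / 2 =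
        Module.finrank A U * dA A / 2 + Module.finrank A U' * dA A / 2 := by
      linear_combination (dA A / 2) * h5
    show nv A _ _ _ + nv A _ _ _ ≤ nv A _ _ _ + nv A _ _ _
    unfold nv
    linarith
  · intro U
    have h1 := hL.vl_map (θ.restrictScalars ℚ) T (rho b m) hrho0.le hT1
      (fun y hy => lk_mul a K x y hint hy) (fun y => hT2 y) (U.restrictScalars ℚ)
    rw [← hrm U, rs_rank] at h1
    have h2 := Real.log_le_log (hL.vl_pos _) h1
    rw [Real.log_mul (pow_pos hrho0 _).ne' (hL.vl_pos _).ne', Real.log_pow, hlogr] at h2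
    have hd : Module.finrank A (U.map (θ : E →ₗ[A] E)) = Module.finrank A U :=
      LinearEquiv.finrank_map_eq θ U
    show nv A _ _ _ ≤ nv A _ _ _ + _
    unfold nv
    rw [hd]
    push_cast at h2
    have h3 : Module.finrank ℚ A * Real.log b / m * (Module.finrank A U : ℝ) =
        (2 * ((Module.finrank ℚ A : ℝ) * (Module.finrank A U : ℝ)) * (Real.log b / m)) / 2 := by ring
    linarith
  · intro U hU
    have h1 := fboundA hx a K U (fun y hy => by
      have h2 : (θ : E →ₗ[A] E) y ∈ U.map (θ : E →ₗ[A] E) := Submodule.mem_map_of_mem hy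
      rw [hU] at h2
      exact h2)
    refine le_trans (le_of_eq ?_) h1
    ring
  · intro U
    have h1 := crude m K hx.m1 a (U.restrictScalars ℚ)
    have hp : 0 < ((m : ℝ) ^ Module.finrank ℚ (U.restrictScalars ℚ))⁻¹ := inv_pos.2 (pow_pos hm0 _)
    have h2 := Real.log_le_log (mul_pos hp (Real.exp_pos _)) h1
    rw [Real.log_mul hp.ne' (Real.exp_pos _).ne', Real.log_exp, Real.log_inv, Real.log_pow] at h2
    have h3 : (Module.finrank ℚ (U.restrictScalars ℚ) : ℝ) ≤ Module.finrank ℚ E := by
      exact_mod_cast Submodule.finrank_le (U.restrictScalars ℚ)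
    have h3' : (Module.finrank A U : ℝ) ≤ Module.finrank A E := by
      exact_mod_cast Submodule.finrank_le U
    have h4 : 0 ≤ Real.log m / 2 + K * absLogHeight₁ a :=
      add_nonneg (div_nonneg (Real.log_natCast_nonneg m) zero_le_two) (mul_nonneg (Nat.cast_nonneg _) hh)
    have h5 := mul_le_mul_of_nonneg_right h3 h4
    have h7 := mul_le_mul_of_nonneg_right h3' (abs_nonneg (dA A))
    have h8 : (Module.finrank A U : ℝ) * dA A ≤ Module.finrank A U * |dA A| :=
      mul_le_mul_of_nonneg_left (le_abs_self _) (Nat.cast_nonneg _)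
    show _ ≤ nv A _ _ _
    unfold nv
    have h6 : (Module.finrank ℚ (U.restrictScalars ℚ) : ℝ) * (Real.log m / 2 + K * absLogHeight₁ a) =
        ((Module.finrank ℚ (U.restrictScalars ℚ) : ℝ) * Real.log m +
          2 * K * (Module.finrank ℚ (U.restrictScalars ℚ) : ℝ) * absLogHeight₁ a) / 2 := by
      ring
    linarith

end Pool.Agent.H36.LF
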