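import Pool.Agent.H36.LF.MfA
import Pool.Agent.H36.LE.PbA

/-!
# THEOREM L, version 2 (MP_187c26_nt): the main inequality for spaces of polynomials over `A`

MODEL: `cor` in `Pool/Agent/H36/LE/Cor.lean` (copy and change). Imports may be sorried (`mi_corA`, `PbA`).
PROOF. `(Fin n × Fin L → A) → A[X][Y]`, `c ↦ ∑ monomial l (monomial j c_(j,l))` is `A`-linear, injective, with range `BS A n L`; `aevalAeval (x^γ) (a^γ) (tw σ (image of c)) = bzA σ x a n L γ c` (`bzA_apply`). So `VsA A σ x a n L g 𝒬` is the image of `kA id .. g ⊓ ⨅ kA (σ q) .. (g q)`.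
`corA0`: `dim_A (BS ⊓ {P(x^g, a^g) = 0}) ≥ n L - [E : A]` (rank-nullity for `P ↦ P(x^g, a^g)`, `finrank_BS`): used in step A.
-/

set_option autoImplicit false

open Polynomial NumberField IntermediateField
open scoped Polynomial.Bivariate

namespace Pool.Agent.H36.LF

open Pool.Agent.H36.LE

/-- the polynomial with the coefficients `c` -/
private noncomputable def pl (A : Type) [Field A] (n L : ℕ) : (Fin n × Fin L → A) →ₗ[A] A[X][Y] where
  toFun c := ∑ p : Fin n × Fin L, monomial (p.2 : ℕ) (monomial (p.1 : ℕ) (c p))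
  map_add' c c' := by
    rw [← Finset.sum_add_distrib]
    refine Finset.sum_congr rfl fun p _ => ?_
    rw [Pi.add_apply, map_add, map_add]
  map_smul' r c := by
    rw [RingHom.id_apply, Finset.smul_sum]
    refine Finset.sum_congr rfl fun p _ => ?_
    rw [Pi.smul_apply, smul_monomial, smul_monomial]

private theorem pl_coeff {A : Type} [Field A] (n L : ℕ) (c : Fin n × Fin L → A) (p : Fin n × Fin L) :
    ((pl A n L c).coeff (p.2 : ℕ)).coeff (p.1 : ℕ) = c p := by
  show ((∑ q : Fin n × Fin L, monomial (q.2 : ℕ) (monomial (q.1 : ℕ) (c q)) : A[X][Y]).coeff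
    (p.2 : ℕ)).coeff (p.1 : ℕ) = c p
  rw [finsetSum_coeff, finsetSum_coeff, Finset.sum_eq_single p]
  · rw [coeff_monomial, if_pos rfl, coeff_monomial, if_pos rfl]
  · intro q _ hqp
    rw [coeff_monomial]
    split_ifs with h1
    · rw [coeff_monomial]
      split_ifs with h2
      · exact absurd (Prod.ext (Fin.ext h2) (Fin.ext h1)) hqp
      · rfl
    · rw [coeff_zero]
  · intro h
    exact absurd (Finset.mem_univ p) h

private theorem pl_mem {A : Type} [Field A] (n L : ℕ) (c : Fin n × Fin L → A) : pl A n L c ∈ BS A n L := by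
  refine Submodule.sum_mem _ fun p _ => ⟨(degree_monomial_le _ _).trans_lt (by exact_mod_cast p.2.2),
    fun j => ?_⟩
  rw [coeff_monomial]
  split_ifs
  · exact (degree_monomial_le _ _).trans_lt (by exact_mod_cast p.1.2)
  · rw [degree_zero]
    exact WithBot.bot_lt_coe _

private theorem pl_inj (A : Type) [Field A] (n L : ℕ) : Function.Injective (pl A n L) := by
  intro c c' h
  funext p
  rw [← pl_coeff n L c p, h, pl_coeff]

private theorem pl_surj {A : Type} [Field A] (n L : ℕ) {P : A[X][Y]} (hP : P ∈ BS A n L) :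
    ∃ c, pl A n L c = P := by
  refine ⟨fun p => (P.coeff (p.2 : ℕ)).coeff (p.1 : ℕ), ?_⟩
  have hm := pl_mem n L fun p => (P.coeff (p.2 : ℕ)).coeff (p.1 : ℕ)
  refine Polynomial.ext fun j => Polynomial.ext fun i => ?_
  by_cases hj : j < L
  · by_cases hi : i < n
    · exact pl_coeff n L _ (⟨i, hi⟩, ⟨j, hj⟩)
    · rw [(degree_lt_iff_coeff_zero _ _).1 (hP.2 j) i (not_lt.1 hi),
        (degree_lt_iff_coeff_zero _ _).1 (hm.2 j) i (not_lt.1 hi)]
  · rw [(degree_lt_iff_coeff_zero _ _).1 hP.1 j (not_lt.1 hj),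
      (degree_lt_iff_coeff_zero _ _).1 hm.1 j (not_lt.1 hj)]

private theorem tw_mono {A : Type} [Field A] (σ : A →+* A) (n m : ℕ) (r : A) :
    tw σ (monomial n (monomial m r) : A[X][Y]) = monomial n (monomial m (σ r)) := by
  unfold tw
  rw [coe_mapRingHom, map_monomial, coe_mapRingHom, map_monomial]

private theorem tw_id {A : Type} [Field A] (P : A[X][Y]) : tw (RingHom.id A) P = P := by
  unfold tw
  rw [mapRingHom_id, mapRingHom_id, RingHom.id_apply]

private theorem pl_eval {A E : Type} [Field A] [NumberField A] [Field E] [NumberField E] [Algebra A E]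
    (σ : A →+* A) (x a : E) (n L γ : ℕ) (c : Fin n × Fin L → A) :
    aevalAeval (R := A) (x ^ γ) (a ^ γ) (tw σ (pl A n L c)) = bzA σ x a n L γ c := by
  show aevalAeval (R := A) (x ^ γ) (a ^ γ)
    (tw σ (∑ q : Fin n × Fin L, monomial (q.2 : ℕ) (monomial (q.1 : ℕ) (c q)) : A[X][Y])) = _
  have h1 : ∀ (n m : ℕ) (r : A), (monomial n (monomial m r) : A[X][Y]) =
      algebraMap A A[X][Y] r * (C X) ^ m * X ^ n := by
    intro n m r
    rw [← C_mul_X_pow_eq_monomial, ← C_mul_X_pow_eq_monomial, C_mul, C_pow]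
    rfl
  rw [map_sum, map_sum, bzA_apply]
  refine Finset.sum_congr rfl fun p _ => ?_
  rw [tw_mono, h1, map_mul, map_mul, map_pow, map_pow, AlgHom.commutes, aevalAeval_X, aevalAeval_Y, ← pow_mul,
    ← pow_mul, mul_assoc]

private theorem pl_eval0 {A E : Type} [Field A] [NumberField A] [Field E] [NumberField E] [Algebra A E]
    (x a : E) (n L γ : ℕ) (c : Fin n × Fin L → A) :
    aevalAeval (R := A) (x ^ γ) (a ^ γ) (pl A n L c) = bzA (RingHom.id A) x a n L γ c := by
  rw [← pl_eval, tw_id]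

private theorem pl_Vs {A E : Type} [Field A] [NumberField A] [Field E] [NumberField E] [Algebra A E]
    (σ : ℕ → (A →+* A)) (x a : E) (n L g : ℕ) (𝒬 : Finset ℕ) :
    Module.finrank A (VsA A σ x a n L g 𝒬) =
      Module.finrank A (kA (RingHom.id A) x a n L g ⊓
        ⨅ q ∈ 𝒬, kA (σ q) x a n L (g * q) : Submodule A (Fin n × Fin L → A)) := by
  have hk : ∀ (τ : A →+* A) (γ : ℕ) (c : Fin n × Fin L → A), c ∈ kA τ x a n L γ ↔ bzA τ x a n L γ c = 0 :=
    fun _ _ _ => Iff.rfl
  have h1 : VsA A σ x a n L g 𝒬 = (kA (RingHom.id A) x a n L g ⊓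
        ⨅ q ∈ 𝒬, kA (σ q) x a n L (g * q) : Submodule A (Fin n × Fin L → A)).map (pl A n L) := by
    ext P
    simp only [Submodule.mem_map, Submodule.mem_inf, Submodule.mem_iInf, hk]
    constructor
    · rintro ⟨hP, h2, h3⟩
      obtain ⟨c, rfl⟩ := pl_surj n L hP
      rw [pl_eval0] at h2
      refine ⟨c, ⟨h2, fun q hq => ?_⟩, rfl⟩
      have h4 := h3 q hq
      rwa [pl_eval] at h4
    · rintro ⟨c, ⟨h2, h3⟩, rfl⟩
      refine ⟨pl_mem n L c, by rw [pl_eval0]; exact h2, fun q hq => ?_⟩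
      rw [pl_eval]
      exact h3 q hq
  rw [h1]
  exact (LinearEquiv.finrank_eq (Submodule.equivMapOfInjective (pl A n L) (pl_inj A n L) _)).symm

private theorem inf_emp {A E : Type} [Field A] [NumberField A] [Field E] [NumberField E] [Algebra A E]
    (σ : ℕ → (A →+* A)) (x a : E) (n L g : ℕ) :
    (kA (RingHom.id A) x a n L g ⊓
      ⨅ q ∈ (∅ : Finset ℕ), kA (σ q) x a n L (g * q) : Submodule A (Fin n × Fin L → A)) =
      kA (RingHom.id A) x a n L g := by
  simp

theorem corA {A E : Type} [Field A] [NumberField A] [Field E] [NumberField E] [Algebra A E]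
    {b m d : ℕ} {ι : ℝ} {x : E} (hx : RdA A b m d ι x) (hι : 0 ≤ ι) (σ : ℕ → (A →+* A)) (a : E)
    (n L g : ℕ) (hn1 : 1 ≤ n) (hn : n ≤ m) (hL : 1 ≤ L) (hg1 : 1 ≤ g) (hg : g.Coprime m)
    (𝒬 : Finset ℕ)
    (h𝒬 : ∀ q ∈ 𝒬, q.Prime ∧ ¬ q ∣ m ∧ Pool.Agent.H72.BE.Frob A q (σ q) ∧
      (n - 1) * (g * q) ≤ m ∧
      8 * (2 * Real.log b + ι + Real.log (L * d) / 2 + 1) ≤ 7 * Real.log q ∧
      (g * q * L : ℝ) * absLogHeight₁ a ≤ 1) :
    n * L - Module.finrank A (VsA A σ x a n L g 𝒬) ≤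
      8 * (n * L - Module.finrank A (VsA A σ x a n L g ∅)) := by
  rw [pl_Vs, pl_Vs, inf_emp]
  exact mi_corA hx hι σ a n L g hn1 hn hL hg1 hg 𝒬 h𝒬

theorem corA0 {A E : Type} [Field A] [NumberField A] [Field E] [NumberField E] [Algebra A E]
    (σ : ℕ → (A →+* A)) (x a : E) (n L g : ℕ) :
    n * L - Module.finrank A (VsA A σ x a n L g ∅) ≤ Module.finrank A E := by
  have hfin : Module.Finite A E := Module.Finite.of_restrictScalars_finite ℚ A E
  rw [pl_Vs, inf_emp]
  let T : (Fin n × Fin L → A) →ₗ[A] E :=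
    (aevalAeval (R := A) (x ^ g) (a ^ g)).toLinearMap ∘ₗ pl A n L
  have h1 : LinearMap.ker T = kA (RingHom.id A) x a n L g := by
    ext c
    rw [LinearMap.mem_ker]
    show aevalAeval (R := A) (x ^ g) (a ^ g) (pl A n L c) = 0 ↔ bzA (RingHom.id A) x a n L g c = 0
    rw [pl_eval0]
  have h2 := LinearMap.finrank_range_add_finrank_ker T
  rw [h1, Module.finrank_fintype_fun_eq_card, Fintype.card_prod, Fintype.card_fin, Fintype.card_fin] at h2
  have h3 := Submodule.finrank_le (LinearMap.range T)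
  omega

end Pool.Agent.H36.LF
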