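import Pool.Agent.H36.LE.DefsB
import Pool.Agent.H72.BE.Cla

/-!
# THEOREM L (MP_187c26_nt), version 2: roots of unity. Definitions

Version 1 (`H36/LE`): `F = ℚ(x)`, `x^m = b`. Here `A` is a number field (in the end `A = ℚ(ζ_n)`, `n` prime to `m b`) with Frobenius lifts `σ_q : A → A`
(`Pool.Agent.H72.BE.Frob A q σ`: `σ a = a^q + q c` for `a ∈ 𝓞 A`), `F = A(x)`, `[F : A] = m`, `[E : F] = d`. The inequalities are normalised by the discriminant of
`A`: for an `A`-subspace `U` of dimension `k` the covolume of `𝓞 A ^ k` in the trace metric is `|disc A|^(k/2)`.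

`dA A = log |disc A|`, `nv A φ Λ U = log (vl φ Λ U) / 2 - (dim_A U) (dA A) / 2`, `bzA` the semilinear evaluation at `(x^γ, a^γ)`, `pcA`, `ZA` the box over `A`,
`tw σ P = P^σ` (coefficients), `VsA` the spaces of polynomials over `A`.
-/

set_option autoImplicit false

open Polynomial NumberField IntermediateField
open scoped Polynomial.Bivariate

namespace Pool.Agent.H36.LF

open Pool.Agent.H36.LE

/-- The logarithm of the absolute value of the discriminant. -/
noncomputable def dA (A : Type) [Field A] [NumberField A] : ℝ :=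
  Real.log |(NumberField.discr A : ℝ)|

/-- `x ^ m = b`, `[A(x) : A] = m`, `[E : A] = m d`, `|disc A(x)| ≥ |disc A|^m (m / e^(2ι))^(m [A : ℚ])`. -/
structure RdA (A : Type) {E : Type} [Field A] [NumberField A] [Field E] [NumberField E]
    [Algebra A E] (b m d : ℕ) (ι : ℝ) (x : E) : Prop where
  b1 : 1 ≤ b
  m1 : 1 ≤ m
  pow : x ^ m = (b : E)
  deg : Module.finrank A A⟮x⟯ = m
  fin : Module.finrank A E = m * d
  disc : (m : ℝ) * dA A + Module.finrank ℚ A * (m * Real.log m - 2 * ι * m) ≤ dA A⟮x⟯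

/-- The normalised logarithm of the covolume of the lattice `Λ ∩ U`, `U` an `A`-subspace. -/
noncomputable def nv (A : Type) [Field A] [NumberField A] {H : Type} [NormedAddCommGroup H]
    [InnerProductSpace ℂ H] {V : Type} [AddCommGroup V] [Module ℚ V] [Module A V]
    [IsScalarTower ℚ A V] (φ : V →+ H) (Λ : Submodule ℤ V) (U : Submodule A V) : ℝ :=
  Real.log (vl φ Λ (U.restrictScalars ℚ)) / 2 - Module.finrank A U * dA A / 2

section Box

variable {A E : Type} [Field A] [NumberField A] [Field E] [NumberField E] [Algebra A E]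

/-- The semilinear evaluation: `∑ σ(c_(j,l)) x^(γ j) a^(γ l)`. -/
noncomputable def bzA (σ : A →+* A) (x a : E) (n L γ : ℕ) : (Fin n × Fin L → A) →ₗ[ℚ] E :=
  ∑ p : Fin n × Fin L,
    ((LinearMap.mulRight ℚ (x ^ (γ * (p.1 : ℕ)) * a ^ (γ * (p.2 : ℕ)))).comp
      (((Algebra.ofId A E).restrictScalars ℚ).toLinearMap.comp σ.toRatAlgHom.toLinearMap)).comp
      (LinearMap.proj p)

theorem bzA_apply (σ : A →+* A) (x a : E) (n L γ : ℕ) (c : Fin n × Fin L → A) :
    bzA σ x a n L γ c =
      ∑ p : Fin n × Fin L, algebraMap A E (σ (c p)) * (x ^ (γ * (p.1 : ℕ)) * a ^ (γ * (p.2 : ℕ))) := by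
  unfold bzA
  rw [LinearMap.sum_apply]
  rfl

/-- The kernel of the semilinear evaluation is an `A`-subspace. -/
def kA (σ : A →+* A) (x a : E) (n L γ : ℕ) : Submodule A (Fin n × Fin L → A) where
  carrier := {c | bzA σ x a n L γ c = 0}
  zero_mem' := map_zero _
  add_mem' := by
    intro c c' hc hc'
    rw [Set.mem_ofPred_eq] at hc hc' ⊢
    rw [map_add, hc, hc', add_zero]
  smul_mem' := by
    intro u c hc
    rw [Set.mem_ofPred_eq] at hc ⊢
    have h : bzA σ x a n L γ (u • c) = algebraMap A E (σ u) * bzA σ x a n L γ c := by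
      rw [bzA_apply, bzA_apply, Finset.mul_sum]
      refine Finset.sum_congr rfl fun p _ => ?_
      rw [Pi.smul_apply, smul_eq_mul, map_mul, map_mul]
      ring
    rw [h, hc, mul_zero]

variable (A) in
/-- All the conjugates of all coefficients. -/
noncomputable def pcA (n L : ℕ) :
    (Fin n × Fin L → A) →+ EuclideanSpace ℂ ((A →+* ℂ) × (Fin n × Fin L)) where
  toFun c := WithLp.toLp 2 fun s => s.1 (c s.2)
  map_zero' := by
    ext s
    simp
  map_add' y z := by
    ext s
    simp

variable (A) in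
/-- The vectors with integral coordinates. -/
def ZA (n L : ℕ) : Submodule ℤ (Fin n × Fin L → A) where
  carrier := {c | ∀ p, IsIntegral ℤ (c p)}
  zero_mem' := fun p => isIntegral_zero
  add_mem' := fun hc hc' p => (hc p).add (hc' p)
  smul_mem' := by
    intro n c hc p
    rw [Pi.smul_apply, zsmul_eq_mul]
    exact (isIntegral_algebraMap (R := ℤ) (x := n)).mul (hc p)

end Box

section Poly

variable {A : Type} [Field A]

/-- `P^σ`: `σ` applied to the coefficients. -/
noncomputable def tw (σ : A →+* A) : A[X][Y] →+* A[X][Y] := mapRingHom (mapRingHom σ)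

/-- The polynomials `P` in `BS n L` with `P(x^g, a^g) = 0` and `P^(σ_q)(x^(gq), a^(gq)) = 0`, `q ∈ 𝒬`. -/
def VsA (A : Type) [Field A] {E : Type} [Field E] [Algebra A E] (σ : ℕ → (A →+* A)) (x a : E)
    (n L g : ℕ) (𝒬 : Finset ℕ) : Submodule A A[X][Y] where
  carrier := {P | P ∈ BS A n L ∧ aevalAeval (R := A) (x ^ g) (a ^ g) P = 0 ∧
    ∀ q ∈ 𝒬, aevalAeval (R := A) (x ^ (g * q)) (a ^ (g * q)) (tw (σ q) P) = 0}
  zero_mem' := ⟨zero_mem _, map_zero _, fun q _ => by rw [map_zero, map_zero]⟩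
  add_mem' := by
    rintro P Q ⟨h1, h2, h3⟩ ⟨h4, h5, h6⟩
    refine ⟨add_mem h1 h4, by rw [map_add, h2, h5, add_zero], fun q hq => ?_⟩
    rw [map_add, map_add, h3 q hq, h6 q hq, add_zero]
  smul_mem' := by
    rintro c P ⟨h1, h2, h3⟩
    refine ⟨Submodule.smul_mem _ c h1, by rw [map_smul, h2, smul_zero], fun q hq => ?_⟩
    have h : tw (σ q) (c • P) = σ q c • tw (σ q) P := by
      rw [Algebra.smul_def, Algebra.smul_def, map_mul]
      congr 1
      simp [tw, Polynomial.algebraMap_apply]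
    rw [h, map_smul, h3 q hq, smul_zero]

end Poly

end Pool.Agent.H36.LF
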