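import Pool.Agent.H36.LE.Mp

/-!
# THEOREM L, version 2 (MP_187c26_nt): minimal polynomials over `A` of the powers of `x`, `x ^ m = b`

MODEL: `Pool/Agent/H36/LE/Mp.lean` (copy and change `ℚ` to `A`).
PROOFS. `sig_bij`: an injective `ℚ`-linear map of a finite dimensional space to itself is surjective (`LinearMap.injective_iff_surjective`). `minpoly_powA`, `isIntegral_xA`: as in the model. `badA`: `X^m - b^q` (minimal polynomial of `x^q` over `A`) divides `ρ.map (σ q)`; apply the inverse ring isomorphism of `σ q` (it fixes the integer `b^q`):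
`X^m - b^q` divides `ρ`. For different `q` prime to `m` these polynomials are irreducible, monic and different (`b ≥ 2`), so their product divides `ρ`.
-/

set_option autoImplicit false

open Polynomial IntermediateField

namespace Pool.Agent.H36.LF

open Pool.Agent.H36.LE

theorem sig_bij {A : Type} [Field A] [NumberField A] (σ : A →+* A) : Function.Bijective σ := by
  obtain ⟨f, hf⟩ : ∃ f : A →ₗ[ℚ] A, ∀ x, f x = σ x := ⟨σ.toAddMonoidHom.toRatLinearMap, fun _ => rfl⟩
  have h1 : Function.Injective f := by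
    intro x y h
    rw [hf, hf] at h
    exact σ.injective h
  have h2 : Function.Surjective f := LinearMap.injective_iff_surjective.1 h1
  refine ⟨σ.injective, fun y => ?_⟩
  obtain ⟨x, hx⟩ := h2 y
  exact ⟨x, by rw [← hf, hx]⟩

variable {A E : Type} [Field A] [NumberField A] [Field E] [Algebra A E] {b m : ℕ} {x : E}

theorem isIntegral_xA (hm : 1 ≤ m) (hx : x ^ m = (b : E)) (q : ℕ) : IsIntegral A (x ^ q) := by
  refine IsIntegral.pow (IsIntegral.of_pow (n := m) (by omega) ?_) q
  rw [hx]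
  have h := isIntegral_algebraMap (R := A) (A := E) (x := (b : A))
  rwa [map_natCast] at h

theorem minpoly_powA (hb : 1 ≤ b) (hm : 1 ≤ m) (hx : x ^ m = (b : E))
    (hdeg : Module.finrank A A⟮x⟯ = m) (q : ℕ) (hq : q.Coprime m) :
    minpoly A (x ^ q) = X ^ m - C ((b : A) ^ q) := by
  have : CharZero E := charZero_of_injective_algebraMap (algebraMap A E).injective
  have hb0 : (b : E) ≠ 0 := Nat.cast_ne_zero.2 (by omega)
  have hx0 : x ≠ 0 := by
    rintro rfl
    rw [zero_pow (by omega)] at hx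
    exact hb0 hx.symm
  have hi : IsIntegral A (x ^ q) := isIntegral_xA hm hx q
  have hmem : x ∈ A⟮x ^ q⟯ := by
    obtain ⟨u, v, huv⟩ := Int.isCoprime_iff_gcd_eq_one.2
      (show Int.gcd (q : ℤ) (m : ℤ) = 1 from by rw [Int.gcd_natCast_natCast]; exact hq)
    have e : x = (x ^ q) ^ u * ((b : E)) ^ v := by
      have e1 : x ^ (u * (q : ℤ) + v * (m : ℤ)) = (x ^ q) ^ u * ((b : E)) ^ v := by
        rw [zpow_add₀ hx0, mul_comm u, mul_comm v, zpow_mul, zpow_mul, zpow_natCast, zpow_natCast,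
          hx]
      rw [← e1, huv, zpow_one]
    have h2 : (x ^ q) ^ u * ((b : E)) ^ v ∈ A⟮x ^ q⟯ :=
      mul_mem (zpow_mem (mem_adjoin_simple_self A _) u) (zpow_mem (_root_.natCast_mem _ b) v)
    rw [← e] at h2
    exact h2
  have hfield : A⟮x ^ q⟯ = A⟮x⟯ := by
    refine le_antisymm (adjoin_simple_le_iff.2 (pow_mem (mem_adjoin_simple_self A x) q))
      (adjoin_simple_le_iff.2 hmem)
  have hnd : (minpoly A (x ^ q)).natDegree = m := by
    rw [← adjoin.finrank hi, hfield, hdeg]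
  refine (eq_of_monic_of_dvd_of_natDegree_le (minpoly.monic hi)
    (monic_X_pow_sub_C _ (by omega)) (minpoly.dvd A (x ^ q) ?_) ?_).symm
  · rw [map_sub, map_pow, aeval_X, aeval_C, map_pow, map_natCast, ← pow_mul, mul_comm q m, pow_mul,
      hx, sub_self]
  · rw [natDegree_X_pow_sub_C, hnd]

theorem badA (hb : 2 ≤ b) (hm : 1 ≤ m) (hx : x ^ m = (b : E))
    (hdeg : Module.finrank A A⟮x⟯ = m) (σ : ℕ → (A →+* A)) (S : Finset ℕ)
    (hS : ∀ q ∈ S, q.Coprime m) (ρ : A[X]) (hρ : ρ ≠ 0)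
    (h0 : ∀ q ∈ S, aeval (x ^ q) (ρ.map (σ q)) = 0) : m * S.card ≤ ρ.natDegree := by
  classical
  have h1 : ∀ q ∈ S, (X ^ m - C ((b : A) ^ q)) ∣ ρ := by
    intro q hq
    have h2 : (X ^ m - C ((b : A) ^ q)) ∣ ρ.map (σ q) := by
      rw [← minpoly_powA (by omega) hm hx hdeg q (hS q hq)]
      exact minpoly.dvd A _ (h0 q hq)
    obtain ⟨e, he⟩ : ∃ e : A ≃+* A, (e : A →+* A) = σ q :=
      ⟨RingEquiv.ofBijective (σ q) (sig_bij (σ q)), RingHom.ext fun _ => rfl⟩
    have h3 := map_dvd (Polynomial.mapRingHom (e.symm : A →+* A)) h2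
    have h4 : Polynomial.mapRingHom (e.symm : A →+* A) (X ^ m - C ((b : A) ^ q)) =
        X ^ m - C ((b : A) ^ q) := by
      rw [coe_mapRingHom, Polynomial.map_sub, Polynomial.map_pow, map_X, map_C, map_pow, map_natCast]
    have h5 : Polynomial.mapRingHom (e.symm : A →+* A) (ρ.map (σ q)) = ρ := by
      rw [coe_mapRingHom, Polynomial.map_map, ← he]
      have h6 : (e.symm : A →+* A).comp (e : A →+* A) = RingHom.id A := by
        ext y
        simp
      rw [h6, Polynomial.map_id]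
    rw [h4, h5] at h3
    exact h3
  have h2 : (S : Set ℕ).Pairwise (Function.onFun IsCoprime fun q => X ^ m - C ((b : A) ^ q)) := by
    intro q _ q' _ hqq
    have h3 : (b : A) ^ q' - (b : A) ^ q ≠ 0 := by
      intro h4
      have h5 : (b : A) ^ q' = (b : A) ^ q := sub_eq_zero.1 h4
      have h6 : b ^ q' = b ^ q := by exact_mod_cast h5
      exact hqq (Nat.pow_right_injective hb h6).symm
    refine ⟨C (((b : A) ^ q' - (b : A) ^ q)⁻¹), - C (((b : A) ^ q' - (b : A) ^ q)⁻¹), ?_⟩
    have h7 : C (((b : A) ^ q' - (b : A) ^ q)⁻¹) * (X ^ m - C ((b : A) ^ q)) +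
        - C (((b : A) ^ q' - (b : A) ^ q)⁻¹) * (X ^ m - C ((b : A) ^ q')) =
        C (((b : A) ^ q' - (b : A) ^ q)⁻¹) * C ((b : A) ^ q' - (b : A) ^ q) := by
      rw [C_sub]
      ring
    rw [h7, ← C_mul, inv_mul_cancel₀ h3, C_1]
  have h8 := natDegree_le_of_dvd (Finset.prod_dvd_of_coprime h2 h1) hρ
  rw [natDegree_prod_of_monic _ _ (fun q _ => monic_X_pow_sub_C _ (by omega))] at h8
  simp only [natDegree_X_pow_sub_C, Finset.sum_const, smul_eq_mul] at h8
  rwa [mul_comm]

end Pool.Agent.H36.LF
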