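import Pool.Agent.H36.LF.Defs
import Pool.Agent.H36.LF.MpA
import Pool.Agent.H36.LE.PbB
import Pool.Agent.H36.LE.PbC
import Pool.Agent.H36.LE.PbD

/-!
# THEOREM L, version 2 (MP_187c26_nt), step A: a small curve through one of the points `(x^q, a^q)`

MODEL: `stepA` in `Pool/Agent/H36/LE/StA.lean` (copy and change). Imports may be sorried.
PROOFS. `tw`-lemmas: `tw σ = mapRingHom (mapRingHom σ)`, `σ` is injective (a ring homomorphism of fields): degrees do not change (`natDegree_map_eq_of_injective`; `dX`: `Bivariate.swap` commutes with `tw`, or compare coefficients).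
`stepAA`: `V := VsA A σ x a n L 1 𝒬`, `G`, `P₁`, `P₂` of `gcd_two` (over `k = A`), `ρ` of `res`. If `(tw (σ q) G)(x^q, a^q) ≠ 0` for all `q ∈ 𝒬`, then (apply `tw (σ q)` to `G P_i`) `(tw (σ q) P_i)(x^q, a^q) = 0`, and (apply `tw (σ q)` to `C ρ = u P₁ + v P₂`, `tw σ (C ρ) = C (ρ.map σ)`)
`aeval (x^q) (ρ.map (σ q)) = 0` for all `q ∈ 𝒬`: contradiction to `badA`. So `(tw (σ q) G)(x^q, a^q) = 0` for some `q ∈ 𝒬`; `G₀` := an irreducible factor of `tw (σ q) G` vanishing at the point; `dX G₀ ≤ dX G`, `natDegree G₀ ≤ natDegree G`; the rest as in the model (`minpoly_powA`).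
-/

set_option autoImplicit false

open Polynomial NumberField IntermediateField
open scoped Polynomial.Bivariate

namespace Pool.Agent.H36.LF

open Pool.Agent.H36.LE

section

variable {k : Type} [Field k]

theorem tw_C (σ : k →+* k) (f : k[X]) : tw σ (C f) = C (f.map σ) := by
  simp [tw]

theorem natDegree_tw (σ : k →+* k) (P : k[X][Y]) : (tw σ P).natDegree = P.natDegree := by
  rw [tw, coe_mapRingHom]
  exact natDegree_map_eq_of_injective (by
    rw [coe_mapRingHom]
    exact map_injective σ σ.injective) P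

private theorem coeff_tw (σ : k →+* k) (P : k[X][Y]) (i j : ℕ) :
    ((tw σ P).coeff i).coeff j = σ ((P.coeff i).coeff j) := by
  rw [tw, coe_mapRingHom, coeff_map, coe_mapRingHom, coeff_map]

theorem dX_tw (σ : k →+* k) (P : k[X][Y]) : dX (tw σ P) = dX P := by
  have h : Bivariate.swap (tw σ P) = tw σ (Bivariate.swap P) := by
    refine Polynomial.ext fun i => Polynomial.ext fun j => ?_
    rw [coeff_swap, coeff_tw, coeff_tw, coeff_swap]
  show (Bivariate.swap (tw σ P)).natDegree = (Bivariate.swap P).natDegree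
  rw [h, natDegree_tw]

theorem tw_ne_zero (σ : k →+* k) (P : k[X][Y]) (hP : P ≠ 0) : tw σ P ≠ 0 := by
  intro h
  refine hP (Polynomial.ext fun i => Polynomial.ext fun j => ?_)
  have h1 := coeff_tw σ P i j
  rw [h, coeff_zero, coeff_zero] at h1
  rw [coeff_zero, coeff_zero]
  exact (map_eq_zero σ).1 h1.symm

end

theorem stepAA {A E : Type} [Field A] [NumberField A] [Field E] [Algebra A E] {b m : ℕ} {x : E}
    (hb : 2 ≤ b) (hm : 1 ≤ m) (hx : x ^ m = (b : E)) (hdeg : Module.finrank A A⟮x⟯ = m)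
    (σ : ℕ → (A →+* A)) (a : E) (n L D : ℕ)
    (𝒬 : Finset ℕ) (h𝒬 : ∀ q ∈ 𝒬, q.Coprime m) (hnm : n ≤ m)
    (hD : n * L - Module.finrank A (VsA A σ x a n L 1 𝒬) ≤ D) (hDn : D < n * L)
    (hc : 2 * n * L ≤ m * 𝒬.card) :
    ∃ q ∈ 𝒬, ∃ G : A[X][Y], Irreducible G ∧ aevalAeval (R := A) (x ^ q) (a ^ q) G = 0 ∧
      dX G < n ∧ G.natDegree < L ∧ 1 ≤ G.natDegree ∧
      dX G * L + (n - dX G) * G.natDegree ≤ D := by
  classical
  obtain ⟨V, hV⟩ : ∃ V, V = VsA A σ x a n L 1 𝒬 := ⟨_, rfl⟩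
  rw [← hV] at hD
  have hVB : V ≤ BS A n L := by
    rw [hV]
    exact fun P hP => hP.1
  have := isNoetherian_of_isNoetherianRing_of_finite A (BS A n L)
  have hfin : Module.Finite A V :=
    Module.Finite.of_injective (Submodule.inclusion hVB) (Submodule.inclusion_injective hVB)
  have hVne : V ≠ ⊥ := by
    intro h
    rw [h, finrank_bot] at hD
    omega
  obtain ⟨G, P₁, P₂, hG0, hGd, hG1, hG2, h1, h2, hrel⟩ := gcd_two V hVne
  have hle := finrank_le_of_dvd G hG0 n L V hVB hGd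
  have hD' : n * L ≤ D + Module.finrank A V := by omega
  have hpos : 0 < (n - dX G) * (L - G.natDegree) := by omega
  have hn1 : dX G < n := by
    by_contra h
    rw [Nat.sub_eq_zero_of_le (not_lt.1 h), zero_mul] at hpos
    exact lt_irrefl _ hpos
  have hL1 : G.natDegree < L := by
    by_contra h
    rw [Nat.sub_eq_zero_of_le (not_lt.1 h), mul_zero] at hpos
    exact lt_irrefl _ hpos
  have hGD : dX G * L + (n - dX G) * G.natDegree ≤ D := by
    obtain ⟨n', hn'⟩ := Nat.exists_eq_add_of_le hn1.le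
    obtain ⟨L', hL'⟩ := Nat.exists_eq_add_of_le hL1.le
    have e1 : n - dX G = n' := by omega
    have e2 : L - G.natDegree = L' := by omega
    rw [e1, e2] at hle
    rw [e1]
    have e3 : n * L = dX G * L + n' * G.natDegree + n' * L' := by
      conv_lhs => rw [hn', add_mul]
      rw [add_assoc, ← mul_add, ← hL']
    omega
  have hbd : ∀ P, P ≠ 0 → G * P ∈ V → P.natDegree < L ∧ dX P < n := by
    intro P hP hPV
    rcases (mem_BS _ _ _).1 (hVB hPV) with h | ⟨h3, h4⟩
    · exact absurd h (mul_ne_zero hG0 hP)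
    · rw [natDegree_mul hG0 hP] at h3
      rw [dX_mul G P hG0 hP] at h4
      omega
  obtain ⟨ρ, u, v, hρ, huv, hρd⟩ := res P₁ P₂ h1 h2 hrel
  obtain ⟨a1, a2⟩ := hbd P₁ h1 hG1
  obtain ⟨a3, a4⟩ := hbd P₂ h2 hG2
  have hρ2 : ρ.natDegree < 2 * n * L := by
    have b1 : dX P₁ * (P₂.natDegree + 1) ≤ dX P₁ * L := Nat.mul_le_mul_left _ a3
    have b2 : dX P₂ * (P₁.natDegree + 1) ≤ dX P₂ * L := Nat.mul_le_mul_left _ a1
    have b3 : (dX P₁ + 1) * L ≤ n * L := Nat.mul_le_mul_right _ a2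
    have b4 : (dX P₂ + 1) * L ≤ n * L := Nat.mul_le_mul_right _ a4
    rw [add_mul, one_mul] at b3 b4
    have b5 : 2 * n * L = n * L + n * L := by ring
    omega
  have hq : ∃ q ∈ 𝒬, aevalAeval (R := A) (x ^ q) (a ^ q) (tw (σ q) G) = 0 := by
    by_contra hcon
    push Not at hcon
    have hz : ∀ q ∈ 𝒬, aeval (x ^ q) (ρ.map (σ q)) = 0 := by
      intro q hq
      have hP : ∀ P, G * P ∈ V → aevalAeval (R := A) (x ^ q) (a ^ q) (tw (σ q) P) = 0 := by
        intro P hP
        rw [hV] at hP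
        have h4 := hP.2.2 q hq
        rw [one_mul, map_mul, map_mul, mul_eq_zero] at h4
        exact h4.resolve_left (hcon q hq)
      have h5 := congrArg (fun P => aevalAeval (R := A) (x ^ q) (a ^ q) (tw (σ q) P)) huv
      simp only [map_add, map_mul] at h5
      rw [hP _ hG1, hP _ hG2, mul_zero, mul_zero, add_zero, tw_C, aevalAeval_C] at h5
      exact h5
    have h5 := badA hb hm hx hdeg σ 𝒬 h𝒬 ρ hρ hz
    omega
  obtain ⟨q, hq, hq0⟩ := hq
  have hT0 : tw (σ q) G ≠ 0 := tw_ne_zero _ _ hG0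
  obtain ⟨G₀, hirr, hdvd, hG₀⟩ : ∃ G₀ : A[X][Y], Irreducible G₀ ∧ G₀ ∣ tw (σ q) G ∧
      aevalAeval (R := A) (x ^ q) (a ^ q) G₀ = 0 := by
    have h3 : aevalAeval (R := A) (x ^ q) (a ^ q)
        (UniqueFactorizationMonoid.factors (tw (σ q) G)).prod = 0 := by
      obtain ⟨w, hw⟩ := UniqueFactorizationMonoid.factors_prod hT0
      have h4 := congrArg (aevalAeval (R := A) (x ^ q) (a ^ q)) hw
      rw [map_mul, hq0, mul_eq_zero] at h4
      exact h4.resolve_right (w.isUnit.map (aevalAeval (R := A) (x ^ q) (a ^ q))).ne_zero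
    rw [map_multiset_prod, Multiset.prod_eq_zero_iff, Multiset.mem_map] at h3
    obtain ⟨G₀, hm0, h4⟩ := h3
    exact ⟨G₀, UniqueFactorizationMonoid.irreducible_of_factor G₀ hm0,
      UniqueFactorizationMonoid.dvd_of_mem_factors hm0, h4⟩
  have hG₀0 : G₀ ≠ 0 := hirr.ne_zero
  obtain ⟨R, hR⟩ := hdvd
  have hR0 : R ≠ 0 := by
    rintro rfl
    rw [mul_zero] at hR
    exact hT0 hR
  have hn2 : dX G = dX G₀ + dX R := by rw [← dX_tw (σ q) G, hR, dX_mul G₀ R hG₀0 hR0]
  have hL2 : G.natDegree = G₀.natDegree + R.natDegree := by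
    rw [← natDegree_tw (σ q) G, hR, natDegree_mul hG₀0 hR0]
  refine ⟨q, hq, G₀, hirr, hG₀, by omega, by omega, ?_, ?_⟩
  · by_contra hcon
    have h3 : G₀.natDegree = 0 := by omega
    have h4 := eq_C_of_natDegree_eq_zero h3
    obtain ⟨f, hf⟩ : ∃ f : A[X], G₀ = C f := ⟨_, h4⟩
    have hf0 : f ≠ 0 := by
      rintro rfl
      rw [C_0] at hf
      exact hG₀0 hf
    rw [hf, aevalAeval_C] at hG₀
    have h5 := natDegree_le_of_dvd (minpoly.dvd A (x ^ q) hG₀) hf0
    rw [minpoly_powA (by omega) hm hx hdeg q (h𝒬 q hq), natDegree_X_pow_sub_C] at h5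
    have h6 : dX G₀ = f.natDegree := by rw [hf, dX_C]
    omega
  · refine le_trans ?_ hGD
    have e1 : n - dX G₀ = (n - dX G) + dX R := by omega
    rw [e1, hn2, hL2]
    have e2 : dX R * G₀.natDegree ≤ dX R * L := Nat.mul_le_mul_left _ (by omega)
    have e3 : n - (dX G₀ + dX R) = n - dX G := by rw [hn2]
    rw [e3]
    have e4 : (n - dX G + dX R) * G₀.natDegree = (n - dX G) * G₀.natDegree + dX R * G₀.natDegree := by ring
    have e5 : (dX G₀ + dX R) * L = dX G₀ * L + dX R * L := by ring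
    have e6 : (n - dX G) * (G₀.natDegree + R.natDegree) =
      (n - dX G) * G₀.natDegree + (n - dX G) * R.natDegree := by ring
    rw [hn2] at e4 e6
    rw [hn2]
    omega

end Pool.Agent.H36.LF
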