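import Pool.Agent.H36.LF.CorA
import Pool.Agent.H36.LF.SaA
import Pool.Agent.H36.LE.FinA

/-!
# THEOREM L, version 2 (MP_187c26_nt), parameters, part 1

MODEL: `finA` in `Pool/Agent/H36/LE/FinA.lean` (copy and change: `corA`, `corA0`, `stepAA` in the places of `cor`, `stepA`; `primes_coprime` is used unchanged; all the primes of `𝒬` are in `[N^52/4, N^52]`, so they satisfy the hypothesis on `Frob`). Imports may be sorried. Dimensions over `A`; `L - dim VsA ∅ ≤ [E : A] = m d` is `corA0`.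
-/

set_option autoImplicit false

open Polynomial NumberField IntermediateField
open scoped Polynomial.Bivariate

namespace Pool.Agent.H36.LF

open Pool.Agent.H36.LE

private theorem fina_h {E : Type} [Field E] [CharZero E] (a : E) : 0 ≤ absLogHeight₁ a := by
  unfold absLogHeight₁ absMulHeight₁
  split_ifs with hx
  · have : FiniteDimensional ℚ ℚ⟮a⟯ := adjoin.finiteDimensional hx
    have : NumberField ℚ⟮a⟯ := {}
    refine Real.log_nonneg ?_
    exact Real.one_le_rpow (Height.one_le_mulHeight₁ _) (by positivity)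
  · rw [Real.log_one]

theorem finAA (b : ℕ) (hb : 2 ≤ b) (ι : ℝ) (hι : 0 ≤ ι) : ∃ N₀ : ℕ, ∀ N : ℕ, N₀ ≤ N →
    ∀ (A E : Type) [Field A] [NumberField A] [Field E] [NumberField E] [Algebra A E]
      (m d : ℕ) (x a : E) (σ : ℕ → (A →+* A)), RdA A b m d ι x →
      (∀ q : ℕ, q.Prime → N ^ 32 ≤ q → q ≤ N ^ 52 → Pool.Agent.H72.BE.Frob A q (σ q)) →
      300 * d ≤ N → m.primeFactors.card ≤ N → N ^ 90 ≤ m →
      (N : ℝ) ^ 141 * absLogHeight₁ a ≤ 1 →
      ∃ (q : ℕ) (G : A[X][Y]), 1 ≤ q ∧ q ≤ N ^ 52 ∧ q.Coprime m ∧ Irreducible G ∧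
        aevalAeval (R := A) (x ^ q) (a ^ q) G = 0 ∧ 1 ≤ G.natDegree ∧ G.natDegree ≤ N ^ 53 ∧
        dX G * N ^ 88 ≤ 8 * m := by
  obtain ⟨T₀, hT₀⟩ := primes_coprime
  refine ⟨max (max T₀ 16) ⌈Real.exp (4 * Real.log b + 2 * ι + 2 + 2 * Real.log 4)⌉₊, ?_⟩
  intro N hN A E _ _ _ _ _ m d x a σ hx hσ hd hpf hm hNh
  have hfinAE : Module.Finite A E := Module.Finite.of_restrictScalars_finite ℚ A E
  have hNT : T₀ ≤ N := (le_max_left _ _).trans ((le_max_left _ _).trans hN)
  have hN16 : 16 ≤ N := (le_max_right _ _).trans ((le_max_left _ _).trans hN)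
  have hNe : Real.exp (4 * Real.log b + 2 * ι + 2 + 2 * Real.log 4) ≤ N := by
    refine (Nat.le_ceil _).trans ?_
    exact_mod_cast (le_max_right _ _).trans hN
  have hN0 : (0 : ℝ) < N := by exact_mod_cast (lt_of_lt_of_le (by norm_num) hN16)
  have hlogN : 4 * Real.log b + 2 * ι + 2 + 2 * Real.log 4 ≤ Real.log N := by
    rw [Real.le_log_iff_exp_le hN0]
    exact hNe
  have hd1 : 1 ≤ d := by
    by_contra h0
    have h1 : d = 0 := by omega
    have h2 := hx.fin
    rw [h1, mul_zero] at h2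
    have h3 : 0 < Module.finrank A E := Module.finrank_pos
    omega
  have hNpos : 1 ≤ N := by omega
  obtain ⟨Q, hQ⟩ : ∃ Q : ℕ, Q = N ^ 52 := ⟨_, rfl⟩
  obtain ⟨L, hL⟩ : ∃ L : ℕ, L = d * N ^ 88 := ⟨_, rfl⟩
  obtain ⟨n, hn⟩ : ∃ n : ℕ, n = m / Q + 1 := ⟨_, rfl⟩
  obtain ⟨S, hS⟩ : ∃ S : Finset ℕ, S = (Finset.Icc 1 Q).filter
    fun p => p.Prime ∧ Q < 4 * p ∧ ¬ p ∣ m := ⟨_, rfl⟩
  have hQN : N ≤ Q := by
    rw [hQ]
    exact Nat.le_self_pow (by norm_num) N
  have hQ1 : 1 ≤ Q := hNpos.trans hQN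
  have hQm : Q ≤ m := by
    refine le_trans ?_ hm
    rw [hQ]
    exact Nat.pow_le_pow_right hNpos (by norm_num)
  have hm1 : 1 ≤ m := hQ1.trans hQm
  have hL1 : 1 ≤ L := by
    rw [hL]
    exact Nat.mul_pos hd1 (Nat.pow_pos hNpos)
  -- the number of primes
  have hScard : N ^ 38 ≤ S.card := by
    have h1 := hT₀ Q m N (hNT.trans hQN) hm1 hpf
    rw [← hS] at h1
    have h2 : (N ^ 39) ^ 4 ≤ (S.card + N) ^ 4 := by
      refine le_trans (le_of_eq ?_) h1
      rw [hQ, ← pow_mul, ← pow_mul]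
    have h3 : N ^ 39 ≤ S.card + N := (Nat.pow_le_pow_iff_left (by norm_num)).1 h2
    have h4 : N ≤ N ^ 38 := Nat.le_self_pow (by norm_num) N
    have h5 : 2 * N ^ 38 ≤ N ^ 39 := by
      rw [pow_succ N 38, mul_comm (N ^ 38)]
      exact Nat.mul_le_mul_right _ (by omega)
    omega
  -- sizes
  have hdivQ : m / Q * Q ≤ m := Nat.div_mul_le_self m Q
  have hnQ : m < n * Q := by
    rw [hn]
    rw [mul_comm]
    exact Nat.lt_mul_div_succ m hQ1
  have hnQ2 : n * Q ≤ 2 * m := by
    rw [hn, add_mul, one_mul]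
    omega
  have hnm : n ≤ m := by
    have hQ2 : 2 ≤ Q := le_trans (by omega) hQN
    have h2 : n * 2 ≤ n * Q := Nat.mul_le_mul_left _ hQ2
    omega
  have hlogb : 0 ≤ Real.log b := Real.log_nonneg (by exact_mod_cast (by omega : 1 ≤ b))
  have hn1 : 1 ≤ n := by
    rw [hn]
    exact Nat.le_add_left _ _
  have hcor := corA hx hι σ a n L 1 hn1 hnm hL1 le_rfl (Nat.coprime_one_left m) S (by
    intro q hq
    rw [hS, Finset.mem_filter, Finset.mem_Icc] at hq
    obtain ⟨⟨hq1, hq2⟩, hqp, hq4, hqm⟩ := hq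
    refine ⟨hqp, hqm, hσ q hqp ?_ (by rw [← hQ]; exact hq2), ?_, ?_, ?_⟩
    · have h1 : N ^ 52 < 4 * q := by rw [← hQ]; exact hq4
      have h2 : N ^ 52 = N ^ 32 * N ^ 20 := by rw [← pow_add]
      have h3 : 4 ≤ N ^ 20 := le_trans (by omega) (Nat.le_self_pow (by norm_num) N)
      have h4 : N ^ 32 * 4 ≤ N ^ 32 * N ^ 20 := Nat.mul_le_mul_left _ h3
      omega
    · rw [one_mul, hn, Nat.add_sub_cancel]
      exact (Nat.mul_le_mul_left _ hq2).trans hdivQ
    · have h1 : Real.log ((L : ℝ) * d) ≤ 90 * Real.log N := by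
        have h2 : (L : ℝ) * d ≤ (N : ℝ) ^ 90 := by
          have h3 : L * d ≤ N ^ 90 := by
            rw [hL]
            calc d * N ^ 88 * d = d * d * N ^ 88 := by ring
              _ ≤ N * N * N ^ 88 := Nat.mul_le_mul_right _ (Nat.mul_le_mul (by omega) (by omega))
              _ = N ^ 90 := by ring
          exact_mod_cast h3
        have h4 : (0 : ℝ) < (L : ℝ) * d := by
          have h5 : (0 : ℝ) < L := by exact_mod_cast hL1
          have h6 : (0 : ℝ) < d := by exact_mod_cast hd1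
          positivity
        have h5 := Real.log_le_log h4 h2
        rw [Real.log_pow] at h5
        exact_mod_cast h5
      have h2 : 52 * Real.log N ≤ Real.log q + Real.log 4 := by
        have h3 : (N : ℝ) ^ 52 ≤ q * 4 := by
          have h4 : N ^ 52 ≤ q * 4 := by
            rw [← hQ]
            omega
          exact_mod_cast h4
        have h5 := Real.log_le_log (by positivity) h3
        have h6 : (q : ℝ) ≠ 0 := by
          have : q ≠ 0 := by omega
          exact_mod_cast this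
        rw [Real.log_pow, Real.log_mul h6 (by norm_num)] at h5
        exact_mod_cast h5
      have h4 : 0 ≤ Real.log 4 := Real.log_nonneg (by norm_num)
      linarith
    · have h1 : (((1 : ℕ) : ℝ) * q * L) ≤ (N : ℝ) ^ 141 := by
        have h2 : 1 * q * L ≤ N ^ 141 := by
          rw [one_mul, hL]
          calc q * (d * N ^ 88) ≤ N ^ 52 * (N * N ^ 88) :=
                Nat.mul_le_mul (by rw [← hQ]; exact hq2) (Nat.mul_le_mul_right _ (by omega))
            _ = N ^ 141 := by ring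
        exact_mod_cast h2
      exact (mul_le_mul_of_nonneg_right h1 (fina_h a)).trans hNh)
  have hdim := corA0 (A := A) σ x a n L 1
  rw [hx.fin] at hdim
  have h36 : 16 ≤ N ^ 36 := hN16.trans (Nat.le_self_pow (by norm_num) N)
  obtain ⟨q, hq, G, hG, hG0, hGn, hGL, hG1, hGD⟩ := stepAA hb hm1 hx.pow hx.deg σ a n L (8 * (m * d)) S
    (by
      intro q hq
      rw [hS, Finset.mem_filter] at hq
      exact (Nat.Prime.coprime_iff_not_dvd hq.2.1).2 hq.2.2.2) hnm (by omega)
    (by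
      rw [hL]
      calc 8 * (m * d) ≤ N ^ 36 * (m * d) := Nat.mul_le_mul_right _ (by omega)
        _ = m * (d * N ^ 36) := by ring
        _ < n * Q * (d * N ^ 36) :=
            Nat.mul_lt_mul_of_pos_right hnQ (Nat.mul_pos hd1 (Nat.pow_pos hNpos))
        _ = n * (d * N ^ 88) := by
            rw [hQ]
            ring)
    (by
      calc 2 * n * L = 2 * (n * Q) * (d * N ^ 36) := by
            rw [hL, hQ]
            ring
        _ ≤ 2 * (2 * m) * (d * N ^ 36) := Nat.mul_le_mul_right _ (Nat.mul_le_mul_left _ hnQ2)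
        _ = m * (4 * d * N ^ 36) := by ring
        _ ≤ m * (N * N ^ 36) :=
            Nat.mul_le_mul_left _ (Nat.mul_le_mul_right _ (by omega))
        _ ≤ m * N ^ 38 := by
            refine Nat.mul_le_mul_left _ ?_
            rw [← pow_succ']
            exact Nat.pow_le_pow_right hNpos (by norm_num)
        _ ≤ m * S.card := Nat.mul_le_mul_left _ hScard)
  have hq' := hq
  rw [hS, Finset.mem_filter, Finset.mem_Icc] at hq'
  obtain ⟨⟨hq1, hq2⟩, hqp, hq4, hqm⟩ := hq'
  have hdX : dX G * N ^ 88 ≤ 8 * m := by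
    have h1 : dX G * L ≤ 8 * (m * d) := le_trans (Nat.le_add_right _ _) hGD
    have h2 : d * (dX G * N ^ 88) ≤ d * (8 * m) := by
      rw [hL] at h1
      calc d * (dX G * N ^ 88) = dX G * (d * N ^ 88) := by ring
        _ ≤ 8 * (m * d) := h1
        _ = d * (8 * m) := by ring
    exact Nat.le_of_mul_le_mul_left h2 hd1
  refine ⟨q, G, hq1, by rw [← hQ]; exact hq2, (Nat.Prime.coprime_iff_not_dvd hqp).2 hqm, hG, hG0,
    hG1, ?_, hdX⟩
  have h1 : (n - dX G) * G.natDegree ≤ 8 * (m * d) := le_trans (Nat.le_add_left _ _) hGD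
  have h2 : 2 * (dX G * Q) ≤ m := by
    have h3 : N ^ 36 * (2 * (dX G * Q)) ≤ N ^ 36 * m := by
      calc N ^ 36 * (2 * (dX G * Q)) = 2 * (dX G * N ^ 88) := by
            rw [hQ]
            ring
        _ ≤ 2 * (8 * m) := Nat.mul_le_mul_left _ hdX
        _ = 16 * m := by ring
        _ ≤ N ^ 36 * m := Nat.mul_le_mul_right _ h36
    exact Nat.le_of_mul_le_mul_left h3 (by omega)
  have h3 : m ≤ 2 * Q * (n - dX G) := by
    have h4 : 2 * Q * (n - dX G) = 2 * (n * Q) - 2 * (dX G * Q) := by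
      rw [Nat.mul_sub]
      congr 1 <;> ring
    rw [h4]
    omega
  have h4 : m * G.natDegree ≤ m * (16 * d * Q) := by
    calc m * G.natDegree ≤ 2 * Q * (n - dX G) * G.natDegree := Nat.mul_le_mul_right _ h3
      _ = 2 * Q * ((n - dX G) * G.natDegree) := by ring
      _ ≤ 2 * Q * (8 * (m * d)) := Nat.mul_le_mul_left _ h1
      _ = m * (16 * d * Q) := by ring
  have h5 : G.natDegree ≤ 16 * d * Q := Nat.le_of_mul_le_mul_left h4 hm1
  refine h5.trans ?_
  rw [hQ]
  calc 16 * d * N ^ 52 ≤ N * N ^ 52 := Nat.mul_le_mul_right _ (by omega)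
    _ = N ^ 53 := by ring

end Pool.Agent.H36.LF
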