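import Pool.Agent.H36.LF.SaA
import Pool.Agent.H36.LE.ScD

/-!
# THEOREM L, version 2 (MP_187c26_nt), step C: the logarithmic derivative is algebraic (twisted)

MODEL: `om_deg` and `om_alg` in `Pool/Agent/H36/LE/ScD.lean` (copy and change; `om_fin`, `om_eq`, `om_mem`, `tower` are used unchanged over `k`). Imports may be sorried.
PROOFS. `om_degA`: `R := k[X][Y] ⧸ (H)`, a domain, `𝒦 := FractionRing R`, `x̄`, `ȳ` the classes of `X`, `Y`, `ω := om x̄ ȳ H ∈ 𝒦` (`om` over `k`). Let `σ` be bijective and `(T', θ')` a zero of `tw σ H`, `T'` transcendental. The ring homomorphism `P ↦ (tw σ P)(T', θ')`, `k[X][Y] → Ω`, has kernel `(H)`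
(`dvd_of_root` for `tw σ H`, irreducible of ... : `tw σ H ∣ tw σ P` gives `H ∣ P` by the inverse automorphism), so it extends to a ring homomorphism `j : 𝒦 →+* Ω` (`IsFractionRing.lift`), with `j x̄ = T'`, `j ȳ = θ'`, `j (algebraMap k 𝒦 c) = algebraMap k Ω (σ c)`, and `j ω = om T' θ' (tw σ H)` (`dx`, `derivative` commute with `tw`). As subfields
(`IntermediateField.toSubfield`; `relfinrank` of intermediate fields is `Subfield.relfinrank` of the subfields, by definition): `(k(ω)).map j = k(j ω)`, `(k(x̄, ȳ)).map j = k(T', θ')`: the subfield generated by `σ(k) = k` and the elements (`Subfield.closure`, `RingHom.map_field_closure`, `IntermediateField.adjoin` is by definition `Subfield.closure (range algebraMap ∪ S)`).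
`Subfield.relfinrank_map_map`: `relfinrank k(j ω) k(T', θ') = relfinrank k(ω) k(x̄, ȳ) =: n`.
`om_algA`: as `om_alg` with `tw (σ l) H` at `(T^l, θ^l)` and `tw (σ l') H` at `(T^l', θ^l')` in the places of `H`: `om T θ G = om (T^l) (θ^l) (tw (σ l) H)` (`om_eq`), the degrees in `Y` are those of `H` (`natDegree_tw`).
-/

set_option autoImplicit false

open Polynomial NumberField IntermediateField
open scoped Polynomial.Bivariate

namespace Pool.Agent.H36.LF

open Pool.Agent.H36.LE

variable {k Ω : Type} [Field k] [Field Ω] [Algebra k Ω]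

private theorem swap_tw (σ : k →+* k) (P : k[X][Y]) :
    Bivariate.swap (tw σ P) = tw σ (Bivariate.swap P) := by
  have h : (Bivariate.swap (R := k) : k[X][Y] →+* k[X][Y]).comp (tw σ) =
      (tw σ).comp (Bivariate.swap (R := k) : k[X][Y] →+* k[X][Y]) := by
    refine Polynomial.ringHom_ext' (Polynomial.ringHom_ext' (RingHom.ext fun a => ?_) ?_) ?_
    · show Bivariate.swap (tw σ (C (C a))) = tw σ (Bivariate.swap (C (C a)))
      have e1 : (C (C a) : k[X][Y]) = algebraMap k k[X][Y] a := rfl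
      have e2 : (C (C (σ a)) : k[X][Y]) = algebraMap k k[X][Y] (σ a) := rfl
      rw [tw_C, Polynomial.map_C, e1, e2, AlgEquiv.commutes, AlgEquiv.commutes, ← e1, tw_C,
        Polynomial.map_C, e2]
    · show Bivariate.swap (tw σ (C X)) = tw σ (Bivariate.swap (C X))
      have e1 : tw σ (C X) = C X := by rw [tw_C, Polynomial.map_X]
      have e2 : tw σ (Y : k[X][Y]) = Y := by simp [tw]
      rw [e1, Bivariate.swap_X, e2]
    · show Bivariate.swap (tw σ Y) = tw σ (Bivariate.swap Y)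
      have e1 : tw σ (C X) = C X := by rw [tw_C, Polynomial.map_X]
      have e2 : tw σ (Y : k[X][Y]) = Y := by simp [tw]
      rw [e2, Bivariate.swap_Y, e1]
  exact RingHom.congr_fun h P

private theorem der_tw (σ : k →+* k) (P : k[X][Y]) : derivative (tw σ P) = tw σ (derivative P) :=
  Polynomial.derivative_map P (mapRingHom σ)

private theorem dx_tw (σ : k →+* k) (P : k[X][Y]) : dx (tw σ P) = tw σ (dx P) := by
  unfold dx
  rw [swap_tw, der_tw, swap_tw]

private theorem sd_semi {A B : Type} [CommRing A] [Algebra k A] [CommRing B] [Algebra k B]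
    (σ : k →+* k) (f : A →+* B) (hf : ∀ c : k, f (algebraMap k A c) = algebraMap k B (σ c))
    (x y : A) (P : k[X][Y]) :
    f (aevalAeval (R := k) x y P) = aevalAeval (R := k) (f x) (f y) (tw σ P) := by
  have h : f.comp ((aevalAeval (R := k) x y : k[X][Y] →ₐ[k] A) : k[X][Y] →+* A) =
      ((aevalAeval (R := k) (f x) (f y) : k[X][Y] →ₐ[k] B) : k[X][Y] →+* B).comp (tw σ) := by
    refine Polynomial.ringHom_ext' (Polynomial.ringHom_ext' (RingHom.ext fun a => ?_) ?_) ?_
    · show f (aevalAeval (R := k) x y (C (C a))) =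
        aevalAeval (R := k) (f x) (f y) (tw σ (C (C a)))
      rw [tw_C, Polynomial.map_C, aevalAeval_C, aevalAeval_C, aeval_C, aeval_C, hf]
    · show f (aevalAeval (R := k) x y (C X)) = aevalAeval (R := k) (f x) (f y) (tw σ (C X))
      rw [tw_C, Polynomial.map_X, aevalAeval_X, aevalAeval_X]
    · show f (aevalAeval (R := k) x y Y) = aevalAeval (R := k) (f x) (f y) (tw σ Y)
      have e2 : tw σ (Y : k[X][Y]) = Y := by simp [tw]
      rw [e2, aevalAeval_Y, aevalAeval_Y]
  exact RingHom.congr_fun h P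

private theorem om_semi {F : Type} [Field F] [Algebra k F] (σ : k →+* k) (f : F →+* Ω)
    (hf : ∀ c : k, f (algebraMap k F c) = algebraMap k Ω (σ c)) (x y : F)
    (G : k[X][Y]) : f (om x y G) = om (f x) (f y) (tw σ G) := by
  unfold om
  rw [map_div₀, map_neg, map_mul, map_mul, sd_semi σ f hf, sd_semi σ f hf, dx_tw, der_tw]

private theorem adj_semi {F : Type} [Field F] [Algebra k F] (σ : k →+* k)
    (hσ : Function.Surjective σ) (f : F →+* Ω)
    (hf : ∀ c : k, f (algebraMap k F c) = algebraMap k Ω (σ c)) (S : Set F) :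
    (adjoin k S).toSubfield.map f = (adjoin k (f '' S)).toSubfield := by
  rw [adjoin_toSubfield, adjoin_toSubfield, RingHom.map_field_closure, Set.image_union]
  congr 2
  ext z
  constructor
  · rintro ⟨_, ⟨c, rfl⟩, rfl⟩
    exact ⟨σ c, (hf c).symm⟩
  · rintro ⟨c, rfl⟩
    obtain ⟨c', rfl⟩ := hσ c
    exact ⟨_, ⟨c', rfl⟩, hf c'⟩

private theorem tw_dvd (σ : k →+* k) (hσ : Function.Bijective σ) {H P : k[X][Y]}
    (h : tw σ H ∣ tw σ P) : H ∣ P := by
  let e : k[X][Y] ≃+* k[X][Y] :=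
    Polynomial.mapEquiv (Polynomial.mapEquiv (RingEquiv.ofBijective σ hσ))
  have he : ∀ P, e P = tw σ P := fun P => rfl
  obtain ⟨R, hR⟩ := h
  refine ⟨e.symm R, ?_⟩
  apply e.injective
  rw [map_mul, e.apply_symm_apply, he, he, hR]

private theorem tw_irr (σ : k →+* k) (hσ : Function.Bijective σ) {H : k[X][Y]}
    (h : Irreducible H) : Irreducible (tw σ H) := by
  let e : k[X][Y] ≃+* k[X][Y] :=
    Polynomial.mapEquiv (Polynomial.mapEquiv (RingEquiv.ofBijective σ hσ))
  have he : e H = tw σ H := rfl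
  rw [← he]
  exact (MulEquiv.irreducible_iff e).2 h

private theorem deg_aux (H : k[X][Y]) (hH : Irreducible H) {A F : Type} [CommRing A] [IsDomain A]
    [Algebra k A] [Field F] [Algebra A F] [Algebra k F] [IsScalarTower k A F] [IsFractionRing A F]
    (π : k[X][Y] →ₐ[k] A) (hπ : Function.Surjective π) (hπ0 : π H = 0)
    (σ : k →+* k) (hσ : Function.Bijective σ)
    (T θ : Ω) (hT : Transcendental k T) (h0 : aevalAeval (R := k) T θ (tw σ H) = 0)
    (g : A →+* Ω) (hgm : ∀ P, g (π P) = aevalAeval (R := k) T θ (tw σ P)) :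
    relfinrank k⟮om T θ (tw σ H)⟯ (adjoin k {T, θ}) =
      relfinrank k⟮om (algebraMap A F (π (C X))) (algebraMap A F (π Y)) H⟯
        (adjoin k {algebraMap A F (π (C X)), algebraMap A F (π Y)}) := by
  have hg : Function.Injective g := by
    rw [injective_iff_map_eq_zero]
    intro a ha
    obtain ⟨P, rfl⟩ := hπ a
    rw [hgm] at ha
    obtain ⟨Q, rfl⟩ := tw_dvd σ hσ (dvd_of_root T θ hT (tw σ H) (tw σ P) (tw_irr σ hσ hH) h0 ha)
    rw [map_mul, hπ0, zero_mul]
  let j : F →+* Ω := IsFractionRing.lift hg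
  have hj : ∀ a, j (algebraMap A F a) = g a :=
    fun a => IsFractionRing.lift_algebraMap hg a
  have hjc : ∀ c : k, j (algebraMap k F c) = algebraMap k Ω (σ c) := by
    intro c
    have e1 : π (C (C c)) = algebraMap k A c := π.commutes c
    rw [IsScalarTower.algebraMap_apply k A F, hj, ← e1, hgm, tw_C, Polynomial.map_C, aevalAeval_C,
      aeval_C]
  have hx : j (algebraMap A F (π (C X))) = T := by
    rw [hj, hgm, tw_C, Polynomial.map_X, aevalAeval_X]
  have hy : j (algebraMap A F (π Y)) = θ := by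
    have e2 : tw σ (Y : k[X][Y]) = Y := by simp [tw]
    rw [hj, hgm, e2, aevalAeval_Y]
  have h1 : (adjoin k {algebraMap A F (π (C X)), algebraMap A F (π Y)}).toSubfield.map j =
      (adjoin k {T, θ}).toSubfield := by
    rw [adj_semi σ hσ.surjective j hjc, Set.image_pair, hx, hy]
  have h2 : (k⟮om (algebraMap A F (π (C X))) (algebraMap A F (π Y)) H⟯).toSubfield.map j =
      (k⟮om T θ (tw σ H)⟯).toSubfield := by
    rw [adj_semi σ hσ.surjective j hjc, Set.image_singleton, om_semi σ j hjc, hx, hy]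
  show Subfield.relfinrank _ _ = Subfield.relfinrank _ _
  rw [← h1, ← h2, Subfield.relfinrank_map_map]

private theorem deg_aux2 (H : k[X][Y]) (hH : Irreducible H) {A : Type} [CommRing A] [IsDomain A]
    [Algebra k A] (π : k[X][Y] →ₐ[k] A) (hπ : Function.Surjective π) (hπ0 : π H = 0)
    (hl : ∀ (σ : k →+* k) (T θ : Ω), aevalAeval (R := k) T θ (tw σ H) = 0 →
      ∃ g : A →+* Ω, ∀ P, g (π P) = aevalAeval (R := k) T θ (tw σ P)) :
    ∃ n : ℕ, ∀ σ : k →+* k, Function.Bijective σ → ∀ T θ : Ω, Transcendental k T →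
      aevalAeval (R := k) T θ (tw σ H) = 0 →
      relfinrank k⟮om T θ (tw σ H)⟯ (adjoin k {T, θ}) = n := by
  refine ⟨relfinrank k⟮om (algebraMap A (FractionRing A) (π (C X)))
    (algebraMap A (FractionRing A) (π Y)) H⟯
    (adjoin k {algebraMap A (FractionRing A) (π (C X)), algebraMap A (FractionRing A) (π Y)}), ?_⟩
  intro σ hσ T θ hT h0
  obtain ⟨g, hg⟩ := hl σ T θ h0
  exact deg_aux H hH π hπ hπ0 σ hσ T θ hT h0 g hg

private theorem lift_aux (H : k[X][Y]) (σ : k →+* k) (T θ : Ω)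
    (h0 : aevalAeval (R := k) T θ (tw σ H) = 0) :
    ∃ g : (k[X][Y] ⧸ Ideal.span {H}) →+* Ω, ∀ P, g (Ideal.Quotient.mkₐ k (Ideal.span {H}) P) =
      aevalAeval (R := k) T θ (tw σ P) := by
  refine ⟨Ideal.Quotient.lift (Ideal.span {H})
    (((aevalAeval (R := k) T θ : k[X][Y] →ₐ[k] Ω) : k[X][Y] →+* Ω).comp (tw σ)) ?_, fun P => rfl⟩
  intro a ha
  obtain ⟨b, rfl⟩ := Ideal.mem_span_singleton.1 ha
  show aevalAeval (R := k) T θ (tw σ (H * b)) = 0
  rw [map_mul, map_mul, h0, zero_mul]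

variable (Ω) in
theorem om_degA (H : k[X][Y]) (hH : Irreducible H) :
    ∃ n : ℕ, ∀ σ : k →+* k, Function.Bijective σ → ∀ T θ : Ω, Transcendental k T →
      aevalAeval (R := k) T θ (tw σ H) = 0 →
      relfinrank k⟮om T θ (tw σ H)⟯ (adjoin k {T, θ}) = n := by
  have hprime : (Ideal.span {H}).IsPrime :=
    (Ideal.span_singleton_prime hH.ne_zero).2 hH.prime
  have hdom : IsDomain (k[X][Y] ⧸ Ideal.span {H}) := Ideal.Quotient.isDomain _
  have h1 : Function.Surjective (Ideal.Quotient.mkₐ k (Ideal.span {H})) :=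
    Ideal.Quotient.mkₐ_surjective k (Ideal.span {H})
  have h2 : (Ideal.Quotient.mkₐ k (Ideal.span {H})) H = 0 :=
    Ideal.Quotient.eq_zero_iff_mem.2 (Ideal.mem_span_singleton_self H)
  exact deg_aux2 (A := k[X][Y] ⧸ Ideal.span {H}) H hH (Ideal.Quotient.mkₐ k (Ideal.span {H}))
    h1 h2 (lift_aux H)

theorem om_algA [CharZero k] (T θ : Ω) (hT : Transcendental k T) (hθ : θ ≠ 0) (G : k[X][Y])
    (hG : Irreducible G) (h1 : 1 ≤ G.natDegree) (h0 : aevalAeval (R := k) T θ G = 0)
    (σ : ℕ → (k →+* k)) (l l' : ℕ) (hσ : Function.Bijective (σ l))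
    (hσ' : Function.Bijective (σ l'))
    (hl : 1 ≤ l) (hl' : 1 ≤ l') (hll : l ≠ l') (H : k[X][Y]) (hH : Irreducible H)
    (hH1 : 1 ≤ H.natDegree) (hH0 : aevalAeval (R := k) (T ^ l) (θ ^ l) (tw (σ l) H) = 0)
    (hH0' : aevalAeval (R := k) (T ^ l') (θ ^ l') (tw (σ l') H) = 0) :
    IsAlgebraic k (om T θ G) := by
  by_contra htr
  obtain ⟨n, hn⟩ := om_degA Ω H hH
  have N := om_fin T θ hT G hG h1 h0 _ (om_mem T θ G) htr
  have key : ∀ m : ℕ, 1 ≤ m → Function.Bijective (σ m) →
      aevalAeval (R := k) (T ^ m) (θ ^ m) (tw (σ m) H) = 0 →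
      n * relfinrank (adjoin k {T ^ m, θ ^ m}) (adjoin k {T, θ}) =
        relfinrank k⟮om T θ G⟯ (adjoin k {T, θ}) := by
    intro m hm hσm hm0
    have e1 := om_eq T θ hT hθ G hG h1 h0 m hm (tw (σ m) H) (tw_irr (σ m) hσm hH)
      (by rw [natDegree_tw]; exact hH1) hm0
    have e2 := hn (σ m) hσm (T ^ m) (θ ^ m) (hT.pow hm) hm0
    rw [← e1] at e2
    have e3 : k⟮om T θ G⟯ ≤ adjoin k {T ^ m, θ ^ m} := by
      rw [adjoin_simple_le_iff, e1]
      exact om_mem _ _ _
    have e4 : adjoin k {T ^ m, θ ^ m} ≤ adjoin k {T, θ} := by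
      rw [adjoin_le_iff]
      rintro x (rfl | rfl)
      · exact pow_mem (subset_adjoin k {T, θ} (Set.mem_insert T {θ})) m
      · exact pow_mem (subset_adjoin k {T, θ} (Set.mem_insert_of_mem T (Set.mem_singleton θ))) m
    rw [← e2]
    exact relfinrank_mul_relfinrank e3 e4
  have k1 := key l hl hσ hH0
  have k2 := key l' hl' hσ' hH0'
  have hn0 : n ≠ 0 := by
    rintro rfl
    rw [zero_mul] at k1
    exact N k1.symm
  have k3 : relfinrank (adjoin k {T ^ l, θ ^ l}) (adjoin k {T, θ}) =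
      relfinrank (adjoin k {T ^ l', θ ^ l'}) (adjoin k {T, θ}) :=
    Nat.eq_of_mul_eq_mul_left (Nat.pos_of_ne_zero hn0) (k1.trans k2.symm)
  have t1 := tower T θ hT G hG h1 h0 l hl (tw (σ l) H) (tw_irr (σ l) hσ hH)
    (by rw [natDegree_tw]; exact hH1) hH0
  have t2 := tower T θ hT G hG h1 h0 l' hl' (tw (σ l') H) (tw_irr (σ l') hσ' hH)
    (by rw [natDegree_tw]; exact hH1) hH0'
  rw [natDegree_tw] at t1 t2
  rw [k3, t2] at t1
  exact hll (Nat.eq_of_mul_eq_mul_right (by omega) t1).symm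

end Pool.Agent.H36.LF
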