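import Pool.Agent.H72.BE.Fro
import Pool.Agent.H72.BE.Fin
import Pool.Agent.H69.BE.KA
import Pool.Agent.H4.RR.AbsHeight

/-!
# THEOREM L, version 2 (MP_187c26_nt): places over a prime `p`

PROOFS. `exists_place`: `e := [A : ℚ]`, `H := log (mulHeight₁ y) = e absLogHeight₁ y` (`absLogHeight_eq` for the identity), `mulHeight₁ y = ∏_t max(1, |t y|) ∏ᶠ_v max(1, v y)` (`Height.mulHeight₁_eq`; see `mulHeight₁_eq` in `Pool/Agent/H4/RR/` or `H36/LE/NmA`), the same for `y⁻¹`, `mulHeight₁ y⁻¹ = mulHeight₁ y`.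
For finite `v`: `|log (v y)| = log max(1, v y) + log max(1, v y⁻¹)`. Sum over the (finitely many) `v` with `v p < 1`: `∑ |log (v y)| ≤ 2 H = 2 e h(y)`. Product formula for `p` (`prod_formula`): `∑_(v p < 1) |log (v p)| = e log p > 0`, so there is such a `v`. If `|log (v y)| log p > 2 h |log (v p)|` for all `v` with `v p < 1` then
summing gives `2 e h log p ≥ ∑ |log (v y)| log p > 2 h e log p`, contradiction.
`unram_val`: `σ` with `Frob A p σ` (`frob_cyc`, `p ∤ n`). `σ` has finite order: `σ^f = 1`, `f ≥ 1` (automorphisms of `A` over `ℚ` form a finite group), so `a ≡ a^(p^f)` modulo `p 𝓞 A` for all `a ∈ 𝓞 A` (`Pool.Agent.H69.BE` `frob_pow`, iterate the congruence: if `u ≡ w` modulo `p` then `u^p ≡ w^p`). `P := v.maximalIdeal`, `p ∈ P`.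
`p ∉ P^2`: otherwise take `a ∈ P`, `a ∉ P^2` (`P ≠ P^2` in a Dedekind domain, `P ≠ ⊥`): `a^(p^f) ∈ P^2`, `a ∈ P^2 + p 𝓞 = P^2`. So `v p` is the value of a uniformizer (`v p = N(P)^(-1)`, `FinitePlace` norm = `(absNorm P)^(-ord)`), and `v y` is a power of it: for `y ∈ 𝓞 A`, `y ≠ 0`: `ord_P y = t`, `v y = (v p)^t`; in general a quotient.
-/

set_option autoImplicit false

open NumberField IntermediateField

namespace Pool.Agent.H36.LF

variable {A : Type} [Field A] [NumberField A]

private theorem le_one_nat (v : FinitePlace A) (p : ℕ) : v (p : A) ≤ 1 := by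
  have h := FinitePlace.norm_le_one A v.maximalIdeal (p : 𝓞 A)
  rw [FinitePlace.norm_embedding_eq, map_natCast] at h
  exact h

private theorem place_bound (y : A) (S : Finset (FinitePlace A)) :
    ∑ v ∈ S, Real.posLog (v y) ≤ Height.logHeight₁ y := by
  classical
  rw [NumberField.logHeight₁_eq]
  have h0 : 0 ≤ ∑ v : InfinitePlace A, (v.mult : ℝ) * Real.posLog (v y) :=
    Finset.sum_nonneg fun v _ => mul_nonneg (Nat.cast_nonneg _) Real.posLog_nonneg
  have h1 : ∑ v ∈ S, Real.posLog (v y) ≤ ∑ᶠ v : FinitePlace A, Real.posLog (v y) := by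
    by_cases hy : y = 0
    · have h2 : ∀ v : FinitePlace A, Real.posLog (v y) = 0 := fun v => by
        rw [hy, map_zero, Real.posLog_zero]
      simp only [h2, Finset.sum_const_zero, finsum_zero, le_refl]
    · have hf : (Function.support fun v : FinitePlace A => Real.posLog (v y)).Finite := by
        refine (FinitePlace.hasFiniteMulSupport hy).subset fun v hv => ?_
        intro h3
        apply hv
        have h4 : v y = 1 := h3
        show Real.posLog (v y) = 0
        rw [h4, Real.posLog_one]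
      rw [finsum_eq_sum_of_support_subset (s := hf.toFinset ∪ S) _ (by
        intro v hv
        rw [Finset.coe_union, Set.mem_union]
        left
        rw [Set.Finite.coe_toFinset]
        exact hv)]
      exact Finset.sum_le_sum_of_subset_of_nonneg Finset.subset_union_right
        fun v _ _ => Real.posLog_nonneg
  linarith

theorem exists_place (p : ℕ) (hp : p.Prime) (y : A) (hy : y ≠ 0) :
    ∃ v : FinitePlace A, v (p : A) < 1 ∧
      |Real.log (v y)| * Real.log p ≤ 2 * absLogHeight₁ y * |Real.log (v (p : A))| := by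
  classical
  have hp0 : (p : A) ≠ 0 := Nat.cast_ne_zero.2 hp.ne_zero
  have hpf : (Function.mulSupport fun v : FinitePlace A => v (p : A)).Finite :=
    FinitePlace.hasFiniteMulSupport hp0
  obtain ⟨S, hS⟩ : ∃ S : Finset (FinitePlace A), ∀ v, v ∈ S ↔ v (p : A) ≠ 1 :=
    ⟨hpf.toFinset, fun v => by rw [Set.Finite.mem_toFinset, Function.mem_mulSupport]⟩
  have hS1 : ∀ v ∈ S, v (p : A) < 1 := fun v hv =>
    lt_of_le_of_ne (le_one_nat v p) ((hS v).1 hv)
  have hlogp : 0 < Real.log p := Real.log_pos (by exact_mod_cast hp.one_lt)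
  have he : (0 : ℝ) < Module.finrank ℚ A := by
    exact_mod_cast (Module.finrank_pos (R := ℚ) (M := A))
  have hprod : (Module.finrank ℚ A : ℝ) * Real.log p = ∑ v ∈ S, |Real.log (v (p : A))| := by
    have h1 := Pool.Agent.H72.BE.prod_formula (p : A) hp0
    have h2 : (∏ t : A →+* ℂ, ‖t (p : A)‖) = (p : ℝ) ^ Module.finrank ℚ A := by
      have h3 : ∀ t : A →+* ℂ, ‖t (p : A)‖ = p := fun t => by
        rw [map_natCast, Complex.norm_natCast]
      rw [Finset.prod_congr rfl fun t _ => h3 t, Finset.prod_const, Finset.card_univ,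
        Embeddings.card]
    have h4 : ∏ᶠ v : FinitePlace A, v (p : A) = ∏ v ∈ S, v (p : A) :=
      finprod_eq_prod_of_mulSupport_subset _ fun v hv => by
        rw [Finset.mem_coe, hS]
        exact hv
    rw [h2, h4] at h1
    have h5 := congrArg Real.log h1
    have h6 : ∀ v ∈ S, v (p : A) ≠ 0 := fun v _ => (FinitePlace.pos_iff.2 hp0).ne'
    rw [Real.log_mul (pow_ne_zero _ (Nat.cast_ne_zero.2 hp.ne_zero)) (Finset.prod_ne_zero_iff.2 h6),
      Real.log_pow, Real.log_prod h6, Real.log_one] at h5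
    have h7 : ∑ v ∈ S, |Real.log (v (p : A))| = - ∑ v ∈ S, Real.log (v (p : A)) := by
      rw [← Finset.sum_neg_distrib]
      refine Finset.sum_congr rfl fun v hv => abs_of_neg ?_
      exact Real.log_neg (FinitePlace.pos_iff.2 hp0) (hS1 v hv)
    rw [h7]
    linarith
  have hsum : ∑ v ∈ S, |Real.log (v y)| ≤ 2 * (Module.finrank ℚ A * absLogHeight₁ y) := by
    have h1 : Module.finrank ℚ A * absLogHeight₁ y = Height.logHeight₁ y := by
      have h2 := Pool.Agent.H4.RR.absLogHeight_eq A A (RingHom.id A) y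
      rw [RingHom.id_apply] at h2
      rw [h2]
      field_simp
    have h3 : ∀ v ∈ S, |Real.log (v y)| = Real.posLog (v y) + Real.posLog (v y⁻¹) := by
      intro v _
      have h4 : v y⁻¹ = (v y)⁻¹ := map_inv₀ v y
      have h5 := Real.half_mul_log_add_log_abs (x := v y)
      have h6 := Real.half_mul_log_add_log_abs (x := (v y)⁻¹)
      rw [Real.log_inv, abs_neg] at h6
      rw [h4]
      linarith
    rw [Finset.sum_congr rfl h3, Finset.sum_add_distrib, h1]
    have h7 := place_bound y S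
    have h8 := place_bound y⁻¹ S
    rw [Height.logHeight₁_inv] at h8
    linarith
  by_contra hcon
  push Not at hcon
  have hSne : S.Nonempty := by
    rw [Finset.nonempty_iff_ne_empty]
    rintro rfl
    rw [Finset.sum_empty] at hprod
    have h1 : 0 < (Module.finrank ℚ A : ℝ) * Real.log p := mul_pos he hlogp
    linarith
  have h1 := Finset.sum_lt_sum_of_nonempty hSne fun v hv => hcon v (hS1 v hv)
  rw [← Finset.mul_sum, ← Finset.sum_mul, ← hprod] at h1
  have h2 := mul_le_mul_of_nonneg_right hsum hlogp.le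
  have h3 : 2 * absLogHeight₁ y * (Module.finrank ℚ A * Real.log p) =
      2 * (Module.finrank ℚ A * absLogHeight₁ y) * Real.log p := by ring
  linarith

private theorem frob_fin (σ : A →+* A) : ∃ f : ℕ, 1 ≤ f ∧ ∀ a : A, (σ ^ f) a = a := by
  classical
  have hb : Function.Bijective σ.toRatAlgHom := by
    refine AlgHom.bijective σ.toRatAlgHom
  obtain ⟨e, he⟩ : ∃ e : A ≃ₐ[ℚ] A, ∀ a, e a = σ a :=
    ⟨AlgEquiv.ofBijective σ.toRatAlgHom hb, fun _ => rfl⟩
  have h1 : ∀ (f : ℕ) (a : A), (σ ^ f) a = (e ^ f) a := by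
    intro f
    induction f with
    | zero => intro a; rfl
    | succ f ih =>
      intro a
      rw [pow_succ', pow_succ']
      show σ ((σ ^ f) a) = e ((e ^ f) a)
      rw [ih, he]
  refine ⟨orderOf e, orderOf_pos e, fun a => ?_⟩
  rw [h1, pow_orderOf_eq_one]
  rfl

theorem unram_val (n : ℕ) (hn : 1 ≤ n) (ξ : A) (hξ : IsPrimitiveRoot ξ n)
    (hgen : IntermediateField.adjoin ℚ {ξ} = ⊤) (p : ℕ) (hp : p.Prime) (hpn : ¬ p ∣ n)
    (v : FinitePlace A) (hv : v (p : A) < 1) (y : A) (hy : y ≠ 0) :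
    ∃ t : ℤ, v y = v (p : A) ^ t := by
  classical
  obtain ⟨σ, hσ, -⟩ := Pool.Agent.H72.BE.frob_cyc n hn ξ hξ hgen p hp hpn
  obtain ⟨f, hf, hfid⟩ := frob_fin σ
  obtain ⟨P, hP⟩ : ∃ P, P = v.maximalIdeal.asIdeal := ⟨_, rfl⟩
  have hP0 : P ≠ ⊥ := by
    rw [hP]
    exact v.maximalIdeal.ne_bot
  have hPp : P.IsPrime := by
    rw [hP]
    exact v.maximalIdeal.isPrime
  have hpP : (p : 𝓞 A) ∈ P := by
    rw [hP, ← FinitePlace.norm_lt_one_iff_mem A, FinitePlace.norm_embedding_eq, map_natCast]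
    exact hv
  have hpP2 : (p : 𝓞 A) ∉ P ^ 2 := by
    intro h2
    obtain ⟨a, ha1, ha2⟩ := Ideal.exists_mem_pow_notMem_pow_succ P hP0 hPp.ne_top 1
    rw [pow_one] at ha1
    obtain ⟨c, hc⟩ := Pool.Agent.H69.BE.frob_pow p σ hσ f a
    rw [hfid] at hc
    have h3 : a = a ^ (p ^ f) + p * c := by
      apply RingOfIntegers.ext
      show (a : A) = algebraMap (𝓞 A) A (a ^ (p ^ f) + p * c)
      rw [map_add, map_pow, map_mul, map_natCast]
      exact hc
    apply ha2
    rw [h3]
    refine add_mem ?_ (Ideal.mul_mem_right _ _ h2)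
    have h4 : 2 ≤ p ^ f := by
      calc 2 ≤ p := hp.two_le
        _ = p ^ 1 := (pow_one p).symm
        _ ≤ p ^ f := Nat.pow_le_pow_right hp.pos hf
    exact Ideal.pow_le_pow_right h4 (Ideal.pow_mem_pow ha1 _)
  have hpO : (p : 𝓞 A) ≠ 0 := Nat.cast_ne_zero.2 hp.ne_zero
  have hm : multiplicity P (Ideal.span {(p : 𝓞 A)}) = 1 := by
    refine multiplicity_eq_of_dvd_of_not_dvd ?_ ?_
    · rw [pow_one, Ideal.dvd_span_singleton]
      exact hpP
    · rw [Ideal.dvd_span_singleton]
      exact hpP2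
  obtain ⟨N, hN⟩ : ∃ N : ℝ, N = (P.absNorm : ℝ) := ⟨_, rfl⟩
  have hint : ∀ a : 𝓞 A, a ≠ 0 → v (a : A) * N ^ multiplicity P (Ideal.span {a}) = 1 := by
    intro a ha
    have h1 := v.apply_mul_absNorm_pow_eq_one ha
    rw [← hP, ← hN] at h1
    exact h1
  have hvp : v (p : A) * N = 1 := by
    have h1 := hint (p : 𝓞 A) hpO
    rw [hm, pow_one] at h1
    have h2 : (((p : 𝓞 A) : 𝓞 A) : A) = (p : A) := map_natCast (algebraMap (𝓞 A) A) p
    rw [h2] at h1
    exact h1
  have hvp0 : v (p : A) ≠ 0 := by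
    intro h
    rw [h, zero_mul] at hvp
    exact zero_ne_one hvp
  have hN1 : N = (v (p : A))⁻¹ := eq_inv_of_mul_eq_one_right hvp
  have hpow : ∀ a : 𝓞 A, a ≠ 0 → ∃ k : ℕ, v (a : A) = v (p : A) ^ k := by
    intro a ha
    refine ⟨multiplicity P (Ideal.span {a}), ?_⟩
    have h1 := hint a ha
    rw [hN1, inv_pow] at h1
    have h2 : v (p : A) ^ multiplicity P (Ideal.span {a}) ≠ 0 := pow_ne_zero _ hvp0
    field_simp at h1
    exact h1
  obtain ⟨a, b, hb, hab⟩ := IsFractionRing.div_surjective (A := 𝓞 A) y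
  have hb0 : b ≠ 0 := nonZeroDivisors.ne_zero hb
  have ha0 : a ≠ 0 := by
    rintro rfl
    rw [map_zero, zero_div] at hab
    exact hy hab.symm
  obtain ⟨k, hk⟩ := hpow a ha0
  obtain ⟨l, hl⟩ := hpow b hb0
  refine ⟨(k : ℤ) - l, ?_⟩
  rw [← hab, map_div₀, zpow_sub₀ hvp0, zpow_natCast, zpow_natCast]
  have hk' : v (algebraMap (𝓞 A) A a) = v (p : A) ^ k := hk
  have hl' : v (algebraMap (𝓞 A) A b) = v (p : A) ^ l := hl
  rw [hk', hl']

end Pool.Agent.H36.LF
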