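import Pool.Agent.H36.LF.LhB
import Pool.Agent.H36.LF.UnV

/-!
# THEOREM L, version 2 (MP_187c26_nt), step D: heights of `κ^m b^s` over `A = ℚ(ξ)`

MODEL: `stepD` in `Pool/Agent/H36/LE/SdA.lean` (copy and change). Imports may be sorried (`lehmerA`, `exists_place`, `unram_val`).
PROOF. `w` a prime divisor of `b`, `w ∤ n`, `vb := v_w(b) ≥ 1` (`padicValNat`), `b = w^vb b'`, `w ∤ b'`. `N₁ := finrank A A⟮κ⟯ ≤ N`, `y := κ^m b^s ∈ A(κ)`, `η := absLogHeight₁ y`, `ν := N_(A(κ)/A)(κ) ∈ A`, `ν ≠ 0`, `N(y) = ν^m b^(s N₁)`.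
(1) `h(N(y)) ≤ N₁ η`: the norm is the product of the `N₁` conjugates of `y` over `A` in an algebraic closure (`Algebra.norm_eq_prod_embeddings A`), all of height `η` (they have the same minimal polynomial over `ℚ`: `absLogHeight_eq`/`absLogHeight_eq_of_minpoly_eq`).
(2) `exists_place w (N(y))`: a finite place `v` of `A` with `v(w) < 1` and `|log v(N(y))| log w ≤ 2 h(N(y)) |log v(w)|`. `unram_val`: `v(ν) = v(w)^t`, `t ∈ ℤ`; `v(b') = 1` (Bezout `w u + b' u' = 1`, `v ≤ 1` on integers), `v(b) = v(w)^vb`. So `v(N(y)) = v(w)^E`, `E := m t + s N₁ vb`, and `|E| log w ≤ 2 N₁ η` (`|log v(w)| > 0`).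
(3) `κ' := κ^(N₁ vb) b^(-t)`: `κ'^m = y^(N₁ vb) b^(-E)`. `m h(κ') ≤ N₁ vb η + |E| log b ≤ N₁ η (vb + 2 log b/log 2)` (`h(b^k) = |k| log b`). `κ' ∈ A(κ)`: degree `≤ N₁ ≤ N` over `A`, `κ' ≠ 0`, not a root of unity: `κ'^k = 1` gives `κ^(k N₁ vb) = b^(k t)`, excluded. `lehmerA` for `κ'` and `N`: `h(κ') ≥ c/N^4`.
So `η ≥ c m/(N^5 (vb + 2 log b/log 2))`.
-/

set_option autoImplicit false

open Polynomial NumberField IntermediateField

namespace Pool.Agent.H36.LF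

open Pool.Agent.H36.LE

private theorem prod_le {Ω ι : Type} [Field Ω] [CharZero Ω] (s : Finset ι) (f : ι → Ω)
    (hf : ∀ i ∈ s, IsIntegral ℚ (f i)) :
    absLogHeight₁ (∏ i ∈ s, f i) ≤ ∑ i ∈ s, absLogHeight₁ (f i) := by
  classical
  induction s using Finset.induction_on with
  | empty =>
    rw [Finset.prod_empty, Finset.sum_empty]
    have h1 := Pool.Agent.H4.RR.absLogHeight_pow Ω 1 isIntegral_one 0
    rw [pow_zero, Nat.cast_zero, zero_mul] at h1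
    exact h1.le
  | insert a s ha ih =>
    rw [Finset.prod_insert ha, Finset.sum_insert ha]
    have h1 : IsIntegral ℚ (∏ i ∈ s, f i) :=
      IsIntegral.prod _ fun i hi => hf i (Finset.mem_insert_of_mem hi)
    exact (Pool.Agent.H4.RR.absLogHeight_mul_le Ω _ _ (hf a (Finset.mem_insert_self a s)) h1).trans
      (add_le_add_right (ih fun i hi => hf i (Finset.mem_insert_of_mem hi)) _)

/-- (1) -/
private theorem norm_le (A K : Type) [Field A] [NumberField A] [Field K] [NumberField K] [Algebra A K] (y : K) :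
    absLogHeight₁ (Algebra.norm A y) ≤ Module.finrank A K * (Height.logHeight₁ y / Module.finrank ℚ K) := by
  have hfin : Module.Finite A K := Module.Finite.of_restrictScalars_finite ℚ A K
  have h1 := Algebra.norm_eq_prod_embeddings A (AlgebraicClosure A) y
  have h2 := Pool.Agent.H4.RR.absLogHeight_eq A (AlgebraicClosure A) (algebraMap A (AlgebraicClosure A)) (Algebra.norm A y)
  have h2' := Pool.Agent.H4.RR.absLogHeight_eq A A (RingHom.id A) (Algebra.norm A y)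
  rw [RingHom.id_apply] at h2'
  rw [h1] at h2
  rw [h2', ← h2]
  have h3 : ∀ σ : K →ₐ[A] AlgebraicClosure A, absLogHeight₁ (σ y) =
      Height.logHeight₁ y / Module.finrank ℚ K := fun σ =>
    Pool.Agent.H4.RR.absLogHeight_eq K (AlgebraicClosure A) σ.toRingHom y
  refine (prod_le (Finset.univ : Finset (K →ₐ[A] AlgebraicClosure A)) (fun σ => σ y) fun σ _ => ?_).trans ?_
  · exact (Algebra.IsIntegral.isIntegral (R := ℚ) y).map (σ.toRingHom.toRatAlgHom)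
  simp only [h3]
  rw [Finset.sum_const, nsmul_eq_mul, Finset.card_univ, AlgHom.card A K (AlgebraicClosure A)]

private theorem norm_inv (A K : Type) [Field A] [Field K] [Algebra A K] [FiniteDimensional A K] (x : K) :
    Algebra.norm A x⁻¹ = (Algebra.norm A x)⁻¹ := by
  by_cases h : x = 0
  · rw [h, inv_zero, Algebra.norm_zero, inv_zero]
  · apply eq_inv_of_mul_eq_one_left
    rw [← map_mul, inv_mul_cancel₀ h, map_one]

private theorem norm_zpow (A : Type) {K : Type} [Field A] [Field K] [Algebra A K] [FiniteDimensional A K] (x : K) (s : ℤ) :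
    Algebra.norm A (x ^ s) = Algebra.norm A x ^ s :=
  map_zpow' (Algebra.norm A) (norm_inv A K) x s

private theorem height_b (E : Type) [Field E] [NumberField E] (b : ℕ) (hb : 2 ≤ b) :
    Height.logHeight₁ (b : E) = Module.finrank ℚ E * Real.log b := by
  have hne : NeZero b := ⟨by omega⟩
  have h1 := Pool.Agent.H4.RR.mulHeight₁_algebraMap ℚ E (b : ℚ)
  rw [map_natCast, Rat.mulHeight₁_natCast] at h1
  rw [Height.logHeight₁_eq_log_mulHeight₁, h1, Real.log_pow]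

private theorem place_one {A : Type} [Field A] [NumberField A] (v : FinitePlace A) {w b : ℕ} (hv : v (w : A) < 1)
    (hc : w.Coprime b) : v (b : A) = 1 := by
  have h1 : ∀ n : ℕ, v (n : A) = ‖FinitePlace.embedding v.maximalIdeal (algebraMap (𝓞 A) A (n : 𝓞 A))‖ := fun n => by
    rw [FinitePlace.norm_embedding_eq, map_natCast (algebraMap (𝓞 A) A)]
  have hw : (w : 𝓞 A) ∈ v.maximalIdeal.asIdeal := by
    rw [← FinitePlace.norm_lt_one_iff_mem (K := A), ← h1]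
    exact hv
  have hb : (b : 𝓞 A) ∉ v.maximalIdeal.asIdeal := by
    intro hb
    have h3 : (1 : 𝓞 A) ∈ v.maximalIdeal.asIdeal := by
      have h4 := Nat.isCoprime_iff_coprime.2 hc
      obtain ⟨x, y, hxy⟩ := h4
      have h5 : ((x : 𝓞 A) * (w : 𝓞 A) + (y : 𝓞 A) * (b : 𝓞 A)) = 1 := by exact_mod_cast congrArg (Int.cast : ℤ → 𝓞 A) hxy
      rw [← h5]
      exact Ideal.add_mem _ (Ideal.mul_mem_left _ _ hw) (Ideal.mul_mem_left _ _ hb)
    exact v.maximalIdeal.isPrime.ne_top ((Ideal.eq_top_iff_one _).2 h3)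
  rw [← FinitePlace.norm_eq_one_iff_notMem (K := A), ← h1] at hb
  exact hb

theorem stepDA (b : ℕ) (hb : 2 ≤ b) : ∃ c : ℝ, 0 < c ∧ ∃ C : ℕ, ∀ (A Ω : Type) [Field A]
    [NumberField A] [Field Ω] [CharZero Ω] [Algebra A Ω] (n : ℕ) (ξ : A), 1 ≤ n →
    IsPrimitiveRoot ξ n → IntermediateField.adjoin ℚ {ξ} = ⊤ → n.Coprime b →
    ∀ (σ : ℕ → (A →+* A)) (κ : Ω), IsIntegral A κ → κ ≠ 0 →
    (∀ k : ℕ, 1 ≤ k → ∀ j : ℤ, κ ^ k ≠ (b : Ω) ^ j) → ∀ N : ℕ, Module.finrank A A⟮κ⟯ ≤ N →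
    (∀ q : ℕ, q.Prime → N ≤ q → q ≤ C * N ^ 3 → Pool.Agent.H72.BE.Frob A q (σ q)) →
    ∀ (m : ℕ) (s : ℤ), 1 ≤ m →
      c * m / (N : ℝ) ^ 5 ≤ absLogHeight₁ (κ ^ m * (b : Ω) ^ s) := by
  obtain ⟨c0, hc0, C, hleh⟩ := lehmerA
  obtain ⟨w, hw, hwb⟩ := Nat.exists_prime_and_dvd (show b ≠ 1 by omega)
  have hfact : Fact w.Prime := ⟨hw⟩
  obtain ⟨vb, hvb⟩ : ∃ vb, vb = padicValNat w b := ⟨_, rfl⟩
  have hvb1 : 1 ≤ vb := by
    rw [hvb]
    exact one_le_padicValNat_of_dvd (by omega) hwb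
  obtain ⟨b', hb'⟩ : w ^ vb ∣ b := by
    rw [hvb]
    exact pow_padicValNat_dvd
  have hcop : w.Coprime b' := by
    rw [Nat.Prime.coprime_iff_not_dvd hw]
    rintro ⟨k, rfl⟩
    have h1 : w ^ (padicValNat w b + 1) ∣ b := by
      rw [pow_succ, ← hvb]
      exact ⟨k, by rw [mul_assoc, ← hb']⟩
    exact pow_succ_padicValNat_not_dvd (by omega) h1
  have hlog2 : 0 < Real.log 2 := Real.log_pos (by norm_num)
  have hlogw : Real.log 2 ≤ Real.log w := Real.log_le_log (by norm_num) (by exact_mod_cast hw.two_le)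
  have hlogb : 0 < Real.log b := Real.log_pos (by exact_mod_cast (show 1 < b by omega))
  have hA : 0 < (vb : ℝ) + 2 * Real.log b / Real.log 2 := by positivity
  refine ⟨c0 / ((vb : ℝ) + 2 * Real.log b / Real.log 2), by positivity, C, ?_⟩
  intro A Ω _ _ _ _ _ n ξ hn hξ hgen hnb σ κ hκ hκ0 hκb N hN hFr m s hm
  have hfd : FiniteDimensional A A⟮κ⟯ := IntermediateField.adjoin.finiteDimensional hκ
  have hnf : NumberField A⟮κ⟯ := NumberField.of_module_finite A A⟮κ⟯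
  obtain ⟨k0, hk0⟩ : ∃ k0 : A⟮κ⟯, k0 = AdjoinSimple.gen A κ := ⟨_, rfl⟩
  let ι : A⟮κ⟯ →+* Ω := (IntermediateField.val A⟮κ⟯).toRingHom
  have hιk : ι k0 = κ := by
    rw [hk0]
    rfl
  have hk00 : k0 ≠ 0 := by
    intro h
    rw [h, map_zero] at hιk
    exact hκ0 hιk.symm
  have hb0 : (b : A⟮κ⟯) ≠ 0 := Nat.cast_ne_zero.2 (by omega)
  have hbQ : (b : A) ≠ 0 := Nat.cast_ne_zero.2 (by omega)
  obtain ⟨N₁, hN₁⟩ : ∃ N₁, N₁ = Module.finrank A A⟮κ⟯ := ⟨_, rfl⟩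
  obtain ⟨D, hD⟩ : ∃ D, D = Module.finrank ℚ A⟮κ⟯ := ⟨_, rfl⟩
  have hDpos : 1 ≤ D := by
    rw [hD]
    exact Module.finrank_pos
  have hN₁pos : 1 ≤ N₁ := by
    rw [hN₁]
    exact Module.finrank_pos
  rw [← hN₁] at hN
  obtain ⟨ν, hν⟩ : ∃ ν : A, ν = Algebra.norm A k0 := ⟨_, rfl⟩
  have hν0 : ν ≠ 0 := by
    rw [hν, Ne, Algebra.norm_eq_zero_iff]
    exact hk00
  obtain ⟨y, hy⟩ : ∃ y : A⟮κ⟯, y = k0 ^ m * (b : A⟮κ⟯) ^ s := ⟨_, rfl⟩
  have hιy : ι y = κ ^ m * (b : Ω) ^ s := by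
    rw [hy, map_mul, map_pow, hιk, map_zpow₀, map_natCast]
  have hNy : Algebra.norm A y = ν ^ m * ((b : A) ^ N₁) ^ s := by
    have h1 : Algebra.norm A (b : A⟮κ⟯) = (b : A) ^ N₁ := by
      have h2 := Algebra.norm_algebraMap (R := A) (S := A⟮κ⟯) (b : A)
      rw [map_natCast] at h2
      rw [h2, hN₁]
    rw [hy, map_mul, map_pow, norm_zpow, h1, ← hν]
  have hNy0 : Algebra.norm A y ≠ 0 := by
    rw [hNy]
    exact mul_ne_zero (pow_ne_zero _ hν0) (zpow_ne_zero _ (pow_ne_zero _ hbQ))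
  obtain ⟨v, hv1, hv2⟩ := exists_place w hw (Algebra.norm A y) hNy0
  have hwn : ¬ w ∣ n := by
    intro h
    exact hw.one_lt.ne' (Nat.dvd_one.1 (hnb ▸ Nat.dvd_gcd h hwb))
  obtain ⟨t, ht⟩ := unram_val n hn ξ hξ hgen w hw hwn v hv1 ν hν0
  have hw0 : (w : A) ≠ 0 := Nat.cast_ne_zero.2 hw.ne_zero
  have hvw0 : 0 < v (w : A) := FinitePlace.pos_iff.2 hw0
  have hvb2 : v (b : A) = v (w : A) ^ (vb : ℤ) := by
    have h1 : (b : A) = (w : A) ^ vb * (b' : A) := by exact_mod_cast congrArg (Nat.cast : ℕ → A) hb'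
    rw [h1, map_mul, map_pow, place_one v hv1 hcop, mul_one, zpow_natCast]
  obtain ⟨e, he⟩ : ∃ e : ℤ, e = m * t + s * (N₁ * vb) := ⟨_, rfl⟩
  have hve : v (Algebra.norm A y) = v (w : A) ^ e := by
    rw [hNy, map_mul, map_pow, map_zpow₀, map_pow, ht, hvb2, he, ← zpow_natCast, ← zpow_natCast, ← zpow_mul,
      ← zpow_mul, ← zpow_mul, ← zpow_add₀ hvw0.ne']
    congr 1
    ring
  have hlv : 0 < |Real.log (v (w : A))| := abs_pos.2 (Real.log_neg hvw0 hv1).ne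
  have he3 : |(e : ℝ)| * Real.log 2 ≤ 2 * (N₁ * (Height.logHeight₁ y / D)) := by
    rw [hve, Real.log_zpow, abs_mul] at hv2
    have h1 : |(e : ℝ)| * Real.log w ≤ 2 * absLogHeight₁ (Algebra.norm A y) := by
      refine le_of_mul_le_mul_right ?_ hlv
      calc |(e : ℝ)| * Real.log w * |Real.log (v (w : A))| = |(e : ℝ)| * |Real.log (v (w : A))| * Real.log w := by ring
        _ ≤ _ := hv2
    have h2 := norm_le A A⟮κ⟯ y
    rw [← hN₁, ← hD] at h2
    calc |(e : ℝ)| * Real.log 2 ≤ |(e : ℝ)| * Real.log w := mul_le_mul_of_nonneg_left hlogw (abs_nonneg _)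
      _ ≤ 2 * absLogHeight₁ (Algebra.norm A y) := h1
      _ ≤ _ := by linarith
  -- the element `κ'`
  obtain ⟨k', hk'⟩ : ∃ k' : A⟮κ⟯, k' = k0 ^ (N₁ * vb) * (b : A⟮κ⟯) ^ (-t) := ⟨_, rfl⟩
  have hpow : k' ^ m = y ^ (N₁ * vb) * (b : A⟮κ⟯) ^ (-e) := by
    have h1 : ((k0 ^ (N₁ * vb)) ^ m : A⟮κ⟯) = (k0 ^ m) ^ (N₁ * vb) := by
      rw [← pow_mul, ← pow_mul, mul_comm]
    rw [hk', hy, mul_pow, mul_pow, h1, mul_assoc]
    congr 1
    rw [← zpow_natCast, ← zpow_mul, ← zpow_natCast, ← zpow_mul, ← zpow_add₀ hb0]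
    congr 1
    rw [he]
    push_cast
    ring
  have hk'0 : k' ≠ 0 := by
    rw [hk']
    exact mul_ne_zero (pow_ne_zero _ hk00) (zpow_ne_zero _ hb0)
  have hDR : (0 : ℝ) < D := by exact_mod_cast hDpos
  have hN₁R : (0 : ℝ) < N₁ := by exact_mod_cast hN₁pos
  have hHk : (m : ℝ) * Height.logHeight₁ k' ≤
      (N₁ : ℝ) * Height.logHeight₁ y * ((vb : ℝ) + 2 * Real.log b / Real.log 2) := by
    have h1 : (m : ℝ) * Height.logHeight₁ k' = Height.logHeight₁ (k' ^ m) := by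
      rw [Height.logHeight₁_pow]
    have h2 := Height.logHeight₁_mul_le (y ^ (N₁ * vb)) ((b : A⟮κ⟯) ^ (-e))
    rw [Height.logHeight₁_pow, Height.logHeight₁_zpow, height_b _ b hb, ← hD] at h2
    have h3 : (((-e).natAbs : ℕ) : ℝ) = |(e : ℝ)| := by
      rw [Int.natAbs_neg, Nat.cast_natAbs]
      push_cast
      rfl
    rw [h3] at h2
    rw [h1, hpow]
    refine h2.trans ?_
    have h4 : |(e : ℝ)| ≤ 2 * (N₁ * (Height.logHeight₁ y / D)) / Real.log 2 := by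
      rw [le_div_iff₀ hlog2]
      exact he3
    have h5 : |(e : ℝ)| * ((D : ℝ) * Real.log b) ≤
        2 * (N₁ * (Height.logHeight₁ y / D)) / Real.log 2 * ((D : ℝ) * Real.log b) :=
      mul_le_mul_of_nonneg_right h4 (by positivity)
    have h6 : 2 * (N₁ * (Height.logHeight₁ y / D)) / Real.log 2 * ((D : ℝ) * Real.log b) =
        (N₁ : ℝ) * Height.logHeight₁ y * (2 * Real.log b / Real.log 2) := by
      field_simp
    rw [h6] at h5
    push_cast
    nlinarith [h5]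
  -- Lehmer
  have hι' : IsIntegral A (ι k') := (Algebra.IsIntegral.isIntegral (R := A) k').map
    (IntermediateField.val A⟮κ⟯)
  have hne : ι k' ≠ 0 := (map_ne_zero ι).2 hk'0
  have hroot : ∀ k : ℕ, 1 ≤ k → ι k' ^ k ≠ 1 := by
    intro k hk h
    rw [hk', map_mul, map_pow, map_zpow₀, hιk, map_natCast, mul_pow] at h
    have hbΩ : (b : Ω) ≠ 0 := Nat.cast_ne_zero.2 (by omega)
    refine hκb (N₁ * vb * k) (Nat.mul_pos (Nat.mul_pos hN₁pos hvb1) hk) (t * k) ?_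
    rw [pow_mul]
    rw [zpow_neg, inv_pow] at h
    rw [zpow_mul, zpow_natCast]
    exact (mul_inv_eq_one₀ (pow_ne_zero _ (zpow_ne_zero _ hbΩ))).1 h
  have hdeg : Module.finrank A A⟮ι k'⟯ ≤ N := by
    refine le_trans ?_ hN
    rw [hN₁]
    have hle : A⟮ι k'⟯ ≤ A⟮κ⟯ := by
      rw [adjoin_simple_le_iff]
      exact k'.2
    exact IntermediateField.finrank_le_of_le_right hle
  have h1 := hleh A Ω σ (ι k') hι' hne hroot N hdeg hFr
  have h2 := Pool.Agent.H4.RR.absLogHeight_eq A⟮κ⟯ Ω ι k'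
  have h3 := Pool.Agent.H4.RR.absLogHeight_eq A⟮κ⟯ Ω ι y
  rw [h2, ← hD] at h1
  rw [← hιy, h3, ← hD]
  have hNR : (0 : ℝ) < N := by
    have : 0 < N := by omega
    exact_mod_cast this
  have hNle : (N₁ : ℝ) ≤ N := by exact_mod_cast hN
  have hHy : 0 ≤ Height.logHeight₁ y := Height.zero_le_logHeight₁ y
  have h4 : c0 * m * D ≤ (N : ℝ) ^ 4 * ((N₁ : ℝ) * Height.logHeight₁ y *
      ((vb : ℝ) + 2 * Real.log b / Real.log 2)) := by
    rw [div_le_div_iff₀ (by positivity) hDR] at h1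
    calc c0 * m * D = m * (c0 * D) := by ring
      _ ≤ m * (Height.logHeight₁ k' * (N : ℝ) ^ 4) := mul_le_mul_of_nonneg_left h1 (Nat.cast_nonneg _)
      _ = (N : ℝ) ^ 4 * (m * Height.logHeight₁ k') := by ring
      _ ≤ _ := mul_le_mul_of_nonneg_left hHk (by positivity)
  have h5 : (N : ℝ) ^ 4 * ((N₁ : ℝ) * Height.logHeight₁ y * ((vb : ℝ) + 2 * Real.log b / Real.log 2)) ≤
      (N : ℝ) ^ 4 * ((N : ℝ) * Height.logHeight₁ y * ((vb : ℝ) + 2 * Real.log b / Real.log 2)) := by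
    refine mul_le_mul_of_nonneg_left ?_ (by positivity)
    refine mul_le_mul_of_nonneg_right ?_ hA.le
    exact mul_le_mul_of_nonneg_right hNle hHy
  rw [div_mul_eq_mul_div, div_div, div_le_div_iff₀ (by positivity) hDR]
  calc c0 * m * D ≤ _ := h4.trans h5
    _ = _ := by ring

end Pool.Agent.H36.LF
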