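import Pool.Agent.H36.LF.FbA
import Pool.Agent.H36.LF.SdB

/-!
# THEOREM L, version 2 (MP_187c26_nt), the theorem for number fields `A = ℚ(ξ) ≤ E`

MODEL: `thmL` in `Pool/Agent/H36/LE/FinC.lean` (copy and change). Imports may be sorried (`finBA`, `stepDA`, `lehmerA`).
PROOF. `K := 300 (N₀ + C₁ + C₂ + 1)` (`N₀` of `finBA`, `C₁`, `C₂` the constants of `lehmerA`, `stepDA`), `N := K (d + s)`, `d ≥ 1` (from `RdA.fin`). `σ q` := the Frobenius lift of `frob_cyc` for the primes `q ∤ n` (choice; arbitrary otherwise). Cases as in the model: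
(1) `N^141 h > 1`. (2) `m < N^90`: `a` has degree `≤ m d ≤ N^91` over `A`: `lehmerA` with `N^91`: primes in `[N^91, C₁ N^273]`, `C₁ N^273 ≤ N^280`, so they do not divide `n` by hypothesis: `h ≥ c/N^364`. (3) otherwise `finBA`: `κ := (a^q)^β (x^q)^w`, `κ^m = a^(q β m) b^(q w)`; `stepDA` with `N^53`: primes in
`[N^53, C₂ N^159]`; `h ≥ c/N^370`. In all cases `c' ≤ N^370 h`, `N = K (d + s)`.
-/

set_option autoImplicit false

open Polynomial NumberField IntermediateField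
open scoped Polynomial.Bivariate

namespace Pool.Agent.H36.LF

open Pool.Agent.H36.LE

/-- the Frobenius lifts for all the primes which do not divide `n` -/
private theorem fca_frob {A : Type} [Field A] [NumberField A] (n : ℕ) (hn : 1 ≤ n) (ξ : A)
    (hξ : IsPrimitiveRoot ξ n) (hgen : IntermediateField.adjoin ℚ {ξ} = ⊤) :
    ∃ σ : ℕ → (A →+* A), ∀ q : ℕ, q.Prime → ¬ q ∣ n → Pool.Agent.H72.BE.Frob A q (σ q) := by
  classical
  refine ⟨fun q => if h : q.Prime ∧ ¬ q ∣ n then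
    Classical.choose (Pool.Agent.H72.BE.frob_cyc n hn ξ hξ hgen q h.1 h.2) else RingHom.id A, ?_⟩
  intro q hq hqn
  have h : q.Prime ∧ ¬ q ∣ n := ⟨hq, hqn⟩
  simp only [dif_pos h]
  exact (Classical.choose_spec (Pool.Agent.H72.BE.frob_cyc n hn ξ hξ hgen q h.1 h.2)).1

/-- the third case: the auxiliary number of small degree -/
private theorem fca_three {A E : Type} [Field A] [NumberField A] [Field E] [NumberField E]
    [Algebra A E] {b : ℕ} {cD : ℝ} (hb : 2 ≤ b) {N m q β : ℕ} {w : ℤ} {x a : E}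
    (hD : ∀ (κ : E), IsIntegral A κ → κ ≠ 0 → (∀ k : ℕ, 1 ≤ k → ∀ j : ℤ, κ ^ k ≠ (b : E) ^ j) →
      Module.finrank A A⟮κ⟯ ≤ N ^ 53 → ∀ (m : ℕ) (s : ℤ), 1 ≤ m →
        cD * m / ((N ^ 53 : ℕ) : ℝ) ^ 5 ≤ absLogHeight₁ (κ ^ m * (b : E) ^ s))
    (hN : 1 ≤ N) (hm : 1 ≤ m) (hx : x ^ m = (b : E)) (ha : a ≠ 0)
    (hab : ∀ k : ℕ, 1 ≤ k → ∀ j : ℤ, a ^ k ≠ (b : E) ^ j) (hh : 0 ≤ absLogHeight₁ a)
    (hq : 1 ≤ q) (hqN : q ≤ N ^ 52) (hβ : 1 ≤ β) (hβN : β ≤ N ^ 53)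
    (hint : IsIntegral A ((a ^ q) ^ β * (x ^ q) ^ w))
    (hdeg : Module.finrank A A⟮(a ^ q) ^ β * (x ^ q) ^ w⟯ ≤ N ^ 53) :
    cD ≤ (N : ℝ) ^ 370 * absLogHeight₁ a := by
  have hb0 : (b : E) ≠ 0 := by
    rw [Nat.cast_ne_zero]
    omega
  have hx0 : x ≠ 0 := by
    rintro rfl
    rw [zero_pow (by omega)] at hx
    exact hb0 hx.symm
  have hxq : x ^ q ≠ 0 := pow_ne_zero _ hx0
  have hpow : ∀ k : ℕ, ((a ^ q) ^ β * (x ^ q) ^ w) ^ (m * k) = a ^ (q * β * m * k) * (b : E) ^ ((q : ℤ) * w * k) := by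
    intro k
    have e1 : ((a ^ q) ^ β) ^ (m * k) = a ^ (q * β * m * k) := by
      rw [← pow_mul, ← pow_mul]
      congr 1
      ring
    have e2 : ((x ^ q) ^ w) ^ (m * k) = (b : E) ^ ((q : ℤ) * w * k) := by
      rw [← zpow_natCast ((x ^ q) ^ w), ← zpow_mul, ← zpow_natCast x q, ← zpow_mul, ← hx, ← zpow_natCast x m,
        ← zpow_mul]
      congr 1
      push_cast
      ring
    rw [mul_pow, e1, e2]
  have h1 := hD ((a ^ q) ^ β * (x ^ q) ^ w) hint (mul_ne_zero (pow_ne_zero _ (pow_ne_zero _ ha)) (zpow_ne_zero _ hxq))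
    (fun k hk j h => by
      have h2 := hpow k
      rw [mul_comm m k, pow_mul, h, ← zpow_natCast ((b : E) ^ j), ← zpow_mul] at h2
      have h3 : a ^ (q * β * m * k) = (b : E) ^ (j * (m : ℤ) - (q : ℤ) * w * k) := by
        rw [zpow_sub₀ hb0, h2, mul_div_cancel_right₀ _ (zpow_ne_zero _ hb0)]
      exact hab _ (Nat.one_le_iff_ne_zero.2 (by positivity)) _ h3) hdeg m (-((q : ℤ) * w)) hm
  have h2 : ((a ^ q) ^ β * (x ^ q) ^ w) ^ m * (b : E) ^ (-((q : ℤ) * w)) = a ^ (q * β * m) := by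
    have h3 := hpow 1
    rw [mul_one, mul_one, Nat.cast_one, mul_one] at h3
    rw [h3, mul_assoc, ← zpow_add₀ hb0, add_neg_cancel, zpow_zero, mul_one]
  rw [h2, Pool.Agent.H4.RR.absLogHeight_pow E a (Algebra.IsIntegral.isIntegral a)] at h1
  have hN1 : (1 : ℝ) ≤ N := by exact_mod_cast hN
  have hm1 : (0 : ℝ) < m := by exact_mod_cast hm
  rw [div_le_iff₀ (by positivity)] at h1
  have hq' : (q : ℝ) ≤ (N : ℝ) ^ 52 := by exact_mod_cast hqN
  have hβ' : (β : ℝ) ≤ (N : ℝ) ^ 53 := by exact_mod_cast hβN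
  have h4 : cD * m ≤ ((N : ℝ) ^ 370 * absLogHeight₁ a) * m := by
    calc cD * m ≤ ((q * β * m : ℕ) : ℝ) * absLogHeight₁ a * ((N ^ 53 : ℕ) : ℝ) ^ 5 := h1
      _ = (q * β : ℝ) * (m * absLogHeight₁ a * (N : ℝ) ^ 265) := by
          push_cast
          ring
      _ ≤ ((N : ℝ) ^ 52 * (N : ℝ) ^ 53) * (m * absLogHeight₁ a * (N : ℝ) ^ 265) := by
          refine mul_le_mul_of_nonneg_right (mul_le_mul hq' hβ' (by positivity) (by positivity)) (by positivity)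
      _ = ((N : ℝ) ^ 370 * absLogHeight₁ a) * m := by ring
  exact le_of_mul_le_mul_right h4 hm1

theorem thmLA (b : ℕ) (hb : 2 ≤ b) (ι : ℝ) (hι : 0 ≤ ι) : ∃ c : ℝ, 0 < c ∧ ∃ K : ℕ, 300 ≤ K ∧
    ∀ (A E : Type) [Field A] [NumberField A] [Field E] [NumberField E] [Algebra A E]
      (n : ℕ) (ξ : A), 1 ≤ n → IsPrimitiveRoot ξ n → IntermediateField.adjoin ℚ {ξ} = ⊤ →
      n.Coprime b → ∀ (m d s : ℕ) (x a : E), RdA A b m d ι x → m.primeFactors.card ≤ s →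
      ∀ D : ℕ, d ≤ D →
      (∀ q : ℕ, q.Prime → (K * (D + s)) ^ 32 ≤ q → q ≤ (K * (D + s)) ^ 280 → ¬ q ∣ n) →
      a ≠ 0 → (∀ k : ℕ, 1 ≤ k → ∀ j : ℤ, a ^ k ≠ (b : E) ^ j) →
      c ≤ ((D + s : ℕ) : ℝ) ^ 370 * absLogHeight₁ a := by
  obtain ⟨N₀, hN₀⟩ := finBA b hb ι hι
  obtain ⟨cD, hcD, C₂, hD⟩ := stepDA b hb
  obtain ⟨cL, hcL, C₁, hL⟩ := lehmerA
  obtain ⟨K, hK⟩ : ∃ K : ℕ, K = 300 * (N₀ + C₁ + C₂ + 1) := ⟨_, rfl⟩
  have hK0 : 300 ≤ K := by omega
  have hKR : (0 : ℝ) < K := by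
    have : 0 < K := by omega
    exact_mod_cast this
  refine ⟨min 1 (min cL cD) / (K : ℝ) ^ 370, by positivity, K, hK0, ?_⟩
  intro A E _ _ _ _ _ n ξ hn hξ hgen hnb m d s x a hR hs D hdD hprime ha hab
  have hfin := hR.fin
  have hFA : FiniteDimensional A E := FiniteDimensional.right ℚ A E
  have hd : 1 ≤ d := by
    rcases Nat.eq_zero_or_pos d with h | h
    · rw [h, mul_zero] at hfin
      have := Module.finrank_pos (R := A) (M := E)
      omega
    · exact h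
  have hh : 0 ≤ absLogHeight₁ a := Pool.Agent.H72.PL.absHeight_nonneg a
  obtain ⟨N, hN⟩ : ∃ N : ℕ, N = K * (D + s) := ⟨_, rfl⟩
  rw [← hN] at hprime
  have hNR : (K : ℝ) * ((D + s : ℕ) : ℝ) = (N : ℝ) := by
    rw [hN]
    push_cast
    ring
  rw [div_le_iff₀ (by positivity)]
  have hgoal : ((D + s : ℕ) : ℝ) ^ 370 * absLogHeight₁ a * (K : ℝ) ^ 370 = (N : ℝ) ^ 370 * absLogHeight₁ a := by
    rw [← hNR, mul_pow]
    ring
  rw [hgoal]
  have hKN : K ≤ N := by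
    rw [hN]
    exact Nat.le_mul_of_pos_right K (by omega)
  have hNN : N₀ ≤ N := by omega
  have hC1 : C₁ ≤ N := by omega
  have hC2 : C₂ ≤ N := by omega
  have h300 : 300 * (D + s) ≤ N := by
    rw [hN]
    exact Nat.mul_le_mul_right _ hK0
  have hNd : 300 * d ≤ N := by omega
  have hNs : s ≤ N := by omega
  have hN1 : 1 ≤ N := by omega
  have hN1R : (1 : ℝ) ≤ N := by exact_mod_cast hN1
  obtain ⟨σ, hσ⟩ := fca_frob n hn ξ hξ hgen
  by_cases hc1 : (N : ℝ) ^ 141 * absLogHeight₁ a ≤ 1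
  · by_cases hc2 : N ^ 90 ≤ m
    · obtain ⟨q, β, w, hq, hqN, hβ, hβN, hint, hdeg⟩ := hN₀ N hNN A E m d x a σ hR
        (fun q hq h1 h2 => hσ q hq (hprime q hq h1 (h2.trans (Nat.pow_le_pow_right hN1 (by norm_num)))))
        hNd (hs.trans hNs) hc2 hc1 ha
      refine ((min_le_right _ _).trans (min_le_right _ _)).trans
        (fca_three (A := A) (m := m) hb ?_ hN1 hR.m1 hR.pow ha hab hh hq hqN hβ hβN hint hdeg)
      intro κ h1 h2 h3 h4 m' s' hm'
      refine hD A E n ξ hn hξ hgen hnb σ κ h1 h2 h3 (N ^ 53) h4 (fun q hq h5 h6 => hσ q hq (hprime q hq ?_ ?_))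
        m' s' hm'
      · exact (Nat.pow_le_pow_right hN1 (by norm_num)).trans h5
      · refine h6.trans ?_
        calc C₂ * (N ^ 53) ^ 3 ≤ N * (N ^ 53) ^ 3 := Nat.mul_le_mul_right _ hC2
          _ = N ^ 160 := by ring
          _ ≤ N ^ 280 := Nat.pow_le_pow_right hN1 (by norm_num)
    · push Not at hc2
      have h1 := hL A E σ a (Algebra.IsIntegral.isIntegral a) ha
        (fun k hk h => hab k hk 0 (by rw [h, zpow_zero]))
        (N ^ 91) (by
          have h2 : Module.finrank A A⟮a⟯ ≤ Module.finrank A E := (A⟮a⟯).toSubalgebra.toSubmodule.finrank_le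
          refine h2.trans ?_
          rw [hfin, pow_succ]
          exact Nat.mul_le_mul hc2.le (by omega))
        (fun q hq h5 h6 => hσ q hq (hprime q hq
          ((Nat.pow_le_pow_right hN1 (by norm_num)).trans h5) (h6.trans (by
          calc C₁ * (N ^ 91) ^ 3 ≤ N * (N ^ 91) ^ 3 := Nat.mul_le_mul_right _ hC1
            _ = N ^ 274 := by ring
            _ ≤ N ^ 280 := Nat.pow_le_pow_right hN1 (by norm_num)))))
      rw [div_le_iff₀ (by positivity)] at h1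
      refine ((min_le_right _ _).trans (min_le_left _ _)).trans (h1.trans ?_)
      calc absLogHeight₁ a * ((N ^ 91 : ℕ) : ℝ) ^ 4 = (N : ℝ) ^ 364 * absLogHeight₁ a := by
            push_cast
            ring
        _ ≤ (N : ℝ) ^ 370 * absLogHeight₁ a :=
            mul_le_mul_of_nonneg_right (pow_le_pow_right₀ hN1R (by norm_num)) hh
  · push Not at hc1
    refine (min_le_left _ _).trans (hc1.le.trans ?_)
    exact mul_le_mul_of_nonneg_right (pow_le_pow_right₀ hN1R (by norm_num)) hh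

end Pool.Agent.H36.LF
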