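import Pool.Agent.H36.LF.Defs
import Pool.Agent.H72.BE.DesA
import Pool.Agent.H36.LE.DiscA

/-!
# THEOREM L, version 2 (MP_187c26_nt), general `b`: the data

`DatG b m n ξ x`: `ξ` a primitive `n`-th root of unity, `x^m = b`, `[ℚ(x) : ℚ] = m`, `n` prime to `m b`; `b` is not assumed to be squarefree.
The fields are `AA ξ = ℚ(ξ)` and `FF ξ ![x] = ℚ(ξ, x)` of `Pool/Agent/H72/BE/Dat.lean`.
-/

set_option autoImplicit false

open NumberField IntermediateField

namespace Pool.Agent.H36.LF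

open Pool.Agent.H72.BE

/-- `ξ` a primitive `n`-th root of unity, `x^m = b`, `[ℚ(x) : ℚ] = m`, `n` prime to `m b`. -/
structure DatG {Ω : Type} [Field Ω] [CharZero Ω] (b m n : ℕ) (ξ x : Ω) : Prop where
  two : 2 ≤ b
  hm : 1 ≤ m
  hn : 1 ≤ n
  cop : n.Coprime (m * b)
  prim : IsPrimitiveRoot ξ n
  pow : x ^ m = (b : Ω)
  deg : Module.finrank ℚ ℚ⟮x⟯ = m

variable {Ω : Type} [Field Ω] [CharZero Ω] {b m n : ℕ} {ξ x : Ω}

theorem DatG.integral_ξ (h : DatG b m n ξ x) : IsIntegral ℤ ξ := by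
  refine IsIntegral.of_pow (Nat.pos_of_ne_zero (by have := h.hn; omega) : 0 < n) ?_
  rw [h.prim.pow_eq_one]
  exact isIntegral_one

theorem DatG.integral_x (h : DatG b m n ξ x) : IsIntegral ℤ x := by
  refine IsIntegral.of_pow (Nat.pos_of_ne_zero (by have := h.hm; omega) : 0 < m) ?_
  rw [h.pow]
  have h1 : ((b : ℕ) : Ω) = algebraMap ℤ Ω (b : ℤ) := by simp
  rw [h1]
  exact isIntegral_algebraMap

theorem DatG.fin_A (h : DatG b m n ξ x) : FiniteDimensional ℚ (AA ξ) :=
  IntermediateField.adjoin.finiteDimensional (h.integral_ξ.tower_top)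

theorem DatG.fin_F (h : DatG b m n ξ x) : FiniteDimensional ℚ (FF ξ ![x]) := by
  unfold FF
  have hfin : Finite (({ξ} ∪ Set.range ![x] : Set Ω)) :=
    ((Set.finite_singleton ξ).union (Set.finite_range ![x])).to_subtype
  refine IntermediateField.finiteDimensional_adjoin (S := {ξ} ∪ Set.range ![x]) ?_
  rintro y (hy | ⟨i, rfl⟩)
  · rw [Set.mem_singleton_iff] at hy
    rw [hy]
    exact h.integral_ξ.tower_top
  · have h1 : (![x] : Fin 1 → Ω) i = x := by
      rw [Subsingleton.elim i 0]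
      rfl
    rw [h1]
    exact h.integral_x.tower_top

theorem DatG.nf_A (h : DatG b m n ξ x) : NumberField (AA ξ) :=
  have := h.fin_A
  {}

theorem DatG.nf_F (h : DatG b m n ξ x) : NumberField (FF ξ ![x]) :=
  have := h.fin_F
  {}

/-- `n` replaced by a divisor. -/
theorem DatG.pow_q (h : DatG b m n ξ x) (q : ℕ) (hq : q ∣ n) (hq0 : 1 ≤ q) :
    DatG b m (n / q) (ξ ^ q) x where
  two := h.two
  hm := h.hm
  hn := Nat.div_pos (Nat.le_of_dvd h.hn hq) hq0
  cop := Nat.Coprime.coprime_dvd_left (Nat.div_dvd_of_dvd hq) h.cop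
  prim := by
    refine h.prim.pow h.hn ?_
    rw [Nat.mul_div_cancel' hq]
  pow := h.pow
  deg := h.deg

end Pool.Agent.H36.LF
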