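import Pool.Agent.H36.LF.GqA

/-!
# THEOREM L, version 2 (MP_187c26_nt), general `b`: degree and discriminant of `ℚ(ξ, x)`

PROOF. `L := FF ξ ![x]`, a number field, `ξL = ξF ξ ![x]`, `xL = xF ξ ![x] 0` its elements, `K₁ := adjoin ℚ {ξL}`, `K₂ := adjoin ℚ {xL}` (intermediate fields of `L / ℚ`), `K₁ ⊔ K₂ = ⊤`. `K₁` is the `n`-th cyclotomic field (`IsPrimitiveRoot.intermediateField_adjoin_isCyclotomicExtension`), so it is Galois (`IsCyclotomicExtension.isGalois`)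
and `|discr K₁|` is a divisor of `n^φ(n)` (`IsCyclotomicExtension.Rat.natAbs_discr`, `Nat.prod_primeFactors_pow_totient_ediv_dvd`; see the proof of `discr` in `Mathlib/NumberTheory/NumberField/Cyclotomic/Basic.lean`, which is the model for the whole argument). `discr K₂` has only prime divisors of `m b`: `disc(1, x, …, x^(m-1)) = ± m^m b^(m-1)`
is `discr K₂` times the square of the integer `det` of the integral base change (as in `Pool/Agent/H36/LE/DiscA.lean`, private lemma `core` and before; copy). So the discriminants are coprime (`n` prime to `m b`): `NumberField.linearDisjoint_of_isGalois_isCoprime_discr`, `isCoprime_differentIdeal_of_isCoprime_discr`,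
`natAbs_discr_eq_natAbs_discr_pow_mul_natAbs_discr_pow` (`Mathlib/NumberTheory/NumberField/Discriminant/Different.lean`): `|discr L| = |discr K₁|^m |discr K₂|^e`, `e = [K₁ : ℚ]`, `[L : ℚ] = e m`. `K₁ ≃ AA ξ` and `K₂ ≃ ℚ⟮x⟯` (isomorphisms of `ℚ`-algebras: images under the embedding `L → Ω`), so the degrees and the discriminants agree
(`NumberField.discr_eq_discr_of_algEquiv`). `degG`: `[L : ℚ] = [AA ξ : ℚ] [L : AA ξ]`. `discG`: `disc_index` (`DiscA`): `m log m ≤ log |discr ℚ⟮x⟯| + 2 log (idxZ x)`.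
-/

set_option autoImplicit false

open Polynomial NumberField IntermediateField

namespace Pool.Agent.H36.LF

open Pool.Agent.H36.LE Pool.Agent.H72.BE

private theorem disc_sq {F : Type} [Field F] [NumberField F] {ι : Type} [Fintype ι] [DecidableEq ι]
    (v : ι → F) (hv : ∀ i, IsIntegral ℤ (v i)) (e : Module.Free.ChooseBasisIndex ℤ (𝓞 F) ≃ ι) :
    ∃ t : ℤ, Algebra.discr ℚ v = (t : ℚ) ^ 2 * (NumberField.discr F : ℚ) := by
  classical
  have h := Algebra.discr_of_matrix_vecMul (A := ℚ) ((integralBasis F).reindex e)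
      (((integralBasis F).reindex e).toMatrix v)
  rw [Module.Basis.toMatrix_map_vecMul] at h
  let M : Matrix ι ι ℤ := fun i j => (RingOfIntegers.basis F).repr ⟨v j, hv j⟩ (e.symm i)
  have hM : ((integralBasis F).reindex e).toMatrix v = (algebraMap ℤ ℚ).mapMatrix M := by
    ext i j
    rw [Module.Basis.toMatrix_apply, Module.Basis.repr_reindex_apply, RingHom.mapMatrix_apply,
      Matrix.map_apply]
    exact integralBasis_repr_apply F ⟨v j, hv j⟩ (e.symm i)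
  refine ⟨M.det, ?_⟩
  rw [h, hM, ← RingHom.map_det, NumberField.coe_discr, Module.Basis.coe_reindex,
    Algebra.discr_reindex]
  rfl

private theorem minpoly_rad {L : Type} [Field L] [CharZero L] (b m : ℕ) (hm : 1 ≤ m) (x : L)
    (hx : x ^ m = (b : L)) (hdeg : Module.finrank ℚ ℚ⟮x⟯ = m) :
    IsIntegral ℤ x ∧ minpoly ℚ x = X ^ m - C (b : ℚ) := by
  have hi : IsIntegral ℤ x := by
    refine IsIntegral.of_pow (by omega : 0 < m) ?_
    rw [hx]
    have := isIntegral_algebraMap (R := ℤ) (A := L) (x := (b : ℤ))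
    simpa using this
  have hint : IsIntegral ℚ x := hi.tower_top
  have hd : minpoly ℚ x ∣ X ^ m - C (b : ℚ) := minpoly.dvd ℚ x (by simp [hx])
  have hdeg' : (minpoly ℚ x).natDegree = m := by rw [← hdeg, adjoin.finrank hint]
  exact ⟨hi, (eq_of_monic_of_dvd_of_natDegree_le (minpoly.monic hint)
    (monic_X_pow_sub_C _ (by omega)) hd (by rw [natDegree_X_pow_sub_C, hdeg'])).symm⟩

private theorem norm_rad {F : Type} [Field F] [NumberField F] (b m : ℕ) (hm : 1 ≤ m) (θ : F)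
    (hθ : θ ^ m = (b : F)) (hdeg : Module.finrank ℚ F = m) : |Algebra.norm ℚ θ| = (b : ℚ) := by
  have h1 : (Algebra.norm ℚ θ) ^ m = (b : ℚ) ^ m := by
    rw [← map_pow, hθ]
    have : (b : F) = algebraMap ℚ F (b : ℚ) := by simp
    rw [this, Algebra.norm_algebraMap, hdeg]
  have h2 : |Algebra.norm ℚ θ| ^ m = (b : ℚ) ^ m := by
    rw [← abs_pow, h1, abs_of_nonneg (by positivity)]
  exact (pow_left_inj₀ (abs_nonneg _) (by positivity) (by omega)).1 h2

private theorem discr_dvd {F : Type} [Field F] [NumberField F] (b m : ℕ) (hm : 1 ≤ m)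
    (pb : PowerBasis ℚ F) (hmin : minpoly ℚ pb.gen = X ^ m - C (b : ℚ)) :
    (NumberField.discr F).natAbs ∣ m ^ m * b ^ (m - 1) := by
  classical
  have hdim : pb.dim = m := by
    rw [← pb.natDegree_minpoly, hmin, natDegree_X_pow_sub_C]
  have hdeg : Module.finrank ℚ F = m := by rw [pb.finrank, hdim]
  have hθ : pb.gen ^ m = (b : F) := by
    have := minpoly.aeval ℚ pb.gen
    rw [hmin] at this
    simpa [sub_eq_zero] using this
  have hi : IsIntegral ℤ pb.gen := by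
    refine IsIntegral.of_pow (by omega : 0 < m) ?_
    rw [hθ]
    have := isIntegral_algebraMap (R := ℤ) (A := F) (x := (b : ℤ))
    simpa using this
  have hN := norm_rad b m hm pb.gen hθ hdeg
  have hd : |Algebra.discr ℚ pb.basis| = (m : ℚ) ^ m * (b : ℚ) ^ (m - 1) := by
    rw [Algebra.discr_powerBasis_eq_norm, abs_mul, abs_pow, abs_neg, abs_one, one_pow, one_mul,
      hmin]
    have h1 : aeval pb.gen (derivative (X ^ m - C (b : ℚ))) =
        algebraMap ℚ F (m : ℚ) * pb.gen ^ (m - 1) := by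
      simp [derivative_X_pow]
    rw [h1, map_mul, map_pow, Algebra.norm_algebraMap, hdeg, abs_mul, abs_pow, abs_pow, hN,
      abs_of_nonneg (by positivity)]
  have e : Module.Free.ChooseBasisIndex ℤ (𝓞 F) ≃ Fin pb.dim := Fintype.equivOfCardEq (by
    rw [← Module.finrank_eq_card_basis (integralBasis F), Fintype.card_fin, pb.finrank])
  obtain ⟨t, ht⟩ := disc_sq (fun i => pb.basis i) (fun i => by
    rw [PowerBasis.basis_eq_pow]
    exact hi.pow i) e
  have h2 : (((t.natAbs ^ 2 * (NumberField.discr F).natAbs : ℕ)) : ℚ) =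
      ((m ^ m * b ^ (m - 1) : ℕ) : ℚ) := by
    push_cast
    rw [← hd]
    have h3 : Algebra.discr ℚ pb.basis = (t : ℚ) ^ 2 * (NumberField.discr F : ℚ) := ht
    rw [h3, abs_mul, abs_pow, Nat.cast_natAbs, Nat.cast_natAbs]
    push_cast
    rfl
  rw [← Nat.cast_inj (R := ℚ) |>.1 h2]
  exact dvd_mul_left _ _

private theorem main {L : Type} [Field L] [NumberField L] (b m n : ℕ) (hm : 1 ≤ m)
    (hn : 1 ≤ n) (cop : n.Coprime (m * b)) (ζ θ : L) (hζ : IsPrimitiveRoot ζ n)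
    (hθ : θ ^ m = (b : L)) (hdeg : Module.finrank ℚ ℚ⟮θ⟯ = m) (htop : ℚ⟮ζ⟯ ⊔ ℚ⟮θ⟯ = ⊤) :
    Module.finrank ℚ L = Module.finrank ℚ ℚ⟮ζ⟯ * m ∧
      (NumberField.discr L).natAbs = (NumberField.discr ℚ⟮ζ⟯).natAbs ^ m *
        (NumberField.discr ℚ⟮θ⟯).natAbs ^ Module.finrank ℚ ℚ⟮ζ⟯ := by
  have hn0 : NeZero n := ⟨by omega⟩
  have hc : IsCyclotomicExtension {n} ℚ ℚ⟮ζ⟯ :=
    hζ.intermediateField_adjoin_isCyclotomicExtension ℚ
  have hg : IsGalois ℚ ℚ⟮ζ⟯ := IsCyclotomicExtension.isGalois {n} ℚ _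
  obtain ⟨hi, hmin⟩ := minpoly_rad b m hm θ hθ hdeg
  have hiQ : IsIntegral ℚ θ := hi.tower_top
  have hmin' : minpoly ℚ (adjoin.powerBasis hiQ).gen = X ^ m - C (b : ℚ) := by
    rw [adjoin.powerBasis_gen]
    exact (minpoly_gen ℚ θ).trans hmin
  have hd2 := discr_dvd b m hm (adjoin.powerBasis hiQ) hmin'
  have hd1 : (NumberField.discr ℚ⟮ζ⟯).natAbs ∣ n ^ n.totient := by
    rw [IsCyclotomicExtension.Rat.natAbs_discr n ℚ⟮ζ⟯]
    exact Nat.div_dvd_of_dvd (Nat.prod_primeFactors_pow_totient_ediv_dvd (by omega))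
  have hcpr : IsCoprime (NumberField.discr ℚ⟮ζ⟯) (NumberField.discr ℚ⟮θ⟯) := by
    rw [Int.isCoprime_iff_nat_coprime]
    refine Nat.Coprime.coprime_dvd_left hd1 (Nat.Coprime.coprime_dvd_right hd2 ?_)
    refine Nat.Coprime.pow_left _ (Nat.Coprime.mul_right ?_ ?_)
    · exact Nat.Coprime.pow_right _ (Nat.Coprime.coprime_dvd_right (dvd_mul_right _ _) cop)
    · exact Nat.Coprime.pow_right _ (Nat.Coprime.coprime_dvd_right (dvd_mul_left _ _) cop)
  have hdj : ℚ⟮ζ⟯.LinearDisjoint ℚ⟮θ⟯ := linearDisjoint_of_isGalois_isCoprime_discr _ _ _ hcpr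
  constructor
  · have h1 := hdj.finrank_sup
    rw [htop, hdeg, IntermediateField.finrank_top'] at h1
    exact h1
  · rw [natAbs_discr_eq_natAbs_discr_pow_mul_natAbs_discr_pow L ℚ⟮ζ⟯ ℚ⟮θ⟯ hdj htop
      (isCoprime_differentIdeal_of_isCoprime_discr _ hcpr), hdeg]

variable {Ω : Type} [Field Ω] [CharZero Ω] {b m n : ℕ} {ξ x : Ω}

/-- the field generated by an element of a subfield -/
private theorem eqv {Ω : Type} [Field Ω] [CharZero Ω] (K : IntermediateField ℚ Ω) (y : K) :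
    Nonempty (ℚ⟮y⟯ ≃ₐ[ℚ] ℚ⟮(y : Ω)⟯) := by
  have h : IntermediateField.lift (ℚ⟮y⟯) = ℚ⟮(y : Ω)⟯ := by
    rw [IntermediateField.lift_adjoin, Set.image_singleton]
  exact ⟨(IntermediateField.liftAlgEquiv ℚ⟮y⟯).trans (IntermediateField.equivOfEq h)⟩

private theorem all {b m n : ℕ} {ξ x : Ω} (hm : 1 ≤ m) (hn : 1 ≤ n) (cop : n.Coprime (m * b))
    (prim : IsPrimitiveRoot ξ n) (pow : x ^ m = (b : Ω)) (deg : Module.finrank ℚ ℚ⟮x⟯ = m)
    [NumberField (AA ξ)] [NumberField (FF ξ ![x])] [NumberField ℚ⟮x⟯] :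
    Module.finrank (AA ξ) (FF ξ ![x]) = m ∧
    (NumberField.discr (FF ξ ![x])).natAbs = (NumberField.discr (AA ξ)).natAbs ^ m *
        (NumberField.discr ℚ⟮x⟯).natAbs ^ Module.finrank ℚ (AA ξ) := by
  obtain ⟨e1⟩ := eqv (FF ξ ![x]) (ξF ξ ![x])
  obtain ⟨e2⟩ := eqv (FF ξ ![x]) (xF ξ ![x] 0)
  have e1' : ℚ⟮ξF ξ ![x]⟯ ≃ₐ[ℚ] AA ξ := e1
  have e2' : ℚ⟮xF ξ ![x] 0⟯ ≃ₐ[ℚ] ℚ⟮x⟯ := e2
  have hd1 := NumberField.discr_eq_discr_of_algEquiv (K := ℚ⟮ξF ξ ![x]⟯) e1'
  have hd2 := NumberField.discr_eq_discr_of_algEquiv (K := ℚ⟮xF ξ ![x] 0⟯) e2'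
  have hf1 : Module.finrank ℚ ℚ⟮ξF ξ ![x]⟯ = Module.finrank ℚ (AA ξ) := e1'.toLinearEquiv.finrank_eq
  have hf2 : Module.finrank ℚ ℚ⟮xF ξ ![x] 0⟯ = m := by
    rw [← deg]
    exact e2'.toLinearEquiv.finrank_eq
  have hp : IsPrimitiveRoot (ξF ξ ![x]) n := by
    refine IsPrimitiveRoot.coe_submonoidClass_iff.mp ?_
    exact prim
  have hpow : (xF ξ ![x] 0) ^ m = ((b : ℕ) : FF ξ ![x]) := by
    apply Subtype.ext
    exact pow
  have htop0 : IntermediateField.lift (F := FF ξ ![x]) (ℚ⟮ξF ξ ![x]⟯ ⊔ ℚ⟮xF ξ ![x] 0⟯) =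
      IntermediateField.lift (F := FF ξ ![x]) ⊤ := by
    rw [IntermediateField.lift_top, ← IntermediateField.adjoin_union,
      IntermediateField.lift_adjoin]
    change IntermediateField.adjoin ℚ _ = IntermediateField.adjoin ℚ ({ξ} ∪ Set.range ![x])
    refine congrArg (IntermediateField.adjoin ℚ) ?_
    ext y
    constructor
    · rintro ⟨z, hz | hz, rfl⟩
      · have h1 : z = ξF ξ ![x] := hz
        rw [h1]
        exact Or.inl rfl
      · have h1 : z = xF ξ ![x] 0 := hz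
        rw [h1]
        exact Or.inr ⟨0, rfl⟩
    · rintro (hy | ⟨i, rfl⟩)
      · rw [Set.mem_singleton_iff] at hy
        exact ⟨ξF ξ ![x], Or.inl rfl, hy.symm⟩
      · exact ⟨xF ξ ![x] 0, Or.inr rfl, by rw [Subsingleton.elim i 0]; rfl⟩
  have htop1 := IntermediateField.lift_injective (FF ξ ![x]) htop0
  have htop : ℚ⟮ξF ξ ![x]⟯ ⊔ ℚ⟮xF ξ ![x] 0⟯ = ⊤ := htop1
  obtain ⟨h1, h2⟩ := main b m n hm hn cop (ξF ξ ![x]) (xF ξ ![x] 0) hp hpow hf2 htop
  rw [hf1, hd1, hd2] at h2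
  rw [hf1] at h1
  refine ⟨?_, h2⟩
  have h3 := Module.finrank_mul_finrank ℚ (AA ξ) (FF ξ ![x])
  rw [h1] at h3
  exact Nat.eq_of_mul_eq_mul_left Module.finrank_pos h3

theorem degG (h : DatG b m n ξ x) [NumberField (AA ξ)] [NumberField (FF ξ ![x])] :
    Module.finrank (AA ξ) (FF ξ ![x]) = m := by
  have hfin : FiniteDimensional ℚ ℚ⟮x⟯ :=
    IntermediateField.adjoin.finiteDimensional h.integral_x.tower_top
  have hnf : NumberField ℚ⟮x⟯ := {}
  exact (all h.hm h.hn h.cop h.prim h.pow h.deg).1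

theorem discG (h : DatG b m n ξ x) [NumberField (AA ξ)] [NumberField (FF ξ ![x])] :
    (m : ℝ) * dA (AA ξ) + Module.finrank ℚ (AA ξ) * (m * Real.log m) ≤
      dA (FF ξ ![x]) +
        2 * (Module.finrank ℚ (AA ξ) * Real.log (Pool.Agent.H69.BD.idxZ x)) := by
  have hfin : FiniteDimensional ℚ ℚ⟮x⟯ :=
    IntermediateField.adjoin.finiteDimensional h.integral_x.tower_top
  have hnf : NumberField ℚ⟮x⟯ := {}
  have h1 := (all h.hm h.hn h.cop h.prim h.pow h.deg).2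
  have h2 := disc_index b m (by have := h.two; omega) h.hm x h.pow h.deg
  have h3 : |(NumberField.discr (FF ξ ![x]) : ℝ)| =
      |(NumberField.discr (AA ξ) : ℝ)| ^ m *
        |(NumberField.discr ℚ⟮x⟯ : ℝ)| ^ Module.finrank ℚ (AA ξ) := by
    have h4 := congrArg (fun k : ℕ => (k : ℝ)) h1
    simp only [Nat.cast_mul, Nat.cast_pow, Nat.cast_natAbs, Int.cast_abs] at h4
    exact h4
  have hA : |(NumberField.discr (AA ξ) : ℝ)| ≠ 0 := by
    rw [abs_ne_zero]
    exact_mod_cast NumberField.discr_ne_zero (AA ξ)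
  have hX : |(NumberField.discr ℚ⟮x⟯ : ℝ)| ≠ 0 := by
    rw [abs_ne_zero]
    exact_mod_cast NumberField.discr_ne_zero ℚ⟮x⟯
  have h5 : dA (FF ξ ![x]) = (m : ℝ) * dA (AA ξ) +
      (Module.finrank ℚ (AA ξ) : ℝ) * Real.log |(NumberField.discr ℚ⟮x⟯ : ℝ)| := by
    unfold dA
    rw [h3, Real.log_mul (pow_ne_zero _ hA) (pow_ne_zero _ hX), Real.log_pow, Real.log_pow]
  rw [h5]
  have h6 := mul_le_mul_of_nonneg_left h2 (Nat.cast_nonneg (α := ℝ) (Module.finrank ℚ (AA ξ)))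
  linarith

end Pool.Agent.H36.LF
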