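import Pool.Agent.H36.LF.GqB
import Pool.Agent.H72.BE.DesG

/-!
# THEOREM L, version 2 (MP_187c26_nt), general `b`: the congruence and the automorphism for the descent

PROOFS. Imports may be sorried (`degG`). `intG_mul`: `K := AA ξ`, `L := FF ξ ![x]`, `xL = xF ξ ![x] 0`; `L = K(xL)`, `[L : K] = m` (`degG`), `minpoly K xL = X^m - b` (monic of degree `m` with the root `xL`), `B` the power basis of `xL` (`IntermediateField.adjoin.powerBasis`/`PowerBasis.ofGenMemAdjoin` or `IsPrimitive...`: any power basis with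
generator `xL`). `disc := discr K B.basis = ± Norm (m xL^(m-1)) = ± m^m b^(m-1)` (`Algebra.discr_powerBasis_eq_norm`, `Norm xL = ± b` (`PowerBasis.norm_gen_eq_coeff_zero_minpoly`)). `Algebra.discr_mul_isIntegral_mem_adjoin` (`Mathlib/RingTheory/Discriminant.lean`, `R = 𝓞 K`): `disc • z ∈ adjoin (𝓞 K) {xL}` for integral `z`, and
`𝓞 K = ℤ[ξ]` (as in `frob_cyc`, `Pool/Agent/H72/BE/Fro.lean`, or `cyc_mem` in `DatA.lean`). `N := m^m b^(m-1)` is prime to `n`.
`frob_congG`: MODEL `Dat.frob_cong` in `Pool/Agent/H72/BE/DesA.lean` (copy; `intG_mul` in the place of `int_mul`; `N^q` and `q` are coprime because `q ∣ n`).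
`exists_sG`: MODEL `Dat.exists_s` in `Pool/Agent/H72/BE/DesG.lean` (copy with its private lemmas `gal_one`, `gal_cyc`, `gal_abs`: only `h.integral_ξ`, `h.prim`, `h.hn` are used).
-/

set_option autoImplicit false

open NumberField IntermediateField

namespace Pool.Agent.H36.LF

open Pool.Agent.H36.LE Pool.Agent.H72.BE

variable {Ω : Type} [Field Ω] [CharZero Ω] {b m n : ℕ} {ξ x : Ω}

private theorem gq_aux {K L : Type} [Field K] [Field L] [NumberField K] [NumberField L] [Algebra K L]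
    (b m : ℕ) (hm : 1 ≤ m) (y : L) (hy : y ^ m = (b : L)) (htop : Algebra.adjoin K {y} = ⊤)
    (hdeg : Module.finrank K L = m) (z : L) (hz : IsIntegral ℤ z) :
    ((m ^ m * b ^ (m - 1) : ℕ) : L) * z ∈ Algebra.adjoin (𝓞 K) {y} := by
  have hyZ : IsIntegral ℤ y := by
    refine IsIntegral.of_pow (by omega : 0 < m) ?_
    rw [hy]
    have h1 := isIntegral_algebraMap (R := ℤ) (A := L) (x := (b : ℤ))
    simpa using h1
  have hfin : FiniteDimensional K L := Module.Finite.of_restrictScalars_finite ℚ K L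
  have hyK : IsIntegral K y := hyZ.tower_top
  have hyO : IsIntegral (𝓞 K) y := hyZ.tower_top
  obtain ⟨pb, hpb⟩ : ∃ pb : PowerBasis K L, pb.gen = y :=
    ⟨PowerBasis.ofAdjoinEqTop hyK htop, PowerBasis.ofAdjoinEqTop_gen hyK htop⟩
  have hdim : pb.dim = m := by rw [← pb.finrank, hdeg]
  have hmin : minpoly K pb.gen = Polynomial.X ^ m - Polynomial.C (b : K) := by
    have hd : minpoly K pb.gen ∣ Polynomial.X ^ m - Polynomial.C (b : K) :=
      minpoly.dvd K _ (by simp [hpb, hy])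
    have hdeg' : (minpoly K pb.gen).natDegree = m := by rw [pb.natDegree_minpoly, hdim]
    refine (Polynomial.eq_of_monic_of_dvd_of_natDegree_le (minpoly.monic (by rw [hpb]; exact hyK))
      (Polynomial.monic_X_pow_sub_C _ (by omega)) hd ?_).symm
    rw [Polynomial.natDegree_X_pow_sub_C, hdeg']
  have hN : Algebra.norm K pb.gen = (-1) ^ m * (-(b : K)) := by
    rw [Algebra.PowerBasis.norm_gen_eq_coeff_zero_minpoly, hmin, hdim]
    congr 1
    rw [Polynomial.coeff_sub, Polynomial.coeff_X_pow, Polynomial.coeff_C_zero, if_neg (by omega), zero_sub]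
  have h1 : Polynomial.aeval pb.gen (Polynomial.derivative (Polynomial.X ^ m - Polynomial.C (b : K))) =
      algebraMap K L (m : K) * pb.gen ^ (m - 1) := by
    simp [Polynomial.derivative_X_pow]
  have h2 : ∃ k : ℕ, Algebra.discr K pb.basis = (-1) ^ k * ((m ^ m * b ^ (m - 1) : ℕ) : K) := by
    rw [Algebra.discr_powerBasis_eq_norm, hmin, h1, map_mul, map_pow, Algebra.norm_algebraMap, hdeg, hN]
    refine ⟨Module.finrank K L * (Module.finrank K L - 1) / 2 + (m + 1) * (m - 1), ?_⟩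
    push_cast
    rw [hdeg]
    have h3 : (-1 : K) ^ m * -(b : K) = (-1) ^ (m + 1) * b := by ring
    rw [h3, mul_pow, ← pow_mul, pow_add]
    ring
  obtain ⟨k, hk⟩ := h2
  have h3 := Algebra.discr_mul_isIntegral_mem_adjoin (R := 𝓞 K) K (B := pb) (by rw [hpb]; exact hyO)
    (z := z) hz.tower_top
  rw [hpb, hk] at h3
  have h4 : ((m ^ m * b ^ (m - 1) : ℕ) : L) * z = (-1) ^ k *
      (((-1) ^ k * ((m ^ m * b ^ (m - 1) : ℕ) : K)) • z) := by
    rw [Algebra.smul_def, map_mul, map_pow, map_neg, map_one, map_natCast, ← mul_assoc, ← mul_assoc,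
      ← pow_add, ← two_mul, pow_mul, neg_one_sq, one_pow, one_mul]
  rw [h4]
  exact Subalgebra.mul_mem _ (Subalgebra.pow_mem _ (Subalgebra.neg_mem _ (Subalgebra.one_mem _)) _) h3

private theorem gq_cyc (hn : 1 ≤ n) (hξ : IsPrimitiveRoot ξ n) (z : Ω) (hz : z ∈ ℚ⟮ξ⟯)
    (hzi : IsIntegral ℤ z) : z ∈ Subring.closure {ξ} := by
  rw [← Pool.Agent.H4.OH.baseS_range n hn ξ hξ]
  have h1 : IsIntegral ℤ (⟨z, hz⟩ : ℚ⟮ξ⟯) :=
    (isIntegral_algHom_iff (IsScalarTower.toAlgHom ℤ (ℚ⟮ξ⟯) Ω)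
      (algebraMap (ℚ⟮ξ⟯) Ω).injective).1 hzi
  exact ⟨⟨⟨z, hz⟩, h1⟩, rfl⟩

private theorem gq_top (h : DatG b m n ξ x) : Algebra.adjoin (AA ξ) {xF ξ ![x] 0} = ⊤ := by
  have halg : IsIntegral (AA ξ) x := h.integral_x.tower_top
  have h1 : ∀ y ∈ FF ξ ![x], y ∈ IntermediateField.adjoin (AA ξ) {x} := by
    intro y hy
    have h2 : IntermediateField.adjoin ℚ ({ξ} ∪ Set.range ![x]) ≤
        (IntermediateField.adjoin (AA ξ) {x}).restrictScalars ℚ := by
      rw [IntermediateField.adjoin_le_iff]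
      rintro z (hz | ⟨i, rfl⟩)
      · rw [Set.mem_singleton_iff] at hz
        rw [hz]
        exact (IntermediateField.adjoin (AA ξ) {x}).algebraMap_mem (ξA ξ)
      · rw [Subsingleton.elim i 0]
        exact IntermediateField.mem_adjoin_simple_self _ x
    exact h2 hy
  rw [Algebra.eq_top_iff]
  intro y
  have h3 := h1 y y.2
  rw [← IntermediateField.mem_toSubalgebra,
    IntermediateField.adjoin_simple_toSubalgebra_of_isAlgebraic halg.isAlgebraic] at h3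
  have h4 : (Algebra.adjoin (AA ξ) {xF ξ ![x] 0}).map
      (IsScalarTower.toAlgHom (AA ξ) (FF ξ ![x]) Ω) =
      Algebra.adjoin (AA ξ) {x} := by
    rw [AlgHom.map_adjoin, Set.image_singleton]
    rfl
  rw [← h4] at h3
  obtain ⟨z, hz, hzy⟩ := h3
  have h5 : z = y := Subtype.ext hzy
  rw [← h5]
  exact hz

theorem intG_mul (h : DatG b m n ξ x) : ∃ N : ℕ, N.Coprime n ∧
    ∀ z ∈ FF ξ ![x], IsIntegral ℤ z → (N : Ω) * z ∈ SS ξ ![x] := by
  have hnA : NumberField (AA ξ) := h.nf_A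
  have hnF : NumberField (FF ξ ![x]) := h.nf_F
  refine ⟨m ^ m * b ^ (m - 1), ?_, fun z hz hzi => ?_⟩
  · have h1 := h.cop.symm
    exact Nat.Coprime.mul_left ((Nat.Coprime.coprime_mul_right h1).pow_left m)
      ((Nat.Coprime.coprime_mul_left h1).pow_left (m - 1))
  · have hy : (xF ξ ![x] 0) ^ m = (b : FF ξ ![x]) := Subtype.ext h.pow
    have hzi' : IsIntegral ℤ (⟨z, hz⟩ : FF ξ ![x]) :=
      (isIntegral_algebraMap_iff (algebraMap (FF ξ ![x]) Ω).injective).1 hzi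
    have h1 := gq_aux (K := AA ξ) b m h.hm (xF ξ ![x] 0) hy (gq_top h) (degG h) ⟨z, hz⟩ hzi'
    have h2 : ∀ w ∈ Algebra.adjoin (𝓞 (AA ξ)) {xF ξ ![x] 0}, (w : Ω) ∈ SS ξ ![x] := by
      intro w hw
      induction hw using Algebra.adjoin_induction with
      | mem y hy =>
        rw [Set.mem_singleton_iff] at hy
        rw [hy]
        exact Subring.subset_closure (Or.inr ⟨0, rfl⟩)
      | algebraMap r =>
        have h3 : ((r : AA ξ) : Ω) ∈ Subring.closure {ξ} :=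
          gq_cyc h.hn h.prim _ (r : AA ξ).2 (r.isIntegral_coe.map (algebraMap (AA ξ) Ω).toIntAlgHom)
        have h4 : Subring.closure {ξ} ≤ SS ξ ![x] := by
          unfold SS
          exact Subring.closure_mono Set.subset_union_left
        exact h4 h3
      | add u v _ _ hu hv => exact add_mem hu hv
      | mul u v _ _ hu hv => exact mul_mem hu hv
    have h5 := h2 _ h1
    have h6 : ((((m ^ m * b ^ (m - 1) : ℕ) : FF ξ ![x]) * (⟨z, hz⟩ : FF ξ ![x]) : FF ξ ![x]) : Ω) =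
        ((m ^ m * b ^ (m - 1) : ℕ) : Ω) * z := rfl
    rw [h6] at h5
    exact h5

private theorem fcG_pred {F : Type} [Field F] [NumberField F] (s : 𝓞 F ≃+* 𝓞 F) (q : ℕ)
    (hq : q.Prime) : (∀ y z : 𝓞 F, (∃ c, s y ^ q - y ^ q = q * c) →
      (∃ c, s z ^ q - z ^ q = q * c) → ∃ c, s (y + z) ^ q - (y + z) ^ q = q * c) ∧
    (∀ y z : 𝓞 F, (∃ c, s y ^ q - y ^ q = q * c) →
      (∃ c, s z ^ q - z ^ q = q * c) → ∃ c, s (y * z) ^ q - (y * z) ^ q = q * c) ∧
    ∀ y : 𝓞 F, (∃ c, s y ^ q - y ^ q = q * c) → ∃ c, s (-y) ^ q - (-y) ^ q = q * c := by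
  refine ⟨?_, ?_, ?_⟩
  · rintro y z ⟨c, hc⟩ ⟨d, hd⟩
    obtain ⟨t, ht⟩ := exists_add_pow_prime_eq hq (s y) (s z)
    obtain ⟨u, hu⟩ := exists_add_pow_prime_eq hq y z
    refine ⟨c + d + s y * s z * t - y * z * u, ?_⟩
    rw [map_add, ht, hu]
    linear_combination hc + hd
  · rintro y z ⟨c, hc⟩ ⟨d, hd⟩
    refine ⟨c * s z ^ q + y ^ q * d, ?_⟩
    rw [map_mul, mul_pow, mul_pow]
    linear_combination (s z ^ q) * hc + y ^ q * hd
  · rintro y ⟨c, hc⟩
    refine ⟨(-1) ^ q * c, ?_⟩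
    rw [map_neg, neg_pow, neg_pow y]
    linear_combination (-1) ^ q * hc

theorem frob_congG (h : DatG b m n ξ x) [NumberField (FF ξ ![x])]
    (q : ℕ) (hq : q.Prime) (hqn : q ∣ n) (s : FF ξ ![x] ≃+* FF ξ ![x])
    (hsx : ∀ i, s (xF ξ ![x] i) = xF ξ ![x] i) (hsξ : s (ξF ξ ![x] ^ q) = ξF ξ ![x] ^ q) :
    ∀ y : 𝓞 (FF ξ ![x]), ∃ c : 𝓞 (FF ξ ![x]),
      s (y : FF ξ ![x]) ^ q - (y : FF ξ ![x]) ^ q = q * (c : FF ξ ![x]) := by
  obtain ⟨s', hs'⟩ : ∃ s' : 𝓞 (FF ξ ![x]) ≃+* 𝓞 (FF ξ ![x]), ∀ y,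
      algebraMap (𝓞 (FF ξ ![x])) (FF ξ ![x]) (s' y) = s (algebraMap (𝓞 (FF ξ ![x])) (FF ξ ![x]) y) :=
    ⟨RingOfIntegers.mapRingEquiv s, fun y => rfl⟩
  obtain ⟨padd, pmul, pneg⟩ := fcG_pred s' q hq
  have key : ∀ z ∈ SS ξ ![x], ∃ y : 𝓞 (FF ξ ![x]), ((y : FF ξ ![x]) : Ω) = z ∧
      ∃ c, s' y ^ q - y ^ q = q * c := by
    intro z hz
    unfold SS at hz
    refine Subring.closure_induction (p := fun z _ => ∃ y : 𝓞 (FF ξ ![x]), ((y : FF ξ ![x]) : Ω) = z ∧
      ∃ c, s' y ^ q - y ^ q = q * c) ?_ ?_ ?_ ?_ ?_ ?_ hz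
    · rintro z (hz | ⟨i, rfl⟩)
      · rw [Set.mem_singleton_iff] at hz
        have hint : IsIntegral ℤ (ξF ξ ![x]) := by
          have h1 := h.integral_ξ
          exact (isIntegral_algebraMap_iff (algebraMap (FF ξ ![x]) Ω).injective).1 h1
        obtain ⟨t, ht⟩ : ∃ t : 𝓞 (FF ξ ![x]), algebraMap (𝓞 (FF ξ ![x])) (FF ξ ![x]) t = ξF ξ ![x] :=
          ⟨⟨ξF ξ ![x], hint⟩, rfl⟩
        refine ⟨t, by rw [hz]; exact congrArg Subtype.val ht, 0, ?_⟩
        apply RingOfIntegers.coe_injective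
        rw [mul_zero, map_sub, map_pow, map_pow, hs', map_zero, ht, ← map_pow, hsξ, sub_self]
      · have hint : IsIntegral ℤ (xF ξ ![x] i) := by
          have h1 : IsIntegral ℤ ((![x] : Fin 1 → Ω) i) := by
            rw [Subsingleton.elim i 0]
            exact h.integral_x
          exact (isIntegral_algebraMap_iff (algebraMap (FF ξ ![x]) Ω).injective).1 h1
        obtain ⟨t, ht⟩ : ∃ t : 𝓞 (FF ξ ![x]), algebraMap (𝓞 (FF ξ ![x])) (FF ξ ![x]) t = xF ξ ![x] i :=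
          ⟨⟨xF ξ ![x] i, hint⟩, rfl⟩
        refine ⟨t, congrArg Subtype.val ht, 0, ?_⟩
        apply RingOfIntegers.coe_injective
        rw [mul_zero, map_sub, map_pow, map_pow, hs', map_zero, ht, hsx, sub_self]
    · refine ⟨0, by simp, 0, ?_⟩
      rw [map_zero, sub_self, mul_zero]
    · refine ⟨1, by simp, 0, ?_⟩
      rw [map_one, sub_self, mul_zero]
    · rintro z w _ _ ⟨y, hy, hy'⟩ ⟨t, ht, ht'⟩
      refine ⟨y + t, ?_, padd y t hy' ht'⟩
      rw [← hy, ← ht]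
      rfl
    · rintro z _ ⟨y, hy, hy'⟩
      refine ⟨-y, ?_, pneg y hy'⟩
      rw [← hy]
      rfl
    · rintro z w _ _ ⟨y, hy, hy'⟩ ⟨t, ht, ht'⟩
      refine ⟨y * t, ?_, pmul y t hy' ht'⟩
      rw [← hy, ← ht]
      rfl
  obtain ⟨N, hNn, hN⟩ := intG_mul h
  intro y
  have hyi : IsIntegral ℤ ((y : FF ξ ![x]) : Ω) :=
    y.isIntegral_coe.map (algebraMap (FF ξ ![x]) Ω).toIntAlgHom
  obtain ⟨t, ht, c, hc⟩ := key _ (hN _ (y : FF ξ ![x]).2 hyi)
  have htN : t = (N : 𝓞 (FF ξ ![x])) * y := by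
    apply RingOfIntegers.coe_injective
    apply Subtype.ext
    rw [map_mul, map_natCast]
    exact ht
  have hcop : Nat.Coprime (N ^ q) q := Nat.Coprime.pow_left q (Nat.Coprime.coprime_dvd_right hqn hNn)
  have hbez : ∃ u v : ℤ, u * (N ^ q : ℕ) + v * q = 1 := by
    have h1 : IsCoprime ((N ^ q : ℕ) : ℤ) (q : ℤ) := Nat.isCoprime_iff_coprime.2 hcop
    exact h1
  obtain ⟨u, v, huv⟩ := hbez
  have huv' : (u : 𝓞 (FF ξ ![x])) * (N : 𝓞 (FF ξ ![x])) ^ q + v * q = 1 := by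
    have h1 := congrArg (fun z : ℤ => (z : 𝓞 (FF ξ ![x]))) huv
    push_cast at h1
    exact h1
  rw [htN, map_mul, map_natCast, mul_pow, mul_pow] at hc
  refine ⟨u * c + v * (s' y ^ q - y ^ q), ?_⟩
  have h2 : s' y ^ q - y ^ q = q * (u * c + v * (s' y ^ q - y ^ q)) := by
    linear_combination (-(s' y ^ q - y ^ q)) * huv' + u * hc
  have h3 := congrArg (algebraMap (𝓞 (FF ξ ![x])) (FF ξ ![x])) h2
  rw [map_sub, map_pow, map_pow, hs', map_mul, map_natCast] at h3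
  exact h3

private theorem gal_oneG {K L : Type} [Field K] [Field L] [Algebra K L] {ξ : L}
    (htop : Algebra.adjoin K {ξ} = ⊤) (s : L ≃ₐ[K] L) (hs : s ξ = ξ) : s = 1 := by
  have h1 : (s : L →ₐ[K] L) = AlgHom.id K L :=
    AlgHom.ext_of_adjoin_eq_top htop fun y hy => by
      rw [Set.mem_singleton_iff] at hy
      rw [hy]
      exact hs
  ext y
  exact DFunLike.congr_fun h1 y

private theorem gal_cycG {K L : Type} [Field K] [Field L] [Algebra K L] [FiniteDimensional K L]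
    {n q : ℕ} (hn : 1 ≤ n)
    {ξ : L} (hξ : IsPrimitiveRoot ξ n) (hq : q.Prime) (hqn : q ∣ n) {a : K}
    (ha : algebraMap K L a = ξ ^ q) (htop : Algebra.adjoin K {ξ} = ⊤) :
    IsCyclic (L ≃ₐ[K] L) := by
  have : NeZero q := ⟨hq.ne_zero⟩
  have hξ0 : ξ ≠ 0 := hξ.ne_zero (by omega)
  have hζ : IsPrimitiveRoot (ξ ^ (n / q)) q := by
    refine hξ.pow hn ?_
    rw [Nat.div_mul_cancel hqn]
  by_cases hA : q ∣ n / q
  · -- case A
    have hfix : ∀ (s : L ≃ₐ[K] L) (z : L), z ^ q = 1 → s z = z := by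
      intro s z hz
      obtain ⟨i, -, rfl⟩ := hζ.eq_pow_of_pow_eq_one hz
      have h1 : ξ ^ (n / q) = algebraMap K L (a ^ (n / q / q)) := by
        rw [map_pow, ha, ← pow_mul, Nat.mul_div_cancel' hA]
      rw [h1, ← map_pow, AlgEquiv.commutes]
    have hr : ∀ s : L ≃ₐ[K] L, (s ξ / ξ) ^ q = 1 := by
      intro s
      have h1 : s (ξ ^ q) = ξ ^ q := by rw [← ha, AlgEquiv.commutes]
      rw [div_pow, ← map_pow, h1, div_self (pow_ne_zero _ hξ0)]
    let f : (L ≃ₐ[K] L) →* L :=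
      { toFun := fun s => s ξ / ξ
        map_one' := by
          show ξ / ξ = 1
          exact div_self hξ0
        map_mul' := fun s t => by
          show s (t ξ) / ξ = s ξ / ξ * (t ξ / ξ)
          have h1 := hfix s _ (hr t)
          rw [map_div₀] at h1
          have hs0 : s ξ ≠ 0 := (map_ne_zero s).2 hξ0
          rw [div_eq_iff hs0] at h1
          rw [h1]
          field_simp }
    refine isCyclic_of_injective_ringHom f fun s t hst => ?_
    have h1 : s ξ / ξ = t ξ / ξ := hst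
    have h2 : s ξ = t ξ := by
      field_simp at h1
      exact h1
    have h3 : t⁻¹ * s = 1 := gal_oneG htop _ (by
      show t.symm (s ξ) = ξ
      rw [h2, AlgEquiv.symm_apply_apply])
    exact (inv_mul_eq_one.1 h3).symm
  · -- case B
    have : Fact q.Prime := ⟨hq⟩
    have hcop : Nat.Coprime q (n / q) := (Nat.Prime.coprime_iff_not_dvd hq).2 hA
    let f : (L ≃ₐ[K] L) →* ZMod q := (Units.coeHom (ZMod q)).comp (hζ.autToPow K)
    refine isCyclic_of_injective_ringHom f ?_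
    refine Function.Injective.comp (g := fun u : (ZMod q)ˣ => (u : ZMod q)) Units.val_injective ?_
    rw [injective_iff_map_eq_one]
    intro s hs
    have h1 : s (ξ ^ (n / q)) = ξ ^ (n / q) := by
      rw [← hζ.autToPow_spec K s, hs]
      rw [Units.val_one, ZMod.val_one, pow_one]
    refine gal_oneG htop s ?_
    have h2 : s (ξ ^ q) = ξ ^ q := by rw [← ha, AlgEquiv.commutes]
    -- (s ξ / ξ) ^ q = 1, (s ξ / ξ) ^ (n/q) = 1
    have h3 : (s ξ / ξ) ^ q = 1 := by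
      rw [div_pow, ← map_pow, h2, div_self (pow_ne_zero _ hξ0)]
    have h4 : (s ξ / ξ) ^ (n / q) = 1 := by
      rw [div_pow, ← map_pow, h1, div_self (pow_ne_zero _ hξ0)]
    have h5 : s ξ / ξ = 1 := by
      have h6 := Nat.dvd_gcd (orderOf_dvd_of_pow_eq_one h3) (orderOf_dvd_of_pow_eq_one h4)
      rw [hcop.gcd_eq_one, Nat.dvd_one, orderOf_eq_one_iff] at h6
      exact h6
    exact (div_eq_one_iff_eq hξ0).1 h5

private theorem gal_absG {K L : Type} [Field K] [Field L] [Algebra K L] [CharZero K] {n q : ℕ}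
    (hn : 1 ≤ n) {ξ : L} (hξ : IsPrimitiveRoot ξ n) (hq : q.Prime) (hqn : q ∣ n) {a : K}
    (ha : algebraMap K L a = ξ ^ q) (htop : Algebra.adjoin K {ξ} = ⊤)
    (hne : ξ ∉ Set.range (algebraMap K L)) :
    ∃ s : L ≃ₐ[K] L, (∀ y, s y = y ↔ y ∈ Set.range (algebraMap K L)) ∧
      ∀ k : ℕ, ∃ η : L, η ^ n = 1 ∧ s η = (ξ ^ (n / q)) ^ k * η := by
  have : NeZero n := ⟨by omega⟩
  have : NeZero q := ⟨hq.ne_zero⟩
  have : Fact q.Prime := ⟨hq⟩
  have hξ0 : ξ ≠ 0 := hξ.ne_zero (by omega)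
  have hc : IsCyclotomicExtension {n} K L := by
    rw [IsCyclotomicExtension.iff_adjoin_eq_top]
    refine ⟨fun r hr _ => ?_, ?_⟩
    · rw [Set.mem_singleton_iff] at hr
      rw [hr]
      exact ⟨ξ, hξ⟩
    · rw [eq_top_iff, ← htop]
      refine Algebra.adjoin_mono ?_
      rw [Set.singleton_subset_iff]
      exact ⟨n, rfl, by omega, hξ.pow_eq_one⟩
  have : FiniteDimensional K L := IsCyclotomicExtension.finiteDimensional {n} K L
  have : IsGalois K L := IsCyclotomicExtension.isGalois {n} K L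
  obtain ⟨s, hs⟩ := (gal_cycG hn hξ hq hqn ha htop).exists_generator
  have hfix : ∀ y, s y = y ↔ y ∈ Set.range (algebraMap K L) := by
    intro y
    refine ⟨fun hy => ?_, fun ⟨z, hz⟩ => by rw [← hz, AlgEquiv.commutes]⟩
    rw [IsGalois.mem_range_algebraMap_iff_fixed]
    intro f
    have h1 : s ∈ MulAction.stabilizer (L ≃ₐ[K] L) y := hy
    have h2 : f ∈ MulAction.stabilizer (L ≃ₐ[K] L) y :=
      (Subgroup.zpowers_le.2 h1) (hs f)
    exact h2
  refine ⟨s, hfix, fun k => ?_⟩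
  have hζ : IsPrimitiveRoot (ξ ^ (n / q)) q := by
    refine hξ.pow hn ?_
    rw [Nat.div_mul_cancel hqn]
  have h1 : s (ξ ^ q) = ξ ^ q := by rw [← ha, AlgEquiv.commutes]
  have h2 : (s ξ / ξ) ^ q = 1 := by
    rw [div_pow, ← map_pow, h1, div_self (pow_ne_zero _ hξ0)]
  obtain ⟨c, -, hc2⟩ := hζ.eq_pow_of_pow_eq_one h2
  have h3 : s ξ = (ξ ^ (n / q)) ^ c * ξ := by
    rw [hc2, div_mul_cancel₀ _ hξ0]
  have hc0 : (c : ZMod q) ≠ 0 := by
    intro h0
    rw [ZMod.natCast_eq_zero_iff] at h0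
    obtain ⟨t, rfl⟩ := h0
    rw [pow_mul, hζ.pow_eq_one, one_pow, one_mul] at h3
    exact hne ((hfix ξ).1 h3)
  refine ⟨ξ ^ ((c : ZMod q)⁻¹ * k).val, ?_, ?_⟩
  · rw [← pow_mul, mul_comm, pow_mul, hξ.pow_eq_one, one_pow]
  · rw [map_pow, h3, mul_pow, ← pow_mul]
    congr 1
    have h4 : c * ((c : ZMod q)⁻¹ * k).val ≡ k [MOD q] := by
      rw [← ZMod.natCast_eq_natCast_iff, Nat.cast_mul, ZMod.natCast_zmod_val, ← mul_assoc,
        mul_inv_cancel₀ hc0, one_mul]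
    exact pow_eq_pow_of_modEq h4 hζ.pow_eq_one

theorem exists_sG (h : DatG b m n ξ x) (q : ℕ) (hq : q.Prime) (hqn : q ∣ n)
    (hξ : ξ ∉ FF (ξ ^ q) ![x]) :
    ∃ s : FF ξ ![x] ≃+* FF ξ ![x], (∀ y : FF ξ ![x], s y = y ↔ (y : Ω) ∈ FF (ξ ^ q) ![x]) ∧
      ∀ k : ℕ, ∃ η : FF ξ ![x], η ^ n = 1 ∧ s η = (ξF ξ ![x] ^ (n / q)) ^ k * η := by
  have hle : FF (ξ ^ q) ![x] ≤ FF ξ ![x] := FF_mono ξ (ξ ^ q) ![x] (pow_mem (mem_FF_ξ ξ ![x]) q)
  let alg : Algebra (FF (ξ ^ q) ![x]) (FF ξ ![x]) :=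
    (IntermediateField.inclusion hle).toRingHom.toAlgebra
  have tow : IsScalarTower (FF (ξ ^ q) ![x]) (FF ξ ![x]) Ω := IsScalarTower.of_algebraMap_eq' rfl
  have htop : Algebra.adjoin (FF (ξ ^ q) ![x]) {ξF ξ ![x]} = ⊤ := by
    have halg : IsIntegral (FF (ξ ^ q) ![x]) ξ := h.integral_ξ.tower_top
    have h1 : ∀ y ∈ FF ξ ![x], y ∈ IntermediateField.adjoin (FF (ξ ^ q) ![x]) {ξ} := by
      intro y hy
      have h2 : IntermediateField.adjoin ℚ ({ξ} ∪ Set.range ![x]) ≤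
          (IntermediateField.adjoin (FF (ξ ^ q) ![x]) {ξ}).restrictScalars ℚ := by
        rw [IntermediateField.adjoin_le_iff]
        rintro z (hz | ⟨i, rfl⟩)
        · rw [Set.mem_singleton_iff] at hz
          rw [hz]
          exact IntermediateField.mem_adjoin_simple_self _ ξ
        · exact (IntermediateField.adjoin (FF (ξ ^ q) ![x]) {ξ}).algebraMap_mem
            ⟨(![x] : Fin 1 → Ω) i, mem_FF (ξ ^ q) ![x] i⟩
      exact h2 hy
    rw [Algebra.eq_top_iff]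
    intro y
    have h3 := h1 y y.2
    rw [← IntermediateField.mem_toSubalgebra,
      IntermediateField.adjoin_simple_toSubalgebra_of_isAlgebraic halg.isAlgebraic] at h3
    have h4 : (Algebra.adjoin (FF (ξ ^ q) ![x]) {ξF ξ ![x]}).map
        (IsScalarTower.toAlgHom (FF (ξ ^ q) ![x]) (FF ξ ![x]) Ω) =
        Algebra.adjoin (FF (ξ ^ q) ![x]) {ξ} := by
      rw [AlgHom.map_adjoin, Set.image_singleton]
      rfl
    rw [← h4] at h3
    obtain ⟨z, hz, hzy⟩ := h3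
    have h5 : z = y := Subtype.ext hzy
    rw [← h5]
    exact hz
  have hξF : IsPrimitiveRoot (ξF ξ ![x]) n :=
    IsPrimitiveRoot.of_map_of_injective (f := (FF ξ ![x]).val) h.prim (FF ξ ![x]).val.injective
  obtain ⟨s, hs, hk⟩ := gal_absG h.hn hξF hq hqn
    (a := (⟨ξ ^ q, mem_FF_ξ _ ![x]⟩ : FF (ξ ^ q) ![x])) (Subtype.ext rfl) htop
    (fun ⟨z, hz⟩ => hξ (by
      have h1 : (z : Ω) = ξ := congrArg Subtype.val hz
      have h2 := z.2
      rwa [h1] at h2))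
  exact ⟨s.toRingEquiv, fun y => (hs y).trans ⟨fun ⟨z, hz⟩ => by
    rw [← hz]
    exact z.2, fun hy => ⟨⟨y, hy⟩, rfl⟩⟩, hk⟩

end Pool.Agent.H36.LF
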