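import Pool.Agent.H36.LF.CorA
import Pool.Agent.H36.LF.MpA
import Pool.Agent.H36.LE.Exc
import Pool.Agent.H72.PL.HtL

/-!
# THEOREM L, version 2 (MP_187c26_nt), Lehmer over `A` with a polynomial bound, part 1

MODEL: `rd_one`, `lehmer_aux` in `Pool/Agent/H36/LE/LqB.lean` (copy and change). Imports may be sorried (`corA`).
PROOFS. `rdA_one`: `[A(1) : A] = 1`, `A⟮(1 : E)⟯ = ⊥ ≃ A`, so the discriminants agree (`NumberField.discr_eq_discr_of_ringEquiv`).
`lehmer_auxA`: `E := A⟮κ⟯`, `a := gen`, `N = [E : A]`, `L := 9 N`; suppose `q L h ≤ 1` for all `q ∈ S`. `corA` (`b = 1`, `m = 1`, `n = 1`, `g = 1`, `x = 1`, `d = N`): `L - dim VsA S ≤ 8 (L - dim VsA ∅)`. The `P ∈ BS A 1 L` are the `p.map C`, `p ∈ A[X]` of degree `< L`, `aevalAeval 1 y (p.map C) = aeval y p`,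
`tw σ (p.map C) = (p.map σ).map C`. `L - dim VsA ∅ ≤ N`. `P = p.map C ∈ VsA S`: `aeval κ p = 0`, `aeval (κ^q) (p.map (σ q)) = 0`: so `minpoly A κ ∣ p` and `minpoly A (κ^q) ∣ p.map (σ q)`, i.e. `g_q := (minpoly A (κ^q)).map (inverse of σ q) ∣ p` (`sig_bij`). The 9 polynomials `minpoly A κ`, `g_q` (`q ∈ S`) are monic,
irreducible, of degree `N`, and pairwise different: `g_q` divides `(minpoly ℚ (κ^q)).map (algebraMap ℚ A)` (rational coefficients are fixed by ring homomorphisms), so every root `γ` of `g_q` in an algebraically closed field has `minpoly ℚ γ = minpoly ℚ (κ^q)` and height `q h(κ)` (`absLogHeight_eq_of_minpoly_eq`, `absLogHeight_pow`),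
the roots of `minpoly A κ` have height `h(κ) > 0` (`Pool.Agent.H72.PL.height_pos`). So their product, of degree `9 N = L`, divides `p` of degree `< L`: `p = 0`, `dim VsA S = 0`: `9 N ≤ 8 N`, contradiction.
-/

set_option autoImplicit false

open Polynomial NumberField IntermediateField
open scoped Polynomial.Bivariate

namespace Pool.Agent.H36.LF

open Pool.Agent.H36.LE

theorem rdA_one (A E : Type) [Field A] [NumberField A] [Field E] [NumberField E] [Algebra A E] :
    RdA A 1 1 (Module.finrank A E) 0 (1 : E) := by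
  have hb : A⟮(1 : E)⟯ = ⊥ := IntermediateField.adjoin_one
  refine ⟨le_rfl, le_rfl, by simp, ?_, by rw [one_mul], ?_⟩
  · rw [hb, IntermediateField.finrank_bot]
  · let e : A⟮(1 : E)⟯ ≃+* A :=
      ((IntermediateField.equivOfEq hb).trans (IntermediateField.botEquiv A E)).toRingEquiv
    have h1 : NumberField.discr A⟮(1 : E)⟯ = NumberField.discr A :=
      NumberField.discr_eq_discr_of_ringEquiv _ e
    have h2 : dA A⟮(1 : E)⟯ = dA A := by
      unfold dA
      rw [h1]
    rw [h2]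
    simp

/-- constants in the first variable -/
private theorem eval_map_CA {A E : Type} [Field A] [Field E] [Algebra A E] (x y : E) (p : A[X]) :
    aevalAeval x y (p.map C) = aeval y p := by
  induction p using Polynomial.induction_on' with
  | add p q hp hq => rw [Polynomial.map_add, map_add, map_add, hp, hq]
  | monomial n r =>
    rw [Polynomial.map_monomial, ← C_mul_X_pow_eq_monomial, ← C_mul_X_pow_eq_monomial, map_mul, map_mul,
      map_pow, map_pow, aevalAeval_C, aevalAeval_Y, aeval_C, aeval_C, aeval_X]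

private theorem of_BSA {A : Type} [Field A] {P : A[X][Y]} {L : ℕ} (hP : P ∈ BS A 1 L) :
    ∃ p : A[X], P = p.map C ∧ p.degree < L := by
  refine ⟨P.map (evalRingHom 0), ?_, ?_⟩
  · ext j : 1
    rw [coeff_map, coeff_map]
    have h1 := hP.2 j
    have h2 : P.coeff j = C ((P.coeff j).coeff 0) := by
      refine eq_C_of_degree_le_zero ?_
      by_contra hcon
      push Not at hcon
      have h3 : (1 : WithBot ℕ) ≤ (P.coeff j).degree := by
        have h4 : ((0 : ℕ) : WithBot ℕ) < (P.coeff j).degree := by exact_mod_cast hcon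
        have h5 := Nat.WithBot.add_one_le_of_lt h4
        simpa using h5
      have h6 : (P.coeff j).degree < 1 := by exact_mod_cast h1
      exact absurd h6 (not_lt.2 h3)
    rw [h2, coe_evalRingHom, eval_C]
  · exact (degree_map_le).trans_lt hP.1

private theorem tw_map_C {A : Type} [Field A] (τ : A →+* A) (p : A[X]) :
    tw τ (p.map C) = (p.map τ).map C := by
  unfold tw
  rw [coe_mapRingHom, Polynomial.map_map, Polynomial.map_map]
  congr 1
  ext r : 1
  simp

/-- the twisted minimal polynomials -/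
private noncomputable def gq {A Ω : Type} [Field A] [Field Ω] [Algebra A Ω] (τ : A ≃+* A) (γ : Ω) : A[X] :=
  (minpoly A γ).map (τ.symm : A →+* A)

private theorem gq_monic {A Ω : Type} [Field A] [Field Ω] [Algebra A Ω] (τ : A ≃+* A) {γ : Ω}
    (hγ : IsIntegral A γ) : (gq τ γ).Monic := (minpoly.monic hγ).map _

private theorem gq_irr {A Ω : Type} [Field A] [Field Ω] [Algebra A Ω] (τ : A ≃+* A) {γ : Ω}
    (hγ : IsIntegral A γ) : Irreducible (gq τ γ) := by
  have h : gq τ γ = Polynomial.mapEquiv τ.symm (minpoly A γ) := rfl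
  rw [h, MulEquiv.irreducible_iff]
  exact minpoly.irreducible hγ

private theorem gq_deg {A Ω : Type} [Field A] [Field Ω] [Algebra A Ω] (τ : A ≃+* A) (γ : Ω) :
    (gq τ γ).natDegree = (minpoly A γ).natDegree := natDegree_map _

private theorem gq_dvd {A Ω : Type} [Field A] [Field Ω] [Algebra A Ω] (τ : A ≃+* A) (γ : Ω) (p : A[X])
    (h : aeval γ (p.map (τ : A →+* A)) = 0) : gq τ γ ∣ p := by
  obtain ⟨r, hr⟩ := minpoly.dvd A γ h
  refine ⟨r.map (τ.symm : A →+* A), ?_⟩
  have h2 := congrArg (Polynomial.map (τ.symm : A →+* A)) hr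
  rw [Polynomial.map_map, Polynomial.map_mul] at h2
  rw [gq, ← h2]
  have h3 : (τ.symm : A →+* A).comp (τ : A →+* A) = RingHom.id A := by
    ext r
    simp
  rw [h3, Polynomial.map_id]

private theorem gq_minpoly {A Ω Ω' : Type} [Field A] [NumberField A] [Field Ω] [CharZero Ω] [Algebra A Ω]
    [Field Ω'] [CharZero Ω'] [Algebra A Ω'] (τ : A ≃+* A) (γ : Ω) (hγ : IsIntegral ℚ γ) (δ : Ω')
    (h : aeval δ (gq τ γ) = 0) : minpoly ℚ δ = minpoly ℚ γ := by
  have h1 : gq τ γ ∣ (minpoly ℚ γ).map (algebraMap ℚ A) := by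
    have h2 : minpoly A γ ∣ (minpoly ℚ γ).map (algebraMap ℚ A) := minpoly.dvd_map_of_isScalarTower ℚ A γ
    have h3 := Polynomial.map_dvd (τ.symm : A →+* A) h2
    rw [Polynomial.map_map] at h3
    have h4 : (τ.symm : A →+* A).comp (algebraMap ℚ A) = algebraMap ℚ A := Subsingleton.elim _ _
    rw [h4] at h3
    exact h3
  have h5 : aeval δ ((minpoly ℚ γ).map (algebraMap ℚ A)) = 0 := by
    obtain ⟨r, hr⟩ := h1
    rw [hr, map_mul, h, zero_mul]
  rw [aeval_map_algebraMap] at h5
  exact (minpoly.eq_of_irreducible_of_monic (minpoly.irreducible hγ) h5 (minpoly.monic hγ)).symm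

theorem lehmer_auxA {A Ω : Type} [Field A] [NumberField A] [Field Ω] [CharZero Ω] [Algebra A Ω]
    (σ : ℕ → (A →+* A)) (κ : Ω) (hκ : IsIntegral A κ) (h0 : κ ≠ 0)
    (h1 : ∀ k : ℕ, 1 ≤ k → κ ^ k ≠ 1) (N : ℕ) (hN : Module.finrank A A⟮κ⟯ = N) (S : Finset ℕ)
    (hS : S.card = 8) (hS2 : ∀ q ∈ S, q.Prime ∧ Pool.Agent.H72.BE.Frob A q (σ q) ∧
      Module.finrank A A⟮κ ^ q⟯ = N ∧ 8 * (Real.log (9 * N * N) / 2 + 1) ≤ 7 * Real.log q) :
    ∃ q ∈ S, 1 < (q * (9 * N) : ℝ) * absLogHeight₁ κ := by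
  classical
  by_contra hcon
  push Not at hcon
  have hfd : FiniteDimensional A A⟮κ⟯ := adjoin.finiteDimensional hκ
  have hfq : FiniteDimensional ℚ A⟮κ⟯ := Module.Finite.trans A A⟮κ⟯
  have hnf : NumberField A⟮κ⟯ := {}
  obtain ⟨a, ha⟩ : ∃ a : A⟮κ⟯, a = AdjoinSimple.gen A κ := ⟨_, rfl⟩
  have haκ : algebraMap A⟮κ⟯ Ω a = κ := by
    rw [ha]
    rfl
  have hN1 : 1 ≤ N := by
    rw [← hN]
    exact Module.finrank_pos
  have ha0 : a ≠ 0 := by
    rintro rfl
    rw [map_zero] at haκ
    exact h0 haκ.symm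
  have ha1 : ∀ n : ℕ, 1 ≤ n → a ^ n ≠ 1 := by
    intro n hn h
    apply h1 n hn
    rw [← haκ, ← map_pow, h, map_one]
  have hha : absLogHeight₁ a = absLogHeight₁ κ := by
    have e1 := Pool.Agent.H4.RR.absLogHeight_eq A⟮κ⟯ A⟮κ⟯ (RingHom.id _) a
    have e2 := Pool.Agent.H4.RR.absLogHeight_eq A⟮κ⟯ Ω (algebraMap A⟮κ⟯ Ω) a
    rw [haκ] at e2
    rw [e2, ← e1]
    rfl
  have hpos : 0 < absLogHeight₁ κ := by
    rw [← hha]
    exact Pool.Agent.H72.PL.height_pos a ha0 ha1
  have hSp : ∀ q ∈ S, 0 < q := fun q hq => (hS2 q hq).1.pos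
  have key := corA (rdA_one A A⟮κ⟯) le_rfl σ a 1 (9 * N) 1 le_rfl le_rfl (by omega) le_rfl
    (Nat.coprime_one_right 1) S (by
      intro q hq
      obtain ⟨h2, hfr, -, h3⟩ := hS2 q hq
      refine ⟨h2, fun h => h2.one_lt.ne' (Nat.dvd_one.1 h), hfr, by omega, ?_, ?_⟩
      · rw [hN]
        push_cast
        rw [Real.log_one]
        linarith
      · rw [hha]
        have h4 := hcon q hq
        push_cast
        rw [one_mul]
        exact h4)
  have hκQ : IsIntegral ℚ κ := isIntegral_trans κ hκ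
  obtain ⟨τ, hτ⟩ : ∃ τ : ℕ → (A ≃+* A), ∀ q x, τ q x = if q = 1 then x else σ q x := by
    have h2 : ∀ q : ℕ, ∃ e : A ≃+* A, ∀ x, e x = if q = 1 then x else σ q x := by
      intro q
      by_cases hq : q = 1
      · refine ⟨RingEquiv.refl A, fun x => ?_⟩
        rw [if_pos hq]
        rfl
      · refine ⟨RingEquiv.ofBijective (σ q) (sig_bij (σ q)), fun x => ?_⟩
        rw [if_neg hq]
        rfl
    choose τ hτ using h2
    exact ⟨τ, hτ⟩
  have hint : ∀ q ∈ insert 1 S, IsIntegral A (κ ^ q) := fun q _ => hκ.pow q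
  have hV0 : VsA A σ (1 : A⟮κ⟯) a 1 (9 * N) 1 S = ⊥ := by
    rw [Submodule.eq_bot_iff]
    intro P hP
    obtain ⟨hP1, hP2, hP3⟩ := hP
    obtain ⟨p, rfl, hpd⟩ := of_BSA hP1
    have hp1 : ∀ q ∈ insert 1 S, aeval (κ ^ q) (p.map (τ q : A →+* A)) = 0 := by
      intro q hq
      have h2 : aeval (a ^ q) (p.map (τ q : A →+* A)) = 0 := by
        by_cases hq1 : q = 1
        · have h3 : aevalAeval (R := A) ((1 : A⟮κ⟯) ^ 1) (a ^ 1) (p.map C) = 0 := hP2
          rw [eval_map_CA] at h3
          have h4 : (τ q : A →+* A) = RingHom.id A := by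
            ext x
            show τ q x = x
            rw [hτ, if_pos hq1]
          rw [h4, Polynomial.map_id, hq1]
          exact h3
        · have hqS : q ∈ S := (Finset.mem_insert.1 hq).resolve_left hq1
          have h3 := hP3 q hqS
          rw [tw_map_C, eval_map_CA, one_mul] at h3
          have h4 : (τ q : A →+* A) = σ q := by
            ext x
            show τ q x = σ q x
            rw [hτ, if_neg hq1]
          rw [h4]
          exact h3
      have h3 := congrArg (algebraMap A⟮κ⟯ Ω) h2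
      rw [map_zero, ← aeval_algebraMap_apply, map_pow, haκ] at h3
      exact h3
    have hd : ∏ q ∈ insert 1 S, gq (τ q) (κ ^ q) ∣ p := by
      refine Finset.prod_dvd_of_coprime ?_ fun q hq => gq_dvd _ _ _ (hp1 q hq)
      intro q hq q' hq' hne
      have hi := gq_irr (τ q) (hint q hq)
      have hi' := gq_irr (τ q') (hint q' hq')
      refine (hi.coprime_iff_not_dvd).2 fun h3 => hne ?_
      have h4 : gq (τ q) (κ ^ q) = gq (τ q') (κ ^ q') :=
        eq_of_monic_of_associated (gq_monic _ (hint q hq)) (gq_monic _ (hint q' hq'))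
          (hi.associated_of_dvd hi' h3)
      obtain ⟨δ, hδ⟩ := IsAlgClosed.exists_aeval_eq_zero (AlgebraicClosure A) (gq (τ q) (κ ^ q))
        hi.degree_pos.ne'
      have h5 := gq_minpoly (τ q) (κ ^ q) (hκQ.pow q) δ hδ
      rw [h4] at hδ
      have h6 := gq_minpoly (τ q') (κ ^ q') (hκQ.pow q') δ hδ
      have h2 := Pool.Agent.H4.RR.absLogHeight_eq_of_minpoly_eq Ω _ _ (hκQ.pow q) (h5.symm.trans h6)
      rw [Pool.Agent.H4.RR.absLogHeight_pow Ω κ hκQ, Pool.Agent.H4.RR.absLogHeight_pow Ω κ hκQ] at h2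
      have h3 := mul_right_cancel₀ hpos.ne' h2
      exact_mod_cast h3
    have hdeg : (∏ q ∈ insert 1 S, gq (τ q) (κ ^ q)).natDegree = 9 * N := by
      rw [natDegree_prod_of_monic _ _ fun q hq => gq_monic _ (hint q hq)]
      have h2 : ∀ q ∈ insert 1 S, (gq (τ q) (κ ^ q)).natDegree = N := by
        intro q hq
        rw [gq_deg, ← adjoin.finrank (hint q hq)]
        rcases Finset.mem_insert.1 hq with rfl | hq
        · rw [pow_one]
          exact hN
        · exact (hS2 q hq).2.2.1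
      rw [Finset.sum_congr rfl h2, Finset.sum_const, smul_eq_mul, Finset.card_insert_of_notMem, hS]
      intro h
      exact Nat.not_prime_one (hS2 1 h).1
    have hp0 : p = 0 := by
      by_contra hp
      have h2 := natDegree_le_of_dvd hd hp
      rw [hdeg] at h2
      rw [degree_eq_natDegree hp] at hpd
      have h3 : p.natDegree < 9 * N := by exact_mod_cast hpd
      omega
    rw [hp0, Polynomial.map_zero]
  have hV1 := corA0 σ (1 : A⟮κ⟯) a 1 (9 * N) 1
  rw [hN] at hV1
  rw [hV0, finrank_bot] at key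
  omega

end Pool.Agent.H36.LF
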