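import Pool.Agent.H36.LF.LhA

/-!
# THEOREM L, version 2 (MP_187c26_nt), Lehmer over `A` with a polynomial bound, part 2

MODEL: `lehmerQ` in `Pool/Agent/H36/LE/LqB.lean` (copy and change). Imports may be sorried (`lehmer_auxA`, `exc'`).
PROOF. `N' := finrank A A⟮κ⟯ ≤ N` (`N' ≥ 1`), `T := 729 N^2` (with `N`, not `N'`), so that `8 (log (9 N' N')/2 + 1) ≤ 7 log q` for `q > T`. Bertrand: primes `q_i ∈ (2^i T, 2^(i+1) T]`, `i < 9 + log₂ N'` (as in the model); at most `log₂ N'` of them have `[A(κ^q) : A] ≠ N'` (`exc'`), so 8 good ones remain, all `≤ 512 N' T ≤ 373248 N^3`: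
`C := 373248`. They are `≥ N`, so `Frob A q (σ q)`. `lehmer_auxA`: some `q 9 N' h > 1`: `h > 1/(9 N * 373248 N^3)`.
-/

set_option autoImplicit false

open Polynomial NumberField IntermediateField

namespace Pool.Agent.H36.LF

open Pool.Agent.H36.LE

theorem lehmerA : ∃ c : ℝ, 0 < c ∧ ∃ C : ℕ, ∀ (A Ω : Type) [Field A] [NumberField A] [Field Ω]
    [CharZero Ω] [Algebra A Ω] (σ : ℕ → (A →+* A)) (κ : Ω), IsIntegral A κ → κ ≠ 0 →
    (∀ k : ℕ, 1 ≤ k → κ ^ k ≠ 1) → ∀ N : ℕ, Module.finrank A A⟮κ⟯ ≤ N →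
    (∀ q : ℕ, q.Prime → N ≤ q → q ≤ C * N ^ 3 → Pool.Agent.H72.BE.Frob A q (σ q)) →
    c / (N : ℝ) ^ 4 ≤ absLogHeight₁ κ := by
  classical
  refine ⟨1 / 1679616, by norm_num, 373248, ?_⟩
  intro A Ω _ _ _ _ _ σ κ hκ h0 h1 N' hN' hFr
  obtain ⟨N, hN⟩ : ∃ N, N = Module.finrank A A⟮κ⟯ := ⟨_, rfl⟩
  rw [← hN] at hN'
  have hN1 : 1 ≤ N := by
    rw [hN]
    have : FiniteDimensional A A⟮κ⟯ := adjoin.finiteDimensional hκ
    exact Module.finrank_pos
  have hN1' : 1 ≤ N' := hN1.trans hN'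
  have hN0 : (0 : ℝ) < N := by exact_mod_cast hN1
  have hN0' : (0 : ℝ) < N' := by exact_mod_cast hN1'
  obtain ⟨T, hT⟩ : ∃ T, T = 729 * N' ^ 2 := ⟨_, rfl⟩
  have hT0 : 0 < T := by
    rw [hT]
    positivity
  have hB : ∀ i : ℕ, ∃ q : ℕ, q.Prime ∧ 2 ^ i * T < q ∧ q ≤ 2 * (2 ^ i * T) := fun i =>
    Nat.exists_prime_lt_and_le_two_mul (2 ^ i * T) (by positivity)
  choose q hq1 hq2 hq3 using hB
  have hmono : StrictMono q := strictMono_nat_of_lt_succ fun i => (hq3 i).trans_lt (by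
    have h2 := hq2 (i + 1)
    have h3 : 2 ^ (i + 1) * T = 2 * (2 ^ i * T) := by ring
    omega)
  obtain ⟨B, hBd⟩ : ∃ B, B = (Finset.range (8 + Nat.log 2 N)).image q := ⟨_, rfl⟩
  have hBc' : B.card = 8 + Nat.log 2 N := by
    rw [hBd, Finset.card_image_of_injective _ hmono.injective, Finset.card_range]
  have hBp : ∀ p ∈ B, p.Prime ∧ T < p ∧ p ≤ 256 * N * T := by
    intro p hp
    rw [hBd] at hp
    obtain ⟨i, hi, rfl⟩ := Finset.mem_image.1 hp
    rw [Finset.mem_range] at hi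
    refine ⟨hq1 i, lt_of_le_of_lt ?_ (hq2 i), (hq3 i).trans ?_⟩
    · exact Nat.le_mul_of_pos_left T (by positivity)
    · have h2 : 2 ^ (i + 1) ≤ 2 ^ (8 + Nat.log 2 N) := Nat.pow_le_pow_right two_pos (by omega)
      have h3 : 2 ^ (8 + Nat.log 2 N) ≤ 256 * N := by
        rw [pow_add]
        exact Nat.mul_le_mul (by norm_num) (Nat.pow_log_le_self 2 (by omega))
      calc 2 * (2 ^ i * T) = 2 ^ (i + 1) * T := by ring
        _ ≤ 256 * N * T := Nat.mul_le_mul_right T (h2.trans h3)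
  have hBc : (B.filter fun p => ¬ Module.finrank A A⟮κ ^ p⟯ = N).card ≤ Nat.log 2 N := by
    refine Nat.le_log_of_pow_le one_lt_two ?_
    have h2 := exc' κ hκ (B.filter fun p => ¬ Module.finrank A A⟮κ ^ p⟯ = N) (fun p hp => by
      rw [Finset.mem_filter] at hp
      exact ⟨(hBp p hp.1).1, by rw [← hN]; exact hp.2⟩)
    rw [← hN] at h2
    exact h2
  have hG : 8 ≤ (B.filter fun p => Module.finrank A A⟮κ ^ p⟯ = N).card := by
    have h2 := Finset.card_filter_add_card_filter_not (s := B)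
      (fun p => Module.finrank A A⟮κ ^ p⟯ = N)
    omega
  obtain ⟨S, hSB, hSc⟩ := Finset.exists_subset_card_eq hG
  have hl3 : 1 < Real.log 3 := by
    rw [Real.lt_log_iff_exp_lt (by norm_num)]
    exact Real.exp_one_lt_d9.trans (by norm_num)
  have hlN : 0 ≤ Real.log N := Real.log_natCast_nonneg N
  have hlN' : Real.log N ≤ Real.log N' := Real.log_le_log hN0 (by exact_mod_cast hN')
  have hle : ∀ p ∈ B, N' ≤ p ∧ p ≤ 373248 * N' ^ 3 := by
    intro p hp
    obtain ⟨-, h4, h5⟩ := hBp p hp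
    constructor
    · have h6 : N' ≤ T := by
        rw [hT]
        calc N' = 1 * N' ^ 1 := by ring
          _ ≤ 729 * N' ^ 2 := Nat.mul_le_mul (by norm_num) (Nat.pow_le_pow_right hN1' (by norm_num))
      omega
    · calc p ≤ 256 * N * T := h5
        _ ≤ 256 * N' * T := Nat.mul_le_mul_right T (Nat.mul_le_mul_left 256 hN')
        _ = 186624 * N' ^ 3 := by rw [hT]; ring
        _ ≤ 373248 * N' ^ 3 := Nat.mul_le_mul_right _ (by norm_num)
  obtain ⟨p, hp, hlt⟩ := lehmer_auxA σ κ hκ h0 h1 N hN.symm S hSc (fun p hp => by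
    have h2 := Finset.mem_filter.1 (hSB hp)
    obtain ⟨h3, h4, h5⟩ := hBp p h2.1
    obtain ⟨h3', h3''⟩ := hle p h2.1
    refine ⟨h3, hFr p h3 h3' h3'', h2.2, ?_⟩
    have h6 : Real.log (9 * N * N) = 2 * Real.log 3 + 2 * Real.log N := by
      rw [show (9 * N * N : ℝ) = 3 ^ 2 * N ^ 2 by ring, Real.log_mul (by norm_num) (by positivity),
        Real.log_pow, Real.log_pow]
      push_cast
      ring
    have h7 : Real.log T = 6 * Real.log 3 + 2 * Real.log N' := by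
      rw [hT]
      push_cast
      rw [show (729 * N' ^ 2 : ℝ) = 3 ^ 6 * N' ^ 2 by ring, Real.log_mul (by norm_num) (by positivity),
        Real.log_pow, Real.log_pow]
      push_cast
      ring
    have h8 : Real.log T ≤ Real.log p := Real.log_le_log (by exact_mod_cast hT0) (by exact_mod_cast h4.le)
    rw [h6]
    linarith)
  have hpB := hBp p (Finset.mem_filter.1 (hSB hp)).1
  have hNN : (N : ℝ) ≤ N' := by exact_mod_cast hN'
  have hp3 : (p : ℝ) ≤ 256 * N' * (729 * N' ^ 2) := by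
    have h2 := hpB.2.2
    rw [hT] at h2
    have h3 : p ≤ 256 * N' * (729 * N' ^ 2) :=
      h2.trans (Nat.mul_le_mul_right _ (Nat.mul_le_mul_left 256 hN'))
    exact_mod_cast h3
  have hh : 0 < absLogHeight₁ κ := by
    by_contra hneg
    push Not at hneg
    have h2 : (p * (9 * N) : ℝ) * absLogHeight₁ κ ≤ 0 :=
      mul_nonpos_of_nonneg_of_nonpos (by positivity) hneg
    linarith
  have h9 : 1 < 1679616 * (N' : ℝ) ^ 4 * absLogHeight₁ κ := by
    refine hlt.trans_le (mul_le_mul_of_nonneg_right ?_ hh.le)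
    calc (p * (9 * N) : ℝ) ≤ 256 * N' * (729 * N' ^ 2) * (9 * N') :=
          mul_le_mul hp3 (by linarith) (by positivity) (by positivity)
      _ = 1679616 * (N' : ℝ) ^ 4 := by ring
  rw [div_div, div_le_iff₀ (by positivity)]
  linarith

end Pool.Agent.H36.LF
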