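import Pool.Agent.H36.LF.McA

/-!
# THEOREM L, version 2 (MP_187c26_nt): the semilinear evaluation map has norm at most `b √(L d)`

MODEL: `exists_T` in `Pool/Agent/H36/LE/MiB.lean`. Imports may be sorried.
PROOF. `(T h)_τ := ∑_p h_(τ|_A ∘ σ, p) (τ x)^(γ p₁) (τ a)^(γ p₂) wt a K τ / √m`, `τ|_A := τ.comp (algebraMap A E)`. `T (pcA c) = ph m a K (bzA σ x a n L γ c)` by `bzA_apply`. Norm: split the sum over `τ` according to `t = τ|_A` (`Finset.sum_fiberwise`); for fixed `t`, Cauchy-Schwarz in `l` and `sum_embA` for each `l`: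
`∑_(τ over t) ≤ (1/m) L (m d) ∑_(j,l) ρ^(2 γ j) |h_(t ∘ σ, (j,l))|^2 ≤ L d b^2 ∑_p |h_(t ∘ σ, p)|^2` (`rho_pow_leA`). `t ↦ t ∘ σ` is injective (`σ` is surjective: an injective `ℚ`-linear map of a finite dimensional space), so the sum over `t` is at most `L d b^2 ‖h‖^2`.
-/

set_option autoImplicit false

open Polynomial NumberField IntermediateField

namespace Pool.Agent.H36.LF

open Pool.Agent.H36.LE

private theorem wt_posA {E : Type} [Field E] [NumberField E] (a : E) (K : ℕ) (τ : E →+* ℂ) : 0 < wt a K τ := by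
  unfold wt
  positivity

private theorem wt_leA {E : Type} [Field E] [NumberField E] (a : E) (K γ L : ℕ) (hK : γ * (L - 1) ≤ K)
    (τ : E →+* ℂ) (l : Fin L) : ‖τ a‖ ^ (γ * (l : ℕ)) * wt a K τ ≤ 1 := by
  have h1 : (1 : ℝ) ≤ max 1 ‖τ a‖ := le_max_left _ _
  have h2 : γ * (l : ℕ) ≤ K := by
    have h3 : (l : ℕ) ≤ L - 1 := by have := l.2; omega
    exact (Nat.mul_le_mul_left _ h3).trans hK
  unfold wt
  rw [mul_inv_le_iff₀ (by positivity), one_mul]
  calc ‖τ a‖ ^ (γ * (l : ℕ)) ≤ max 1 ‖τ a‖ ^ (γ * (l : ℕ)) :=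
        pow_le_pow_left₀ (norm_nonneg _) (le_max_right _ _) _
    _ ≤ max 1 ‖τ a‖ ^ K := pow_le_pow_right₀ h1 h2

theorem exists_TA {A E : Type} [Field A] [NumberField A] [Field E] [NumberField E] [Algebra A E]
    {b m d : ℕ} {ι : ℝ} {x : E} (hx : RdA A b m d ι x) (σ : A →+* A) (a : E) (n L γ K : ℕ)
    (hn : n ≤ m) (hγ : γ.Coprime m) (hnγ : (n - 1) * γ ≤ m) (hK : γ * (L - 1) ≤ K) :
    ∃ T : EuclideanSpace ℂ ((A →+* ℂ) × (Fin n × Fin L)) →ₗ[ℂ] EuclideanSpace ℂ (E →+* ℂ),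
      (∀ h, ‖T h‖ ≤ (b * Real.sqrt (L * d)) * ‖h‖) ∧
      ∀ c : Fin n × Fin L → A, T (pcA A n L c) = ph m a K (bzA σ x a n L γ c) := by
  classical
  have hm : (0 : ℝ) < m := by exact_mod_cast hx.m1
  obtain ⟨w, hw⟩ : ∃ w : (E →+* ℂ) → Fin n × Fin L → ℂ, w = fun τ p =>
      τ x ^ (γ * (p.1 : ℕ)) * τ a ^ (γ * (p.2 : ℕ)) * ((wt a K τ / Real.sqrt m : ℝ) : ℂ) := ⟨_, rfl⟩
  obtain ⟨q, hq⟩ : ∃ q : (E →+* ℂ) → (A →+* ℂ), q = fun τ => (τ.comp (algebraMap A E)).comp σ := ⟨_, rfl⟩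
  let T : EuclideanSpace ℂ ((A →+* ℂ) × (Fin n × Fin L)) →ₗ[ℂ] EuclideanSpace ℂ (E →+* ℂ) :=
    { toFun := fun h => WithLp.toLp 2 fun τ => ∑ p, h (q τ, p) * w τ p
      map_add' := by
        intro h h'
        ext τ
        simp [add_mul, Finset.sum_add_distrib]
      map_smul' := by
        intro c h
        ext τ
        simp [Finset.mul_sum, mul_assoc] }
  have hT : ∀ h τ, (T h) τ = ∑ p, h (q τ, p) * w τ p := fun h τ => rfl
  refine ⟨T, ?_, ?_⟩
  · intro h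
    have hbound : ∀ τ : E →+* ℂ, ‖(T h) τ‖ ^ 2 ≤ (L : ℝ) / m *
        ∑ l : Fin L, ‖∑ j : Fin n, h (q τ, (j, l)) * τ x ^ (γ * (j : ℕ))‖ ^ 2 := by
      intro τ
      have h1 : (T h) τ = ((1 / Real.sqrt m : ℝ) : ℂ) * ∑ l : Fin L, (τ a ^ (γ * (l : ℕ)) *
          ((wt a K τ : ℝ) : ℂ)) * ∑ j : Fin n, h (q τ, (j, l)) * τ x ^ (γ * (j : ℕ)) := by
        rw [hT, Fintype.sum_prod_type_right, Finset.mul_sum]
        refine Finset.sum_congr rfl fun l _ => ?_
        rw [Finset.mul_sum, Finset.mul_sum]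
        refine Finset.sum_congr rfl fun j _ => ?_
        rw [hw]
        push_cast
        ring
      rw [h1, norm_mul, mul_pow]
      have h2 : ‖((1 / Real.sqrt m : ℝ) : ℂ)‖ ^ 2 = 1 / m := by
        rw [Complex.norm_real, Real.norm_eq_abs, sq_abs, div_pow, Real.sq_sqrt hm.le, one_pow]
      rw [h2]
      have h3 : ‖∑ l : Fin L, (τ a ^ (γ * (l : ℕ)) * ((wt a K τ : ℝ) : ℂ)) *
          ∑ j : Fin n, h (q τ, (j, l)) * τ x ^ (γ * (j : ℕ))‖ ≤
          ∑ l : Fin L, ‖∑ j : Fin n, h (q τ, (j, l)) * τ x ^ (γ * (j : ℕ))‖ := by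
        refine (norm_sum_le _ _).trans (Finset.sum_le_sum fun l _ => ?_)
        rw [norm_mul, norm_mul, norm_pow, Complex.norm_real, Real.norm_eq_abs,
          abs_of_pos (wt_posA a K τ)]
        exact mul_le_of_le_one_left (norm_nonneg _) (wt_leA a K γ L hK τ l)
      have h4 : ‖∑ l : Fin L, (τ a ^ (γ * (l : ℕ)) * ((wt a K τ : ℝ) : ℂ)) *
          ∑ j : Fin n, h (q τ, (j, l)) * τ x ^ (γ * (j : ℕ))‖ ^ 2 ≤
          (L : ℝ) * ∑ l : Fin L, ‖∑ j : Fin n, h (q τ, (j, l)) * τ x ^ (γ * (j : ℕ))‖ ^ 2 := by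
        refine (pow_le_pow_left₀ (norm_nonneg _) h3 2).trans ?_
        have h5 := sq_sum_le_card_mul_sum_sq (s := (Finset.univ : Finset (Fin L)))
          (f := fun l => ‖∑ j : Fin n, h (q τ, (j, l)) * τ x ^ (γ * (j : ℕ))‖)
        rw [Finset.card_univ, Fintype.card_fin] at h5
        exact h5
      calc 1 / (m : ℝ) * _ ≤ 1 / (m : ℝ) * ((L : ℝ) *
            ∑ l : Fin L, ‖∑ j : Fin n, h (q τ, (j, l)) * τ x ^ (γ * (j : ℕ))‖ ^ 2) :=
            mul_le_mul_of_nonneg_left h4 (by positivity)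
        _ = _ := by ring
    -- the embeddings over `t`
    have hσbij : Function.Bijective σ := Algebra.IsAlgebraic.algHom_bijective (σ.toRatAlgHom)
    have hcinj : Function.Injective (fun t : A →+* ℂ => t.comp σ) := by
      intro t t' ht
      exact (RingHom.cancel_right hσbij.2).1 ht
    have hcbij : Function.Bijective (fun t : A →+* ℂ => t.comp σ) := Finite.injective_iff_bijective.1 hcinj
    have hsq : ‖T h‖ ^ 2 ≤ (b * Real.sqrt (L * d) * ‖h‖) ^ 2 := by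
      rw [EuclideanSpace.norm_sq_eq]
      refine (Finset.sum_le_sum fun τ _ => hbound τ).trans ?_
      rw [← Finset.mul_sum, Finset.sum_comm]
      have h1 : ∀ l : Fin L, ∑ τ : E →+* ℂ, ‖∑ j : Fin n, h (q τ, (j, l)) * τ x ^ (γ * (j : ℕ))‖ ^ 2 ≤
          (m * d : ℝ) * ((b : ℝ) ^ 2 * ∑ t : A →+* ℂ, ∑ j : Fin n, ‖h (t, (j, l))‖ ^ 2) := by
        intro l
        rw [← Finset.sum_fiberwise (s := (Finset.univ : Finset (E →+* ℂ)))
          (g := fun τ => τ.comp (algebraMap A E))]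
        have h2 : ∀ t : A →+* ℂ, ∑ τ ∈ Finset.univ.filter (fun τ : E →+* ℂ => τ.comp (algebraMap A E) = t),
            ‖∑ j : Fin n, h (q τ, (j, l)) * τ x ^ (γ * (j : ℕ))‖ ^ 2 ≤
            (m * d : ℝ) * ((b : ℝ) ^ 2 * ∑ j : Fin n, ‖h (t.comp σ, (j, l))‖ ^ 2) := by
          intro t
          have h3 : ∀ τ ∈ Finset.univ.filter (fun τ : E →+* ℂ => τ.comp (algebraMap A E) = t),
              ‖∑ j : Fin n, h (q τ, (j, l)) * τ x ^ (γ * (j : ℕ))‖ ^ 2 =
              ‖∑ j : Fin n, h (t.comp σ, (j, l)) * τ x ^ (γ * (j : ℕ))‖ ^ 2 := by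
            intro τ hτ
            have h4 : q τ = t.comp σ := by
              rw [hq]
              show (τ.comp (algebraMap A E)).comp σ = t.comp σ
              rw [(Finset.mem_filter.1 hτ).2]
            rw [h4]
          rw [Finset.sum_congr rfl h3, sum_embA hx n γ hn hγ t (fun j => h (t.comp σ, (j, l)))]
          refine mul_le_mul_of_nonneg_left ?_ (by positivity)
          rw [Finset.mul_sum]
          refine Finset.sum_le_sum fun j _ => ?_
          exact mul_le_mul_of_nonneg_right (rho_pow_leA b m n γ hx.b1 hx.m1 hnγ j) (by positivity)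
        refine (Finset.sum_le_sum fun t _ => h2 t).trans ?_
        rw [← Finset.mul_sum, ← Finset.mul_sum]
        refine mul_le_mul_of_nonneg_left (mul_le_mul_of_nonneg_left (le_of_eq ?_) (by positivity)) (by positivity)
        exact Function.Bijective.sum_comp hcbij (fun t => ∑ j : Fin n, ‖h (t, (j, l))‖ ^ 2)
      have hN : ‖h‖ ^ 2 = ∑ l : Fin L, ∑ t : A →+* ℂ, ∑ j : Fin n, ‖h (t, (j, l))‖ ^ 2 := by
        rw [EuclideanSpace.norm_sq_eq, Fintype.sum_prod_type, Finset.sum_comm]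
        rw [Finset.sum_comm]
        have h5 : ∀ t : A →+* ℂ, ∑ p : Fin n × Fin L, ‖h (t, p)‖ ^ 2 =
            ∑ l : Fin L, ∑ j : Fin n, ‖h (t, (j, l))‖ ^ 2 := fun t => Fintype.sum_prod_type_right _
        rw [Finset.sum_congr rfl fun t _ => h5 t, Finset.sum_comm]
      calc (L : ℝ) / m * ∑ l : Fin L, ∑ τ : E →+* ℂ, ‖∑ j : Fin n, h (q τ, (j, l)) * τ x ^ (γ * (j : ℕ))‖ ^ 2
          ≤ (L : ℝ) / m * ∑ l : Fin L, (m * d : ℝ) * ((b : ℝ) ^ 2 * ∑ t : A →+* ℂ, ∑ j : Fin n, ‖h (t, (j, l))‖ ^ 2) :=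
            mul_le_mul_of_nonneg_left (Finset.sum_le_sum fun l _ => h1 l) (by positivity)
        _ = (L * d : ℝ) * (b : ℝ) ^ 2 * ‖h‖ ^ 2 := by
            rw [hN, ← Finset.mul_sum, ← Finset.mul_sum]
            field_simp
        _ = (b * Real.sqrt (L * d) * ‖h‖) ^ 2 := by
            rw [mul_pow, mul_pow, Real.sq_sqrt (by positivity)]
            ring
    have h0 : 0 ≤ b * Real.sqrt (L * d) * ‖h‖ := by positivity
    exact (pow_le_pow_iff_left₀ (norm_nonneg _) h0 two_ne_zero).1 hsq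
  · intro c
    ext τ
    rw [hT]
    have h1 : (ph m a K (bzA σ x a n L γ c)) τ = τ (bzA σ x a n L γ c) * ((wt a K τ / Real.sqrt m : ℝ) : ℂ) := rfl
    have h2 : ∀ s : (A →+* ℂ) × (Fin n × Fin L), (pcA A n L c) s = s.1 (c s.2) := fun s => rfl
    rw [h1, bzA_apply, map_sum, Finset.sum_mul]
    refine Finset.sum_congr rfl fun p _ => ?_
    rw [h2, hw, map_mul, map_mul, map_pow, map_pow]
    have h4 : (q τ) (c p) = τ (algebraMap A E (σ (c p))) := by rw [hq]; rfl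
    show (q τ) (c p) * _ = _
    rw [h4]
    ring

end Pool.Agent.H36.LF
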