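import Pool.Agent.H36.LF.Defs
import Pool.Agent.H36.LE.MiC

/-!
# THEOREM L, version 2 (MP_187c26_nt): orthogonality over one embedding of `A`

MODEL: `sum_pow_emb`, `sum_emb` in `Pool/Agent/H36/LE/MiC.lean` (copy and change).
PROOF. Fix `t : A → ℂ`; `S_t` = the embeddings `τ` of `E` with `τ ∘ algebraMap A E = t`. `F := A⟮x⟯`: there are exactly `m` embeddings `σ` of `F` over `t`, `σ ↦ σ x` is a bijection onto the `m` roots of `X^m - b` (the minimal polynomial of `x` over `A` is `X^m - b`, it has rational coefficients), each `σ` has exactly `d` extensions to `E`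
(`Pool.Agent.H4.RR.card_fiber_comp F E`). So `∑_(τ ∈ S_t) (τ x)^e = 0` if `m` does not divide `e`, and `#S_t = m d` (`card_fiber_comp A E`). Expand the square as in the model, `conj (τ x) = ρ^2/(τ x)` (`‖τ x‖ = ρ` from `x^m = b`).
-/

set_option autoImplicit false

open Polynomial NumberField IntermediateField

namespace Pool.Agent.H36.LF

open Pool.Agent.H36.LE

section

variable {A E : Type} [Field A] [NumberField A] [Field E] [NumberField E] [Algebra A E] {b m d : ℕ} {ι : ℝ} {x : E}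

private theorem rho_powA (hb : 1 ≤ b) (hm : 1 ≤ m) : rho b m ^ m = b := by
  unfold rho
  exact Real.rpow_inv_natCast_pow (Nat.cast_nonneg _) (by omega)

private theorem rho_posA (hb : 1 ≤ b) : 0 < rho b m := by
  unfold rho
  exact Real.rpow_pos_of_pos (by exact_mod_cast hb) _

private theorem norm_embA (hx : RdA A b m d ι x) (τ : E →+* ℂ) : ‖τ x‖ = rho b m := by
  have h1 : ‖τ x‖ ^ m = rho b m ^ m := by
    rw [rho_powA hx.b1 hx.m1, ← norm_pow, ← map_pow, hx.pow, map_natCast]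
    simp
  exact (pow_left_inj₀ (norm_nonneg _) (rho_posA hx.b1).le (by have := hx.m1; omega)).1 h1

private theorem mic_minpolyA (hx : RdA A b m d ι x) : minpoly A x = X ^ m - C (b : A) := by
  have hm : m ≠ 0 := by have := hx.m1; omega
  have hint : IsIntegral A x := Algebra.IsIntegral.isIntegral x
  have h1 : minpoly A x ∣ X ^ m - C (b : A) := by
    apply minpoly.dvd
    rw [map_sub, map_pow, aeval_X, aeval_C, hx.pow]
    simp
  have h2 : (X ^ m - C (b : A)).natDegree ≤ (minpoly A x).natDegree := by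
    rw [natDegree_X_pow_sub_C, ← IntermediateField.adjoin.finrank hint, hx.deg]
  exact (eq_of_monic_of_dvd_of_natDegree_le (minpoly.monic hint) (monic_X_pow_sub_C _ hm) h1 h2).symm

private theorem mic_FA (hx : RdA A b m d ι x) [Algebra A ℂ] (e : ℤ) (he : ¬ (m : ℤ) ∣ e) :
    ∑ τ : A⟮x⟯ →ₐ[A] ℂ, (τ (AdjoinSimple.gen A x)) ^ e = 0 := by
  have hm : m ≠ 0 := by have := hx.m1; omega
  have hint : IsIntegral A x := Algebra.IsIntegral.isIntegral x
  obtain ⟨ζ, hζ⟩ : ∃ ζ : ℂ, IsPrimitiveRoot ζ m := ⟨_, Complex.isPrimitiveRoot_exp m hm⟩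
  have hζ0 : ζ ≠ 0 := hζ.ne_zero hm
  have hg0 : (AdjoinSimple.gen A x) ^ m = (b : A⟮x⟯) := by
    apply (algebraMap A⟮x⟯ E).injective
    rw [map_pow, AdjoinSimple.algebraMap_gen, hx.pow, map_natCast]
  have htw : ∀ τ : A⟮x⟯ →ₐ[A] ℂ, ∃ τ' : A⟮x⟯ →ₐ[A] ℂ,
      τ' (AdjoinSimple.gen A x) = ζ * τ (AdjoinSimple.gen A x) := by
    intro τ
    have hmem : ζ * τ (AdjoinSimple.gen A x) ∈ (minpoly A x).aroots ℂ := by
      rw [mem_aroots]
      refine ⟨minpoly.ne_zero hint, ?_⟩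
      rw [mic_minpolyA hx, map_sub, map_pow, aeval_X, aeval_C, mul_pow, hζ.pow_eq_one, one_mul, ← map_pow, hg0,
        map_natCast]
      simp
    exact ⟨(algHomAdjoinIntegralEquiv A hint).symm ⟨_, hmem⟩,
      algHomAdjoinIntegralEquiv_symm_apply_gen A hint ⟨_, hmem⟩⟩
  have hext : ∀ τ τ' : A⟮x⟯ →ₐ[A] ℂ, τ (AdjoinSimple.gen A x) = τ' (AdjoinSimple.gen A x) → τ = τ' := by
    intro τ τ' h
    apply (adjoin.powerBasis hint).algHom_ext
    rw [adjoin.powerBasis_gen]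
    exact h
  choose g hg using htw
  have hinj : Function.Injective g := by
    intro τ τ' h
    apply hext
    have h1 := hg τ
    rw [h, hg τ'] at h1
    exact (mul_left_cancel₀ hζ0 h1).symm
  have hbij : Function.Bijective g := Finite.injective_iff_bijective.1 hinj
  have h1 : ∑ τ : A⟮x⟯ →ₐ[A] ℂ, (τ (AdjoinSimple.gen A x)) ^ e =
      ∑ τ : A⟮x⟯ →ₐ[A] ℂ, (g τ (AdjoinSimple.gen A x)) ^ e :=
    (Function.Bijective.sum_comp hbij (fun τ => (τ (AdjoinSimple.gen A x)) ^ e)).symm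
  have h2 : ∑ τ : A⟮x⟯ →ₐ[A] ℂ, (g τ (AdjoinSimple.gen A x)) ^ e =
      ζ ^ e * ∑ τ : A⟮x⟯ →ₐ[A] ℂ, (τ (AdjoinSimple.gen A x)) ^ e := by
    rw [Finset.mul_sum]
    refine Finset.sum_congr rfl fun τ _ => ?_
    rw [hg, mul_zpow]
  rw [h2] at h1
  have h3 : ζ ^ e ≠ 1 := fun h => he ((hζ.zpow_eq_one_iff_dvd e).1 h)
  have h4 : (1 - ζ ^ e) * ∑ τ : A⟮x⟯ →ₐ[A] ℂ, (τ (AdjoinSimple.gen A x)) ^ e = 0 := by
    rw [sub_mul, one_mul, ← h1, sub_self]
  rcases mul_eq_zero.1 h4 with h5 | h5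
  · exact absurd (sub_eq_zero.1 h5).symm h3
  · exact h5

open Classical in
private theorem sum_pow_embA (hx : RdA A b m d ι x) (t : A →+* ℂ) (e : ℤ) (he : ¬ (m : ℤ) ∣ e) :
    ∑ τ ∈ Finset.univ.filter (fun τ : E →+* ℂ => τ.comp (algebraMap A E) = t), (τ x) ^ e = 0 := by
  -- the sum over the embeddings of `A(x)`
  have hF : ∑ σ ∈ Finset.univ.filter (fun σ : A⟮x⟯ →+* ℂ => σ.comp (algebraMap A A⟮x⟯) = t),
      (σ (AdjoinSimple.gen A x)) ^ e = 0 := by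
    let _ : Algebra A ℂ := t.toAlgebra
    rw [← mic_FA hx e he]
    refine (Finset.sum_bij' (fun (σ : A⟮x⟯ →+* ℂ) hσ => ({ σ with
        commutes' := fun r => congrArg (fun g : A →+* ℂ => g r) (Finset.mem_filter.1 hσ).2 } : A⟮x⟯ →ₐ[A] ℂ))
      (fun σ _ => σ.toRingHom) ?_ ?_ ?_ ?_ ?_)
    · intro σ _
      exact Finset.mem_univ _
    · intro σ _
      rw [Finset.mem_filter]
      refine ⟨Finset.mem_univ _, ?_⟩
      ext r
      exact σ.commutes r
    · intro σ _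
      rfl
    · intro σ _
      rfl
    · intro σ _
      rfl
  have hmaps : ∀ τ ∈ Finset.univ.filter (fun τ : E →+* ℂ => τ.comp (algebraMap A E) = t),
      τ.comp (algebraMap A⟮x⟯ E) ∈
        Finset.univ.filter (fun σ : A⟮x⟯ →+* ℂ => σ.comp (algebraMap A A⟮x⟯) = t) := by
    intro τ hτ
    rw [Finset.mem_filter] at hτ ⊢
    refine ⟨Finset.mem_univ _, ?_⟩
    rw [RingHom.comp_assoc, ← IsScalarTower.algebraMap_eq]
    exact hτ.2
  rw [← Finset.sum_fiberwise_of_maps_to hmaps]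
  have h1 : ∀ σ ∈ Finset.univ.filter (fun σ : A⟮x⟯ →+* ℂ => σ.comp (algebraMap A A⟮x⟯) = t),
      ∑ τ ∈ (Finset.univ.filter (fun τ : E →+* ℂ => τ.comp (algebraMap A E) = t)).filter
        (fun τ => τ.comp (algebraMap A⟮x⟯ E) = σ), (τ x) ^ e =
      (Module.finrank A⟮x⟯ E : ℂ) * (σ (AdjoinSimple.gen A x)) ^ e := by
    intro σ hσ
    have hσ2 := (Finset.mem_filter.1 hσ).2
    have h2 : (Finset.univ.filter (fun τ : E →+* ℂ => τ.comp (algebraMap A E) = t)).filter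
        (fun τ => τ.comp (algebraMap A⟮x⟯ E) = σ) =
        Finset.univ.filter (fun τ : E →+* ℂ => τ.comp (algebraMap A⟮x⟯ E) = σ) := by
      ext τ
      rw [Finset.mem_filter, Finset.mem_filter, Finset.mem_filter]
      constructor
      · rintro ⟨-, h⟩
        exact ⟨Finset.mem_univ _, h⟩
      · rintro ⟨-, h⟩
        refine ⟨⟨Finset.mem_univ _, ?_⟩, h⟩
        rw [IsScalarTower.algebraMap_eq A A⟮x⟯ E, ← RingHom.comp_assoc, h]
        exact hσ2
    rw [h2]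
    have h3 : ∀ τ ∈ Finset.univ.filter (fun τ : E →+* ℂ => τ.comp (algebraMap A⟮x⟯ E) = σ),
        (τ x) ^ e = (σ (AdjoinSimple.gen A x)) ^ e := by
      intro τ hτ
      rw [← (Finset.mem_filter.1 hτ).2, RingHom.comp_apply, AdjoinSimple.algebraMap_gen]
    rw [Finset.sum_congr rfl h3, Finset.sum_const, nsmul_eq_mul]
    congr 2
    exact Pool.Agent.H4.RR.card_fiber_comp A⟮x⟯ E σ
  rw [Finset.sum_congr rfl h1, ← Finset.mul_sum, hF, mul_zero]

end

open Classical in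
theorem sum_embA {A E : Type} [Field A] [NumberField A] [Field E] [NumberField E] [Algebra A E]
    {b m d : ℕ} {ι : ℝ} {x : E} (hx : RdA A b m d ι x) (n γ : ℕ) (hn : n ≤ m)
    (hγ : γ.Coprime m) (t : A →+* ℂ) (h : Fin n → ℂ) :
    ∑ τ ∈ Finset.univ.filter (fun τ : E →+* ℂ => τ.comp (algebraMap A E) = t),
        ‖∑ j : Fin n, h j * τ x ^ (γ * (j : ℕ))‖ ^ 2 =
      (m * d : ℝ) * ∑ j : Fin n, rho b m ^ (2 * (γ * (j : ℕ))) * ‖h j‖ ^ 2 := by
  obtain ⟨S, hS⟩ : ∃ S, S = Finset.univ.filter (fun τ : E →+* ℂ => τ.comp (algebraMap A E) = t) := ⟨_, rfl⟩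
  rw [← hS]
  have hρ : 0 < rho b m := rho_posA hx.b1
  have hu : ∀ τ : E →+* ℂ, τ x ≠ 0 := by
    intro τ h0
    have h1 := norm_embA hx τ
    rw [h0, norm_zero] at h1
    exact hρ.ne h1
  have hconj : ∀ τ : E →+* ℂ, (starRingEnd ℂ) (τ x) = ((rho b m : ℝ) : ℂ) ^ 2 * (τ x)⁻¹ := by
    intro τ
    rw [eq_mul_inv_iff_mul_eq₀ (hu τ), mul_comm, Complex.mul_conj, Complex.normSq_eq_norm_sq, norm_embA hx]
    push_cast
    rfl
  have hterm : ∀ τ : E →+* ℂ, ((‖∑ j : Fin n, h j * τ x ^ (γ * (j : ℕ))‖ ^ 2 : ℝ) : ℂ) =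
      ∑ j : Fin n, ∑ j' : Fin n, (h j * (starRingEnd ℂ) (h j') * ((rho b m : ℝ) : ℂ) ^ (2 * (γ * (j' : ℕ)))) *
        τ x ^ ((γ : ℤ) * ((j : ℕ) - (j' : ℕ) : ℤ)) := by
    intro τ
    have h1 : ((‖∑ j : Fin n, h j * τ x ^ (γ * (j : ℕ))‖ ^ 2 : ℝ) : ℂ) =
        (∑ j : Fin n, h j * τ x ^ (γ * (j : ℕ))) *
          (starRingEnd ℂ) (∑ j : Fin n, h j * τ x ^ (γ * (j : ℕ))) := by
      rw [Complex.mul_conj, Complex.normSq_eq_norm_sq]
    rw [h1, map_sum, Finset.sum_mul_sum]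
    refine Finset.sum_congr rfl fun j _ => Finset.sum_congr rfl fun j' _ => ?_
    rw [map_mul, map_pow, hconj, mul_pow, ← pow_mul, mul_sub, zpow_sub₀ (hu τ), inv_pow]
    have h2 : (τ x) ^ ((γ : ℤ) * ((j : ℕ) : ℤ)) = (τ x) ^ (γ * (j : ℕ)) := by
      rw [← zpow_natCast]
      push_cast
      rfl
    have h3 : (τ x) ^ ((γ : ℤ) * ((j' : ℕ) : ℤ)) = (τ x) ^ (γ * (j' : ℕ)) := by
      rw [← zpow_natCast]
      push_cast
      rfl
    rw [h2, h3]
    field_simp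
  have hcard : (S.card : ℂ) = (m * d : ℂ) := by
    have h1 : S.card = Module.finrank A E := by
      rw [hS]
      exact Pool.Agent.H4.RR.card_fiber_comp A E t
    rw [h1, hx.fin]
    push_cast
    rfl
  have hsum : ∀ j j' : Fin n, ∑ τ ∈ S, τ x ^ ((γ : ℤ) * ((j : ℕ) - (j' : ℕ) : ℤ)) =
      if j = j' then (m * d : ℂ) else 0 := by
    intro j j'
    split_ifs with hj
    · rw [hj, sub_self, mul_zero]
      simp only [zpow_zero, Finset.sum_const, nsmul_eq_mul, mul_one]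
      exact hcard
    · rw [hS]
      apply sum_pow_embA hx
      intro hd
      have hcop : IsCoprime (m : ℤ) (γ : ℤ) := Nat.isCoprime_iff_coprime.2 hγ.symm
      have h1 := hcop.dvd_of_dvd_mul_left hd
      have h2 : (j : ℕ) < n := j.2
      have h3 : (j' : ℕ) < n := j'.2
      have h4 : ((j : ℕ) : ℤ) - ((j' : ℕ) : ℤ) ≠ 0 := by
        intro h5
        apply hj
        apply Fin.ext
        omega
      have h5 := Int.le_of_dvd (abs_pos.2 h4) ((dvd_abs _ _).2 h1)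
      rcases abs_cases (((j : ℕ) : ℤ) - ((j' : ℕ) : ℤ)) with h6 | h6 <;> omega
  have key : ((∑ τ ∈ S, ‖∑ j : Fin n, h j * τ x ^ (γ * (j : ℕ))‖ ^ 2 : ℝ) : ℂ) =
      (((m * d : ℝ) * ∑ j : Fin n, rho b m ^ (2 * (γ * (j : ℕ))) * ‖h j‖ ^ 2 : ℝ) : ℂ) := by
    rw [Complex.ofReal_sum, Finset.sum_congr rfl fun τ _ => hterm τ, Finset.sum_comm]
    have h1 : ∀ j : Fin n, ∑ τ ∈ S, ∑ j' : Fin n,
        (h j * (starRingEnd ℂ) (h j') * ((rho b m : ℝ) : ℂ) ^ (2 * (γ * (j' : ℕ)))) *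
        τ x ^ ((γ : ℤ) * ((j : ℕ) - (j' : ℕ) : ℤ)) =
        (m * d : ℂ) * (((rho b m : ℝ) : ℂ) ^ (2 * (γ * (j : ℕ))) * ((‖h j‖ : ℝ) : ℂ) ^ 2) := by
      intro j
      rw [Finset.sum_comm]
      have h2 : ∀ j' : Fin n, ∑ τ ∈ S,
          (h j * (starRingEnd ℂ) (h j') * ((rho b m : ℝ) : ℂ) ^ (2 * (γ * (j' : ℕ)))) *
          τ x ^ ((γ : ℤ) * ((j : ℕ) - (j' : ℕ) : ℤ)) =
          if j = j' then (h j * (starRingEnd ℂ) (h j') * ((rho b m : ℝ) : ℂ) ^ (2 * (γ * (j' : ℕ)))) *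
            (m * d : ℂ) else 0 := by
        intro j'
        rw [← Finset.mul_sum, hsum]
        split_ifs <;> simp
      rw [Finset.sum_congr rfl fun j' _ => h2 j', Finset.sum_ite_eq]
      simp only [Finset.mem_univ, if_true]
      rw [Complex.mul_conj, Complex.normSq_eq_norm_sq]
      push_cast
      ring
    rw [Finset.sum_congr rfl fun j _ => h1 j, ← Finset.mul_sum]
    push_cast
    rfl
  exact_mod_cast key

theorem rho_pow_leA (b m n γ : ℕ) (hb : 1 ≤ b) (hm : 1 ≤ m) (h : (n - 1) * γ ≤ m) (j : Fin n) :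
    rho b m ^ (2 * (γ * (j : ℕ))) ≤ (b : ℝ) ^ 2 := by
  have hb' : (1 : ℝ) ≤ b := by exact_mod_cast hb
  have hρ1 : 1 ≤ rho b m := by
    unfold rho
    exact Real.one_le_rpow hb' (by positivity)
  have hj : (j : ℕ) ≤ n - 1 := by have := j.2; omega
  have h1 : γ * (j : ℕ) ≤ m := by
    calc γ * (j : ℕ) ≤ γ * (n - 1) := Nat.mul_le_mul_left _ hj
      _ = (n - 1) * γ := mul_comm _ _
      _ ≤ m := h
  calc rho b m ^ (2 * (γ * (j : ℕ))) ≤ rho b m ^ (2 * m) := pow_le_pow_right₀ hρ1 (by omega)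
    _ = (b : ℝ) ^ 2 := by rw [mul_comm 2 m, pow_mul, rho_powA hb hm]

end Pool.Agent.H36.LF
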