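import Pool.Agent.H36.LF.Defs
import Pool.Agent.H36.LE.VlA
import Pool.Agent.H36.LE.GdC
import Pool.Agent.H36.LE.NmA

/-!
# THEOREM L, version 2 (MP_187c26_nt): the lattice `(𝓞 A)^N` in the trace metric

MODEL: `Pool/Agent/H36/LE/MiD.lean`. Imports may be sorried (`emb_ind` of `NmA`).
PROOFS. `lat_pcA`: `fg`: `ZA` is a finite product of copies of `𝓞 A` (finitely generated over `ℤ`). `full`: common denominator (`exists_integral_multiple` for each coordinate). `ind`: the `ℂ`-linear map `A^N ⊗ ℂ → ℂ^(Hom × N)` is injective: take a `ℚ`-basis `ω` of `A` (`emb_ind`: the vectors `(t ω_i)_t` are `ℂ`-independent, a square invertible matrix);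
the images of the basis `ω_i e_p` of `A^N` are `ℂ`-independent, so (base change by a rational matrix of full rank) the images of any `ℚ`-independent family are.
`nv_top`: `vl_le` for the `ℤ`-basis `(ω_i e_p)` of `ZA`, `ω` a `ℤ`-basis of `𝓞 A`: its Gram matrix is block diagonal (`N = n L` equal blocks, the Gram matrix of `(t ω_i)_t`), determinant `|det (t ω_i)|^(2N) = |disc A|^N` (`Algebra.discr_eq_det_embeddingsMatrixReindex_pow_two`, `NumberField.discr`). So
`log vl / 2 ≤ N dA A / 2`, and `dim_A ⊤ = N`.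
`nv_nonneg`: `z` a basis of `ZA ∩ U` (`exists_zb`, `r = dim_ℚ U = e k`, `k = dim_A U`, `e = [A : ℚ]`). There are `k` coordinates `p_1, …, p_k` such that the projection `π : U → A^k` on them is bijective (rank of an `A`-subspace of `A^N`). The projection of the Euclidean space on the coordinates `(t, p_i)` has norm `≤ 1`:
`gd (pcA z) ≥ gd (π pcA z)` (`gd_contr0`) or `gd_minor`: `= |det (t (z_j)_(p_i))|^2`, a square matrix of size `e k`. `π z_j ∈ (𝓞 A)^k` is an integral combination of the basis `ω_i e_l`: the matrix is `C * (block diagonal of (t ω_i))`, `C` integral with `det C ≠ 0` (`π z` is independent over `ℚ`), so the square of the determinant is at least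
`|disc A|^k`.
-/

set_option autoImplicit false

open Polynomial NumberField IntermediateField

namespace Pool.Agent.H36.LF

open Pool.Agent.H36.LE

variable (A : Type) [Field A] [NumberField A]

/-- dual elements for the trace form on `A^P` -/
private theorem dual_el {P : Type} [Fintype P] [DecidableEq P] {r : ℕ} (z : Fin r → (P → A))
    (hz : LinearIndependent ℚ z) (i : Fin r) :
    ∃ y : P → A, ∀ j, ∑ s : (A →+* ℂ) × P, s.1 (y s.2) * s.1 (z j s.2) = if j = i then 1 else 0 := by
  classical
  obtain ⟨g, hg⟩ := (Fintype.linearCombination ℚ z).exists_leftInverse_of_injective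
    (LinearMap.ker_eq_bot.2 (linearIndependent_iff_injective_fintypeLinearCombination.1 hz))
  obtain ⟨f, hf⟩ : ∃ f : (P → A) →ₗ[ℚ] ℚ, f = (LinearMap.proj i) ∘ₗ g := ⟨_, rfl⟩
  have hf2 : ∀ j, f (z j) = if j = i then 1 else 0 := by
    intro j
    have h2 : g (z j) = Pi.single j 1 := by
      have h3 := LinearMap.congr_fun hg (Pi.single j 1)
      rw [LinearMap.comp_apply, Fintype.linearCombination_apply_single, one_smul] at h3
      exact h3
    rw [hf, LinearMap.comp_apply, h2, LinearMap.proj_apply, Pi.single_apply]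
    simp only [eq_comm]
  refine ⟨fun p => ((Algebra.traceForm ℚ A).toDual (traceForm_nondegenerate ℚ A)).symm
    (f ∘ₗ LinearMap.single ℚ (fun _ => A) p), fun j => ?_⟩
  have h1 : ∀ p, Algebra.traceForm ℚ A (((Algebra.traceForm ℚ A).toDual
      (traceForm_nondegenerate ℚ A)).symm (f ∘ₗ LinearMap.single ℚ (fun _ => A) p)) (z j p) =
      f (Pi.single p (z j p)) := by
    intro p
    rw [LinearMap.BilinForm.apply_toDual_symm_apply]
    rfl
  have h2 : f (z j) = ∑ p, f (Pi.single p (z j p)) := by
    rw [← map_sum, Finset.univ_sum_single]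
  have h5 : ∀ y w : A, ∑ τ : A →+* ℂ, τ y * τ w = algebraMap ℚ ℂ (Algebra.traceForm ℚ A y w) := by
    intro y w
    rw [Algebra.traceForm_apply, trace_eq_sum_embeddings ℂ]
    refine Fintype.sum_equiv (RingHom.equivRatAlgHom A ℂ) _ _ fun τ => ?_
    rw [map_mul]
    rfl
  rw [Fintype.sum_prod_type, Finset.sum_comm]
  refine (Finset.sum_congr rfl fun p _ => (h5 _ (z j p)).trans (congrArg (algebraMap ℚ ℂ) (h1 p))).trans ?_
  rw [← map_sum, ← h2, hf2]
  split_ifs <;> simp

theorem lat_pcA (n L : ℕ) : Lat (pcA A n L) (ZA A n L) := by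
  classical
  refine ⟨?_, ?_, ?_⟩
  · obtain ⟨ψ, hψ⟩ : ∃ ψ : (Fin n × Fin L → 𝓞 A) →ₗ[ℤ] (Fin n × Fin L → A),
        ∀ c p, ψ c p = algebraMap (𝓞 A) A (c p) :=
      ⟨((Algebra.linearMap (𝓞 A) A).restrictScalars ℤ).compLeft _, fun _ _ => rfl⟩
    have h1 : ZA A n L = LinearMap.range ψ := by
      ext c
      rw [LinearMap.mem_range]
      constructor
      · intro hc
        refine ⟨fun p => ⟨c p, hc p⟩, ?_⟩
        funext p
        rw [hψ]
        rfl
      · rintro ⟨z, rfl⟩ p
        rw [hψ]
        exact RingOfIntegers.isIntegral_coe (z p)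
    rw [h1, LinearMap.range_eq_map]
    exact Submodule.FG.map ψ Module.Finite.fg_top
  · intro y
    have halg : Algebra.IsAlgebraic ℤ A :=
      (IsFractionRing.comap_isAlgebraic_iff (A := ℤ) (K := ℚ) (C := A)).2 inferInstance
    obtain ⟨k, hk, hk2⟩ := Algebra.IsAlgebraic.exists_integral_multiples ℤ (Finset.univ.image y)
    refine ⟨k.natAbs, Int.natAbs_ne_zero.2 hk, fun p => ?_⟩
    have h1 : IsIntegral ℤ (k • y p) := hk2 _ (Finset.mem_image_of_mem y (Finset.mem_univ p))
    rw [Pi.smul_apply]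
    rcases Int.natAbs_eq k with h | h
    · rw [h, natCast_zsmul] at h1
      exact h1
    · rw [h, neg_smul, natCast_zsmul] at h1
      have h2 := h1.neg
      rwa [neg_neg] at h2
  · intro r z hz
    rw [Fintype.linearIndependent_iff]
    intro c hc i
    obtain ⟨y, hy⟩ := dual_el A z hz i
    have h1 : ∑ s : (A →+* ℂ) × (Fin n × Fin L), s.1 (y s.2) * (∑ j, c j * s.1 (z j s.2)) = c i := by
      have h2 : ∀ s : (A →+* ℂ) × (Fin n × Fin L), s.1 (y s.2) * (∑ j, c j * s.1 (z j s.2)) =
          ∑ j, c j * (s.1 (y s.2) * s.1 (z j s.2)) := by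
        intro s
        rw [Finset.mul_sum]
        exact Finset.sum_congr rfl fun j _ => by ring
      rw [Finset.sum_congr rfl fun s _ => h2 s, Finset.sum_comm]
      have h3 : ∀ j, ∑ s : (A →+* ℂ) × (Fin n × Fin L), c j * (s.1 (y s.2) * s.1 (z j s.2)) =
          if j = i then c j else 0 := by
        intro j
        rw [← Finset.mul_sum, hy j]
        split_ifs <;> simp
      rw [Finset.sum_congr rfl fun j _ => h3 j, Finset.sum_ite_eq' Finset.univ i c,
        if_pos (Finset.mem_univ i)]
    rw [← h1]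
    refine Finset.sum_eq_zero fun s _ => ?_
    have h4 := congrArg (fun w : EuclideanSpace ℂ ((A →+* ℂ) × (Fin n × Fin L)) => w s) hc
    have h5 : ∑ j, c j * s.1 (z j s.2) = 0 := by
      have h6 : (∑ j, c j • pcA A n L (z j)) s = ∑ j, c j * s.1 (z j s.2) := by
        rw [WithLp.ofLp_sum, Finset.sum_apply]
        rfl
      rw [← h6]
      exact h4
    rw [h5, mul_zero]

/-- the determinant of the integral basis -/
private theorem ex_om : ∃ (I : Type) (_ : Fintype I) (_ : DecidableEq I) (ω : Module.Basis I ℤ (𝓞 A))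
    (e : I ≃ (A →+* ℂ)),
    ‖(Matrix.of fun a b => e b (ω a : A)).det‖ ^ 2 = |(NumberField.discr A : ℝ)| := by
  classical
  have hc : Fintype.card (Module.Free.ChooseBasisIndex ℤ (𝓞 A)) = Fintype.card (A →ₐ[ℚ] ℂ) := by
    rw [AlgHom.card, ← Module.finrank_eq_card_chooseBasisIndex, RingOfIntegers.rank]
  obtain ⟨e0⟩ : Nonempty (Module.Free.ChooseBasisIndex ℤ (𝓞 A) ≃ (A →ₐ[ℚ] ℂ)) :=
    ⟨Fintype.equivOfCardEq hc⟩
  refine ⟨_, inferInstance, inferInstance, RingOfIntegers.basis A,
    e0.trans (RingHom.equivRatAlgHom A ℂ).symm, ?_⟩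
  have h1 := Algebra.discr_eq_det_embeddingsMatrixReindex_pow_two ℚ ℂ (integralBasis A) e0
  rw [← coe_discr] at h1
  have h2 : Algebra.embeddingsMatrixReindex ℚ ℂ (integralBasis A) e0 =
      Matrix.of fun a b => (e0.trans (RingHom.equivRatAlgHom A ℂ).symm) b (RingOfIntegers.basis A a : A) := by
    ext a b
    have h3 : Algebra.embeddingsMatrixReindex ℚ ℂ (integralBasis A) e0 a b = e0 b (integralBasis A a) := by
      unfold Algebra.embeddingsMatrixReindex
      rw [Matrix.reindex_apply, Matrix.submatrix_apply, Algebra.embeddingsMatrix_apply]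
      rfl
    rw [h3, integralBasis_apply]
    rfl
  rw [h2] at h1
  rw [← norm_pow, ← h1]
  have h3 : algebraMap ℚ ℂ ((NumberField.discr A : ℤ) : ℚ) = ((NumberField.discr A : ℝ) : ℂ) := by
    simp
  rw [h3, Complex.norm_real, Real.norm_eq_abs]

private theorem det_kr {I P : Type} [Fintype I] [DecidableEq I] [Fintype P] [DecidableEq P] (M : Matrix I I ℂ) :
    (Matrix.kroneckerMap (fun a b => a * b) M (1 : Matrix P P ℂ)).det = M.det ^ Fintype.card P := by
  have h3 := Matrix.det_kronecker M (1 : Matrix P P ℂ)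
  rw [Matrix.det_one, one_pow, mul_one] at h3
  exact h3

private theorem discr_pos : 0 < |(NumberField.discr A : ℝ)| :=
  abs_pos.2 (Int.cast_ne_zero.2 (NumberField.discr_ne_zero A))

theorem nv_top (n L : ℕ) :
    nv A (pcA A n L) (ZA A n L) (⊤ : Submodule A (Fin n × Fin L → A)) ≤ 0 := by
  classical
  obtain ⟨I, _, _, ω, e, he⟩ := ex_om A
  have hl := lat_pcA A n L
  obtain ⟨M, hM⟩ : ∃ M : Matrix I I ℂ, M = Matrix.of fun a b => e b (ω a : A) := ⟨_, rfl⟩
  rw [← hM] at he
  have hIc : Fintype.card I = Module.finrank ℚ A := by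
    rw [Fintype.card_congr e, NumberField.Embeddings.card]
  have hgd : gd (fun x : I × (Fin n × Fin L) => pcA A n L (Pi.single x.2 (ω x.1 : A))) =
      |(NumberField.discr A : ℝ)| ^ (n * L) := by
    have h1 : (fun x : I × (Fin n × Fin L) => pcA A n L (Pi.single x.2 (ω x.1 : A))) =
        fun x => ∑ y : I × (Fin n × Fin L),
          (Matrix.kroneckerMap (fun a b => a * b) M (1 : Matrix (Fin n × Fin L) (Fin n × Fin L) ℂ)) x y •
          (EuclideanSpace.single ((e.prodCongr (Equiv.refl (Fin n × Fin L))) y) 1 :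
            EuclideanSpace ℂ ((A →+* ℂ) × (Fin n × Fin L))) := by
      funext x
      ext s
      rw [WithLp.ofLp_sum, Finset.sum_apply]
      obtain ⟨y, rfl⟩ := (e.prodCongr (Equiv.refl (Fin n × Fin L))).surjective s
      rw [Finset.sum_eq_single y]
      · change (e y.1) ((Pi.single x.2 (ω x.1 : A) : Fin n × Fin L → A) y.2) = _
        rw [PiLp.smul_apply, PiLp.single_apply, if_pos rfl, smul_eq_mul, mul_one,
          Matrix.kroneckerMap_apply, hM, Matrix.of_apply]
        by_cases hxy : x.2 = y.2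
        · rw [← hxy, Pi.single_eq_same, Matrix.one_apply_eq, mul_one]
        · rw [Pi.single_eq_of_ne (Ne.symm hxy), map_zero, Matrix.one_apply_ne hxy, mul_zero]
      · intro w _ hw
        rw [PiLp.smul_apply, PiLp.single_apply, if_neg, smul_zero]
        intro h
        exact hw ((e.prodCongr (Equiv.refl (Fin n × Fin L))).injective h).symm
      · intro h
        exact absurd (Finset.mem_univ _) h
    rw [h1, gd_comb, det_kr, gd_reindex (e.prodCongr (Equiv.refl (Fin n × Fin L)))
      (fun t => (EuclideanSpace.single t 1 : EuclideanSpace ℂ ((A →+* ℂ) × (Fin n × Fin L)))), gd_std, mul_one,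
      norm_pow, ← pow_mul, mul_comm (Fintype.card _) 2, pow_mul, he, Fintype.card_prod, Fintype.card_fin,
      Fintype.card_fin]
  have hpos := discr_pos A
  have hli : LinearIndependent ℚ (fun x : I × (Fin n × Fin L) => (Pi.single x.2 (ω x.1 : A) : Fin n × Fin L → A)) := by
    have h1 : LinearIndependent ℂ (fun x : I × (Fin n × Fin L) => pcA A n L (Pi.single x.2 (ω x.1 : A))) := by
      rw [← gd_pos_iff, hgd]
      exact pow_pos hpos _
    have h2 : LinearIndependent ℚ (fun x : I × (Fin n × Fin L) => pcA A n L (Pi.single x.2 (ω x.1 : A))) :=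
      h1.restrict_scalars' ℚ
    exact LinearIndependent.of_comp (pcA A n L).toRatLinearMap h2
  have hfr : Module.finrank ℚ (Fin n × Fin L → A) = Module.finrank ℚ A * (n * L) := by
    rw [← Module.finrank_mul_finrank ℚ A (Fin n × Fin L → A), Module.finrank_fintype_fun_eq_card,
      Fintype.card_prod, Fintype.card_fin, Fintype.card_fin]
  have h1 := hl.vl_le (U := ⊤) (fun x : I × (Fin n × Fin L) => (Pi.single x.2 (ω x.1 : A) : Fin n × Fin L → A)) (by
    rw [finrank_top, hfr, Fintype.card_prod, Fintype.card_prod, Fintype.card_fin, Fintype.card_fin, hIc]) hli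
    (fun x => ⟨fun q => by
      by_cases hq : q = x.2
      · rw [hq, Pi.single_eq_same]
        exact RingOfIntegers.isIntegral_coe _
      · rw [Pi.single_eq_of_ne hq]
        exact isIntegral_zero, Submodule.mem_top⟩)
  rw [hgd] at h1
  have h2 := Real.log_le_log (hl.vl_pos ⊤) h1
  rw [Real.log_pow] at h2
  unfold nv dA
  rw [Submodule.restrictScalars_top, finrank_top, Module.finrank_fintype_fun_eq_card,
      Fintype.card_prod, Fintype.card_fin, Fintype.card_fin]
  linarith

private theorem ex_minor {F κ Ξ : Type} [Field F] [Fintype κ] [DecidableEq κ] [Fintype Ξ]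
    (M : Matrix κ Ξ F) (h : LinearIndependent F M.row) :
    ∃ J : κ → Ξ, (M.submatrix id J).det ≠ 0 := by
  classical
  have hr := h.rank_matrix
  rw [Matrix.rank_eq_finrank_span_cols] at hr
  obtain ⟨ι, a, ha, hsp, hli⟩ := exists_linearIndependent' F M.col
  have hfi : Finite ι := Finite.of_injective a ha
  have _ : Fintype ι := Fintype.ofFinite ι
  have h1 := finrank_span_eq_card hli
  rw [hsp, hr] at h1
  let e : κ ≃ ι := Fintype.equivOfCardEq h1
  refine ⟨a ∘ e, ?_⟩
  have h2 : LinearIndependent F (M.submatrix id (a ∘ e)).col := hli.comp e e.injective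
  rw [Matrix.linearIndependent_cols_iff_isUnit, Matrix.isUnit_iff_isUnit_det] at h2
  exact h2.ne_zero

private theorem ex_coord {P : Type} [Fintype P] (U : Submodule A (P → A)) :
    ∃ J : Fin (Module.finrank A U) → P, ∀ u ∈ U, (∀ l, u (J l) = 0) → u = 0 := by
  classical
  obtain ⟨b⟩ : Nonempty (Module.Basis (Fin (Module.finrank A U)) A U) := ⟨Module.finBasis A U⟩
  have hli : LinearIndependent A (fun i => (b i : P → A)) :=
    b.linearIndependent.map' U.subtype (Submodule.ker_subtype U)
  obtain ⟨J, hJ⟩ := ex_minor (Matrix.of fun (i : Fin (Module.finrank A U)) (p : P) => (b i : P → A) p) hli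
  refine ⟨J, fun u hu h0 => ?_⟩
  have h1 := b.sum_repr ⟨u, hu⟩
  have h2 : ∑ i, (b.repr ⟨u, hu⟩ i) • (b i : P → A) = u := by
    have h3 := congrArg U.subtype h1
    rw [map_sum] at h3
    exact h3
  have h3 : Matrix.vecMul (fun i => b.repr ⟨u, hu⟩ i)
      ((Matrix.of fun (i : Fin (Module.finrank A U)) (p : P) => (b i : P → A) p).submatrix id J) = 0 := by
    funext l
    have h4 := congrFun h2 (J l)
    rw [h0 l, Finset.sum_apply] at h4
    exact h4
  have h4 := Matrix.eq_zero_of_vecMul_eq_zero hJ h3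
  rw [← h2]
  refine Finset.sum_eq_zero fun i _ => ?_
  have h5 := congrFun h4 i
  have h6 : b.repr ⟨u, hu⟩ i = 0 := h5
  rw [h6, zero_smul]

theorem nv_nonneg (n L : ℕ) (U : Submodule A (Fin n × Fin L → A)) :
    0 ≤ nv A (pcA A n L) (ZA A n L) U := by
  classical
  obtain ⟨I, _, _, ω, e, he⟩ := ex_om A
  have hl := lat_pcA A n L
  obtain ⟨M, hM⟩ : ∃ M : Matrix I I ℂ, M = Matrix.of fun a b => e b (ω a : A) := ⟨_, rfl⟩
  rw [← hM] at he
  have hIc : Fintype.card I = Module.finrank ℚ A := by
    rw [Fintype.card_congr e, NumberField.Embeddings.card]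
  obtain ⟨J, hJ⟩ := ex_coord A U
  obtain ⟨z0, hz0⟩ := hl.exists_zb (U.restrictScalars ℚ)
  have hfr : Module.finrank ℚ (U.restrictScalars ℚ) = Module.finrank ℚ A * Module.finrank A U := by
    rw [Module.finrank_mul_finrank ℚ A U]
    rfl
  obtain ⟨ε⟩ : Nonempty (I × Fin (Module.finrank A U) ≃ Fin (Module.finrank ℚ (U.restrictScalars ℚ))) :=
    ⟨Fintype.equivOfCardEq (by rw [Fintype.card_prod, Fintype.card_fin, Fintype.card_fin, hIc, hfr])⟩
  obtain ⟨z, hz⟩ : ∃ z : I × Fin (Module.finrank A U) → (Fin n × Fin L → A), z = fun x => z0 (ε x) := ⟨_, rfl⟩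
  have hzli : LinearIndependent ℚ z := by
    rw [hz]
    exact hz0.li.comp _ ε.injective
  have hzU : ∀ x, z x ∈ U := fun x => by
    rw [hz]
    exact hz0.memU (ε x)
  have hzL : ∀ x p, IsIntegral ℤ (z x p) := fun x p => by
    rw [hz]
    exact hz0.memL (ε x) p
  have hvl : vl (pcA A n L) (ZA A n L) (U.restrictScalars ℚ) = gd (fun x => pcA A n L (z x)) := by
    rw [hl.vl_eq hz0, hz]
    exact (gd_reindex ε (fun i => pcA A n L (z0 i))).symm
  obtain ⟨C, hC⟩ : ∃ C : Matrix (I × Fin (Module.finrank A U)) (I × Fin (Module.finrank A U)) ℤ,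
      ∀ x w, C x w = ω.repr ⟨z x (J w.2), hzL _ _⟩ w.1 := ⟨fun x w => _, fun _ _ => rfl⟩
  have hzC : ∀ x l, z x (J l) = ∑ i, ((C x (i, l) : ℤ) : A) * (ω i : A) := by
    intro x l
    have h5 := congrArg (fun w : 𝓞 A => (w : A)) (ω.sum_repr ⟨z x (J l), hzL _ _⟩)
    change algebraMap (𝓞 A) A (∑ i, ω.repr ⟨z x (J l), hzL _ _⟩ i • ω i) = z x (J l) at h5
    rw [← h5, map_sum]
    refine Finset.sum_congr rfl fun i _ => ?_
    rw [zsmul_eq_mul, map_mul, map_intCast, hC]
  have hCdet : C.det ≠ 0 := by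
    intro hdet
    obtain ⟨B, hB⟩ : ∃ B : Matrix (I × Fin (Module.finrank A U)) (I × Fin (Module.finrank A U)) ℚ,
        B = C.map (Int.castRingHom ℚ) := ⟨_, rfl⟩
    have hBd : B.det = 0 := by
      have h2 := (Int.castRingHom ℚ).map_det C
      rw [hdet, map_zero] at h2
      rw [hB]
      exact h2.symm
    obtain ⟨v, hv, hvB⟩ := Matrix.exists_vecMul_eq_zero_iff.2 hBd
    apply hv
    have h3 : ∑ x, v x • z x = 0 := by
      refine hJ _ (Submodule.sum_mem _ fun x _ => ?_) fun l => ?_
      · have h4 : v x • z x = (algebraMap ℚ A (v x)) • z x := (algebraMap_smul A (v x) (z x)).symm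
        rw [h4]
        exact U.smul_mem _ (hzU x)
      · rw [Finset.sum_apply]
        have h4 : ∀ x, (v x • z x) (J l) = ∑ i, (algebraMap ℚ A (v x * B x (i, l))) * (ω i : A) := by
          intro x
          rw [Pi.smul_apply, hzC, Algebra.smul_def, Finset.mul_sum]
          refine Finset.sum_congr rfl fun i _ => ?_
          rw [hB, Matrix.map_apply, map_mul, eq_intCast, map_intCast]
          ring
        rw [Finset.sum_congr rfl fun x _ => h4 x, Finset.sum_comm]
        refine Finset.sum_eq_zero fun i _ => ?_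
        rw [← Finset.sum_mul, ← map_sum]
        have h5 : ∑ x, v x * B x (i, l) = 0 := congrFun hvB (i, l)
        rw [h5, map_zero, zero_mul]
    have h4 := (Fintype.linearIndependent_iff.1 hzli) v h3
    funext i
    exact h4 i
  have hmin := gd_minor (fun x => pcA A n L (z x)) (fun y : I × Fin (Module.finrank A U) => (e y.1, J y.2))
  have hmat : (Matrix.of fun x (y : I × Fin (Module.finrank A U)) => (pcA A n L (z x)) (e y.1, J y.2)) =
      C.map (Int.castRingHom ℂ) * Matrix.kroneckerMap (fun a b => a * b) M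
        (1 : Matrix (Fin (Module.finrank A U)) (Fin (Module.finrank A U)) ℂ) := by
    ext x y
    rw [Matrix.of_apply, Matrix.mul_apply, Fintype.sum_prod_type]
    change e y.1 (z x (J y.2)) = _
    rw [hzC, map_sum]
    refine Finset.sum_congr rfl fun i _ => ?_
    rw [Finset.sum_eq_single y.2]
    · rw [Matrix.kroneckerMap_apply, Matrix.one_apply_eq, mul_one, hM, Matrix.of_apply, Matrix.map_apply,
        map_mul, map_intCast]
      rfl
    · intro j _ hj
      rw [Matrix.kroneckerMap_apply, Matrix.one_apply_ne hj, mul_zero, mul_zero]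
    · intro h
      exact absurd (Finset.mem_univ _) h
  rw [hmat, Matrix.det_mul, det_kr, norm_mul, mul_pow, norm_pow, ← pow_mul, mul_comm (Fintype.card _) 2, pow_mul,
    he, Fintype.card_fin] at hmin
  have h3 : (C.map (Int.castRingHom ℂ)).det = ((C.det : ℤ) : ℂ) := by
    have h4 := (Int.castRingHom ℂ).map_det C
    exact h4.symm
  have h5 : (1 : ℝ) ≤ ‖(C.map (Int.castRingHom ℂ)).det‖ := by
    rw [h3, Complex.norm_intCast]
    exact_mod_cast Int.one_le_abs hCdet
  have hpos := discr_pos A
  have h6 : |(NumberField.discr A : ℝ)| ^ Module.finrank A U ≤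
      vl (pcA A n L) (ZA A n L) (U.restrictScalars ℚ) := by
    rw [hvl]
    refine le_trans ?_ hmin
    exact le_mul_of_one_le_left (pow_nonneg hpos.le _) (one_le_pow₀ h5)
  have h7 := Real.log_le_log (pow_pos hpos _) h6
  rw [Real.log_pow] at h7
  unfold nv dA
  linarith

end Pool.Agent.H36.LF
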