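import Pool.Agent.H36.LF.MaA
import Pool.Agent.H36.LF.MbA
import Pool.Agent.H36.LF.MdA
import Pool.Agent.H36.LF.NgA

/-!
# THEOREM L, version 2 (MP_187c26_nt): the main inequality for one prime

MODEL: `mi_step` in `Pool/Agent/H36/LE/MiE.lean` (copy and change). Imports may be sorried (`ev_intA`, `ev_int0A`, `exists_TA`, `lat_pcA`, `n1A`, `lat_ph`, `vl_filt`, `vl_le`, `gd_smul`).
PROOF. `γ := g l`, `K := γ (L - 1)`, `V' := V ⊓ kA σ x a n L γ` (an `A`-subspace), `e := [A : ℚ]`, `r := dim_ℚ V - dim_ℚ V' = e (dim_A V - dim_A V')`, `W := bzA σ (V) = {bzA σ .. γ c : c ∈ V}`: an `A`-subspace of `E` (`bzA σ (u c) = σ(u) bzA σ c`, `σ` surjective) of dimension `dim_A V - dim_A V'` (over `ℚ`: rank-nullity, dimension `r`; then divide by `e`).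
`vl_filt` over `ℚ` for `lat_pcA`, `T` of `exists_TA`, `X := exp (2 (-(K h + ι + log b) r + (dim_A W) dA A / 2)) l^(2r)`: if `w_i ∈ ZA ∩ V` (`i < r`) are independent modulo `V'` then the `bzA σ w_i = l • y_i`, `y_i ∈ LK a K` (`l = 1`: `ev_int0A`; otherwise `ev_intA`), are `ℚ`-independent and span `W` over `ℚ` (`r` independent elements of a space of
dimension `r`), so do the `y_i`; `vl (ph) (LK) (W over ℚ) ≤ gd (ph ∘ y)` (`vl_le`) and `n1A` for `W`: `log vl / 2 ≥ -(K h + ι + log b) r + (dim_A W) dA A / 2`; `gd (T pcA w) = l^(2r) gd (ph y) ≥ X` (`gd_smul`). Conclusion: `vl V' * X ≤ B^(2r) vl V`; take logarithms, divide by 2; the terms with `dA A` are exactly the ones of `nv`: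
`nv V' ≤ nv V + r (log b + log (L d)/2 + K h + ι + log b - log l)` and `K h ≤ g l L h`.
-/

set_option autoImplicit false

open Polynomial NumberField IntermediateField

namespace Pool.Agent.H36.LF

open Pool.Agent.H36.LE

private theorem mea_h {E : Type} [Field E] [CharZero E] (a : E) : 0 ≤ absLogHeight₁ a := by
  unfold absLogHeight₁ absMulHeight₁
  split_ifs with hx
  · have : FiniteDimensional ℚ ℚ⟮a⟯ := adjoin.finiteDimensional hx
    have : NumberField ℚ⟮a⟯ := {}
    refine Real.log_nonneg ?_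
    exact Real.one_le_rpow (Height.one_le_mulHeight₁ _) (by positivity)
  · rw [Real.log_one]

private theorem mea_li {V₀ E : Type} [AddCommGroup V₀] [Module ℚ V₀] [AddCommGroup E] [Module ℚ E]
    (D : V₀ →ₗ[ℚ] E) (V : Submodule ℚ V₀) {r : ℕ} (w : Fin r → V₀) (hw : ∀ i, w i ∈ V)
    (hi : LinearIndependent ℚ (fun i => (V ⊓ LinearMap.ker D).mkQ (w i))) (l : ℕ) (y : Fin r → E)
    (hy : ∀ i, D (w i) = l • y i) : LinearIndependent ℚ y := by
  rw [Fintype.linearIndependent_iff] at hi ⊢
  intro c hc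
  apply hi c
  have h1 : ∑ i, c i • w i ∈ V ⊓ LinearMap.ker D := by
    refine ⟨Submodule.sum_mem _ fun i _ => Submodule.smul_mem _ _ (hw i), ?_⟩
    show D (∑ i, c i • w i) = 0
    rw [map_sum]
    have h2 : ∀ i, D (c i • w i) = l • (c i • y i) := by
      intro i
      rw [map_smul, hy, smul_comm]
    rw [Finset.sum_congr rfl fun i _ => h2 i, ← Finset.smul_sum, hc, smul_zero]
  have h3 : (V ⊓ LinearMap.ker D).mkQ (∑ i, c i • w i) = 0 := by
    rw [← LinearMap.mem_ker, Submodule.ker_mkQ]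
    exact h1
  rw [map_sum] at h3
  rw [← h3]
  exact Finset.sum_congr rfl fun i _ => (map_smul _ _ _).symm

/-- an endomorphism of a number field is surjective -/
private theorem mea_surj {A : Type} [Field A] [NumberField A] (σ : A →+* A) : Function.Surjective σ := by
  have h1 : Function.Injective σ.toRatAlgHom.toLinearMap := σ.injective
  exact LinearMap.injective_iff_surjective.1 h1

private theorem mea_smul {A E : Type} [Field A] [NumberField A] [Field E] [NumberField E] [Algebra A E]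
    (σ : A →+* A) (x a : E) (n L γ : ℕ) (u : A) (c : Fin n × Fin L → A) :
    bzA σ x a n L γ (u • c) = algebraMap A E (σ u) * bzA σ x a n L γ c := by
  rw [bzA_apply, bzA_apply, Finset.mul_sum]
  refine Finset.sum_congr rfl fun p _ => ?_
  rw [Pi.smul_apply, smul_eq_mul, map_mul, map_mul]
  ring

/-- the image of an `A`-subspace -/
private def mea_W {A E : Type} [Field A] [NumberField A] [Field E] [NumberField E] [Algebra A E]
    (σ : A →+* A) (x a : E) (n L γ : ℕ) (V : Submodule A (Fin n × Fin L → A)) : Submodule A E where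
  carrier := {y | ∃ c ∈ V, bzA σ x a n L γ c = y}
  zero_mem' := ⟨0, V.zero_mem, map_zero _⟩
  add_mem' := by
    rintro _ _ ⟨c, hc, rfl⟩ ⟨c', hc', rfl⟩
    exact ⟨c + c', V.add_mem hc hc', map_add _ _ _⟩
  smul_mem' := by
    rintro u _ ⟨c, hc, rfl⟩
    obtain ⟨u', rfl⟩ := mea_surj σ u
    refine ⟨u' • c, V.smul_mem _ hc, ?_⟩
    rw [mea_smul, Algebra.smul_def]

private theorem mea_fin {A V₀ : Type} [Field A] [NumberField A] [AddCommGroup V₀] [Module ℚ V₀]
    [Module A V₀] [IsScalarTower ℚ A V₀] (U : Submodule A V₀) :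
    Module.finrank ℚ (U.restrictScalars ℚ) = Module.finrank ℚ A * Module.finrank A U :=
  (Module.finrank_mul_finrank ℚ A U).symm

/-- rank and nullity -/
private theorem mea_rank {A E : Type} [Field A] [NumberField A] [Field E] [NumberField E] [Algebra A E]
    (σ : A →+* A) (x a : E) (n L γ : ℕ) (V : Submodule A (Fin n × Fin L → A)) :
    Module.finrank A (mea_W σ x a n L γ V) + Module.finrank A (V ⊓ kA σ x a n L γ :
      Submodule A (Fin n × Fin L → A)) = Module.finrank A V := by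
  have h1 := LinearMap.finrank_range_add_finrank_ker
    ((bzA σ x a n L γ).domRestrict (V.restrictScalars ℚ))
  have h2 : Module.finrank ℚ (LinearMap.range
      ((bzA σ x a n L γ).domRestrict (V.restrictScalars ℚ))) =
      Module.finrank ℚ ((mea_W σ x a n L γ V).restrictScalars ℚ) := by
    have e : LinearMap.range ((bzA σ x a n L γ).domRestrict (V.restrictScalars ℚ)) =
        (mea_W σ x a n L γ V).restrictScalars ℚ := by
      ext y
      constructor
      · rintro ⟨c, rfl⟩
        exact ⟨c.1, c.2, rfl⟩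
      · rintro ⟨c, hc, rfl⟩
        exact ⟨⟨c, hc⟩, rfl⟩
    rw [e]
  have h3 : Module.finrank ℚ (LinearMap.ker
      ((bzA σ x a n L γ).domRestrict (V.restrictScalars ℚ))) =
      Module.finrank ℚ ((V ⊓ kA σ x a n L γ).restrictScalars ℚ) := by
    refine LinearEquiv.finrank_eq
      { toFun := fun c => ⟨c.1.1, c.1.2, c.2⟩
        map_add' := fun _ _ => rfl
        map_smul' := fun _ _ => rfl
        invFun := fun c => ⟨⟨c.1, c.2.1⟩, c.2.2⟩
        left_inv := fun _ => rfl
        right_inv := fun _ => rfl }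
  have h4 : Module.finrank ℚ (V.restrictScalars ℚ) = Module.finrank ℚ A * Module.finrank A V :=
    mea_fin V
  rw [h2, h3, mea_fin, mea_fin, h4, ← mul_add] at h1
  exact Nat.eq_of_mul_eq_mul_left Module.finrank_pos h1

theorem mi_stepA {A E : Type} [Field A] [NumberField A] [Field E] [NumberField E] [Algebra A E]
    {b m d : ℕ} {ι : ℝ} {x : E} (hx : RdA A b m d ι x) (σ : A →+* A) (a : E) (n L g l : ℕ)
    (hn1 : 1 ≤ n) (hn : n ≤ m) (hL : 1 ≤ L) (hg1 : 1 ≤ g) (hg : g.Coprime m)
    (hl : (l = 1 ∧ σ = RingHom.id A) ∨ (l.Prime ∧ ¬ l ∣ m ∧ Pool.Agent.H72.BE.Frob A l σ))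
    (hnl : (n - 1) * (g * l) ≤ m) (V : Submodule A (Fin n × Fin L → A))
    (hV : l ≠ 1 → V ≤ kA (RingHom.id A) x a n L g) :
    nv A (pcA A n L) (ZA A n L) (V ⊓ kA σ x a n L (g * l)) ≤
      nv A (pcA A n L) (ZA A n L) V +
      (Module.finrank ℚ A * (Module.finrank A V - Module.finrank A
        (V ⊓ kA σ x a n L (g * l) : Submodule A (Fin n × Fin L → A)) : ℕ) : ℝ) *
      (2 * Real.log b + ι + Real.log (L * d) / 2 + (g * l * L : ℝ) * absLogHeight₁ a -
        Real.log l) := by
  have hlm : l.Coprime m := by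
    rcases hl with ⟨rfl, -⟩ | ⟨h1, h2, -⟩
    · exact Nat.coprime_one_left m
    · exact (Nat.Prime.coprime_iff_not_dvd h1).2 h2
  have hl1 : 1 ≤ l := by
    rcases hl with ⟨rfl, -⟩ | ⟨h1, h2, -⟩
    · exact le_rfl
    · exact h1.one_lt.le
  have hγ : (g * l).Coprime m := Nat.Coprime.mul_left hg hlm
  have hxi : IsIntegral ℤ x := by
    refine IsIntegral.of_pow (lt_of_lt_of_le Nat.one_pos hx.m1) ?_
    rw [hx.pow]
    exact isIntegral_natCast (b : ℕ)
  obtain ⟨K, hK⟩ : ∃ K : ℕ, K = g * l * (L - 1) := ⟨_, rfl⟩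
  obtain ⟨T, hT, hTc⟩ := exists_TA hx σ a n L (g * l) K hn hγ hnl hK.ge
  obtain ⟨h, hh⟩ : ∃ h : ℝ, h = absLogHeight₁ a := ⟨_, rfl⟩
  have hh0 : 0 ≤ h := by
    rw [hh]
    exact mea_h a
  obtain ⟨V', hV'⟩ : ∃ V', V' = V ⊓ kA σ x a n L (g * l) := ⟨_, rfl⟩
  obtain ⟨W, hW⟩ : ∃ W, W = mea_W σ x a n L (g * l) V := ⟨_, rfl⟩
  have hVV : V'.restrictScalars ℚ ≤ V.restrictScalars ℚ := by
    rw [hV']
    exact fun c hc => hc.1
  have hrk := mea_rank σ x a n L (g * l) V
  rw [← hV', ← hW] at hrk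
  obtain ⟨k, hk⟩ : ∃ k : ℕ, k = Module.finrank A W := ⟨_, rfl⟩
  obtain ⟨r, hr⟩ : ∃ r : ℕ, r = Module.finrank ℚ A * k := ⟨_, rfl⟩
  have hkV : Module.finrank A V - Module.finrank A V' = k := by omega
  have hWr : Module.finrank ℚ (W.restrictScalars ℚ) = r := by
    rw [mea_fin, hr, hk]
  have hVr : Module.finrank ℚ (V.restrictScalars ℚ) - Module.finrank ℚ (V'.restrictScalars ℚ) = r := by
    rw [mea_fin, mea_fin, ← Nat.mul_sub, hkV, hr]
  obtain ⟨Y, hY⟩ : ∃ Y : ℝ, Y = -((K * h + ι + Real.log b) * (Module.finrank ℚ A * k)) +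
    k * dA A / 2 := ⟨_, rfl⟩
  obtain ⟨X, hX⟩ : ∃ X : ℝ, X = (l : ℝ) ^ (2 * r) * Real.exp (2 * Y) := ⟨_, rfl⟩
  have hb0 : (0 : ℝ) < b := by exact_mod_cast hx.b1
  have hl0 : (0 : ℝ) < l := by exact_mod_cast hl1
  have hd : 1 ≤ d := by
    by_contra h0
    have h1 : d = 0 := by omega
    have h2 := hx.fin
    rw [h1, mul_zero] at h2
    have : Module.Finite A E := Module.Finite.of_restrictScalars_finite ℚ A E
    have h3 : 0 < Module.finrank A E := Module.finrank_pos
    omega
  have hLd : (0 : ℝ) < L * d := by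
    have h1 : (0 : ℝ) < L := by exact_mod_cast hL
    have h2 : (0 : ℝ) < d := by exact_mod_cast hd
    positivity
  have hB0 : (0 : ℝ) < b * Real.sqrt (L * d) := mul_pos hb0 (Real.sqrt_pos.2 hLd)
  have hX0 : 0 < X := by
    rw [hX]
    positivity
  have hres : V'.restrictScalars ℚ = V.restrictScalars ℚ ⊓ LinearMap.ker (bzA σ x a n L (g * l)) := by
    rw [hV']
    ext c
    exact Iff.rfl
  have hf := (lat_pcA A n L).vl_filt T (b * Real.sqrt (L * d)) hB0.le hT hVV
    (by
      intro y hy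
      rw [hres] at hy
      rw [hTc, LinearMap.mem_ker.1 hy.2, map_zero]) X
    (by
      intro w hw hi
      have hy : ∀ i, ∃ y ∈ LK a K, bzA σ x a n L (g * l) (w i) = l • y := by
        intro i
        rcases hl with ⟨h1, -⟩ | ⟨h1, h2, h3⟩
        · refine ⟨bzA σ x a n L (g * l) (w i), ?_, ?_⟩
          · rw [hK]
            exact ev_int0A σ x a hxi n L (g * l) (w i) (hw i).1
          · rw [h1, one_smul]
        · rw [hK]
          exact ev_intA σ x a hxi n L g l h1 h3 (w i) (hw i).1 (hV h1.one_lt.ne' (hw i).2)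
      choose y hy1 hy2 using hy
      have hli : LinearIndependent ℚ y := by
        refine mea_li (bzA σ x a n L (g * l)) (V.restrictScalars ℚ) w (fun i => (hw i).2) ?_ l y hy2
        rw [← hres]
        exact hi
      have hyW : ∀ i, y i ∈ W.restrictScalars ℚ := by
        intro i
        have h1 : bzA σ x a n L (g * l) (w i) ∈ W.restrictScalars ℚ := by
          rw [hW]
          exact ⟨w i, (hw i).2, rfl⟩
        have h2 : y i = (l : ℚ)⁻¹ • bzA σ x a n L (g * l) (w i) := by
          rw [hy2, ← Nat.cast_smul_eq_nsmul ℚ, smul_smul, inv_mul_cancel₀, one_smul]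
          exact_mod_cast (by omega : l ≠ 0)
        rw [h2]
        exact Submodule.smul_mem _ _ h1
      have h1 := n1A hx a K W
      have h2 := (lat_ph m K hx.m1 a).vl_le (U := W.restrictScalars ℚ) y
        (by rw [Fintype.card_fin, hWr, hVr]) hli (fun i => ⟨hy1 i, hyW i⟩)
      have hp := (lat_ph m K hx.m1 a).vl_pos (W.restrictScalars ℚ)
      have h3 : (fun i => T (pcA A n L (w i))) = fun i => (l : ℂ) • (ph m a K (y i)) := by
        funext i
        rw [hTc, hy2, map_nsmul]
        exact (Nat.cast_smul_eq_nsmul ℂ l _).symm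
      have e : (l : ℝ) ^ (2 * (Module.finrank ℚ (V.restrictScalars ℚ) -
          Module.finrank ℚ (V'.restrictScalars ℚ))) = (l : ℝ) ^ (2 * r) := by
        rw [hVr]
      rw [h3, gd_smul, Complex.norm_natCast, Fintype.card_fin, hX, e]
      refine mul_le_mul_of_nonneg_left ?_ (by positivity)
      refine le_trans ?_ h2
      rw [← Real.le_log_iff_exp_le hp]
      unfold nv at h1
      rw [← hk, ← hh] at h1
      rw [hY]
      linarith)
  rw [hVr] at hf
  unfold nv
  rw [← hV', hkV, ← hh]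
  have hp1 := (lat_pcA A n L).vl_pos (V'.restrictScalars ℚ)
  have hp2 := (lat_pcA A n L).vl_pos (V.restrictScalars ℚ)
  have hlog := Real.log_le_log (mul_pos hp1 hX0) hf
  rw [Real.log_mul hp1.ne' hX0.ne', Real.log_mul (by positivity) hp2.ne', Real.log_pow,
    Real.log_mul hb0.ne' (Real.sqrt_pos.2 hLd).ne', Real.log_sqrt hLd.le, hX,
    Real.log_mul (by positivity) (Real.exp_pos _).ne', Real.log_exp, Real.log_pow, hY, hr] at hlog
  push_cast at hlog
  have hKh : (K : ℝ) * h ≤ (g * l * L : ℝ) * h := by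
    refine mul_le_mul_of_nonneg_right ?_ hh0
    have h1 : K ≤ g * l * L := by
      rw [hK]
      exact Nat.mul_le_mul_left _ (Nat.sub_le _ _)
    exact_mod_cast h1
  have hr0 : (0 : ℝ) ≤ (Module.finrank ℚ A : ℝ) * k := by positivity
  have h4 := mul_le_mul_of_nonneg_left hKh hr0
  have hkr : (Module.finrank A V : ℝ) = k + Module.finrank A V' := by
    have h5 : Module.finrank A V = k + Module.finrank A V' := by omega
    exact_mod_cast h5
  rw [hkr]
  nlinarith [hlog, h4]

end Pool.Agent.H36.LF
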