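import Pool.Agent.H36.LF.MeA

/-!
# THEOREM L, version 2 (MP_187c26_nt): the main inequality in coordinates

MODEL: `mi_cor` in `Pool/Agent/H36/LE/MiF.lean` (copy and change). Imports may be sorried (`mi_stepA`, `nv_nonneg`, `nv_top`).
PROOF. `W S := kA id .. g ⊓ ⨅ q ∈ S, kA (σ q) .. (g q)`, `e := [A : ℚ] > 0`. As in the model: `nv (W ∅) ≤ e r₀ (C + 1)`, `r₀ = n L - dim_A W ∅`, `C := 2 log b + ι + log (L d)/2 ≥ 0` (`mi_stepA` with `l = 1`, `V = ⊤`, `nv_top`), `nv (W (insert q S)) ≤ nv (W S) - e (dim W S - dim W (insert q S)) (C + 1)/7`, `0 ≤ nv (W 𝒬)`. Divide by `e (C + 1)`.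
-/

set_option autoImplicit false

open Polynomial NumberField IntermediateField

namespace Pool.Agent.H36.LF

open Pool.Agent.H36.LE

private theorem mfa_alh {E : Type} [Field E] [CharZero E] (a : E) : 0 ≤ absLogHeight₁ a := by
  unfold absLogHeight₁ absMulHeight₁
  refine Real.log_nonneg ?_
  split_ifs with h
  · have h1 : FiniteDimensional ℚ ℚ⟮a⟯ := adjoin.finiteDimensional h
    have h2 : NumberField ℚ⟮a⟯ := {}
    exact Real.one_le_rpow (Height.one_le_mulHeight₁ (AdjoinSimple.gen ℚ a)) (by positivity)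
  · exact le_rfl

theorem mi_corA {A E : Type} [Field A] [NumberField A] [Field E] [NumberField E] [Algebra A E]
    {b m d : ℕ} {ι : ℝ} {x : E} (hx : RdA A b m d ι x) (hι : 0 ≤ ι) (σ : ℕ → (A →+* A)) (a : E)
    (n L g : ℕ) (hn1 : 1 ≤ n) (hn : n ≤ m) (hL : 1 ≤ L) (hg1 : 1 ≤ g) (hg : g.Coprime m)
    (𝒬 : Finset ℕ)
    (h𝒬 : ∀ q ∈ 𝒬, q.Prime ∧ ¬ q ∣ m ∧ Pool.Agent.H72.BE.Frob A q (σ q) ∧
      (n - 1) * (g * q) ≤ m ∧
      8 * (2 * Real.log b + ι + Real.log (L * d) / 2 + 1) ≤ 7 * Real.log q ∧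
      (g * q * L : ℝ) * absLogHeight₁ a ≤ 1) :
    n * L - Module.finrank A (kA (RingHom.id A) x a n L g ⊓
        ⨅ q ∈ 𝒬, kA (σ q) x a n L (g * q) : Submodule A (Fin n × Fin L → A)) ≤
      8 * (n * L - Module.finrank A (kA (RingHom.id A) x a n L g)) := by
  classical
  rcases Finset.eq_empty_or_nonempty 𝒬 with h0 | ⟨q₀, hq₀⟩
  · subst h0
    have h1 : (kA (RingHom.id A) x a n L g ⊓
        ⨅ q ∈ (∅ : Finset ℕ), kA (σ q) x a n L (g * q) : Submodule A (Fin n × Fin L → A)) =
        kA (RingHom.id A) x a n L g := by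
      simp
    rw [h1]
    omega
  · obtain ⟨W, hW⟩ : ∃ W : Finset ℕ → Submodule A (Fin n × Fin L → A), ∀ S, W S =
      kA (RingHom.id A) x a n L g ⊓ ⨅ q ∈ S, kA (σ q) x a n L (g * q) := ⟨_, fun S => rfl⟩
    obtain ⟨lam, hlam⟩ : ∃ lam : Submodule A (Fin n × Fin L → A) → ℝ, ∀ V, lam V =
      nv A (pcA A n L) (ZA A n L) V := ⟨_, fun V => rfl⟩
    obtain ⟨B, hB⟩ : ∃ B : ℝ, B = 2 * Real.log b + ι + Real.log (L * d) / 2 := ⟨_, rfl⟩
    obtain ⟨e, he⟩ : ∃ e : ℕ, e = Module.finrank ℚ A := ⟨_, rfl⟩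
    have he0 : (0 : ℝ) < e := by
      rw [he]
      exact_mod_cast Module.finrank_pos (R := ℚ) (M := A)
    have hd : 1 ≤ d := by
      have hAE : Module.Finite A E := Module.Finite.of_restrictScalars_finite ℚ A E
      have h1 : 0 < Module.finrank A E := Module.finrank_pos
      rw [hx.fin] at h1
      exact Nat.pos_of_mul_pos_left h1
    have hB0 : 0 ≤ B := by
      have h1 : 0 ≤ Real.log b := Real.log_nonneg (by exact_mod_cast hx.b1)
      have h2 : 0 ≤ Real.log (L * d) := Real.log_nonneg (by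
        have : 1 ≤ L * d := Nat.mul_pos hL hd
        exact_mod_cast this)
      rw [hB]
      linarith
    have hh : 0 ≤ absLogHeight₁ a := mfa_alh a
    have hWe : W ∅ = kA (RingHom.id A) x a n L g := by
      rw [hW]
      simp
    have hlge : ∀ V, 0 ≤ lam V := fun V => by
      rw [hlam]
      exact nv_nonneg A n L V
    have hlt : lam ⊤ ≤ 0 := by
      rw [hlam]
      exact nv_top A n L
    have hft : Module.finrank A (⊤ : Submodule A (Fin n × Fin L → A)) = n * L := by
      rw [finrank_top, Module.finrank_fintype_fun_eq_card, Fintype.card_prod, Fintype.card_fin,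
        Fintype.card_fin]
    obtain ⟨r₀, hr₀⟩ : ∃ r₀ : ℕ, r₀ = n * L - Module.finrank A (W ∅) := ⟨_, rfl⟩
    -- step 0
    have hs0 : lam (W ∅) ≤ e * r₀ * (B + 1) := by
      obtain ⟨hq1, -, -, hq3, -, hq5⟩ := h𝒬 q₀ hq₀
      have h1 := mi_stepA hx (RingHom.id A) a n L g 1 hn1 hn hL hg1 hg (Or.inl ⟨rfl, rfl⟩)
        ((Nat.mul_le_mul_left _ (Nat.mul_le_mul_left _ hq1.one_lt.le)).trans hq3) ⊤
        (fun h => absurd rfl h)
      rw [← hlam, ← hlam, ← he, mul_one, top_inf_eq, hft, ← hWe, ← hr₀, Nat.cast_one, Real.log_one,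
        sub_zero, ← hB, mul_one] at h1
      refine h1.trans ?_
      have h2 : (g * L : ℝ) * absLogHeight₁ a ≤ 1 := by
        refine le_trans ?_ hq5
        refine mul_le_mul_of_nonneg_right ?_ hh
        have h3 : (1 : ℝ) ≤ q₀ := by exact_mod_cast hq1.one_lt.le
        have h4 : (0 : ℝ) ≤ (g : ℝ) * L := by positivity
        nlinarith
      have h3 : (e * r₀ : ℝ) * (B + (g * L : ℝ) * absLogHeight₁ a) ≤ e * r₀ * (B + 1) :=
        mul_le_mul_of_nonneg_left (by linarith) (by positivity)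
      linarith
    -- steps
    have hstep : ∀ S : Finset ℕ, S ⊆ 𝒬 → lam (W S) ≤ e * r₀ * (B + 1) -
        e * ((Module.finrank A (W ∅) : ℝ) - Module.finrank A (W S)) * ((B + 1) / 7) := by
      intro S
      induction S using Finset.induction_on with
      | empty =>
        intro _
        rw [sub_self, mul_zero, zero_mul, sub_zero]
        exact hs0
      | insert q S hq ih =>
        intro hS
        have ih1 := ih ((Finset.subset_insert q S).trans hS)
        obtain ⟨hq1, hq2, hq2', hq3, hq4, hq5⟩ := h𝒬 q (hS (Finset.mem_insert_self q S))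
        have hWi : W (insert q S) = W S ⊓ kA (σ q) x a n L (g * q) := by
          rw [hW, hW, Finset.iInf_insert, inf_assoc, inf_comm (kA (σ q) x a n L (g * q))]
        have h1 := mi_stepA hx (σ q) a n L g q hn1 hn hL hg1 hg (Or.inr ⟨hq1, hq2, hq2'⟩) hq3 (W S)
          (fun _ => by rw [hW]; exact inf_le_left)
        rw [← hlam, ← hlam, ← hWi, ← hB, ← he] at h1
        rw [← hB] at hq4
        have h2 : Module.finrank A (W (insert q S)) ≤ Module.finrank A (W S) := by
          rw [hWi]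
          exact Submodule.finrank_mono inf_le_left
        rw [Nat.cast_sub h2] at h1
        have h3 : (0 : ℝ) ≤ (Module.finrank A (W S) : ℝ) - Module.finrank A (W (insert q S)) :=
          sub_nonneg.2 (by exact_mod_cast h2)
        have h4 : B + (g * q * L : ℝ) * absLogHeight₁ a - Real.log q ≤ -((B + 1) / 7) := by linarith
        have h5 := mul_le_mul_of_nonneg_left h4 (mul_nonneg he0.le h3)
        linarith
    have hfin := hstep 𝒬 subset_rfl
    have h1 := hlge (W 𝒬)
    have hmono : Module.finrank A (W 𝒬) ≤ Module.finrank A (W ∅) := by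
      rw [hWe, hW]
      exact Submodule.finrank_mono inf_le_left
    have hle : Module.finrank A (W ∅) ≤ n * L := by
      rw [← hft, finrank_top]
      exact Submodule.finrank_le _
    have h2 : ((Module.finrank A (W ∅) : ℝ) - Module.finrank A (W 𝒬)) * (e * (B + 1)) ≤
        (7 * r₀) * (e * (B + 1)) := by
      linarith
    have h3 := le_of_mul_le_mul_right h2 (mul_pos he0 (by linarith))
    have h4 : Module.finrank A (W ∅) ≤ 7 * r₀ + Module.finrank A (W 𝒬) := by
      have h5 : (Module.finrank A (W ∅) : ℝ) ≤ 7 * r₀ + Module.finrank A (W 𝒬) := by linarith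
      exact_mod_cast h5
    rw [← hW, ← hWe, ← hr₀]
    omega

end Pool.Agent.H36.LF
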