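import Pool.Agent.H36.LF.SaA
import Pool.Agent.H36.LE.ScA
import Pool.Agent.H36.LE.Exc

/-!
# THEOREM L, version 2 (MP_187c26_nt), step C: two primes with the same image

MODEL: `two_primes` in `Pool/Agent/H36/LE/ScB.lean` (copy and change, the private lemmas `ex_factor`, `exc_card`, `relfin_le` can be copied unchanged). Imports may be sorried.
PROOF. For `l ∈ ℛ`: `(tw (σ l) P)(T^l, θ^l) = (ex l (tw (σ l) P))(T, θ) = 0`: an irreducible factor `H'_l` of `tw (σ l) P` vanishes at `(T^l, θ^l)`, of positive degree in `Y`. `tw (σ l)` is a ring automorphism of `k[X][Y]` (`σ l` is bijective: `RingEquiv.ofBijective`, `Polynomial.mapEquiv` twice), so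
`H'_l = tw (σ l) H_l` with `H_l` irreducible, `H_l ∣ P`, `natDegree H_l = natDegree H'_l`. `tower` for `H'_l`: `natDegree H_l ≥ natDegree G` for all nonexceptional `l`. If the `H_l` for 35 nonexceptional primes were pairwise not associated their product would divide `P`, too large. So `H_l ~ H_l'` for some `l ≠ l'`; `H := H_l`
(`tw (σ l') H_l` is associated to `tw (σ l') H_l'`).
-/

set_option autoImplicit false

open Polynomial NumberField IntermediateField
open scoped Polynomial.Bivariate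

namespace Pool.Agent.H36.LF

open Pool.Agent.H36.LE

variable {k Ω : Type} [Field k] [Field Ω] [Algebra k Ω]

/-- An irreducible factor of positive degree in `Y` which vanishes at the point. -/
private theorem ex_factor (T θ : Ω) (hT : Transcendental k T) (P : k[X][Y]) (hP : P ≠ 0)
    (h0 : aevalAeval (R := k) T θ P = 0) :
    ∃ H : k[X][Y], Irreducible H ∧ 1 ≤ H.natDegree ∧ H ∣ P ∧ aevalAeval (R := k) T θ H = 0 := by
  classical
  obtain ⟨u, hu⟩ := UniqueFactorizationMonoid.factors_prod hP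
  have h1 : aevalAeval (R := k) T θ (UniqueFactorizationMonoid.factors P).prod = 0 := by
    have h2 : aevalAeval (R := k) T θ ((UniqueFactorizationMonoid.factors P).prod * u) = 0 := by
      rw [hu, h0]
    rw [map_mul] at h2
    exact (mul_eq_zero.mp h2).resolve_right (IsUnit.map _ u.isUnit).ne_zero
  rw [map_multiset_prod, Multiset.prod_eq_zero_iff, Multiset.mem_map] at h1
  obtain ⟨H, hH, hH0⟩ := h1
  have hirr := UniqueFactorizationMonoid.irreducible_of_factor H hH
  refine ⟨H, hirr, ?_, UniqueFactorizationMonoid.dvd_of_mem_factors hH, hH0⟩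
  by_contra hcon
  have h3 : H.natDegree = 0 := by omega
  rw [eq_C_of_natDegree_eq_zero h3, aevalAeval_C] at hH0
  have h4 : H.coeff 0 ≠ 0 := by
    intro h5
    apply hirr.ne_zero
    rw [eq_C_of_natDegree_eq_zero h3, h5, C_0]
  exact h4 (by_contra fun h6 => hT ⟨_, h6, hH0⟩)

private theorem adj_eq (T θ : Ω) : (adjoin k⟮T⟯ ({T, θ} : Set Ω)) = k⟮T⟯⟮θ⟯ := by
  apply le_antisymm
  · rw [adjoin_le_iff]
    rintro x hx
    rcases hx with rfl | hx
    · exact (k⟮x⟯⟮θ⟯).algebraMap_mem (AdjoinSimple.gen k x)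
    · rw [Set.mem_singleton_iff.mp hx]
      exact mem_adjoin_simple_self _ _
  · exact adjoin.mono _ _ _ (by simp)

private theorem res_eq (T θ : Ω) : (k⟮T⟯⟮θ⟯).restrictScalars k = adjoin k {T, θ} := by
  have hle : k⟮T⟯ ≤ adjoin k {T, θ} := adjoin.mono k _ _ (by simp)
  rw [← adj_eq, ← extendScalars_adjoin hle, extendScalars_restrictScalars]

private theorem fin_eq (T θ : Ω) (hT : Transcendental k T) (G : k[X][Y]) (hG : Irreducible G)
    (h1 : 1 ≤ G.natDegree) (h0 : aevalAeval (R := k) T θ G = 0) :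
    Module.finrank k⟮T⟯ k⟮T⟯⟮θ⟯ = G.natDegree := by
  have hle : k⟮T⟯ ≤ adjoin k {T, θ} := adjoin.mono k _ _ (by simp)
  have h := relfin_irred T θ hT G hG h1 h0
  rwa [relfinrank_eq_finrank_of_le hle, extendScalars_adjoin hle, adj_eq] at h

/-- The number of exceptional primes. -/
private theorem exc_card (T θ : Ω) (hT : Transcendental k T) (G : k[X][Y]) (hG : Irreducible G)
    (h1 : 1 ≤ G.natDegree) (h0 : aevalAeval (R := k) T θ G = 0) (S : Finset ℕ)
    (hS : ∀ q ∈ S, q.Prime ∧ θ ∉ k⟮T⟯⟮θ ^ q⟯) : S.card ≤ Nat.log 2 G.natDegree := by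
  have hfin := fin_eq T θ hT G hG h1 h0
  have hfd : FiniteDimensional k⟮T⟯ k⟮T⟯⟮θ⟯ := FiniteDimensional.of_finrank_pos (by omega)
  have hint : IsIntegral k⟮T⟯ θ := by
    have h2 : IsIntegral k⟮T⟯ (AdjoinSimple.gen k⟮T⟯ θ) := IsIntegral.of_finite _ _
    have h3 : IsIntegral k⟮T⟯ ((k⟮T⟯⟮θ⟯).val (AdjoinSimple.gen k⟮T⟯ θ)) := h2.map (k⟮T⟯⟮θ⟯).val
    exact h3
  have h3 := exc θ hint S hS
  rw [hfin] at h3
  exact Nat.le_log_of_pow_le (by norm_num) h3

/-- The degree over the field of the `l`-th powers for a nonexceptional prime. -/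
private theorem relfin_le (T θ : Ω) (l : ℕ) (hl : 1 ≤ l) (hθ : θ ∈ k⟮T⟯⟮θ ^ l⟯) :
    relfinrank (adjoin k {T ^ l, θ ^ l}) (adjoin k {T, θ}) ≤ l := by
  have e2 : adjoin k {T ^ l, θ ^ l} ≤ adjoin k {T, θ} := by
    rw [adjoin_le_iff]
    rintro x hx
    rcases hx with rfl | hx
    · exact pow_mem (subset_adjoin k _ (by simp)) l
    · rw [Set.mem_singleton_iff.mp hx]
      exact pow_mem (subset_adjoin k _ (by simp)) l
  rw [relfinrank_eq_finrank_of_le e2, extendScalars_adjoin e2]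
  have h1 : adjoin (adjoin k ({T ^ l, θ ^ l} : Set Ω)) ({T, θ} : Set Ω) =
      (adjoin k ({T ^ l, θ ^ l} : Set Ω))⟮T⟯ := by
    apply le_antisymm
    · rw [adjoin_le_iff]
      rintro x hx
      rcases hx with rfl | hx
      · exact mem_adjoin_simple_self _ _
      · rw [Set.mem_singleton_iff.mp hx]
        have h2 : θ ∈ adjoin k ({T, θ ^ l} : Set Ω) := by
          rw [← res_eq]
          exact hθ
        have h3 : adjoin k ({T, θ ^ l} : Set Ω) ≤
            ((adjoin k ({T ^ l, θ ^ l} : Set Ω))⟮T⟯).restrictScalars k := by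
          rw [adjoin_le_iff]
          rintro y hy
          rcases hy with rfl | hy
          · exact mem_adjoin_simple_self (adjoin k ({y ^ l, θ ^ l} : Set Ω)) y
          · rw [Set.mem_singleton_iff.mp hy]
            exact ((adjoin k ({T ^ l, θ ^ l} : Set Ω))⟮T⟯).algebraMap_mem
              ⟨θ ^ l, subset_adjoin k _ (by simp)⟩
        exact h3 h2
    · exact adjoin.mono _ _ _ (by simp)
  rw [h1]
  let F := adjoin k ({T ^ l, θ ^ l} : Set Ω)
  have hroot : aeval T ((X : F[X]) ^ l - C (⟨T ^ l, subset_adjoin k _ (by simp)⟩ : F)) = 0 := by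
    rw [map_sub, map_pow, aeval_X, aeval_C]
    exact sub_self _
  have hmon : ((X : F[X]) ^ l - C (⟨T ^ l, subset_adjoin k _ (by simp)⟩ : F)).Monic :=
    monic_X_pow_sub_C _ (by omega)
  have hint : IsIntegral F T := ⟨_, hmon, by rw [← aeval_def]; exact hroot⟩
  change Module.finrank F F⟮T⟯ ≤ l
  rw [adjoin.finrank hint]
  have h4 := natDegree_le_of_dvd (minpoly.dvd F T hroot) hmon.ne_zero
  rwa [natDegree_X_pow_sub_C] at h4

private theorem tw_equiv (σ : k →+* k) (hσ : Function.Bijective σ) :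
    ∃ e : k[X][Y] ≃+* k[X][Y], ∀ P, e P = tw σ P := by
  refine ⟨Polynomial.mapEquiv (Polynomial.mapEquiv (RingEquiv.ofBijective σ hσ)), fun P => ?_⟩
  rfl

theorem two_primesA (T θ : Ω) (hT : Transcendental k T) (G : k[X][Y]) (hG : Irreducible G)
    (h1 : 1 ≤ G.natDegree) (h0 : aevalAeval (R := k) T θ G = 0) (σ : ℕ → (k →+* k))
    (P : k[X][Y]) (hP : P ≠ 0) (hPd : P.natDegree < 17 * (G.natDegree + 1)) (ℛ : Finset ℕ)
    (hℛ : ∀ l ∈ ℛ, l.Prime ∧ Function.Bijective (σ l) ∧ G ∣ ex l (tw (σ l) P))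
    (hc : 35 + Nat.log 2 G.natDegree ≤ ℛ.card) :
    ∃ l ∈ ℛ, ∃ l' ∈ ℛ, l ≠ l' ∧ ∃ H : k[X][Y], Irreducible H ∧ 1 ≤ H.natDegree ∧
      aevalAeval (R := k) (T ^ l) (θ ^ l) (tw (σ l) H) = 0 ∧
      aevalAeval (R := k) (T ^ l') (θ ^ l') (tw (σ l') H) = 0 := by
  classical
  have hex : ∀ l ∈ ℛ, ∃ H : k[X][Y], Irreducible H ∧ 1 ≤ H.natDegree ∧ H ∣ P ∧
      aevalAeval (R := k) (T ^ l) (θ ^ l) (tw (σ l) H) = 0 ∧ Irreducible (tw (σ l) H) := by
    intro l hl
    obtain ⟨hlp, hσ, Q, hQ⟩ := hℛ l hl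
    obtain ⟨e, he⟩ := tw_equiv (σ l) hσ
    obtain ⟨H', g1, g2, g3, g4⟩ := ex_factor (T ^ l) (θ ^ l) (hT.pow hlp.pos) (tw (σ l) P)
      (tw_ne_zero (σ l) P hP) (by rw [← ex_eval, hQ, map_mul, h0, zero_mul])
    have g5 : tw (σ l) (e.symm H') = H' := by
      rw [← he, e.apply_symm_apply]
    refine ⟨e.symm H', ?_, ?_, ?_, ?_, ?_⟩
    · exact (MulEquiv.irreducible_iff e.symm).2 g1
    · rw [← natDegree_tw (σ l), g5]
      exact g2
    · obtain ⟨R, hR⟩ := g3
      refine ⟨e.symm R, ?_⟩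
      apply e.injective
      rw [map_mul, e.apply_symm_apply, e.apply_symm_apply, he, hR]
    · rw [g5]
      exact g4
    · rw [g5]
      exact g1
  choose! H hH1 hH2 hH3 hH4 hH5 using hex
  let S := ℛ.filter fun l => θ ∉ k⟮T⟯⟮θ ^ l⟯
  let N := ℛ.filter fun l => ¬ (θ ∉ k⟮T⟯⟮θ ^ l⟯)
  have hSN : S.card + N.card = ℛ.card := Finset.card_filter_add_card_filter_not _
  have hS : S.card ≤ Nat.log 2 G.natDegree := by
    refine exc_card T θ hT G hG h1 h0 S fun q hq => ?_
    obtain ⟨hq1, hq2⟩ := Finset.mem_filter.mp hq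
    exact ⟨(hℛ q hq1).1, hq2⟩
  have hN : 35 ≤ N.card := by omega
  have hdeg : ∀ l ∈ N, G.natDegree ≤ (H l).natDegree := by
    intro l hl
    obtain ⟨hl1, hl2⟩ := Finset.mem_filter.mp hl
    have hlp := (hℛ l hl1).1
    have ht := tower T θ hT G hG h1 h0 l hlp.one_lt.le (tw (σ l) (H l)) (hH5 l hl1)
      (by rw [natDegree_tw]; exact hH2 l hl1) (hH4 l hl1)
    rw [natDegree_tw] at ht
    have hr := relfin_le T θ l hlp.one_lt.le (not_not.mp hl2)
    have h5 : l * G.natDegree ≤ l * (H l).natDegree := by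
      rw [← ht]
      exact Nat.mul_le_mul_right _ hr
    exact Nat.le_of_mul_le_mul_left h5 hlp.pos
  by_contra hcon
  push Not at hcon
  have hpair : (N : Set ℕ).Pairwise (Function.onFun IsRelPrime H) := by
    intro l hl l' hl' hne
    have hl1 := (Finset.mem_filter.mp hl).1
    have hl1' := (Finset.mem_filter.mp hl').1
    change IsRelPrime (H l) (H l')
    rw [(hH1 l hl1).isRelPrime_iff_not_dvd]
    intro hdvd
    obtain ⟨u, hu⟩ := (hH1 l hl1).associated_of_dvd (hH1 l' hl1') hdvd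
    refine hcon l hl1 l' hl1' hne (H l) (hH1 l hl1) (hH2 l hl1) (hH4 l hl1) ?_
    have h6 := hH4 l' hl1'
    rw [← hu, map_mul, map_mul] at h6
    have hu2 : IsUnit (tw (σ l') (u : k[X][Y])) := u.isUnit.map (tw (σ l'))
    have hu3 : IsUnit (aevalAeval (R := k) (T ^ l') (θ ^ l') (tw (σ l') (u : k[X][Y]))) :=
      hu2.map (aevalAeval (R := k) (T ^ l') (θ ^ l'))
    exact (mul_eq_zero.mp h6).resolve_right hu3.ne_zero
  have hprod : (∏ l ∈ N, H l) ∣ P :=
    Finset.prod_dvd_of_isRelPrime hpair fun l hl => hH3 l (Finset.mem_filter.mp hl).1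
  have h7 := natDegree_le_of_dvd hprod hP
  rw [natDegree_prod _ _ fun l hl => (hH1 l (Finset.mem_filter.mp hl).1).ne_zero] at h7
  change ∑ l ∈ N, (H l).natDegree ≤ P.natDegree at h7
  have h8 : N.card * G.natDegree ≤ ∑ l ∈ N, (H l).natDegree := by
    have := Finset.card_nsmul_le_sum N (fun l => (H l).natDegree) G.natDegree hdeg
    simpa using this
  have h9 : 35 * G.natDegree ≤ N.card * G.natDegree := Nat.mul_le_mul_right _ hN
  omega

end Pool.Agent.H36.LF
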