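import Mathlib

/-!
# THEOREM L, version 2 (MP_187c26_nt), descent: the local inequality

PROOFS. `npow`: `w` is nonarchimedean (`FinitePlace.add_le`, `w (n) ≤ 1` for integers `n`). Induction on the finite set: `(u + v)^q - u^q - v^q = ∑_(0<k<q) (q choose k) u^k v^(q-k)` (`add_pow`), `q` divides the binomial coefficient (`Nat.Prime.dvd_choose_self`), so every term has value at most `w(q) B^q`; here `u = y i`, `v` = the sum of
the others, `w(v) ≤ B`.
`loc_desc`: if `w(q) = 1` (`w(q) ≤ 1` always) it is trivial: `w(β^q - a_j^q) ≤ max(w β, w a_j)^q ≤ max(1, w β)^q max(1, w a_j)^q`. Let `w(q) < 1`, `i₀` with `w(u_(i₀)) = 1`, `B := max(1, w β)^d`. `w(u'_i) ≤ 1` (`w(u'_i^q) ≤ max(w(u_i^q), w(q)) ≤ 1`). For `z := ζ^k β` (`z^q = β^q`, `w(ζ) = 1`) put `f(z) := ∑ u_i z^i`: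
`f(z)^q ≡ ∑ u_i^q β^(qi)` modulo `w ≤ w(q) B^q` (`npow`), `∑ u_i^q β^(qi) ≡ ∑ u'_i^q β^(qi)` (`hs`), `∑ u'_i^q β^(qi) ≡ (∑ u'_i β^i)^q = 0` (`npow`). So `w(f(z))^q ≤ w(q) B^q`. Product over `k < q`: `(∏_k w(f(ζ^k β)))^q ≤ (w(q) B^q)^q`, so `∏_k w(f(ζ^k β)) ≤ w(q) B^q = w(q) max(1, w β)^(qd)`.
`f(z) = lam ∑ c_i z^i = lam ∏_j (z - a_j)` (`hpol` evaluated), and `∏_(k<q) (ζ^k β - a_j) = ± (β^q - a_j^q)` (`IsPrimitiveRoot.pow_sub_pow_eq_prod_sub_mul`; see `db_prod_root` in `Pool/Agent/H72/BE/DesB.lean`). So `w(lam)^q ∏_j w(β^q - a_j^q) ≤ w(q) max(1, w β)^(qd)`. Finally `1 = w(u_(i₀)) = w(lam) w(c_(i₀))` and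
`w(c_i) ≤ ∏_j max(1, w a_j)` for all `i` (the coefficients of `∏ (X - a_j)`: induction on the number of factors, or `Multiset`/`Finset.prod_X_sub_C_coeff`, elementary symmetric functions), so `w(lam)^(-q) ≤ ∏_j max(1, w a_j)^q`.
-/

set_option autoImplicit false

open Polynomial NumberField

namespace Pool.Agent.H36.LF

private theorem w_nat {N : Type} [Field N] [NumberField N] (w : FinitePlace N) (n : ℕ) :
    w (n : N) ≤ 1 := by
  induction n with
  | zero => rw [Nat.cast_zero, map_zero]; exact zero_le_one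
  | succ n ih =>
    rw [Nat.cast_add, Nat.cast_one]
    refine (FinitePlace.add_le w _ _).trans ?_
    rw [map_one]
    exact max_le ih le_rfl

private theorem w_neg {N : Type} [Field N] [NumberField N] (w : FinitePlace N) (x : N) :
    w (-x) = w x := by
  have h1 : w (-1 : N) = 1 := by
    have h2 : w (-1 : N) * w (-1 : N) = 1 := by
      rw [← map_mul, neg_one_mul, neg_neg, map_one]
    nlinarith [apply_nonneg w (-1 : N)]
  rw [← neg_one_mul, map_mul, h1, one_mul]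

private theorem w_sub {N : Type} [Field N] [NumberField N] (w : FinitePlace N) {x y : N} {c : ℝ}
    (hx : w x ≤ c) (hy : w y ≤ c) : w (x - y) ≤ c := by
  rw [sub_eq_add_neg]
  refine (FinitePlace.add_le w _ _).trans (max_le hx ?_)
  rw [w_neg]
  exact hy

private theorem w_add {N : Type} [Field N] [NumberField N] (w : FinitePlace N) {x y : N} {c : ℝ}
    (hx : w x ≤ c) (hy : w y ≤ c) : w (x + y) ≤ c :=
  (FinitePlace.add_le w _ _).trans (max_le hx hy)

private theorem w_sum {N : Type} [Field N] [NumberField N] (w : FinitePlace N) {ι : Type}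
    (s : Finset ι) (y : ι → N) (c : ℝ) (hc : 0 ≤ c) (h : ∀ i ∈ s, w (y i) ≤ c) :
    w (∑ i ∈ s, y i) ≤ c := by
  classical
  induction s using Finset.induction_on with
  | empty => rw [Finset.sum_empty, map_zero]; exact hc
  | insert a s ha ih =>
    rw [Finset.sum_insert ha]
    exact w_add w (h a (Finset.mem_insert_self _ _))
      (ih fun i hi => h i (Finset.mem_insert_of_mem hi))

private theorem w_two {N : Type} [Field N] [NumberField N] (w : FinitePlace N) (q : ℕ)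
    (hq : q.Prime) (u v : N) (B : ℝ) (hB : 0 ≤ B) (hu : w u ≤ B) (hv : w v ≤ B) :
    w ((u + v) ^ q - u ^ q - v ^ q) ≤ w (q : N) * B ^ q := by
  have h1 : (u + v) ^ q - u ^ q - v ^ q =
      ∑ k ∈ (Finset.range (q + 1)).erase q |>.erase 0, u ^ k * v ^ (q - k) * (q.choose k : N) := by
    have h2 : (q : ℕ) ∈ Finset.range (q + 1) := Finset.mem_range.2 (Nat.lt_succ_self q)
    have h3 : (0 : ℕ) ∈ (Finset.range (q + 1)).erase q :=
      Finset.mem_erase.2 ⟨hq.ne_zero.symm, Finset.mem_range.2 (Nat.succ_pos q)⟩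
    rw [add_pow, ← Finset.add_sum_erase _ _ h2, ← Finset.add_sum_erase _ _ h3, Nat.choose_self,
      Nat.choose_zero_right, Nat.sub_self, pow_zero, pow_zero, Nat.sub_zero, Nat.cast_one]
    ring
  rw [h1]
  refine w_sum w _ _ _ (mul_nonneg (apply_nonneg w _) (pow_nonneg hB q)) fun k hk => ?_
  rw [Finset.mem_erase, Finset.mem_erase, Finset.mem_range] at hk
  have hkq : k < q := by omega
  obtain ⟨c, hc⟩ := hq.dvd_choose_self hk.1 hkq
  have h4 : w ((q.choose k : ℕ) : N) ≤ w (q : N) := by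
    rw [hc, Nat.cast_mul, map_mul]
    exact mul_le_of_le_one_right (apply_nonneg w _) (w_nat w c)
  have h5 : w u ^ k * w v ^ (q - k) ≤ B ^ q := by
    have h6 : B ^ q = B ^ k * B ^ (q - k) := by
      rw [← pow_add, Nat.add_sub_cancel' hkq.le]
    rw [h6]
    exact mul_le_mul (pow_le_pow_left₀ (apply_nonneg w _) hu k)
      (pow_le_pow_left₀ (apply_nonneg w _) hv (q - k)) (pow_nonneg (apply_nonneg w _) _)
      (pow_nonneg hB _)
  rw [map_mul, map_mul, map_pow, map_pow, mul_comm]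
  exact mul_le_mul h4 h5 (mul_nonneg (pow_nonneg (apply_nonneg w _) _)
    (pow_nonneg (apply_nonneg w _) _)) (apply_nonneg w _)

theorem npow {N : Type} [Field N] [NumberField N] (w : FinitePlace N) (q : ℕ) (hq : q.Prime)
    {ι : Type} (s : Finset ι) (y : ι → N) (B : ℝ) (hB : 0 ≤ B) (hy : ∀ i ∈ s, w (y i) ≤ B) :
    w ((∑ i ∈ s, y i) ^ q - ∑ i ∈ s, y i ^ q) ≤ w (q : N) * B ^ q := by
  classical
  induction s using Finset.induction_on with
  | empty =>
    rw [Finset.sum_empty, Finset.sum_empty, zero_pow hq.ne_zero, sub_zero, map_zero]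
    exact mul_nonneg (apply_nonneg w _) (pow_nonneg hB q)
  | insert a s ha ih =>
    have h1 := ih fun i hi => hy i (Finset.mem_insert_of_mem hi)
    have h2 := w_two w q hq (y a) (∑ i ∈ s, y i) B hB (hy a (Finset.mem_insert_self _ _))
      (w_sum w s y B hB fun i hi => hy i (Finset.mem_insert_of_mem hi))
    rw [Finset.sum_insert ha, Finset.sum_insert ha]
    have h3 : (y a + ∑ i ∈ s, y i) ^ q - (y a ^ q + ∑ i ∈ s, y i ^ q) =
        ((y a + ∑ i ∈ s, y i) ^ q - y a ^ q - (∑ i ∈ s, y i) ^ q) +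
          ((∑ i ∈ s, y i) ^ q - ∑ i ∈ s, y i ^ q) := by ring
    rw [h3]
    exact w_add w h2 h1

private theorem w_coeff {N : Type} [Field N] [NumberField N] (w : FinitePlace N) {ι : Type}
    (s : Finset ι) (a : ι → N) :
    ∀ n, w ((∏ j ∈ s, (X - C (a j))).coeff n) ≤ ∏ j ∈ s, max 1 (w (a j)) := by
  classical
  induction s using Finset.induction_on with
  | empty =>
    intro n
    rw [Finset.prod_empty, Finset.prod_empty, coeff_one]
    split_ifs
    · rw [map_one]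
    · rw [map_zero]
      exact zero_le_one
  | insert b s hb ih =>
    intro n
    rw [Finset.prod_insert hb, Finset.prod_insert hb]
    have hM : 0 ≤ ∏ j ∈ s, max 1 (w (a j)) :=
      Finset.prod_nonneg fun j _ => zero_le_one.trans (le_max_left _ _)
    have h1 : w (a b * (∏ j ∈ s, (X - C (a j))).coeff n) ≤
        max 1 (w (a b)) * ∏ j ∈ s, max 1 (w (a j)) := by
      rw [map_mul]
      exact mul_le_mul (le_max_right _ _) (ih n) (apply_nonneg w _)
        (zero_le_one.trans (le_max_left _ _))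
    cases n with
    | zero =>
      rw [sub_mul, coeff_sub, coeff_X_mul_zero, coeff_C_mul, zero_sub, w_neg]
      exact h1
    | succ n =>
      rw [sub_mul, coeff_sub, coeff_X_mul, coeff_C_mul]
      refine w_sub w ((ih n).trans ?_) h1
      exact le_mul_of_one_le_left hM (le_max_left _ _)

private theorem prod_root {N : Type} [Field N] (q : ℕ) (hq : 0 < q) (ζ : N)
    (hζ : IsPrimitiveRoot ζ q) (x y : N) :
    ∏ k ∈ Finset.range q, (x - ζ ^ k * y) = x ^ q - y ^ q := by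
  classical
  rw [hζ.pow_sub_pow_eq_prod_sub_mul x y hq]
  have himg : (Finset.range q).image (fun k => ζ ^ k) = nthRootsFinset q (1 : N) := by
    refine Finset.eq_of_subset_of_card_le ?_ ?_
    · intro z hz
      rw [Finset.mem_image] at hz
      obtain ⟨k, _, rfl⟩ := hz
      rw [mem_nthRootsFinset hq, ← pow_mul, mul_comm, pow_mul, hζ.pow_eq_one, one_pow]
    · rw [hζ.card_nthRootsFinset, Finset.card_image_of_injOn, Finset.card_range]
      intro i hi j hj hij
      simp only [Finset.coe_range, Set.mem_Iio] at hi hj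
      exact hζ.pow_inj hi hj hij
  rw [← himg, Finset.prod_image]
  intro i hi j hj hij
  simp only [Finset.coe_range, Set.mem_Iio] at hi hj
  exact hζ.pow_inj hi hj hij

theorem loc_desc {N : Type} [Field N] [NumberField N] (w : FinitePlace N) (q : ℕ) (hq : q.Prime)
    (d : ℕ) (lam : N) (hlam : lam ≠ 0) (c u u' : Fin (d + 1) → N)
    (hu : ∀ i, u i = lam * c i) (hu1 : ∀ i, w (u i) ≤ 1)
    (hcont : w (q : N) < 1 → ∃ i, w (u i) = 1)
    (hs : ∀ i, w (u' i ^ q - u i ^ q) ≤ w (q : N))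
    (β : N) (hβ : ∑ i, u' i * β ^ (i : ℕ) = 0)
    (a : Fin d → N) (hpol : ∏ j, (X - C (a j)) = ∑ i : Fin (d + 1), C (c i) * X ^ (i : ℕ))
    (ζ : N) (hζ : IsPrimitiveRoot ζ q) :
    ∏ j, w (β ^ q - a j ^ q) ≤
      w (q : N) * max 1 (w β) ^ (q * d) * ∏ j, max 1 (w (a j)) ^ q := by
  classical
  have hq1 : w (q : N) ≤ 1 := w_nat w q
  have hb1 : (1 : ℝ) ≤ max 1 (w β) := le_max_left _ _
  have hb0 : (0 : ℝ) ≤ max 1 (w β) := zero_le_one.trans hb1
  have hwq : ∀ x : N, w (x ^ q) = w x ^ q := fun x => map_pow w x q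
  rcases hq1.lt_or_eq with hlt | heq
  swap
  · rw [heq, one_mul]
    have h1 : max 1 (w β) ^ (q * d) = ∏ _j : Fin d, max 1 (w β) ^ q := by
      rw [Finset.prod_const, Finset.card_univ, Fintype.card_fin, pow_mul]
    rw [h1, ← Finset.prod_mul_distrib]
    refine Finset.prod_le_prod (fun j _ => apply_nonneg w _) fun j _ => ?_
    have h2 : (1 : ℝ) ≤ max 1 (w (a j)) := le_max_left _ _
    refine w_sub w ?_ ?_
    · rw [hwq]
      calc w β ^ q ≤ max 1 (w β) ^ q := pow_le_pow_left₀ (apply_nonneg w _) (le_max_right _ _) q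
        _ ≤ max 1 (w β) ^ q * max 1 (w (a j)) ^ q :=
          le_mul_of_one_le_right (pow_nonneg hb0 q) (one_le_pow₀ h2)
    · rw [hwq]
      calc w (a j) ^ q ≤ max 1 (w (a j)) ^ q :=
            pow_le_pow_left₀ (apply_nonneg w _) (le_max_right _ _) q
        _ ≤ max 1 (w β) ^ q * max 1 (w (a j)) ^ q :=
          le_mul_of_one_le_left (pow_nonneg (zero_le_one.trans h2) q) (one_le_pow₀ hb1)
  obtain ⟨i₀, hi₀⟩ := hcont hlt
  obtain ⟨B, hB⟩ : ∃ B : ℝ, B = max 1 (w β) ^ d := ⟨_, rfl⟩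
  have hB0 : 0 ≤ B := by
    rw [hB]
    exact pow_nonneg hb0 d
  have hε : 0 ≤ w (q : N) * B ^ q := mul_nonneg (apply_nonneg w _) (pow_nonneg hB0 q)
  have hu'1 : ∀ i, w (u' i) ≤ 1 := by
    intro i
    have h1 : w (u' i) ^ q ≤ 1 := by
      rw [← hwq]
      have h2 : u' i ^ q = (u' i ^ q - u i ^ q) + u i ^ q := by ring
      rw [h2]
      refine w_add w ((hs i).trans hq1) ?_
      rw [hwq]
      exact pow_le_one₀ (apply_nonneg w _) (hu1 i)
    exact (pow_le_one_iff_of_nonneg (apply_nonneg w _) hq.ne_zero).1 h1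
  have hwζ : w ζ = 1 := by
    have h1 : w ζ ^ q = 1 := by
      rw [← hwq, hζ.pow_eq_one, map_one]
    exact (pow_eq_one_iff_of_nonneg (apply_nonneg w _) hq.ne_zero).1 h1
  -- monomials
  have hmon : ∀ (v z : N), w v ≤ 1 → w z = w β → ∀ i : Fin (d + 1), w (v * z ^ (i : ℕ)) ≤ B := by
    intro v z hv hz i
    rw [map_mul, map_pow, hz, hB]
    have h1 : w β ^ (i : ℕ) ≤ max 1 (w β) ^ d :=
      (pow_le_pow_left₀ (apply_nonneg w _) (le_max_right _ _) _).trans
        (pow_le_pow_right₀ hb1 (Nat.lt_succ_iff.1 i.2))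
    calc w v * w β ^ (i : ℕ) ≤ 1 * w β ^ (i : ℕ) :=
          mul_le_mul_of_nonneg_right hv (pow_nonneg (apply_nonneg w _) _)
      _ ≤ max 1 (w β) ^ d := by rw [one_mul]; exact h1
  have hS' : w (∑ i, (u' i * β ^ (i : ℕ)) ^ q) ≤ w (q : N) * B ^ q := by
    have h1 := npow w q hq Finset.univ (fun i : Fin (d + 1) => u' i * β ^ (i : ℕ)) B hB0
      (fun i _ => hmon _ _ (hu'1 i) rfl i)
    rw [hβ, zero_pow hq.ne_zero, zero_sub, w_neg] at h1
    exact h1
  have hD : w (∑ i, (u' i * β ^ (i : ℕ)) ^ q - ∑ i, (u i * β ^ (i : ℕ)) ^ q) ≤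
      w (q : N) * B ^ q := by
    rw [← Finset.sum_sub_distrib]
    refine w_sum w _ _ _ hε fun i _ => ?_
    have h1 : (u' i * β ^ (i : ℕ)) ^ q - (u i * β ^ (i : ℕ)) ^ q =
        (u' i ^ q - u i ^ q) * (1 * β ^ (i : ℕ)) ^ q := by
      rw [mul_pow, mul_pow, one_mul]
      ring
    rw [h1, map_mul, hwq (1 * β ^ (i : ℕ))]
    exact mul_le_mul (hs i) (pow_le_pow_left₀ (apply_nonneg w _)
      (hmon 1 β (by rw [map_one]) rfl i) q) (pow_nonneg (apply_nonneg w _) _) (apply_nonneg w _)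
  have hS : w (∑ i, (u i * β ^ (i : ℕ)) ^ q) ≤ w (q : N) * B ^ q := by
    have h1 : ∑ i, (u i * β ^ (i : ℕ)) ^ q = ∑ i, (u' i * β ^ (i : ℕ)) ^ q -
        (∑ i, (u' i * β ^ (i : ℕ)) ^ q - ∑ i, (u i * β ^ (i : ℕ)) ^ q) := by ring
    rw [h1]
    exact w_sub w hS' hD
  have hfz : ∀ k : ℕ, w (∑ i, u i * (ζ ^ k * β) ^ (i : ℕ)) ^ q ≤ w (q : N) * B ^ q := by
    intro k
    have hz : w (ζ ^ k * β) = w β := by
      rw [map_mul, map_pow, hwζ, one_pow, one_mul]
    have h1 := npow w q hq Finset.univ (fun i : Fin (d + 1) => u i * (ζ ^ k * β) ^ (i : ℕ)) B hB0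
      (fun i _ => hmon _ _ (hu1 i) hz i)
    have h2 : ∑ i : Fin (d + 1), (u i * (ζ ^ k * β) ^ (i : ℕ)) ^ q =
        ∑ i, (u i * β ^ (i : ℕ)) ^ q := by
      refine Finset.sum_congr rfl fun i _ => ?_
      have h3 : (ζ ^ k) ^ q = 1 := by
        rw [← pow_mul, mul_comm, pow_mul, hζ.pow_eq_one, one_pow]
      have h4 : ((ζ ^ k * β) ^ (i : ℕ)) ^ q = (β ^ (i : ℕ)) ^ q := by
        rw [pow_right_comm, mul_pow (ζ ^ k) β q, h3, one_mul, pow_right_comm]
      rw [mul_pow (u i), mul_pow (u i), h4]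
    rw [h2] at h1
    rw [← hwq]
    have h5 : (∑ i, u i * (ζ ^ k * β) ^ (i : ℕ)) ^ q =
        ((∑ i, u i * (ζ ^ k * β) ^ (i : ℕ)) ^ q - ∑ i, (u i * β ^ (i : ℕ)) ^ q) +
          ∑ i, (u i * β ^ (i : ℕ)) ^ q := by ring
    rw [h5]
    exact w_add w h1 hS
  have hev : ∀ z : N, ∑ i, u i * z ^ (i : ℕ) = lam * ∏ j, (z - a j) := by
    intro z
    have h1 := congrArg (Polynomial.eval z) hpol
    rw [eval_prod, eval_finsetSum] at h1
    simp only [eval_sub, eval_X, eval_C, eval_mul, eval_pow] at h1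
    rw [h1, Finset.mul_sum]
    refine Finset.sum_congr rfl fun i _ => ?_
    rw [hu i, mul_assoc]
  obtain ⟨Y, hY⟩ : ∃ Y : ℝ, Y = ∏ j, w (β ^ q - a j ^ q) := ⟨_, rfl⟩
  have hY0 : 0 ≤ Y := by
    rw [hY]
    exact Finset.prod_nonneg fun j _ => apply_nonneg w _
  have hPi : ∏ k ∈ Finset.range q, w (∑ i, u i * (ζ ^ k * β) ^ (i : ℕ)) = w lam ^ q * Y := by
    have h1 : ∀ k ∈ Finset.range q, w (∑ i, u i * (ζ ^ k * β) ^ (i : ℕ)) =
        w lam * ∏ j, w (a j - ζ ^ k * β) := by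
      intro k _
      rw [hev, map_mul, map_prod]
      congr 1
      refine Finset.prod_congr rfl fun j _ => ?_
      rw [← w_neg, neg_sub]
    rw [Finset.prod_congr rfl h1, Finset.prod_mul_distrib, Finset.prod_const, Finset.card_range,
      Finset.prod_comm, hY]
    congr 1
    refine Finset.prod_congr rfl fun j _ => ?_
    rw [← map_prod, prod_root q hq.pos ζ hζ, ← w_neg, neg_sub]
  have hPi2 : w lam ^ q * Y ≤ w (q : N) * B ^ q := by
    have h1 : (w lam ^ q * Y) ^ q ≤ (w (q : N) * B ^ q) ^ q := by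
      rw [← hPi, ← Finset.prod_pow]
      calc ∏ k ∈ Finset.range q, w (∑ i, u i * (ζ ^ k * β) ^ (i : ℕ)) ^ q
          ≤ ∏ _k ∈ Finset.range q, (w (q : N) * B ^ q) :=
            Finset.prod_le_prod (fun k _ => pow_nonneg (apply_nonneg w _) _) fun k _ => hfz k
        _ = (w (q : N) * B ^ q) ^ q := by rw [Finset.prod_const, Finset.card_range]
    exact (pow_le_pow_iff_left₀ (mul_nonneg (pow_nonneg (apply_nonneg w _) _) hY0) hε
      hq.ne_zero).1 h1
  have hci : w (c i₀) ≤ ∏ j, max 1 (w (a j)) := by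
    have h1 := w_coeff w Finset.univ a (i₀ : ℕ)
    have h2 : (∑ i : Fin (d + 1), C (c i) * X ^ (i : ℕ) : N[X]).coeff (i₀ : ℕ) = c i₀ := by
      rw [finsetSum_coeff, Finset.sum_eq_single i₀]
      · rw [coeff_C_mul_X_pow, if_pos rfl]
      · intro i _ hi
        rw [coeff_C_mul_X_pow, if_neg]
        intro h3
        exact hi (Fin.ext h3.symm)
      · intro h3
        exact absurd (Finset.mem_univ _) h3
    rw [hpol, h2] at h1
    exact h1
  have hprod : w lam * w (c i₀) = 1 := by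
    rw [← map_mul, ← hu, hi₀]
  have hYe : Y = w lam ^ q * Y * w (c i₀) ^ q := by
    have h1 : w lam ^ q * w (c i₀) ^ q = 1 := by rw [← mul_pow, hprod, one_pow]
    calc Y = (w lam ^ q * w (c i₀) ^ q) * Y := by rw [h1, one_mul]
      _ = w lam ^ q * Y * w (c i₀) ^ q := by ring
  rw [← hY, hYe]
  have hBq : B ^ q = max 1 (w β) ^ (q * d) := by
    rw [hB, ← pow_mul, mul_comm]
  have hcq : w (c i₀) ^ q ≤ ∏ j, max 1 (w (a j)) ^ q := by
    rw [Finset.prod_pow]
    exact pow_le_pow_left₀ (apply_nonneg w _) hci q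
  rw [← hBq]
  exact mul_le_mul hPi2 hcq (pow_nonneg (apply_nonneg w _) _) hε

end Pool.Agent.H36.LF
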