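import Pool.Agent.H36.LF.VdA
import Pool.Agent.H69.BE.ClA
import Pool.Agent.H4.RR.AbsHeight
import Pool.Agent.H72.BE.Fin

/-!
# THEOREM L, version 2 (MP_187c26_nt), descent: the height inequality with a polynomial loss

This improves `Pool.Agent.H72.BE.desc_height` (`Pool/Agent/H72/BE/DesB.lean`, hypothesis `2 q d h + d log 2 < log q`). MODEL for the set up (roots, the field `N`, `scaleV`, heights of conjugates): the proof of `desc_height` there. Imports may be sorried (`loc_desc`).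
PROOF. Suppose no such `k` exists. `d ≥ 1`, `f = minpoly F α`, roots `a_1, …, a_d` in `Ω`; `f^s` (coefficients mapped by `s`) has the roots `β_1, …, β_d`, `f^s` is irreducible (`s` is an automorphism), `β` is one of them; all `a_j`, `β_i` are conjugate to `α` over `ℚ`: height `h = h(α)`.
(1) The `2d` numbers `a_j^q`, `β_i^q` are pairwise different. `a_i^q = a_j^q` with `i ≠ j`: `a_i = ζ^k a_j`, `ζ^k ≠ 1` (`f` is separable, `a_i ≠ a_j`, so `a_j ≠ 0`); there is an `F`-automorphism `τ` of `Ω` with `τ a_j = a_i = ζ^k a_j`, so `τ^l a_j = ζ^(kl) a_j` are `q` different roots of `f`: `q ≤ d`, contradiction. The same for the `β_i`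
(`f^s`). `β_i^q = a_j^q`: `a_j = ζ^k β_i`, `f(ζ^k β_i) = 0`; an `F`-automorphism `τ` with `τ β_i = β` gives `f(ζ^k β) = 0`, excluded. (Without automorphisms: `f` and `f(ζ^k X)`, `f^s` and the monic multiple of `f(ζ^k X)` are irreducible, equal if they have a common root.)
(2) `N` = a number field in `Ω` containing `F`, all `a_j`, `β_i`. `v : Fin d ⊕ Fin d → N` (or `Fin (2d)`), `v = a^q, β^q`. `Δ := det (vandermonde v) = ∏_(i<j) (v_j - v_i) ≠ 0` (`Matrix.det_vandermonde`). Embeddings `σ : N → ℂ`: divide the rows by `max(1, |σ v_i|)^(2d-1)`: entries of absolute value `≤ 1`: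
`|σ Δ| ≤ (2d)! ∏_i max(1, |σ v_i|)^(2d-1) ≤ (2d)^(2d) ∏ max(1, |σ a_j|)^(q(2d-1)) ∏ max(1, |σ β_i|)^(q(2d-1))` (`Matrix.det_le`).
(3) Finite places `w`: `w(Δ) = ∏_(i<j) w(a_j^q - a_i^q) ∏_(i<j) w(β_j^q - β_i^q) ∏_i ∏_j w(β_i^q - a_j^q)`; the last part is `≤ w(q)^d ∏_i max(1, w β_i)^(qd) ∏_j max(1, w a_j)^(qd)` (`loc_desc` for every `β_i`, with `lam`, `V` of `scaleV` as in `desc_height`: `u_i = V_i` integral, `u'_i = s(V_i)`, `w(u_i) ≤ 1`, `IsCoprime (q) (V)` gives `hcont`,
`hs`: `s(V)^q - V^q ∈ q 𝓞`), the first two parts are `≤ ∏_j max(1, w a_j)^(q(d-1)) ∏_i max(1, w β_i)^(q(d-1))`. So `w(Δ) ≤ w(q)^d ∏ max(1, w a_j)^(q(2d-1)) ∏ max(1, w β_i)^(q(2d-1))`.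
(4) Product formula (`Pool.Agent.H72.BE.prod_formula`) for `Δ` and for `q`: `1 ≤ (2d)^(2d n) q^(-d n) ∏_j H_N(a_j)^(q(2d-1)) ∏_i H_N(β_i)^(q(2d-1))`, `n = [N : ℚ]`, `H_N = mulHeight₁` (product over all places), `log H_N(y) = n h(y)` (`Pool.Agent.H4.RR.absLogHeight_eq`). So `d log q ≤ 2 d log(2d) + q (2d - 1) (2d) h`, hence
`log q ≤ 2 log(2d) + 4 q d h`: contradiction to `hh`.
-/

set_option autoImplicit false

open NumberField IntermediateField Polynomial

namespace Pool.Agent.H36.LF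

/-- the archimedean bound -/
private theorem arch {n : ℕ} (v : Fin n → ℂ) :
    ‖(Matrix.vandermonde v).det‖ ≤ (n : ℝ) ^ n * ∏ x, max 1 ‖v x‖ ^ (n - 1) := by
  classical
  rw [Matrix.det_apply']
  refine (norm_sum_le _ _).trans ?_
  have h1 : ∀ π ∈ (Finset.univ : Finset (Equiv.Perm (Fin n))),
      ‖(((Equiv.Perm.sign π : ℤˣ) : ℤ) : ℂ) * ∏ i, Matrix.vandermonde v (π i) i‖ ≤
        ∏ x, max 1 ‖v x‖ ^ (n - 1) := by
    intro π _
    have h2 : ‖(((Equiv.Perm.sign π : ℤˣ) : ℤ) : ℂ)‖ = 1 := by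
      rcases Int.units_eq_one_or (Equiv.Perm.sign π) with h | h <;> rw [h] <;> simp
    rw [norm_mul, h2, one_mul, norm_prod, ← Equiv.prod_comp π (fun x => max 1 ‖v x‖ ^ (n - 1))]
    refine Finset.prod_le_prod (fun i _ => norm_nonneg _) fun i _ => ?_
    rw [Matrix.vandermonde_apply, norm_pow]
    have h3 : ‖v (π i)‖ ^ (i : ℕ) ≤ max 1 ‖v (π i)‖ ^ (i : ℕ) :=
      pow_le_pow_left₀ (norm_nonneg _) (le_max_right _ _) _
    exact h3.trans (pow_le_pow_right₀ (le_max_left _ _) (by omega))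
  refine (Finset.sum_le_card_nsmul _ _ _ h1).trans ?_
  rw [Finset.card_univ, Fintype.card_perm, Fintype.card_fin, nsmul_eq_mul]
  refine mul_le_mul_of_nonneg_right ?_ (Finset.prod_nonneg fun x _ => by positivity)
  exact_mod_cast Nat.factorial_le_pow n

private theorem pairs {d : ℕ} (g : Fin d → ℝ) :
    ∏ i, ∏ j ∈ Finset.Ioi i, (g j * g i) = (∏ i, g i) ^ (d - 1) := by
  classical
  have h1 := Finset.prod_prod_Ioi_mul_eq_prod_prod_off_diag (fun _ y : Fin d => g y)
  have h2 : ∏ i, ∏ j ∈ Finset.Ioi i, (g j * g i) = ∏ i, ∏ j ∈ Finset.Ioi i, (g i * g j) :=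
    Finset.prod_congr rfl fun i _ => Finset.prod_congr rfl fun j _ => mul_comm _ _
  rw [h2, h1, ← Finset.prod_pow]
  refine Finset.prod_congr rfl fun i _ => ?_
  rw [Finset.prod_const, Finset.card_compl, Fintype.card_fin, Finset.card_singleton]

/-- the pairs of different indices in two blocks -/
private theorem blocks {d : ℕ} (W : Fin (d + d) → Fin (d + d) → ℝ) (hW0 : ∀ x y, 0 ≤ W x y)
    (A B : Fin d → ℝ) (hA : ∀ i, 0 ≤ A i) (hB : ∀ i, 0 ≤ B i) (κ : ℝ) (hκ : 0 ≤ κ)
    (hAA : ∀ i j, W (Fin.castAdd d i) (Fin.castAdd d j) ≤ A i * A j)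
    (hBB : ∀ i j, W (Fin.natAdd d i) (Fin.natAdd d j) ≤ B i * B j)
    (hAB : ∀ i, ∏ j, W (Fin.natAdd d i) (Fin.castAdd d j) ≤ κ * B i ^ d * ∏ j, A j) :
    ∏ x, ∏ y ∈ Finset.Ioi x, W y x ≤
      κ ^ d * (∏ j, A j) ^ (d + d - 1) * (∏ i, B i) ^ (d + d - 1) := by
  classical
  have hI : ∀ x : Fin (d + d), ∏ y ∈ Finset.Ioi x, W y x = ∏ y, if x < y then W y x else 1 := by
    intro x
    rw [← Finset.prod_filter]
    congr 1
    ext y
    simp
  have hlt : ∀ i j : Fin d, Fin.castAdd d i < Fin.natAdd d j := by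
    intro i j
    rw [Fin.lt_def, Fin.val_castAdd, Fin.val_natAdd]
    omega
  have h1 : ∀ i : Fin d, ∏ y ∈ Finset.Ioi (Fin.castAdd d i), W y (Fin.castAdd d i) =
      (∏ j ∈ Finset.Ioi i, W (Fin.castAdd d j) (Fin.castAdd d i)) *
        ∏ j, W (Fin.natAdd d j) (Fin.castAdd d i) := by
    intro i
    rw [hI, Fin.prod_univ_add]
    congr 1
    · have h2 : Finset.Ioi i = Finset.univ.filter fun j => i < j := by
        ext j
        simp
      rw [h2, Finset.prod_filter]
      refine Finset.prod_congr rfl fun j _ => ?_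
      simp only [Fin.lt_def, Fin.val_castAdd]
    · refine Finset.prod_congr rfl fun j _ => ?_
      rw [if_pos (hlt i j)]
  have h2 : ∀ i : Fin d, ∏ y ∈ Finset.Ioi (Fin.natAdd d i), W y (Fin.natAdd d i) =
      ∏ j ∈ Finset.Ioi i, W (Fin.natAdd d j) (Fin.natAdd d i) := by
    intro i
    rw [hI, Fin.prod_univ_add]
    have h3 : ∏ j : Fin d, (if Fin.natAdd d i < Fin.castAdd d j then
        W (Fin.castAdd d j) (Fin.natAdd d i) else 1) = 1 := by
      refine Finset.prod_eq_one fun j _ => ?_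
      rw [if_neg (not_lt.2 (hlt j i).le)]
    have h4 : Finset.Ioi i = Finset.univ.filter fun j => i < j := by
      ext j
      simp
    rw [h3, one_mul, h4, Finset.prod_filter]
    refine Finset.prod_congr rfl fun j _ => ?_
    simp only [Fin.natAdd_lt_natAdd_iff]
  have hPA : 0 ≤ ∏ j, A j := Finset.prod_nonneg fun j _ => hA j
  have hPB : 0 ≤ ∏ j, B j := Finset.prod_nonneg fun j _ => hB j
  rw [Fin.prod_univ_add, Finset.prod_congr rfl fun i _ => h1 i,
    Finset.prod_congr rfl fun i _ => h2 i, Finset.prod_mul_distrib]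
  have e1 : ∏ i, ∏ j ∈ Finset.Ioi i, W (Fin.castAdd d j) (Fin.castAdd d i) ≤
      (∏ j, A j) ^ (d - 1) := by
    rw [← pairs]
    exact Finset.prod_le_prod (fun i _ => Finset.prod_nonneg fun j _ => hW0 _ _) fun i _ =>
      Finset.prod_le_prod (fun j _ => hW0 _ _) fun j _ => hAA j i
  have e2 : ∏ i, ∏ j ∈ Finset.Ioi i, W (Fin.natAdd d j) (Fin.natAdd d i) ≤
      (∏ j, B j) ^ (d - 1) := by
    rw [← pairs]
    exact Finset.prod_le_prod (fun i _ => Finset.prod_nonneg fun j _ => hW0 _ _) fun i _ =>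
      Finset.prod_le_prod (fun j _ => hW0 _ _) fun j _ => hBB j i
  have e3 : ∏ i, ∏ j, W (Fin.natAdd d j) (Fin.castAdd d i) ≤
      κ ^ d * (∏ i, B i) ^ d * (∏ j, A j) ^ d := by
    rw [Finset.prod_comm]
    have e4 : ∏ i : Fin d, (κ * B i ^ d * ∏ j, A j) = κ ^ d * (∏ i, B i) ^ d * (∏ j, A j) ^ d := by
      rw [Finset.prod_mul_distrib, Finset.prod_mul_distrib, Finset.prod_const, Finset.prod_const,
        Finset.card_univ, Fintype.card_fin, Finset.prod_pow]
    rw [← e4]
    exact Finset.prod_le_prod (fun i _ => Finset.prod_nonneg fun j _ => hW0 _ _) fun i _ => hAB i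
  have n1 : 0 ≤ ∏ i, ∏ j ∈ Finset.Ioi i, W (Fin.natAdd d j) (Fin.natAdd d i) :=
    Finset.prod_nonneg fun i _ => Finset.prod_nonneg fun j _ => hW0 _ _
  have n2 : 0 ≤ ∏ i, ∏ j, W (Fin.natAdd d j) (Fin.castAdd d i) :=
    Finset.prod_nonneg fun i _ => Finset.prod_nonneg fun j _ => hW0 _ _
  refine (mul_le_mul (mul_le_mul e1 e3 n2 (by positivity)) e2 n1 (by positivity)).trans
    (le_of_eq ?_)
  rcases Nat.eq_zero_or_pos d with hd | hd
  · subst hd
    simp
  · obtain ⟨c, rfl⟩ : ∃ c, d = c + 1 := ⟨d - 1, by omega⟩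
    have e5 : c + 1 + (c + 1) - 1 = c + (c + 1) := by omega
    rw [e5, Nat.add_sub_cancel, pow_add (∏ j, A j), pow_add (∏ j, B j)]
    ring

private theorem h1_eq {N : Type} [Field N] [NumberField N] (x : N) :
    Height.mulHeight₁ x = (∏ σ : N →+* ℂ, max 1 ‖σ x‖) * ∏ᶠ w : FinitePlace N, max 1 (w x) := by
  classical
  have h1 : (∏ t : N →+* ℂ, max 1 ‖t x‖) = ∏ w : InfinitePlace N, max (w x) 1 ^ w.mult := by
    rw [← Finset.prod_fiberwise Finset.univ InfinitePlace.mk (fun φ : N →+* ℂ => max 1 ‖φ x‖)]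
    refine Finset.prod_congr rfl fun w _ => ?_
    have h2 : ∀ φ ∈ Finset.univ.filter (fun φ : N →+* ℂ => InfinitePlace.mk φ = w),
        max 1 ‖φ x‖ = max (w x) 1 := by
      intro φ hφ
      rw [← (Finset.mem_filter.mp hφ).2, InfinitePlace.apply, max_comm]
    rw [Finset.prod_congr rfl h2, Finset.prod_const, InfinitePlace.card_filter_mk_eq]
  rw [NumberField.mulHeight₁_eq, h1]
  congr 1
  exact finprod_congr fun w => max_comm _ _

private theorem sup_w {N : Type} [Field N] [NumberField N] (x : N) (hx : x ≠ 0) :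
    ∃ T : Finset (FinitePlace N), ∀ w ∉ T, w x = 1 := by
  have h : (Function.mulSupport fun w : FinitePlace N => w x).Finite :=
    FinitePlace.hasFiniteMulSupport hx
  refine ⟨h.toFinset, fun w hw => ?_⟩
  by_contra hne
  exact hw (h.mem_toFinset.2 hne)

private theorem sup_m {N : Type} [Field N] [NumberField N] (x : N) :
    ∃ T : Finset (FinitePlace N), ∀ w ∉ T, max 1 (w x) = 1 := by
  by_cases hx : x = 0
  · refine ⟨∅, fun w _ => ?_⟩
    rw [hx, map_zero]
    exact max_eq_left zero_le_one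
  · obtain ⟨T, hT⟩ := sup_w x hx
    exact ⟨T, fun w hw => by rw [hT w hw, max_self]⟩

private theorem max_pow' (t : ℝ) (ht : 0 ≤ t) (q : ℕ) : max 1 (t ^ q) = max 1 t ^ q := by
  rcases le_total 1 t with h | h
  · rw [max_eq_right h, max_eq_right (one_le_pow₀ h)]
  · rw [max_eq_left h, max_eq_left (pow_le_one₀ ht h), one_pow]

private theorem w_sub {N : Type} [Field N] [NumberField N] (w : FinitePlace N) (x y : N) :
    w (x - y) ≤ max (w x) (w y) := by
  have h1 := FinitePlace.add_le w x (-y)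
  have h2 : w (-y) = w y := AbsoluteValue.map_neg w.1 y
  rwa [← sub_eq_add_neg, h2] at h1

private theorem w_sub_pow {N : Type} [Field N] [NumberField N] (w : FinitePlace N) (x y : N)
    (q : ℕ) : w (x ^ q - y ^ q) ≤ max 1 (w x) ^ q * max 1 (w y) ^ q := by
  have hx : w x ^ q ≤ max 1 (w x) ^ q :=
    pow_le_pow_left₀ (apply_nonneg w _) (le_max_right _ _) q
  have hy : w y ^ q ≤ max 1 (w y) ^ q :=
    pow_le_pow_left₀ (apply_nonneg w _) (le_max_right _ _) q
  have hx1 : 1 ≤ max 1 (w x) ^ q := one_le_pow₀ (le_max_left _ _)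
  have hy1 : 1 ≤ max 1 (w y) ^ q := one_le_pow₀ (le_max_left _ _)
  refine (w_sub w _ _).trans (max_le ?_ ?_)
  · rw [map_pow]
    nlinarith
  · rw [map_pow]
    nlinarith

private theorem core2 {N : Type} [Field N] [NumberField N] (q : ℕ) (hq : q.Prime) (d : ℕ)
    (a b : Fin d → N)
    (hinj : Function.Injective (Fin.append (fun j => a j ^ q) (fun i => b i ^ q)))
    (hloc : ∀ (w : FinitePlace N) i, ∏ j, w (b i ^ q - a j ^ q) ≤
      w (q : N) * max 1 (w (b i)) ^ (q * d) * ∏ j, max 1 (w (a j)) ^ q) :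
    (q : ℝ) ^ (d * Module.finrank ℚ N) ≤
      ((d + d : ℕ) : ℝ) ^ ((d + d) * Module.finrank ℚ N) *
      (∏ j, Height.mulHeight₁ (a j)) ^ (q * (d + d - 1)) *
      (∏ i, Height.mulHeight₁ (b i)) ^ (q * (d + d - 1)) := by
  classical
  obtain ⟨v, hv⟩ : ∃ v : Fin (d + d) → N,
      v = Fin.append (fun j => a j ^ q) (fun i => b i ^ q) := ⟨_, rfl⟩
  rw [← hv] at hinj
  have hvc : ∀ j, v (Fin.castAdd d j) = a j ^ q := fun j => by rw [hv, Fin.append_left]
  have hvn : ∀ i, v (Fin.natAdd d i) = b i ^ q := fun i => by rw [hv, Fin.append_right]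
  obtain ⟨Δ, hΔ⟩ : ∃ Δ : N, Δ = (Matrix.vandermonde v).det := ⟨_, rfl⟩
  have hΔ0 : Δ ≠ 0 := by
    rw [hΔ]
    exact Matrix.det_vandermonde_ne_zero_iff.2 hinj
  have hqN : (q : N) ≠ 0 := Nat.cast_ne_zero.2 hq.ne_zero
  have hw0 : ∀ (w : FinitePlace N) (x : N), 0 ≤ w x := fun w x => apply_nonneg w x
  have hm1 : ∀ t : ℝ, 1 ≤ max 1 t := fun t => le_max_left _ _
  have hm0 : ∀ t : ℝ, 0 ≤ max 1 t := fun t => zero_le_one.trans (hm1 t)
  -- finite places
  have hfin : ∀ w : FinitePlace N, w Δ ≤ w (q : N) ^ d *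
      (∏ j, max 1 (w (a j))) ^ (q * (d + d - 1)) * (∏ i, max 1 (w (b i))) ^ (q * (d + d - 1)) := by
    intro w
    have h1 : w Δ = ∏ x, ∏ y ∈ Finset.Ioi x, w (v y - v x) := by
      rw [hΔ, Matrix.det_vandermonde, map_prod]
      exact Finset.prod_congr rfl fun x _ => map_prod _ _ _
    have h2 := blocks (fun y x => w (v y - v x)) (fun _ _ => hw0 _ _)
      (fun j => max 1 (w (a j)) ^ q) (fun i => max 1 (w (b i)) ^ q)
      (fun _ => pow_nonneg (hm0 _) q) (fun _ => pow_nonneg (hm0 _) q) (w (q : N)) (hw0 _ _)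
      (fun i j => by
        rw [hvc, hvc]
        exact w_sub_pow w _ _ q)
      (fun i j => by
        rw [hvn, hvn]
        exact w_sub_pow w _ _ q)
      (fun i => by
        have h3 := hloc w i
        rw [pow_mul] at h3
        simp only [hvn, hvc]
        exact h3)
    rw [h1]
    refine h2.trans (le_of_eq ?_)
    rw [Finset.prod_pow, Finset.prod_pow, ← pow_mul, ← pow_mul]
  -- embeddings
  have harch : ∀ σ : N →+* ℂ, ‖σ Δ‖ ≤ ((d + d : ℕ) : ℝ) ^ (d + d) *
      (∏ j, max 1 ‖σ (a j)‖) ^ (q * (d + d - 1)) *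
        (∏ i, max 1 ‖σ (b i)‖) ^ (q * (d + d - 1)) := by
    intro σ
    have h1 : σ Δ = (Matrix.vandermonde fun x => σ (v x)).det := by
      rw [hΔ, RingHom.map_det]
      congr 1
      ext x y
      rw [RingHom.mapMatrix_apply, Matrix.map_apply, Matrix.vandermonde_apply,
        Matrix.vandermonde_apply, map_pow]
    rw [h1]
    refine (arch _).trans (le_of_eq ?_)
    rw [Fin.prod_univ_add, mul_assoc]
    congr 1
    have e1 : ∀ (c : Fin d → N), ∏ j, max 1 ‖σ (c j ^ q)‖ ^ (d + d - 1) =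
        (∏ j, max 1 ‖σ (c j)‖) ^ (q * (d + d - 1)) := by
      intro c
      rw [← Finset.prod_pow]
      refine Finset.prod_congr rfl fun j _ => ?_
      rw [map_pow, norm_pow, max_pow' _ (norm_nonneg _), ← pow_mul]
    simp only [hvc, hvn]
    rw [e1 a, e1 b]
  -- a common finite set of places
  obtain ⟨T1, hT1⟩ := sup_w Δ hΔ0
  obtain ⟨T2, hT2⟩ := sup_w (q : N) hqN
  choose T3 hT3 using fun j => sup_m (a j)
  choose T4 hT4 using fun i => sup_m (b i)
  obtain ⟨S, hS⟩ : ∃ S : Finset (FinitePlace N), S = T1 ∪ T2 ∪ Finset.univ.biUnion T3 ∪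
    Finset.univ.biUnion T4 := ⟨_, rfl⟩
  have hS1 : ∀ w ∉ S, w ∉ T1 ∧ w ∉ T2 ∧ (∀ j, w ∉ T3 j) ∧ ∀ i, w ∉ T4 i := by
    intro w hw
    rw [hS] at hw
    simp only [Finset.mem_union, Finset.mem_biUnion, Finset.mem_univ, true_and, not_or,
      not_exists] at hw
    exact ⟨hw.1.1.1, hw.1.1.2, hw.1.2, hw.2⟩
  have hfp : ∀ g : FinitePlace N → ℝ, (∀ w ∉ S, g w = 1) → ∏ᶠ w, g w = ∏ w ∈ S, g w := by
    intro g hg
    refine finprod_eq_prod_of_mulSupport_subset g fun w hw => ?_
    by_contra hne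
    exact hw (hg w hne)
  obtain ⟨D, hD⟩ : ∃ D : ℕ, D = Module.finrank ℚ N := ⟨_, rfl⟩
  have hcard : (Finset.univ : Finset (N →+* ℂ)).card = D := by
    rw [Finset.card_univ, hD]
    exact NumberField.Embeddings.card N ℂ
  have hpf := Pool.Agent.H72.BE.prod_formula Δ hΔ0
  rw [hfp _ fun w hw => hT1 w (hS1 w hw).1] at hpf
  have hpq := Pool.Agent.H72.BE.prod_formula (q : N) hqN
  rw [hfp _ fun w hw => hT2 w (hS1 w hw).2.1] at hpq
  have hqσ : ∏ σ : N →+* ℂ, ‖σ (q : N)‖ = (q : ℝ) ^ D := by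
    rw [← hcard, ← Finset.prod_const]
    refine Finset.prod_congr rfl fun σ _ => ?_
    rw [map_natCast, Complex.norm_natCast]
  rw [hqσ] at hpq
  have hHa : ∀ j, Height.mulHeight₁ (a j) =
      (∏ σ : N →+* ℂ, max 1 ‖σ (a j)‖) * ∏ w ∈ S, max 1 (w (a j)) := by
    intro j
    rw [h1_eq, hfp _ fun w hw => hT3 j w ((hS1 w hw).2.2.1 j)]
  have hHb : ∀ i, Height.mulHeight₁ (b i) =
      (∏ σ : N →+* ℂ, max 1 ‖σ (b i)‖) * ∏ w ∈ S, max 1 (w (b i)) := by
    intro i
    rw [h1_eq, hfp _ fun w hw => hT4 i w ((hS1 w hw).2.2.2 i)]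
  have k1 : ∏ σ : N →+* ℂ, ‖σ Δ‖ ≤ ((d + d : ℕ) : ℝ) ^ ((d + d) * D) *
      (∏ j, ∏ σ : N →+* ℂ, max 1 ‖σ (a j)‖) ^ (q * (d + d - 1)) *
        (∏ i, ∏ σ : N →+* ℂ, max 1 ‖σ (b i)‖) ^ (q * (d + d - 1)) := by
    refine (Finset.prod_le_prod (fun σ _ => norm_nonneg _) fun σ _ => harch σ).trans (le_of_eq ?_)
    rw [Finset.prod_mul_distrib, Finset.prod_mul_distrib, Finset.prod_const, hcard, ← pow_mul,
      Finset.prod_pow, Finset.prod_pow, Finset.prod_comm (s := Finset.univ (α := N →+* ℂ)),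
      Finset.prod_comm (s := Finset.univ (α := N →+* ℂ))]
  have k2 : ∏ w ∈ S, w Δ ≤ (∏ w ∈ S, w (q : N)) ^ d *
      (∏ j, ∏ w ∈ S, max 1 (w (a j))) ^ (q * (d + d - 1)) *
        (∏ i, ∏ w ∈ S, max 1 (w (b i))) ^ (q * (d + d - 1)) := by
    refine (Finset.prod_le_prod (fun w _ => hw0 _ _) fun w _ => hfin w).trans (le_of_eq ?_)
    rw [Finset.prod_mul_distrib, Finset.prod_mul_distrib, Finset.prod_pow,
      Finset.prod_pow, Finset.prod_pow, Finset.prod_comm (s := S), Finset.prod_comm (s := S)]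
  have k3 : (1 : ℝ) ≤ (((d + d : ℕ) : ℝ) ^ ((d + d) * D) *
      (∏ j, ∏ σ : N →+* ℂ, max 1 ‖σ (a j)‖) ^ (q * (d + d - 1)) *
        (∏ i, ∏ σ : N →+* ℂ, max 1 ‖σ (b i)‖) ^ (q * (d + d - 1))) *
      ((∏ w ∈ S, w (q : N)) ^ d *
      (∏ j, ∏ w ∈ S, max 1 (w (a j))) ^ (q * (d + d - 1)) *
        (∏ i, ∏ w ∈ S, max 1 (w (b i))) ^ (q * (d + d - 1))) := by
    refine le_trans (le_of_eq hpf.symm)
      (mul_le_mul k1 k2 (Finset.prod_nonneg fun w _ => hw0 _ _) ?_)
    refine mul_nonneg (mul_nonneg (by positivity) (pow_nonneg ?_ _)) (pow_nonneg ?_ _)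
    · exact Finset.prod_nonneg fun j _ => Finset.prod_nonneg fun σ _ => hm0 _
    · exact Finset.prod_nonneg fun j _ => Finset.prod_nonneg fun σ _ => hm0 _
  have k4 : (((d + d : ℕ) : ℝ) ^ ((d + d) * D) *
      (∏ j, ∏ σ : N →+* ℂ, max 1 ‖σ (a j)‖) ^ (q * (d + d - 1)) *
        (∏ i, ∏ σ : N →+* ℂ, max 1 ‖σ (b i)‖) ^ (q * (d + d - 1))) *
      ((∏ w ∈ S, w (q : N)) ^ d *
      (∏ j, ∏ w ∈ S, max 1 (w (a j))) ^ (q * (d + d - 1)) *
        (∏ i, ∏ w ∈ S, max 1 (w (b i))) ^ (q * (d + d - 1))) * (q : ℝ) ^ (d * D) =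
      ((d + d : ℕ) : ℝ) ^ ((d + d) * D) *
      (∏ j, Height.mulHeight₁ (a j)) ^ (q * (d + d - 1)) *
      (∏ i, Height.mulHeight₁ (b i)) ^ (q * (d + d - 1)) := by
    have e1 : (∏ j, Height.mulHeight₁ (a j)) =
        (∏ j, ∏ σ : N →+* ℂ, max 1 ‖σ (a j)‖) * ∏ j, ∏ w ∈ S, max 1 (w (a j)) := by
      rw [← Finset.prod_mul_distrib]
      exact Finset.prod_congr rfl fun j _ => hHa j
    have e2 : (∏ i, Height.mulHeight₁ (b i)) =
        (∏ i, ∏ σ : N →+* ℂ, max 1 ‖σ (b i)‖) * ∏ i, ∏ w ∈ S, max 1 (w (b i)) := by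
      rw [← Finset.prod_mul_distrib]
      exact Finset.prod_congr rfl fun j _ => hHb j
    have e3 : (∏ w ∈ S, w (q : N)) ^ d * (q : ℝ) ^ (d * D) = 1 := by
      rw [mul_comm d D, pow_mul, ← mul_pow, mul_comm, hpq, one_pow]
    rw [e1, e2, mul_pow, mul_pow]
    calc _ = ((∏ w ∈ S, w (q : N)) ^ d * (q : ℝ) ^ (d * D)) *
          (((d + d : ℕ) : ℝ) ^ ((d + d) * D) *
            ((∏ j, ∏ σ : N →+* ℂ, max 1 ‖σ (a j)‖) ^ (q * (d + d - 1)) *
              (∏ j, ∏ w ∈ S, max 1 (w (a j))) ^ (q * (d + d - 1))) *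
            ((∏ i, ∏ σ : N →+* ℂ, max 1 ‖σ (b i)‖) ^ (q * (d + d - 1)) *
              (∏ i, ∏ w ∈ S, max 1 (w (b i))) ^ (q * (d + d - 1)))) := by ring
      _ = _ := by rw [e3, one_mul]
  rw [← hD, ← k4]
  exact le_mul_of_one_le_left (by positivity) k3

private theorem conj_h {F Ω : Type} [Field F] [NumberField F] [Field Ω] [CharZero Ω]
    [Algebra F Ω] (τ : F →+* F) (α γ : Ω) (hα : IsIntegral ℚ α)
    (h : aeval γ ((minpoly F α).map τ) = 0) : absLogHeight₁ γ = absLogHeight₁ α := by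
  have h1 : minpoly F α ∣ (minpoly ℚ α).map (algebraMap ℚ F) := by
    apply minpoly.dvd
    rw [aeval_map_algebraMap, minpoly.aeval]
  have h2 : aeval γ (minpoly ℚ α) = 0 := by
    obtain ⟨r, hr⟩ := h1
    have h4 : ((minpoly ℚ α).map (algebraMap ℚ F)).map τ = (minpoly ℚ α).map (algebraMap ℚ F) := by
      rw [Polynomial.map_map]
      congr 1
      exact Subsingleton.elim _ _
    have h3 : aeval γ ((minpoly ℚ α).map (algebraMap ℚ F)) = 0 := by
      rw [← h4, hr, Polynomial.map_mul, map_mul, h, zero_mul]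
    rwa [aeval_map_algebraMap] at h3
  have h3 : minpoly ℚ γ = minpoly ℚ α :=
    (minpoly.eq_of_irreducible_of_monic (minpoly.irreducible hα) h2 (minpoly.monic hα)).symm
  have h4 : IsIntegral ℚ γ := ⟨minpoly ℚ α, minpoly.monic hα, by rwa [aeval_def] at h2⟩
  exact Pool.Agent.H4.RR.absLogHeight_eq_of_minpoly_eq Ω γ α h4 h3

private theorem ex_roots {F Ω : Type} [Field F] [Field Ω] [IsAlgClosed Ω] [Algebra F Ω] (f : F[X])
    (hf : f.Monic) (d : ℕ) (hd : f.natDegree = d) :
    ∃ a : Fin d → Ω, ∏ j, (X - C (a j)) = f.map (algebraMap F Ω) := by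
  have hs : (f.map (algebraMap F Ω)).Splits := IsAlgClosed.splits _
  have h1 := hs.eq_prod_roots_of_monic (hf.map _)
  have h2 := hs.natDegree_eq_card_roots
  rw [hf.natDegree_map, hd] at h2
  obtain ⟨L, hL⟩ : ∃ L : List Ω, (L : Multiset Ω) = (f.map (algebraMap F Ω)).roots :=
    Quot.exists_rep _
  rw [← hL] at h1 h2
  rw [Multiset.coe_card] at h2
  subst h2
  refine ⟨fun j => L.get j, ?_⟩
  rw [h1, Multiset.map_coe, Multiset.prod_coe, ← List.prod_ofFn]
  congr 1
  have h3 : (fun j : Fin L.length => X - C (L.get j)) = (fun x => X - C x) ∘ L.get := rfl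
  rw [h3, ← List.map_ofFn, List.ofFn_get]

/-- a root of an irreducible polynomial has it as a divisor of every polynomial it kills -/
private theorem irr_dvd {F Ω : Type} [Field F] [Field Ω] [Algebra F Ω] {P Q : F[X]}
    (hP : Irreducible P) (hm : P.Monic) {x : Ω} (hx : aeval x P = 0) (hQ : aeval x Q = 0) :
    P ∣ Q := by
  rw [minpoly.eq_of_irreducible_of_monic hP hx hm]
  exact minpoly.dvd F x hQ

/-- equal powers -/
private theorem pow_eq' {Ω : Type} [Field Ω] {q : ℕ} (hq : q.Prime) {z : Ω}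
    (hz : IsPrimitiveRoot z q) {x y : Ω} (hxy : x ^ q = y ^ q) : ∃ k < q, x = z ^ k * y := by
  have : NeZero q := ⟨hq.ne_zero⟩
  by_cases hy : y = 0
  · rw [hy, zero_pow hq.ne_zero] at hxy
    have hx : x = 0 := (pow_eq_zero_iff hq.ne_zero).1 hxy
    exact ⟨0, hq.pos, by rw [hx, hy, mul_zero]⟩
  · have h1 : (x / y) ^ q = 1 := by
      rw [div_pow, hxy, div_self (pow_ne_zero q hy)]
    obtain ⟨k, hk, hk2⟩ := hz.eq_pow_of_pow_eq_one h1
    exact ⟨k, hk, by rw [hk2, div_mul_cancel₀ _ hy]⟩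

/-- two roots of an irreducible polynomial with the same power are equal -/
private theorem dist_root {F Ω : Type} [Field F] [Field Ω] [Algebra F Ω] (P : F[X])
    (hP : Irreducible P) (hm : P.Monic) (q : ℕ) (hq : q.Prime) (ζ : F)
    (hζ : IsPrimitiveRoot ζ q) (hdq : P.natDegree < q) (x y : Ω) (hx : aeval x P = 0)
    (hy : aeval y P = 0) (hxy : x ^ q = y ^ q) : x = y := by
  classical
  have hz : IsPrimitiveRoot (algebraMap F Ω ζ) q :=
    hζ.map_of_injective (algebraMap F Ω).injective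
  obtain ⟨k, hk, hk2⟩ := pow_eq' hq hz hxy
  by_cases hk0 : k = 0
  · rw [hk2, hk0, pow_zero, one_mul]
  by_cases hy0 : y = 0
  · rw [hk2, hy0, mul_zero]
  exfalso
  have hcop : k.Coprime q := (Nat.coprime_of_lt_prime hk0 hk hq).symm
  have hz' : IsPrimitiveRoot (algebraMap F Ω (ζ ^ k)) q := by
    rw [map_pow]
    exact hz.pow_of_coprime k hcop
  have hdvd : P ∣ P.comp (C (ζ ^ k) * X) := by
    refine irr_dvd hP hm hy ?_
    rw [aeval_comp, map_mul, aeval_C, aeval_X, map_pow, ← hk2]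
    exact hx
  have hstep : ∀ w : Ω, aeval w P = 0 → aeval (algebraMap F Ω (ζ ^ k) * w) P = 0 := by
    intro w hw
    obtain ⟨R, hR⟩ := hdvd
    have h1 := congrArg (aeval w) hR
    rw [aeval_comp, map_mul, aeval_C, aeval_X, map_mul, hw, zero_mul] at h1
    exact h1
  have hall : ∀ l : ℕ, aeval (algebraMap F Ω (ζ ^ k) ^ l * y) P = 0 := by
    intro l
    induction l with
    | zero => rw [pow_zero, one_mul]; exact hy
    | succ l ih =>
      have h1 := hstep _ ih
      rw [← mul_assoc, ← pow_succ'] at h1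
      exact h1
  have hcard : ((Finset.range q).image fun l => algebraMap F Ω (ζ ^ k) ^ l * y).card = q := by
    rw [Finset.card_image_of_injOn, Finset.card_range]
    intro i hi j hj hij
    rw [Finset.coe_range, Set.mem_Iio] at hi hj
    exact hz'.pow_inj hi hj (mul_right_cancel₀ hy0 hij)
  have hsub : ((Finset.range q).image fun l => algebraMap F Ω (ζ ^ k) ^ l * y).val ⊆
      (P.map (algebraMap F Ω)).roots := by
    intro w hw
    rw [Finset.mem_val, Finset.mem_image] at hw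
    obtain ⟨l, _, rfl⟩ := hw
    rw [mem_roots (hm.map _).ne_zero, IsRoot.def, eval_map, ← aeval_def]
    exact hall l
  have h2 := card_le_degree_of_subset_roots hsub
  rw [hcard, hm.natDegree_map] at h2
  omega

theorem desc_height2 {F Ω : Type} [Field F] [NumberField F] [Field Ω] [CharZero Ω]
    [IsAlgClosed Ω] [Algebra F Ω] (q : ℕ) (hq : q.Prime) (hq2 : 3 ≤ q) (ζ : F)
    (hζ : IsPrimitiveRoot ζ q) (s : F ≃+* F)
    (hs : ∀ y : 𝓞 F, ∃ c : 𝓞 F, s (y : F) ^ q - (y : F) ^ q = q * (c : F)) (α β : Ω)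
    (hα : IsIntegral ℚ α) (d : ℕ) (hd : (minpoly F α).natDegree = d) (hdq : d < q)
    (hβ : aeval β ((minpoly F α).map (s : F →+* F)) = 0)
    (hh : 4 * q * d * absLogHeight₁ α + 2 * Real.log (2 * d) < Real.log q) :
    ∃ k : ℕ, aeval (algebraMap F Ω (ζ ^ k) * β) (minpoly F α) = 0 := by
  classical
  by_contra hcon
  push Not at hcon
  set f : F[X] := minpoly F α with hf
  have hintF : IsIntegral F α := hα.tower_top
  have hmon : f.Monic := minpoly.monic hintF
  have hirr : Irreducible f := minpoly.irreducible hintF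
  have hd1 : 1 ≤ d := by
    rw [← hd]
    exact minpoly.natDegree_pos hintF
  obtain ⟨g, hg⟩ : ∃ g : F[X], g = f.map (s : F →+* F) := ⟨_, rfl⟩
  have hgm : g.Monic := by
    rw [hg]
    exact hmon.map _
  have hgd : g.natDegree = d := by
    rw [hg, hmon.natDegree_map, hd]
  have hgi : Irreducible g := by
    have h1 : Irreducible (Polynomial.mapEquiv s f) := (MulEquiv.irreducible_iff _).2 hirr
    rw [Polynomial.mapEquiv_apply] at h1
    rw [hg]
    exact h1
  rw [← hg] at hβ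
  obtain ⟨a, ha⟩ := ex_roots (Ω := Ω) f hmon d hd
  obtain ⟨b, hb⟩ := ex_roots (Ω := Ω) g hgm d hgd
  have haroot : ∀ j, aeval (a j) f = 0 := by
    intro j
    rw [aeval_def, ← eval_map, ← ha, eval_prod]
    exact Finset.prod_eq_zero (Finset.mem_univ j) (by simp)
  have hbroot : ∀ j, aeval (b j) g = 0 := by
    intro j
    rw [aeval_def, ← eval_map, ← hb, eval_prod]
    exact Finset.prod_eq_zero (Finset.mem_univ j) (by simp)
  have hainj : Function.Injective a := by
    have h1 : (f.map (algebraMap F Ω)).Separable := hirr.separable.map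
    rw [← ha] at h1
    exact separable_prod_X_sub_C_iff.1 h1
  have hbinj : Function.Injective b := by
    have h1 : (g.map (algebraMap F Ω)).Separable := hgi.separable.map
    rw [← hb] at h1
    exact separable_prod_X_sub_C_iff.1 h1
  have haa : ∀ i j, a i ^ q = a j ^ q → i = j := fun i j h =>
    hainj (dist_root f hirr hmon q hq ζ hζ (by rw [hd]; exact hdq) _ _ (haroot i) (haroot j) h)
  have hbb : ∀ i j, b i ^ q = b j ^ q → i = j := fun i j h =>
    hbinj (dist_root g hgi hgm q hq ζ hζ (by rw [hgd]; exact hdq) _ _ (hbroot i) (hbroot j) h)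
  have hab : ∀ i j, a j ^ q ≠ b i ^ q := by
    intro i j h
    obtain ⟨k, _, hk⟩ := pow_eq' hq (hζ.map_of_injective (algebraMap F Ω).injective) h
    have h1 : g ∣ f.comp (C (ζ ^ k) * X) := by
      refine irr_dvd hgi hgm (hbroot i) ?_
      rw [aeval_comp, map_mul, aeval_C, aeval_X, map_pow, ← hk]
      exact haroot j
    obtain ⟨R, hR⟩ := h1
    have h2 := congrArg (aeval β) hR
    rw [aeval_comp, map_mul, aeval_C, aeval_X, map_mul, hβ, zero_mul] at h2
    exact hcon k h2
  have hha : ∀ j, absLogHeight₁ (a j) = absLogHeight₁ α := by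
    intro j
    refine conj_h (RingHom.id F) α (a j) hα ?_
    rw [Polynomial.map_id]
    exact haroot j
  have hhb : ∀ j, absLogHeight₁ (b j) = absLogHeight₁ α := by
    intro j
    refine conj_h (s : F →+* F) α (b j) hα ?_
    rw [← hf, ← hg]
    exact hbroot j
  -- the field
  set S : Set Ω := Set.range a ∪ Set.range b with hS
  have hfin : S.Finite := (Set.finite_range a).union (Set.finite_range b)
  have : Finite S := hfin
  set N := IntermediateField.adjoin F S with hN
  have hfd : FiniteDimensional F N := IntermediateField.finiteDimensional_adjoin fun x hx => by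
    rcases hx with ⟨j, rfl⟩ | ⟨j, rfl⟩
    · exact ⟨f, hmon, by have := haroot j; rwa [aeval_def] at this⟩
    · exact ⟨g, hgm, by have := hbroot j; rwa [aeval_def] at this⟩
  have hfdQ : FiniteDimensional ℚ N := FiniteDimensional.trans ℚ F N
  have hnf : NumberField N := {}
  let a' : Fin d → N := fun j => ⟨a j, IntermediateField.subset_adjoin F S (Or.inl ⟨j, rfl⟩)⟩
  let b' : Fin d → N := fun j => ⟨b j, IntermediateField.subset_adjoin F S (Or.inr ⟨j, rfl⟩)⟩
  have hinj : Function.Injective (algebraMap N Ω) := (algebraMap N Ω).injective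
  have hFN : ∀ y : F, algebraMap N Ω (algebraMap F N y) = algebraMap F Ω y := fun y => rfl
  have ha' : ∀ j, algebraMap N Ω (a' j) = a j := fun j => rfl
  have hb' : ∀ j, algebraMap N Ω (b' j) = b j := fun j => rfl
  -- the coefficients
  have hlast : f.coeff d = 1 := by
    rw [← hd]
    exact hmon
  obtain ⟨lam, V, hlam, hV, hcop⟩ := Pool.Agent.H69.BE.scaleV
    (fun i : Fin (d + 1) => f.coeff i) ⟨Fin.last d, by rw [Fin.val_last, hlast]; exact one_ne_zero⟩ q hq
  have hsum : ∀ (g : F[X]) (x : Ω), g.natDegree < d + 1 →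
      aeval x g = ∑ i : Fin (d + 1), algebraMap F Ω (g.coeff i) * x ^ (i : ℕ) := by
    intro g x hg
    rw [aeval_eq_sum_range' hg, Finset.sum_range]
    refine Finset.sum_congr rfl fun i _ => ?_
    rw [Algebra.smul_def]
  set ι : 𝓞 F →+* 𝓞 N := algebraMap (𝓞 F) (𝓞 N) with hι
  have hιN : ∀ x : 𝓞 F, ((ι x : 𝓞 N) : N) = algebraMap F N (x : F) := fun x => rfl
  have hle1 : ∀ (w : FinitePlace N) (x : 𝓞 N), w (x : N) ≤ 1 := by
    intro w x
    have h := FinitePlace.norm_le_one N w.maximalIdeal x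
    rw [FinitePlace.norm_embedding_eq] at h
    exact h
  have hlt1 : ∀ (w : FinitePlace N) (x : 𝓞 N), w (x : N) < 1 ↔ x ∈ w.maximalIdeal.asIdeal := by
    intro w x
    have h := FinitePlace.norm_lt_one_iff_mem N w.maximalIdeal x
    rw [FinitePlace.norm_embedding_eq] at h
    exact h
  have hloc : ∀ (w : FinitePlace N) i, ∏ j, w (b' i ^ q - a' j ^ q) ≤
      w (q : N) * max 1 (w (b' i)) ^ (q * d) * ∏ j, max 1 (w (a' j)) ^ q := by
    intro w i₀
    refine loc_desc w q hq d (algebraMap F N lam)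
      (fun h => hlam ((map_eq_zero (algebraMap F N)).1 h))
      (fun i => algebraMap F N (f.coeff i)) (fun i => algebraMap F N (V i : F))
      (fun i => algebraMap F N (s (V i : F)))
      (fun i => by rw [hV, map_mul])
      (fun i => by
        rw [← hιN]
        exact hle1 w _)
      ?_ ?_ (b' i₀) ?_ a' ?_ (algebraMap F N ζ) (hζ.map_of_injective (algebraMap F N).injective)
    · intro hwq
      by_contra hno
      push Not at hno
      have h1 : ∀ i, ι (V i) ∈ w.maximalIdeal.asIdeal := by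
        intro i
        rw [← hlt1, hιN]
        refine lt_of_le_of_ne ?_ (hno i)
        rw [← hιN]
        exact hle1 w _
      have h2 : ι (q : 𝓞 F) ∈ w.maximalIdeal.asIdeal := by
        rw [← hlt1, hιN]
        have h3 : algebraMap F N (((q : 𝓞 F)) : F) = (q : N) := by
          have h4 : (((q : 𝓞 F)) : F) = (q : F) := map_natCast (algebraMap (𝓞 F) F) q
          rw [h4, map_natCast]
        rw [h3]
        exact hwq
      obtain ⟨x, hx, y, hy, hxy⟩ := Ideal.isCoprime_iff_exists.1 hcop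
      have h3 : Ideal.span {(q : 𝓞 F)} ≤ w.maximalIdeal.asIdeal.comap ι := by
        rw [Ideal.span_singleton_le_iff_mem]
        exact h2
      have h4 : Ideal.span (Set.range V) ≤ w.maximalIdeal.asIdeal.comap ι := by
        rw [Ideal.span_le]
        rintro _ ⟨i, rfl⟩
        exact h1 i
      have h5 : (1 : 𝓞 F) ∈ w.maximalIdeal.asIdeal.comap ι := by
        rw [← hxy]
        exact Ideal.add_mem _ (h3 hx) (h4 hy)
      rw [Ideal.mem_comap, map_one] at h5
      exact w.maximalIdeal.isPrime.ne_top ((Ideal.eq_top_iff_one _).2 h5)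
    · intro i
      obtain ⟨c, hc⟩ := hs (V i)
      have h1 : algebraMap F N (s (V i : F)) ^ q - algebraMap F N (V i : F) ^ q =
          (q : N) * ((ι c : 𝓞 N) : N) := by
        rw [hιN, ← map_pow (algebraMap F N), ← map_pow (algebraMap F N), ← map_sub, hc, map_mul,
          map_natCast]
      rw [h1, map_mul]
      exact mul_le_of_le_one_right (apply_nonneg w _) (hle1 w _)
    · apply hinj
      rw [map_sum, map_zero]
      have h1 : ∀ i : Fin (d + 1), algebraMap N Ω (algebraMap F N (s (V i : F)) * b' i₀ ^ (i : ℕ)) =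
          algebraMap F Ω (s lam) * (algebraMap F Ω (g.coeff i) * b i₀ ^ (i : ℕ)) := by
        intro i
        rw [map_mul, map_pow, hb', hFN, hV, map_mul, map_mul, hg, coeff_map, mul_assoc]
        rfl
      rw [Finset.sum_congr rfl fun i _ => h1 i, ← Finset.mul_sum, ← hsum g (b i₀)
        (by rw [hgd]; omega), hbroot, mul_zero]
    · apply Polynomial.map_injective (algebraMap N Ω) hinj
      rw [Polynomial.map_prod, Polynomial.map_sum]
      have h1 : ∀ j, (X - C (a' j)).map (algebraMap N Ω) = X - C (a j) := by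
        intro j
        rw [Polynomial.map_sub, map_X, map_C, ha']
      have h2 : ∀ i : Fin (d + 1), (C (algebraMap F N (f.coeff i)) * X ^ (i : ℕ)).map
          (algebraMap N Ω) = C ((f.map (algebraMap F Ω)).coeff i) * X ^ (i : ℕ) := by
        intro i
        rw [Polynomial.map_mul, map_C, Polynomial.map_pow, map_X, hFN, coeff_map]
      rw [Finset.prod_congr rfl fun j _ => h1 j, Finset.sum_congr rfl fun i _ => h2 i, ha]
      conv_lhs => rw [as_sum_range_C_mul_X_pow' (f.map (algebraMap F Ω))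
        (show (f.map (algebraMap F Ω)).natDegree < d + 1 by rw [hmon.natDegree_map, hd]; omega)]
      rw [Finset.sum_range]
  have hinjv : Function.Injective (Fin.append (fun j => a' j ^ q) (fun i => b' i ^ q)) := by
    have m1 : ∀ x y : N, x ^ q = y ^ q → algebraMap N Ω x ^ q = algebraMap N Ω y ^ q := by
      intro x y h
      rw [← map_pow, h, map_pow]
    intro x y h
    induction x using Fin.addCases with
    | left i =>
      induction y using Fin.addCases with
      | left j =>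
        rw [Fin.append_left, Fin.append_left] at h
        rw [haa i j (m1 _ _ h)]
      | right j =>
        rw [Fin.append_left, Fin.append_right] at h
        exact absurd (m1 _ _ h) (hab j i)
    | right i =>
      induction y using Fin.addCases with
      | left j =>
        rw [Fin.append_left, Fin.append_right] at h
        exact absurd (m1 _ _ h).symm (hab i j)
      | right j =>
        rw [Fin.append_right, Fin.append_right] at h
        rw [hbb i j (m1 _ _ h)]
  have hmain := core2 q hq d a' b' hinjv hloc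
  -- logarithms
  obtain ⟨n, hn⟩ : ∃ n : ℕ, n = Module.finrank ℚ N := ⟨_, rfl⟩
  rw [← hn] at hmain
  have hn0 : 0 < n := by
    rw [hn]
    exact Module.finrank_pos
  have hnR : (0 : ℝ) < n := by exact_mod_cast hn0
  have hdR : (0 : ℝ) < d := by exact_mod_cast hd1
  have hqR : (0 : ℝ) < q := by exact_mod_cast hq.pos
  have hHa : ∀ j, Real.log (Height.mulHeight₁ (a' j)) = n * absLogHeight₁ α := by
    intro j
    have h1 := Pool.Agent.H4.RR.absLogHeight_eq N Ω (algebraMap N Ω) (a' j)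
    rw [ha', hha, Height.logHeight₁_eq_log_mulHeight₁, ← hn] at h1
    rw [h1]
    field_simp
  have hHb : ∀ j, Real.log (Height.mulHeight₁ (b' j)) = n * absLogHeight₁ α := by
    intro j
    have h1 := Pool.Agent.H4.RR.absLogHeight_eq N Ω (algebraMap N Ω) (b' j)
    rw [hb', hhb, Height.logHeight₁_eq_log_mulHeight₁, ← hn] at h1
    rw [h1]
    field_simp
  have hposa : ∀ j, 0 < Height.mulHeight₁ (a' j) := fun j => Height.mulHeight₁_pos _
  have hposb : ∀ j, 0 < Height.mulHeight₁ (b' j) := fun j => Height.mulHeight₁_pos _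
  have hpa : 0 < ∏ j, Height.mulHeight₁ (a' j) := Finset.prod_pos fun j _ => hposa j
  have hpb : 0 < ∏ j, Height.mulHeight₁ (b' j) := Finset.prod_pos fun j _ => hposb j
  have hddR : (0 : ℝ) < ((d + d : ℕ) : ℝ) := by
    have h1 : 0 < d + d := by omega
    exact_mod_cast h1
  have h0 : 0 ≤ absLogHeight₁ α := by
    have h1 := Height.zero_le_logHeight₁ (a' ⟨0, hd1⟩)
    rw [Height.logHeight₁_eq_log_mulHeight₁, hHa] at h1
    exact nonneg_of_mul_nonneg_right h1 hnR
  have hlog := Real.log_le_log (by positivity) hmain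
  rw [Real.log_pow, Real.log_mul (by positivity) (by positivity), Real.log_mul (by positivity)
    (by positivity), Real.log_pow, Real.log_pow, Real.log_pow,
    Real.log_prod (fun j _ => (hposa j).ne'), Real.log_prod (fun j _ => (hposb j).ne'),
    Finset.sum_congr rfl fun j _ => hHa j, Finset.sum_congr rfl fun j _ => hHb j,
    Finset.sum_const, Finset.card_univ, Fintype.card_fin, nsmul_eq_mul] at hlog
  have hdd : ((d + d : ℕ) : ℝ) = 2 * d := by
    push_cast
    ring
  have hq2d : ((q * (d + d - 1) : ℕ) : ℝ) ≤ 2 * q * d := by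
    have h1 : q * (d + d - 1) ≤ 2 * q * d := by
      calc q * (d + d - 1) ≤ q * (d + d) := Nat.mul_le_mul_left _ (by omega)
        _ = 2 * q * d := by ring
    exact_mod_cast h1
  rw [hdd] at hlog
  have h5 : ((q * (d + d - 1) : ℕ) : ℝ) * (d * (n * absLogHeight₁ α)) ≤
      2 * q * d * (d * (n * absLogHeight₁ α)) :=
    mul_le_mul_of_nonneg_right hq2d (by positivity)
  have h6 : (((d + d) * n : ℕ) : ℝ) = 2 * d * n := by
    push_cast
    ring
  have h7 : ((d * n : ℕ) : ℝ) = d * n := by push_cast; ring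
  rw [h6, h7] at hlog
  have h3 : (d * n : ℝ) * Real.log q ≤
      d * n * (4 * q * d * absLogHeight₁ α + 2 * Real.log (2 * d)) := by
    nlinarith
  exact absurd (le_of_mul_le_mul_left h3 (by positivity)) (not_le.2 hh)

end Pool.Agent.H36.LF
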